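import Pool.Agent.P.MP_f981b0_an.CD.Base

/-! Package Asym: the asymptotic compression. -/

set_option autoImplicit false

open MeasureTheory Filter Topology ContinuousLinearMap
open scoped ComplexConjugate

noncomputable section

namespace Pool.Agent.P.MP_f981b0_an.CD

universe u

variable {M : Type u} [NormedAddCommGroup M] [InnerProductSpace ℂ M] [CompleteSpace M]

variable {E : Type} [NormedAddCommGroup E] [InnerProductSpace ℂ E] [CompleteSpace E]

private theorem asym_pow_le {F : Type*} [NormedAddCommGroup F] [InnerProductSpace ℂ F]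
    {T : F →L[ℂ] F} (h : ∀ x, ‖T x‖ ≤ ‖x‖) (n : ℕ) (x : F) : ‖(T ^ n) x‖ ≤ ‖x‖ := by
  induction n with
  | zero => simp
  | succ n ih => rw [pow_succ', mul_apply_eq_comp]; exact (h _).trans ih

private theorem asym_pow_iso {F : Type*} [NormedAddCommGroup F] [InnerProductSpace ℂ F]
    {T : F →L[ℂ] F} (h : ∀ x, ‖T x‖ = ‖x‖) (n : ℕ) (x : F) : ‖(T ^ n) x‖ = ‖x‖ := by
  induction n with
  | zero => simp
  | succ n ih => rw [pow_succ', mul_apply_eq_comp, h, ih]

private theorem asym_adj_pow {U : E →L[ℂ] E} (n : ℕ) (x y : E) :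
    inner ℂ ((U ^ n) x) y = inner ℂ x ((adjoint U ^ n) y) := by
  induction n generalizing x y with
  | zero => simp
  | succ n ih =>
    rw [pow_succ, mul_apply_eq_comp, ih, pow_succ', mul_apply_eq_comp, adjoint_inner_right]

private theorem asym_cancel {U : E →L[ℂ] E} (h : ∀ x, ‖U x‖ = ‖x‖) (n k : ℕ) (x : E) :
    (adjoint U ^ (n + k)) ((U ^ k) x) = (adjoint U ^ n) x := by
  induction k generalizing x with
  | zero => simp
  | succ k ih =>
    rw [← add_assoc, pow_succ (adjoint U), pow_succ' U, mul_apply_eq_comp, mul_apply_eq_comp,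
      adj_iso h, ih]

theorem asym {U : E →L[ℂ] E} {S B : M →L[ℂ] M} {w : E →L[ℂ] M} {A : Submodule ℂ M}
    (he : Emb U S w) (hs : Function.Surjective U) (hA : IsClosed (A : Set M))
    (hi : ∀ m ∈ A, S m ∈ A) (ha : Abs U w A) (hB : ∀ m, ‖B m‖ ≤ ‖m‖)
    (hc : ∀ m ∈ A, B (S m) = S (B m)) :
    ∃ Γ : E →L[ℂ] E, (∀ a, ‖Γ a‖ ≤ ‖a‖) ∧ (∀ a, Γ (U a) = U (Γ a)) ∧
      (∀ f ∈ A, ‖adjoint w (B f) - Γ (adjoint w f)‖ ≤ ‖f - w (adjoint w f)‖) ∧
      ((∀ a, ‖Γ a‖ = ‖a‖) → ∀ f ∈ A, adjoint Γ (adjoint w (B f)) = adjoint w f) := by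
  have : CompleteSpace A := hA.completeSpace_coe
  have hU : ∀ a, ‖U a‖ = ‖a‖ := fun a => by rw [← he.wiso, ← he.sw, he.iso, he.wiso]
  have hV : ∀ a, ‖adjoint U a‖ ≤ ‖a‖ := fun a => by
    simpa using adj_con zero_le_one (S := U) (fun x => by simp [hU x]) a
  have hw : ∀ m, ‖adjoint w m‖ ≤ ‖m‖ := fun m => by
    simpa using adj_con zero_le_one (S := w) (fun x => by simp [he.wiso x]) m
  have hB' : ∀ m, ‖adjoint B m‖ ≤ ‖m‖ := fun m => by
    simpa using adj_con zero_le_one (S := B) (fun x => by simpa using hB x) m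
  have hUV : ∀ a, U (adjoint U a) = a := fun a => by
    obtain ⟨y, rfl⟩ := hs a
    rw [adj_iso hU]
  set P : M →L[ℂ] M := A.starProjection with hP
  have hPn : ∀ m, ‖P m‖ ≤ ‖m‖ := fun m => A.norm_starProjection_apply_le m
  have hPA : ∀ m, P m ∈ A := fun m => A.starProjection_apply_mem m
  have hPf : ∀ m ∈ A, P m = m := fun m hm => Submodule.starProjection_eq_self_iff.2 hm
  have hSA : ∀ k : ℕ, ∀ m ∈ A, (S ^ k) m ∈ A := by
    intro k m hm
    induction k with
    | zero => simpa using hm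
    | succ k ih => rw [pow_succ', mul_apply_eq_comp]; exact hi _ ih
  have hBS : ∀ k : ℕ, ∀ m ∈ A, B ((S ^ k) m) = (S ^ k) (B m) := by
    intro k m hm
    induction k with
    | zero => simp
    | succ k ih =>
      rw [pow_succ', mul_apply_eq_comp, mul_apply_eq_comp, hc _ (hSA k m hm), ih]
  have hwS : ∀ k : ℕ, ∀ m, adjoint w ((S ^ k) m) = (U ^ k) (adjoint w m) := by
    intro k m
    induction k with
    | zero => simp
    | succ k ih => rw [pow_succ', pow_succ', mul_apply_eq_comp, mul_apply_eq_comp, he.adj hs, ih]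
  let Φ : ℕ → M →L[ℂ] E := fun n => (adjoint U ^ n) ∘L (adjoint w ∘L B)
  have hΦ : ∀ n m, Φ n m = (adjoint U ^ n) (adjoint w (B m)) := fun _ _ => rfl
  have hΦn : ∀ n m, ‖Φ n m‖ ≤ ‖m‖ := fun n m =>
    (asym_pow_le hV n _).trans ((hw _).trans (hB m))
  have hΦS : ∀ n k : ℕ, ∀ m ∈ A, Φ (n + k) ((S ^ k) m) = Φ n m := by
    intro n k m hm
    rw [hΦ, hΦ, hBS k m hm, hwS, asym_cancel hU]
  let G : ℕ → E →L[ℂ] E := fun n => Φ n ∘L (P ∘L (w ∘L (U ^ n)))
  have hG : ∀ n b, G n b = Φ n (P (w ((U ^ n) b))) := fun _ _ => rfl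
  let err : E → ℕ → ℝ := fun b n => ‖w ((U ^ n) b) - P (w ((U ^ n) b))‖
  have herr : ∀ b, Tendsto (err b) atTop (𝓝 0) := by
    intro b
    rw [Metric.tendsto_nhds]
    intro ε hε
    filter_upwards [ha b (ε / 2) (half_pos hε)] with n hn
    obtain ⟨m, hm, h1⟩ := hn
    have h2 : err b n ≤ ‖w ((U ^ n) b) - m‖ := by
      have h3 : w ((U ^ n) b) - P (w ((U ^ n) b)) =
          (w ((U ^ n) b) - m) - P (w ((U ^ n) b) - m) := by
        rw [map_sub, hPf m hm]
        abel
      change ‖w ((U ^ n) b) - P (w ((U ^ n) b))‖ ≤ _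
      rw [h3, hP, ← Submodule.starProjection_orthogonal_val]
      exact Aᗮ.norm_starProjection_apply_le _
    rw [Real.dist_eq, sub_zero, abs_of_nonneg (norm_nonneg _)]
    change err b n < ε
    linarith
  have hGd : ∀ b, ∀ m k : ℕ, ‖G (m + k) b - G m b‖ ≤ err b (m + k) + err b m := by
    intro b m k
    rw [hG, hG, ← hΦS m k _ (hPA _), ← map_sub]
    refine (hΦn _ _).trans ?_
    have h1 : P (w ((U ^ (m + k)) b)) - (S ^ k) (P (w ((U ^ m) b))) =
        -(w ((U ^ (m + k)) b) - P (w ((U ^ (m + k)) b))) +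
          (S ^ k) (w ((U ^ m) b) - P (w ((U ^ m) b))) := by
      rw [map_sub, he.pow, ← mul_apply_eq_comp (U ^ k), ← pow_add, add_comm k m]
      abel
    rw [h1]
    refine (norm_add_le _ _).trans ?_
    rw [norm_neg, asym_pow_iso he.iso]
  have hC : ∀ b, CauchySeq fun n => G n b := by
    intro b
    rw [Metric.cauchySeq_iff']
    intro ε hε
    obtain ⟨N, hN⟩ := eventually_atTop.1 (Metric.tendsto_nhds.1 (herr b) (ε / 2) (half_pos hε))
    refine ⟨N, fun n hn => ?_⟩
    obtain ⟨k, rfl⟩ := Nat.exists_eq_add_of_le hn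
    have h1 := hN (N + k) hn
    have h2 := hN N le_rfl
    rw [Real.dist_eq, sub_zero] at h1 h2
    rw [dist_eq_norm]
    have h3 := hGd b N k
    linarith [le_abs_self (err b (N + k)), le_abs_self (err b N)]
  choose g hg using fun b => cauchySeq_tendsto_of_complete (hC b)
  let Γ : E →L[ℂ] E := continuousLinearMapOfTendsto G (f := g) (l := atTop) (tendsto_pi_nhds.2 hg)
  have hΓ : ∀ b, Tendsto (fun n => G n b) atTop (𝓝 (Γ b)) := hg
  have hGn : ∀ n b, ‖G n b‖ ≤ ‖b‖ := fun n b => by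
    rw [hG]
    refine (hΦn _ _).trans ((hPn _).trans ?_)
    rw [he.wiso, asym_pow_iso hU]
  refine ⟨Γ, fun a => le_of_tendsto' (hΓ a).norm fun n => hGn n a, fun a => ?_, fun f hf => ?_,
    fun hiso f hf => ?_⟩
  · have h1 : ∀ n, G n (U a) = U (G (n + 1) a) := by
      intro n
      rw [hG, hG, hΦ, hΦ, pow_succ' (adjoint U), pow_succ U, mul_apply_eq_comp, mul_apply_eq_comp,
        hUV]
    have h2 : Tendsto (fun n => U (G (n + 1) a)) atTop (𝓝 (U (Γ a))) :=
      (U.continuous.tendsto _).comp ((hΓ a).comp (tendsto_add_atTop_nat 1))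
    exact tendsto_nhds_unique (hΓ (U a)) (h2.congr fun n => (h1 n).symm)
  · refine le_of_tendsto' (tendsto_const_nhds.sub (hΓ (adjoint w f))).norm fun n => ?_
    have h1 : adjoint w (B f) = Φ n (P ((S ^ n) f)) := by
      have h2 := hΦS 0 n f hf
      rw [zero_add] at h2
      rw [hPf _ (hSA n f hf), h2, hΦ]
      simp
    rw [h1, hG, ← he.pow, ← map_sub, ← map_sub, ← map_sub]
    refine (hΦn _ _).trans ((hPn _).trans ?_)
    rw [asym_pow_iso he.iso]
  · refine ext_inner_left ℂ fun b => ?_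
    rw [adjoint_inner_right, adjoint_inner_right, adjoint_inner_right]
    let mm : ℕ → M := fun n => P (w ((U ^ n) b))
    let uu : ℕ → M := fun n => w ((U ^ n) (Γ b))
    have h1 : ∀ n, inner ℂ (adjoint B (uu n)) (mm n) = inner ℂ (Γ b) (G n b) := by
      intro n
      rw [adjoint_inner_left, hG, hΦ, ← asym_adj_pow, adjoint_inner_right]
    have h2 : ∀ n, ‖adjoint B (uu n) - mm n‖ ^ 2 ≤
        2 * ‖b‖ ^ 2 - 2 * (inner ℂ (Γ b) (G n b)).re := by
      intro n
      have h3 := norm_sub_sq (𝕜 := ℂ) (adjoint B (uu n)) (mm n)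
      rw [h1] at h3
      have h4 : ‖adjoint B (uu n)‖ ≤ ‖b‖ := by
        refine (hB' _).trans ?_
        change ‖w ((U ^ n) (Γ b))‖ ≤ _
        rw [he.wiso, asym_pow_iso hU, hiso]
      have h5 : ‖mm n‖ ≤ ‖b‖ := by
        refine (hPn _).trans ?_
        rw [he.wiso, asym_pow_iso hU]
      have h6 := pow_le_pow_left₀ (norm_nonneg _) h4 2
      have h7 := pow_le_pow_left₀ (norm_nonneg _) h5 2
      rw [h3]
      change _ - 2 * (inner ℂ (Γ b) (G n b)).re + _ ≤ _
      linarith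
    have h3 : Tendsto (fun n => 2 * ‖b‖ ^ 2 - 2 * (inner ℂ (Γ b) (G n b)).re) atTop (𝓝 0) := by
      have h4 : Tendsto (fun n => (inner ℂ (Γ b) (G n b)).re) atTop
          (𝓝 (inner ℂ (Γ b) (Γ b)).re) :=
        (Complex.continuous_re.tendsto _).comp (tendsto_const_nhds.inner (hΓ b))
      have h5 : (inner ℂ (Γ b) (Γ b)).re = ‖b‖ ^ 2 := by
        rw [← hiso b, ← inner_self_eq_norm_sq (𝕜 := ℂ)]
        rfl
      rw [h5] at h4
      have h6 := (h4.const_mul 2).const_sub (2 * ‖b‖ ^ 2)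
      rwa [sub_self] at h6
    have h4 : Tendsto (fun n => ‖adjoint B (uu n) - mm n‖) atTop (𝓝 0) := by
      have h5 : Tendsto (fun n => ‖adjoint B (uu n) - mm n‖ ^ 2) atTop (𝓝 0) :=
        squeeze_zero (fun n => sq_nonneg _) h2 h3
      have h6 := h5.sqrt
      rw [Real.sqrt_zero] at h6
      exact h6.congr fun n => Real.sqrt_sq (norm_nonneg _)
    have h5 : ∀ n, ‖inner ℂ (w (Γ b)) (B f) - inner ℂ (w b) f‖ ≤
        (‖adjoint B (uu n) - mm n‖ + err b n) * ‖f‖ := by
      intro n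
      have h6 : inner ℂ (w (Γ b)) (B f) = inner ℂ (adjoint B (uu n)) ((S ^ n) f) := by
        rw [adjoint_inner_left, hBS n f hf, ← inner_iso (asym_pow_iso he.iso n), he.pow]
      have h7 : inner ℂ (w b) f = inner ℂ (w ((U ^ n) b)) ((S ^ n) f) := by
        rw [← inner_iso (asym_pow_iso he.iso n), he.pow]
      rw [h6, h7, ← inner_sub_left]
      refine (norm_inner_le_norm _ _).trans ?_
      rw [asym_pow_iso he.iso]
      refine mul_le_mul_of_nonneg_right ?_ (norm_nonneg _)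
      have h8 : adjoint B (uu n) - w ((U ^ n) b) =
          (adjoint B (uu n) - mm n) - (w ((U ^ n) b) - P (w ((U ^ n) b))) := by
        change _ = (adjoint B (uu n) - P (w ((U ^ n) b))) - _
        abel
      rw [h8]
      exact norm_sub_le _ _
    have h6 : Tendsto (fun n => (‖adjoint B (uu n) - mm n‖ + err b n) * ‖f‖) atTop (𝓝 0) := by
      simpa using (h4.add (herr b)).mul_const ‖f‖
    have h7 := ge_of_tendsto' h6 h5
    exact sub_eq_zero.1 (norm_le_zero_iff.1 h7)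

end Pool.Agent.P.MP_f981b0_an.CD
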