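import Pool.Agent.P.MP_f981b0_an.CD.Base

/-! Package BP: a smooth variational principle. -/

set_option autoImplicit false

open MeasureTheory Filter Topology ContinuousLinearMap
open scoped ComplexConjugate

noncomputable section

namespace Pool.Agent.P.MP_f981b0_an.CD

universe u

variable {H : Type u} [NormedAddCommGroup H] [InnerProductSpace ℂ H] [CompleteSpace H]

/-- One step: an almost minimiser that is not worse than a given point. -/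
theorem bp_step {P : Type*} (A : Set P) (n : ℕ) (F : P → ℝ) (p : P) :
    ∃ q, p ∈ A → (∀ r ∈ A, 0 ≤ F r) →
      q ∈ A ∧ F q ≤ F p ∧ ∀ r ∈ A, F q ≤ F r + (1 / 4) ^ n := by
  by_cases h : p ∈ A ∧ ∀ r ∈ A, 0 ≤ F r
  · have hb : BddBelow (F '' A) := ⟨0, by rintro _ ⟨r, hr, rfl⟩; exact h.2 r hr⟩
    obtain ⟨_, ⟨q, hq, rfl⟩, h1⟩ := exists_lt_of_csInf_lt (⟨_, p, h.1, rfl⟩ : (F '' A).Nonempty)
      (lt_add_of_pos_right _ (by positivity : (0 : ℝ) < (1 / 4) ^ n))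
    have h2 : ∀ r ∈ A, F q ≤ F r + (1 / 4) ^ n := fun r hr => by
      linarith [csInf_le hb ⟨r, hr, rfl⟩]
    rcases le_total (F q) (F p) with h3 | h3
    · exact ⟨q, fun _ _ => ⟨hq, h3, h2⟩⟩
    · exact ⟨p, fun _ _ => ⟨h.1, le_rfl, fun r hr => h3.trans (h2 r hr)⟩⟩
  · exact ⟨p, fun h1 h2 => absurd ⟨h1, h2⟩ h⟩

/-- The sequence of perturbed functions and almost minimisers. -/
theorem bp_seq {P : Type*} (A : Set P) (τ : P → ℝ) (g : P → P → ℝ) (hτ : ∀ r ∈ A, 0 ≤ τ r)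
    (hg : ∀ q r, 0 ≤ g q r) (hg0 : ∀ q, g q q = 0) {p₀ : P} (h₀ : p₀ ∈ A) :
    ∃ (F : ℕ → P → ℝ) (p : ℕ → P), (∀ q, F 0 q = τ q + g q p₀) ∧
      (∀ n q, F (n + 1) q = F n q + (1 / 2) ^ (n + 1) * g q (p n)) ∧ (∀ n, p n ∈ A) ∧
      (∀ n, τ (p n) ≤ τ p₀) ∧ (∀ k, F 0 (p k) ≤ τ p₀) ∧
      (∀ n k, n ≤ k → ∀ r ∈ A, F n (p k) ≤ F n r + (1 / 4) ^ n) ∧
      ∀ n k, n ≤ k → g (p k) (p n) ≤ 2 * (1 / 2) ^ n := by
  choose step hstep using bp_step A
  let s : ℕ → (P → ℝ) × P := fun n => Nat.rec (fun q => τ q + g q p₀, p₀)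
    (fun n s => (fun q => s.1 q + (1 / 2) ^ (n + 1) * g q (step n s.1 s.2), step n s.1 s.2)) n
  obtain ⟨F, p, hF0, hp0, hFs, hps⟩ : ∃ (F : ℕ → P → ℝ) (p : ℕ → P),
      (∀ q, F 0 q = τ q + g q p₀) ∧ p 0 = p₀ ∧
      (∀ n q, F (n + 1) q = F n q + (1 / 2) ^ (n + 1) * g q (p (n + 1))) ∧
      ∀ n, p (n + 1) = step n (F n) (p n) :=
    ⟨fun n => (s n).1, fun n => (s n).2, fun _ => rfl, rfl, fun _ _ => rfl, fun _ => rfl⟩
  have hmono : ∀ q, Monotone fun n => F n q := fun q => monotone_nat_of_le_succ fun n => by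
    rw [hFs]
    exact le_add_of_nonneg_right (mul_nonneg (by positivity) (hg _ _))
  have hlow : ∀ n q, τ q ≤ F n q := fun n q => by
    refine le_trans ?_ (hmono q (Nat.zero_le n))
    simp only [hF0]
    exact le_add_of_nonneg_right (hg _ _)
  have hpos : ∀ n, ∀ r ∈ A, 0 ≤ F n r := fun n r hr => (hτ r hr).trans (hlow n r)
  have hA : ∀ n, p n ∈ A := fun n => by
    induction n with
    | zero => rwa [hp0]
    | succ n ih => rw [hps]; exact (hstep n _ _ ih (hpos n)).1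
  have h1 : ∀ n, F n (p (n + 1)) ≤ F n (p n) := fun n => by
    rw [hps]; exact (hstep n _ _ (hA n) (hpos n)).2.1
  have h2 : ∀ n, ∀ r ∈ A, F n (p (n + 1)) ≤ F n r + (1 / 4) ^ n := fun n => by
    rw [hps]; exact (hstep n _ _ (hA n) (hpos n)).2.2
  have h3 : ∀ n, F (n + 1) (p (n + 1)) = F n (p (n + 1)) := fun n => by
    rw [hFs, hg0, mul_zero, add_zero]
  have hanti : Antitone fun n => F n (p n) := antitone_nat_of_succ_le fun n => by
    simp only [h3]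
    exact h1 n
  have h4 : ∀ n k, n ≤ k → F (n + 1) (p (k + 1)) ≤ F n (p (n + 1)) := fun n k h => by
    rw [← h3 n]
    exact (hmono _ (Nat.succ_le_succ h)).trans (hanti (Nat.succ_le_succ h))
  have h5 : ∀ k, F 0 (p (k + 1)) ≤ τ p₀ := fun k => by
    have a1 : F 0 (p (k + 1)) ≤ F 0 (p 0) :=
      (hmono _ (Nat.zero_le (k + 1))).trans (hanti (Nat.zero_le (k + 1)))
    rwa [hF0 (p 0), hp0, hg0, add_zero] at a1
  refine ⟨F, fun n => p (n + 1), hF0, hFs, fun n => hA _, fun n => (hlow 0 _).trans (h5 n), h5,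
    fun n k h r hr => ((hmono _ n.le_succ).trans (h4 n k h)).trans (h2 n r hr), fun n k h => ?_⟩
  have a1 := (h4 n k h).trans (h2 n _ (hA (k + 1)))
  rw [hFs, add_le_add_iff_left, show (1 / 4 : ℝ) ^ n = (1 / 2) ^ (n + 1) * (2 * (1 / 2) ^ n) by
    rw [show (1 / 4 : ℝ) = 1 / 2 * (1 / 2) by norm_num, mul_pow]; ring] at a1
  exact le_of_mul_le_mul_left a1 (by positivity)

omit [InnerProductSpace ℂ H] in
theorem bp_lim (x : ℕ → H) (h : ∀ n k, n ≤ k → ‖x k - x n‖ ^ 2 ≤ 2 * (1 / 2) ^ n) :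
    ∃ a, Tendsto x atTop (𝓝 a) := by
  refine cauchySeq_tendsto_of_complete (cauchySeq_of_le_tendsto_0'
    (fun n => √(2 * (1 / 2) ^ n)) (fun n k hk => ?_) ?_)
  · rw [dist_comm, dist_eq_norm]
    exact Real.le_sqrt_of_sq_le (h n k hk)
  · have := ((tendsto_pow_atTop_nhds_zero_of_lt_one (r := (1 / 2 : ℝ)) (by norm_num)
      (by norm_num)).const_mul 2).sqrt
    simpa using this

omit [CompleteSpace H] in
theorem bp_par (x h a : H) :
    ‖x + h - a‖ ^ 2 + ‖x - h - a‖ ^ 2 = 2 * ‖x - a‖ ^ 2 + 2 * ‖h‖ ^ 2 := by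
  have := parallelogram_law_with_norm ℂ (x - a) h
  rw [show x + h - a = x - a + h by abel, show x - h - a = x - a - h by abel]
  linarith

theorem bp (A : H → H → ℝ → Prop) (hc : IsClosed {p : H × H × ℝ | A p.1 p.2.1 p.2.2})
    (h0 : ∀ x y t, A x y t → 0 ≤ t) {u v : H} {t₀ : ℝ} (hA : A u v t₀) :
    ∃ x y t, A x y t ∧ t + ‖x - u‖ ^ 2 + ‖y - v‖ ^ 2 ≤ t₀ ∧
      ∀ h k t₁ t₂, A (x + h) (y + k) t₁ → A (x - h) (y - k) t₂ →
        2 * t ≤ t₁ + t₂ + 4 * (‖h‖ ^ 2 + ‖k‖ ^ 2) := by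
  obtain ⟨F, p, hF0, hFs, hpA, hτ, h5, h6, h7⟩ := bp_seq {p : H × H × ℝ | A p.1 p.2.1 p.2.2}
    (fun p => p.2.2) (fun q r => ‖q.1 - r.1‖ ^ 2 + ‖q.2.1 - r.2.1‖ ^ 2)
    (fun r hr => h0 _ _ _ hr) (fun _ _ => by positivity) (fun _ => by simp)
    (p₀ := (u, v, t₀)) hA
  obtain ⟨x, hx⟩ := bp_lim (fun n => (p n).1) fun n k h => by
    linarith [h7 n k h, sq_nonneg ‖(p k).2.1 - (p n).2.1‖]
  obtain ⟨y, hy⟩ := bp_lim (fun n => (p n).2.1) fun n k h => by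
    linarith [h7 n k h, sq_nonneg ‖(p k).1 - (p n).1‖]
  obtain ⟨t, -, φ, hφ, ht⟩ := (isCompact_Icc (a := (0 : ℝ)) (b := t₀)).tendsto_subseq
    (x := fun n => (p n).2.2) fun n => ⟨h0 _ _ _ (hpA n), hτ n⟩
  have hlim : Tendsto (p ∘ φ) atTop (𝓝 (x, y, t)) :=
    (hx.comp hφ.tendsto_atTop).prodMk_nhds ((hy.comp hφ.tendsto_atTop).prodMk_nhds ht)
  have hcont : ∀ n, Continuous (F n) := fun n => by
    induction n with
    | zero => rw [funext hF0]; fun_prop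
    | succ n ih => rw [funext (hFs n)]; fun_prop
  have hle : ∀ n c, (∀ k, n ≤ k → F n (p k) ≤ c) → F n (x, y, t) ≤ c := fun n c h =>
    le_of_tendsto (((hcont n).tendsto _).comp hlim)
      ((eventually_ge_atTop n).mono fun k hk => h _ (hk.trans (hφ.id_le k)))
  refine ⟨x, y, t, hc.mem_of_tendsto hlim (Eventually.of_forall fun k => hpA _), ?_,
    fun h k t₁ t₂ a1 a2 => ?_⟩
  · have := hle 0 _ fun k _ => h5 k
    rw [hF0] at this
    linarith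
  have hpar : ∀ n, F n (x + h, y + k, t₁) + F n (x - h, y - k, t₂) =
      t₁ + t₂ + 2 * (F n (x, y, t) - t) + 2 * (2 - (1 / 2) ^ n) * (‖h‖ ^ 2 + ‖k‖ ^ 2) := by
    intro n
    induction n with
    | zero =>
      simp only [hF0]
      linarith [bp_par x h u, bp_par y k v]
    | succ n ih =>
      simp only [hFs]
      linear_combination ih + (1 / 2) ^ (n + 1) * bp_par x h (p n).1 +
        (1 / 2) ^ (n + 1) * bp_par y k (p n).2.1
  have hfin : ∀ n : ℕ, 2 * t ≤ t₁ + t₂ + 4 * (‖h‖ ^ 2 + ‖k‖ ^ 2) + 2 * (1 / 4) ^ n := fun n => by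
    have b1 := hle n _ fun j hj => h6 n j hj (x + h, y + k, t₁) a1
    have b2 := hle n _ fun j hj => h6 n j hj (x - h, y - k, t₂) a2
    have b3 : 0 ≤ (1 / 2 : ℝ) ^ n * (‖h‖ ^ 2 + ‖k‖ ^ 2) := by positivity
    linarith [hpar n]
  have := ((tendsto_pow_atTop_nhds_zero_of_lt_one (r := (1 / 4 : ℝ)) (by norm_num)
    (by norm_num)).const_mul 2).const_add (t₁ + t₂ + 4 * (‖h‖ ^ 2 + ‖k‖ ^ 2))
  rw [mul_zero, add_zero] at this
  exact ge_of_tendsto' this hfin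

end Pool.Agent.P.MP_f981b0_an.CD
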