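import Pool.Agent.P.MP_f981b0_an.CD.Defs

/-! Basic tools. -/

set_option autoImplicit false

open MeasureTheory Filter Topology ContinuousLinearMap
open scoped ComplexConjugate

noncomputable section

namespace Pool.Agent.P.MP_f981b0_an.CD

universe u

section hilbert

variable {F : Type*} [AddCommGroup F] [Module ℂ F]
  {A : Type*} [NormedAddCommGroup A] [InnerProductSpace ℂ A] [CompleteSpace A]
  {G : Type*} [NormedAddCommGroup G] [InnerProductSpace ℂ G] [CompleteSpace G]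

/-- Factorisation through a linear map that dominates. -/
theorem doug (α : F →ₗ[ℂ] A) (β : F →ₗ[ℂ] G) {c : ℝ} (hc : 0 ≤ c)
    (h : ∀ x, ‖β x‖ ≤ c * ‖α x‖) :
    ∃ Y : A →L[ℂ] G, (∀ x, ‖Y x‖ ≤ c * ‖x‖) ∧ ∀ x, Y (α x) = β x := by
  let R : Submodule ℂ A := (LinearMap.range α).topologicalClosure
  have : CompleteSpace R := (Submodule.isClosed_topologicalClosure _).completeSpace_coe
  let e : F →ₗ[ℂ] R := α.codRestrict R fun x => Submodule.le_topologicalClosure _ ⟨x, rfl⟩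
  have he : DenseRange e := by
    intro y
    rw [closure_subtype]
    have : ((↑) : R → A) '' Set.range e = (LinearMap.range α : Set A) := by
      ext a
      constructor
      · rintro ⟨_, ⟨x, rfl⟩, rfl⟩
        exact ⟨x, rfl⟩
      · rintro ⟨x, rfl⟩
        exact ⟨e x, ⟨x, rfl⟩, rfl⟩
    rw [this]
    exact y.2
  have hb : ∀ x, ‖β x‖ ≤ c * ‖e x‖ := h
  refine ⟨(β.extendOfNorm e).comp R.orthogonalProjectionOnto, fun x => ?_, fun x => ?_⟩
  · refine (LinearMap.norm_extendOfNorm_apply_le he c hb _).trans ?_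
    exact mul_le_mul_of_nonneg_left (R.norm_orthogonalProjectionOnto_apply_le x) hc
  · have : R.orthogonalProjectionOnto (α x) = e x :=
      Submodule.orthogonalProjectionOnto_mem_subspace_eq_self (e x)
    rw [ContinuousLinearMap.comp_apply, this]
    exact LinearMap.extendOfNorm_eq he ⟨c, hb⟩ x

/-- The defect operator. -/
theorem defect (C : A →L[ℂ] G) (h : ∀ x, ‖C x‖ ≤ ‖x‖) :
    ∃ D : A →L[ℂ] A, ∀ x, ‖D x‖ ^ 2 = ‖x‖ ^ 2 - ‖C x‖ ^ 2 := by
  have key : ∀ x, (inner ℂ ((1 - adjoint C ∘L C : A →L[ℂ] A) x) x).re = ‖x‖ ^ 2 - ‖C x‖ ^ 2 := by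
    intro x
    simp only [sub_apply, comp_apply, inner_sub_left, adjoint_inner_left,
      Complex.sub_re]
    rw [← inner_self_eq_norm_sq (𝕜 := ℂ), ← inner_self_eq_norm_sq (𝕜 := ℂ)]
    rfl
  have hp : (0 : A →L[ℂ] A) ≤ 1 - adjoint C ∘L C := by
    rw [nonneg_iff_isPositive, isPositive_def']
    refine ⟨?_, fun x => ?_⟩
    · refine (IsSelfAdjoint.one _).sub ?_
      rw [isSelfAdjoint_iff', adjoint_comp, adjoint_adjoint]
    · change 0 ≤ (inner ℂ ((1 - adjoint C ∘L C : A →L[ℂ] A) x) x).re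
      rw [key]
      have := pow_le_pow_left₀ (norm_nonneg _) (h x) 2
      linarith
  refine ⟨CFC.sqrt (1 - adjoint C ∘L C), fun x => ?_⟩
  have h1 : adjoint (CFC.sqrt (1 - adjoint C ∘L C : A →L[ℂ] A)) =
      CFC.sqrt (1 - adjoint C ∘L C) := (IsSelfAdjoint.of_nonneg (CFC.sqrt_nonneg _)).adjoint_eq
  rw [← key, ← inner_self_eq_norm_sq (𝕜 := ℂ), ← adjoint_inner_left, h1, ← mul_apply_eq_comp,
    CFC.sqrt_mul_sqrt_self _ hp]
  rfl

theorem inner_iso {S : A →L[ℂ] G} (h : ∀ x, ‖S x‖ = ‖x‖) (x y : A) :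
    inner ℂ (S x) (S y) = inner ℂ x y := by
  exact (LinearIsometry.inner_map_map ⟨(S : A →ₗ[ℂ] G), h⟩ x y :)

theorem adj_iso {S : A →L[ℂ] G} (h : ∀ x, ‖S x‖ = ‖x‖) (x : A) : adjoint S (S x) = x := by
  refine ext_inner_left ℂ fun y => ?_
  rw [adjoint_inner_right, inner_iso h]

theorem adj_con {S : A →L[ℂ] G} {c : ℝ} (hc : 0 ≤ c) (h : ∀ x, ‖S x‖ ≤ c * ‖x‖) (y : G) :
    ‖adjoint S y‖ ≤ c * ‖y‖ := by
  have h1 : ‖adjoint S‖ ≤ c := by
    rw [LinearIsometryEquiv.norm_map]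
    exact opNorm_le_bound _ hc h
  exact ((adjoint S).le_opNorm y).trans (mul_le_mul_of_nonneg_right h1 (norm_nonneg _))

/-- Pythagoras for an isometric embedding. -/
theorem norm_sq_iso {w : A →L[ℂ] G} (h : ∀ x, ‖w x‖ = ‖x‖) (y : G) :
    ‖y‖ ^ 2 = ‖adjoint w y‖ ^ 2 + ‖y - w (adjoint w y)‖ ^ 2 := by
  have h1 : inner ℂ (w (adjoint w y)) (y - w (adjoint w y)) = 0 := by
    rw [← adjoint_inner_right, map_sub, adj_iso h, sub_self, inner_zero_right]
  have h2 := norm_add_sq_eq_norm_sq_add_norm_sq_of_inner_eq_zero _ _ h1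
  rw [add_sub_cancel, h] at h2
  simp only [sq]
  exact h2

/-- A contraction and a vector whose norm it keeps. -/
theorem adj_fix {B : A →L[ℂ] G} (h : ∀ x, ‖B x‖ ≤ ‖x‖) {x : A} (hx : ‖B x‖ = ‖x‖) :
    adjoint B (B x) = x := by
  have h1 := adj_con zero_le_one (S := B) (fun x => by simpa using h x) (B x)
  have h2 : (inner ℂ (adjoint B (B x)) x).re = ‖x‖ ^ 2 := by
    rw [adjoint_inner_left, ← hx, ← inner_self_eq_norm_sq (𝕜 := ℂ)]
    rfl
  have h3 := norm_sub_sq (𝕜 := ℂ) (adjoint B (B x)) x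
  rw [one_mul, hx] at h1
  have h4 := pow_le_pow_left₀ (norm_nonneg _) h1 2
  have h5 : ‖adjoint B (B x) - x‖ ^ 2 ≤ 0 := by
    rw [h3]
    change _ - 2 * (inner ℂ (adjoint B (B x)) x).re + _ ≤ 0
    rw [h2]
    linarith
  have h6 : ‖adjoint B (B x) - x‖ = 0 := by nlinarith [norm_nonneg (adjoint B (B x) - x)]
  exact sub_eq_zero.1 (norm_eq_zero.1 h6)

/-- An isometry minus a small scalar is bounded below. -/
theorem iso_sub {U : A →L[ℂ] A} (h : ∀ x, ‖U x‖ = ‖x‖) (z : ℂ) (x : A) :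
    (1 - ‖z‖) * ‖x‖ ≤ ‖U x - z • x‖ := by
  have := norm_sub_norm_le (U x) (z • x)
  rw [h, norm_smul] at this
  linarith

/-- A unitary minus a small scalar is invertible. -/
theorem unit_sub {U : A →L[ℂ] A} (h : ∀ x, ‖U x‖ = ‖x‖) (hs : Function.Surjective U) {z : ℂ}
    (hz : ‖z‖ < 1) : IsUnit (U - z • (1 : A →L[ℂ] A)) := by
  have h1 : adjoint U * U = 1 := ContinuousLinearMap.ext fun x => adj_iso h x
  have h2 : U * adjoint U = 1 := ContinuousLinearMap.ext fun x => by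
    obtain ⟨y, rfl⟩ := hs x
    rw [mul_apply_eq_comp, adj_iso h]
    rfl
  have h3 : ‖z • adjoint U‖ < 1 := by
    refine lt_of_le_of_lt (opNorm_le_bound _ (norm_nonneg z) fun x => ?_) hz
    rw [smul_apply, norm_smul]
    have := adj_con zero_le_one (S := U) (fun x => by simp [h x]) x
    rw [one_mul] at this
    exact mul_le_mul_of_nonneg_left this (norm_nonneg _)
  have h4 : U - z • (1 : A →L[ℂ] A) = U * (1 - z • adjoint U) := by
    rw [mul_sub, mul_one, mul_smul_comm, h2]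
  rw [h4]
  exact (IsUnit.mul ⟨⟨U, adjoint U, h2, h1⟩, rfl⟩ (Units.oneSub _ h3).isUnit :)

end hilbert

section emb

variable {M : Type u} [NormedAddCommGroup M] [InnerProductSpace ℂ M] [CompleteSpace M]

variable {E : Type} [NormedAddCommGroup E] [InnerProductSpace ℂ E] [CompleteSpace E]

theorem Emb.adj {U : E →L[ℂ] E} {S : M →L[ℂ] M} {w : E →L[ℂ] M} (h : Emb U S w)
    (hs : Function.Surjective U) (m : M) : adjoint w (S m) = U (adjoint w m) := by
  have hU : ∀ a, ‖U a‖ = ‖a‖ := fun a => by rw [← h.wiso, ← h.sw, h.iso, h.wiso]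
  refine ext_inner_left ℂ fun a => ?_
  obtain ⟨a', rfl⟩ := hs a
  rw [adjoint_inner_right, ← h.sw, inner_iso h.iso, inner_iso hU, adjoint_inner_right]

omit [CompleteSpace M] [CompleteSpace E] in
theorem Emb.pow {U : E →L[ℂ] E} {S : M →L[ℂ] M} {w : E →L[ℂ] M} (h : Emb U S w) (n : ℕ) (a : E) :
    (S ^ n) (w a) = w ((U ^ n) a) := by
  induction n with
  | zero => rfl
  | succ n ih => rw [pow_succ', pow_succ', mul_apply_eq_comp, mul_apply_eq_comp, ih, h.sw]

omit [CompleteSpace M] [CompleteSpace E] in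
/-- Induction over the hull. -/
theorem hull_ind {w : E →L[ℂ] M} {N : Submodule ℂ M} {P : Set M} (hP : IsClosed P)
    (h : ∀ m ∈ N, ∀ a : E, m + w a ∈ P) : ∀ f ∈ Hull w N, f ∈ P := by
  intro f hf
  refine closure_minimal (s := ((N ⊔ w.range : Submodule ℂ M) : Set M)) ?_ hP hf
  intro g hg
  obtain ⟨m, hm, _, ⟨a, rfl⟩, rfl⟩ := Submodule.mem_sup.1 hg
  exact h m hm a

omit [CompleteSpace M] [CompleteSpace E] in
theorem mem_hull {w : E →L[ℂ] M} {N : Submodule ℂ M} {m : M} (hm : m ∈ N) (a : E) :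
    m + w a ∈ Hull w N := by
  exact Submodule.le_topologicalClosure _ (Submodule.mem_sup.2 ⟨m, hm, w a, ⟨a, rfl⟩, rfl⟩)

omit [CompleteSpace M] [CompleteSpace E] in
theorem hull_closed (w : E →L[ℂ] M) (N : Submodule ℂ M) : IsClosed (Hull w N : Set M) :=
  Submodule.isClosed_topologicalClosure _

end emb

section circle

variable {L : Measure X}

theorem norm_sq (a : K L) : ‖a‖ ^ 2 = ∫ t, ‖a t‖ ^ 2 ∂L := by
  rw [← inner_self_eq_norm_sq (𝕜 := ℂ), L2.inner_def, ← integral_re (L2.integrable_inner a a)]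
  simp only [inner_self_eq_norm_sq]

theorem inner_eq (a b : K L) : inner ℂ a b = ∫ t, conj (a t) * b t ∂L := by
  rw [L2.inner_def]
  simp only [RCLike.inner_apply, mul_comm]

theorem int_sq (a : K L) : Integrable (fun t => ‖a t‖ ^ 2) L := by
  exact (memLp_two_iff_integrable_sq_norm (Lp.aestronglyMeasurable a)).1 (Lp.memLp a)

theorem exists_mul {f : X → ℂ} (hf : AEStronglyMeasurable f L) {C : ℝ} (hC : ∀ t, ‖f t‖ ≤ C) :
    ∃ A : K L →L[ℂ] K L, IsMul A f := by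
  have hf' : MemLp f ⊤ L := memLp_top_of_bound hf C (Eventually.of_forall hC)
  refine ⟨(ContinuousLinearMap.mul ℂ ℂ).holderL L ⊤ 2 2 (hf'.toLp f), fun a => ?_⟩
  filter_upwards [(ContinuousLinearMap.mul ℂ ℂ).coeFn_holder (r := 2) (hf'.toLp f) a,
    hf'.coeFn_toLp] with t h1 h2
  change ((ContinuousLinearMap.mul ℂ ℂ).holder 2 (hf'.toLp f) a) t = _
  rw [h1, h2]
  rfl

theorem IsMul.adj {A : K L →L[ℂ] K L} {f : X → ℂ} (h : IsMul A f) :
    IsMul (adjoint A) fun t => conj (f t) := by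
  intro a
  have e : adjoint A a = star (A (star a)) := by
    refine ext_inner_right ℂ fun b => ?_
    rw [adjoint_inner_left, inner_eq, inner_eq]
    refine integral_congr_ae ?_
    filter_upwards [h b, h (star a), Lp.coeFn_star (A (star a)), Lp.coeFn_star a] with t h1 h2 h3 h4
    rw [h1, h3, Pi.star_apply, h2, h4]
    simp only [Pi.star_apply, Complex.star_def, Complex.conj_conj]
    ring
  rw [e]
  filter_upwards [h (star a), Lp.coeFn_star (A (star a)), Lp.coeFn_star a] with t h2 h3 h4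
  rw [h3, Pi.star_apply, h2, h4]
  simp

theorem IsMul.iso {A : K L →L[ℂ] K L} {f : X → ℂ} (h : IsMul A f) (hf : ∀ t, ‖f t‖ = 1)
    (a : K L) : ‖A a‖ = ‖a‖ := by
  have : ‖A a‖ ^ 2 = ‖a‖ ^ 2 := by
    rw [norm_sq, norm_sq]
    refine integral_congr_ae ?_
    filter_upwards [h a] with t h1
    rw [h1, norm_mul, hf, one_mul]
  exact (pow_left_inj₀ (norm_nonneg _) (norm_nonneg _) two_ne_zero).1 this

theorem IsMul.surj {A : K L →L[ℂ] K L} {f : X → ℂ} (h : IsMul A f) (hf : ∀ t, ‖f t‖ = 1) :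
    Function.Surjective A := by
  intro a
  refine ⟨adjoint A a, Lp.ext ?_⟩
  filter_upwards [h (adjoint A a), h.adj a] with t h1 h2
  rw [h1, h2, ← mul_assoc, Complex.mul_conj, Complex.normSq_eq_norm_sq, hf]
  simp

theorem IsMul.comm {A B : K L →L[ℂ] K L} {f g : X → ℂ} (h : IsMul A f) (h' : IsMul B g)
    (a : K L) : A (B a) = B (A a) := by
  refine Lp.ext ?_
  filter_upwards [h (B a), h' a, h' (A a), h a] with t h1 h2 h3 h4
  rw [h1, h2, h3, h4]
  ring

theorem IsMul.pow {A : K L →L[ℂ] K L} {f : X → ℂ} (h : IsMul A f) (n : ℕ) :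
    IsMul (A ^ n) fun t => f t ^ n := by
  induction n with
  | zero => intro a; simp
  | succ n ih =>
    intro a
    filter_upwards [ih (A a), h a] with t h1 h2
    rw [pow_succ, mul_apply_eq_comp, h1, h2, pow_succ, mul_assoc]

theorem norm_fourier (n : ℤ) (t : X) : ‖(fourier n t : ℂ)‖ = 1 := by
  rw [fourier_apply]
  exact Circle.norm_coe _

theorem ev_apply (c : ℤ →₀ ℂ) (t : X) : ev c t = ∑ n ∈ c.support, c n * fourier n t := by
  simp [ev, Finsupp.sum]

/-- The evaluation of trigonometric polynomials as a linear map. -/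
def evL : (ℤ →₀ ℂ) →ₗ[ℂ] C(X, ℂ) := Finsupp.linearCombination ℂ fun n : ℤ => fourier n

theorem evL_apply (c : ℤ →₀ ℂ) : evL c = ev c := rfl

theorem dense_evL : DenseRange evL := by
  have h1 : LinearMap.range evL = Submodule.span ℂ (Set.range (fourier (T := 1))) :=
    Finsupp.range_linearCombination ℂ
  have h2 := Submodule.dense_iff_topologicalClosure_eq_top.2
    (span_fourier_closure_eq_top (T := 1))
  rw [← h1] at h2
  exact h2

theorem dense_ev [IsFiniteMeasure L] (a : K L) {ε : ℝ} (hε : 0 < ε) :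
    ∃ c : ℤ →₀ ℂ, ‖a - ContinuousMap.toLp (E := ℂ) 2 L ℂ (ev c)‖ ≤ ε := by
  have hd := (ContinuousMap.toLp_denseRange ℂ L ℂ (p := 2) (by simp)).comp dense_evL
    (ContinuousMap.toLp (E := ℂ) 2 L ℂ).continuous
  obtain ⟨c, hc⟩ := Metric.denseRange_iff.1 hd a ε hε
  exact ⟨c, by rw [← dist_eq_norm]; exact hc.le⟩

/-- A set of positive measure on which a unimodular function is almost constant. -/
theorem cover {θ : X → ℂ} (hm : Measurable θ) (h1 : ∀ t, ‖θ t‖ = 1) {Z₀ : Set X}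
    (hZ : MeasurableSet Z₀) (h0 : L Z₀ ≠ 0) {ε : ℝ} (hε : 0 < ε) :
    ∃ θ₀ : ℂ, ‖θ₀‖ = 1 ∧ ∃ Z : Set X, Z ⊆ Z₀ ∧ MeasurableSet Z ∧ L Z ≠ 0 ∧
      ∀ t ∈ Z, ‖θ t - θ₀‖ ≤ ε := by
  obtain ⟨s, hs, hf, hc⟩ := finite_cover_balls_of_compact (isCompact_sphere (0 : ℂ) 1) hε
  by_contra hn
  push Not at hn
  have h2 : ∀ x ∈ s, L (Z₀ ∩ θ ⁻¹' Metric.ball x ε) = 0 := by
    intro x hx
    by_contra h3
    obtain ⟨t, ht, h4⟩ := hn x (by simpa using hs hx) _ Set.inter_subset_left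
      (hZ.inter (hm Metric.isOpen_ball.measurableSet)) h3
    have h5 : ‖θ t - x‖ < ε := by simpa [dist_eq_norm] using ht.2
    linarith
  refine h0 (measure_mono_null (t := ⋃ x ∈ s, Z₀ ∩ θ ⁻¹' Metric.ball x ε) (fun t ht => ?_)
    ((measure_biUnion_null_iff hf.countable).2 h2))
  obtain ⟨x, hx, h6⟩ := Set.mem_iUnion₂.1 (hc (show θ t ∈ Metric.sphere (0 : ℂ) 1 by simp [h1 t]))
  exact Set.mem_iUnion₂.2 ⟨x, hx, ht, h6⟩

end circle

end Pool.Agent.P.MP_f981b0_an.CD
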