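import Pool.Agent.P.MP_f981b0_an.CD.Base

/-! Package CLT: commutant lifting. -/

set_option autoImplicit false

open MeasureTheory Filter Topology ContinuousLinearMap
open scoped ComplexConjugate

noncomputable section

namespace Pool.Agent.P.MP_f981b0_an.CD

universe u

variable {M : Type u} [NormedAddCommGroup M] [InnerProductSpace ℂ M] [CompleteSpace M]

variable {E : Type} [NormedAddCommGroup E] [InnerProductSpace ℂ E] [CompleteSpace E]

omit [CompleteSpace M] in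
theorem clt_pyth (Q : Submodule ℂ M) [Q.HasOrthogonalProjection] (x : M) :
    ‖x - Q.starProjection x‖ ^ 2 = ‖x‖ ^ 2 - ‖Q.starProjection x‖ ^ 2 := by
  have h := Q.norm_sq_eq_add_norm_sq_starProjection x
  rw [Submodule.starProjection_orthogonal_val] at h
  linarith

omit [InnerProductSpace ℂ M] [CompleteSpace M] in
theorem clt_le {x y : M} (h : ‖x‖ ^ 2 ≤ ‖y‖ ^ 2) : ‖x‖ ≤ ‖y‖ :=
  (pow_le_pow_iff_left₀ (norm_nonneg _) (norm_nonneg _) two_ne_zero).1 h

/-- The lemma of Parrott. -/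
theorem parrott {F : Type*} [AddCommGroup F] [Module ℂ F] (α R : F →ₗ[ℂ] M)
    (hR : ∀ x, ‖R x‖ ≤ ‖α x‖) (Q : Submodule ℂ M) [Q.HasOrthogonalProjection] (C : M →L[ℂ] M)
    (hC : ∀ m, ‖C m‖ ≤ ‖m‖) (hQ : ∀ m, C m ∈ Q) (h : ∀ x, C (α x) = Q.starProjection (R x)) :
    ∃ B : M →L[ℂ] M, (∀ m, ‖B m‖ ≤ ‖m‖) ∧ (∀ m, Q.starProjection (B m) = C m) ∧
      ∀ x, B (α x) = R x := by
  obtain ⟨D, hD⟩ := defect C hC
  obtain ⟨Y, hY, hYe⟩ := doug ((D : M →ₗ[ℂ] M) ∘ₗ α) ((Qᗮ.starProjection : M →ₗ[ℂ] M) ∘ₗ R)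
    (c := 1) zero_le_one (by
      intro x
      rw [one_mul]
      apply clt_le
      simp only [LinearMap.coe_comp, Function.comp_apply, ContinuousLinearMap.coe_coe]
      rw [hD, h, Submodule.starProjection_orthogonal_val, clt_pyth]
      have := pow_le_pow_left₀ (norm_nonneg _) (hR x) 2
      linarith)
  have hP : ∀ m, Q.starProjection (C m + Qᗮ.starProjection (Y (D m))) = C m := by
    intro m
    rw [map_add, Submodule.starProjection_eq_self_iff.2 (hQ m),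
      (Submodule.starProjection_apply_eq_zero_iff Q).2 (Qᗮ.starProjection_apply_mem _), add_zero]
  refine ⟨C + Qᗮ.starProjection ∘L Y ∘L D, fun m => ?_, fun m => hP m, fun x => ?_⟩
  · apply clt_le
    have h1 := clt_pyth Q (C m + Qᗮ.starProjection (Y (D m)))
    rw [hP, add_sub_cancel_left] at h1
    have h2 : ‖Qᗮ.starProjection (Y (D m))‖ ≤ ‖D m‖ := by
      have := hY (D m)
      rw [one_mul] at this
      exact (Qᗮ.norm_starProjection_apply_le _).trans this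
    have h3 := pow_le_pow_left₀ (norm_nonneg _) h2 2
    have h4 := hD m
    change ‖C m + Qᗮ.starProjection (Y (D m))‖ ^ 2 ≤ _
    linarith
  · change C (α x) + Qᗮ.starProjection (Y (D (α x))) = R x
    have h1 : Y (D (α x)) = Qᗮ.starProjection (R x) := hYe x
    rw [h1, Submodule.starProjection_eq_self_iff.2 (Qᗮ.starProjection_apply_mem _), h,
      Submodule.starProjection_orthogonal_val]
    abel

/-- The image of a subspace under a power. -/
def cltN (S : M →L[ℂ] M) (N : Submodule ℂ M) (n : ℕ) : Submodule ℂ M :=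
  N.map ((S ^ n : M →L[ℂ] M) : M →ₗ[ℂ] M)

omit [CompleteSpace M] in
theorem clt_mem {S : M →L[ℂ] M} {N : Submodule ℂ M} {n : ℕ} {x : M} :
    x ∈ cltN S N n ↔ ∃ l ∈ N, (S ^ n) l = x :=
  Submodule.mem_map

omit [CompleteSpace M] in
theorem clt_pow_iso {S : M →L[ℂ] M} (hS : ∀ m, ‖S m‖ = ‖m‖) (n : ℕ) (m : M) :
    ‖(S ^ n) m‖ = ‖m‖ := by
  induction n with
  | zero => simp
  | succ n ih => rw [pow_succ', mul_apply_eq_comp, hS, ih]

theorem clt_closed {S : M →L[ℂ] M} (hS : ∀ m, ‖S m‖ = ‖m‖) {N : Submodule ℂ M}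
    (hN : IsClosed (N : Set M)) (n : ℕ) : IsClosed (cltN S N n : Set M) := by
  have hi : Isometry (S ^ n : M →L[ℂ] M) :=
    AddMonoidHomClass.isometry_of_norm _ (clt_pow_iso hS n)
  exact hi.isClosedEmbedding.isClosedMap _ hN

theorem clt_oo {N : Submodule ℂ M} (hN : IsClosed (N : Set M)) {x : M} (hx : x ∈ Nᗮᗮ) :
    x ∈ N := by
  rw [Submodule.orthogonal_orthogonal_eq_closure] at hx
  rwa [hN.submodule_topologicalClosure_eq] at hx

omit [CompleteSpace M] in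
theorem clt_anti {S : M →L[ℂ] M} {N : Submodule ℂ M} (hN : ∀ m ∈ N, S m ∈ N) (n : ℕ) :
    cltN S N (n + 1) ≤ cltN S N n := by
  intro x hx
  obtain ⟨l, hl, rfl⟩ := clt_mem.1 hx
  exact clt_mem.2 ⟨S l, hN l hl, by rw [pow_succ, mul_apply_eq_comp]⟩

theorem clt_shift {S : M →L[ℂ] M} (hS : ∀ m, ‖S m‖ = ‖m‖) {N : Submodule ℂ M}
    (hN : IsClosed (N : Set M)) (n : ℕ) (m : M) :
    (cltN S N (n + 1))ᗮ.starProjection (S m) = S ((cltN S N n)ᗮ.starProjection m) := by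
  apply Submodule.eq_starProjection_of_mem_orthogonal
  · rw [Submodule.mem_orthogonal]
    intro y hy
    obtain ⟨l, hl, rfl⟩ := clt_mem.1 hy
    rw [pow_succ', mul_apply_eq_comp, inner_iso hS]
    exact (Submodule.mem_orthogonal _ _).1 ((cltN S N n)ᗮ.starProjection_apply_mem m) _
      (clt_mem.2 ⟨l, hl, rfl⟩)
  · apply Submodule.le_orthogonal_orthogonal
    rw [← map_sub]
    obtain ⟨l, hl, he⟩ := clt_mem.1 (clt_oo (clt_closed hS hN n)
      ((cltN S N n)ᗮ.sub_starProjection_mem_orthogonal m))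
    exact clt_mem.2 ⟨l, hl, by rw [pow_succ', mul_apply_eq_comp, he]⟩

omit [CompleteSpace M] in
theorem clt_proj_le {Q Q' : Submodule ℂ M} [Q.HasOrthogonalProjection] [Q'.HasOrthogonalProjection]
    (h : Q ≤ Q') (x : M) : Q.starProjection (Q'.starProjection x) = Q.starProjection x :=
  congrArg (fun A : M →L[ℂ] M => A x) (Submodule.starProjection_comp_starProjection_of_le h)

omit [CompleteSpace M] in
theorem clt_cauchy (Q : ℕ → Submodule ℂ M) [∀ n, (Q n).HasOrthogonalProjection] (x : ℕ → M)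
    (h : ∀ n k, n ≤ k → (Q n).starProjection (x k) = x n) {c : ℝ} (hc : ∀ n, ‖x n‖ ≤ c) :
    CauchySeq x := by
  have h1 : ∀ n k, n ≤ k → ‖x k - x n‖ ^ 2 = ‖x k‖ ^ 2 - ‖x n‖ ^ 2 := by
    intro n k hk
    have := clt_pyth (Q n) (x k)
    rwa [h n k hk] at this
  have hm : Monotone fun n => ‖x n‖ ^ 2 := by
    intro n k hk
    have := h1 n k hk
    have h2 := sq_nonneg ‖x k - x n‖
    simp only
    linarith
  have hb : BddAbove (Set.range fun n => ‖x n‖ ^ 2) := by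
    refine ⟨c ^ 2, ?_⟩
    rintro _ ⟨n, rfl⟩
    exact pow_le_pow_left₀ (norm_nonneg _) (hc n) 2
  have ht := tendsto_atTop_ciSup hm hb
  refine cauchySeq_of_le_tendsto_0' (fun n => √((⨆ k, ‖x k‖ ^ 2) - ‖x n‖ ^ 2)) ?_ ?_
  · intro n k hk
    rw [dist_comm, dist_eq_norm]
    apply Real.le_sqrt_of_sq_le
    rw [h1 n k hk]
    have := le_ciSup hb k
    linarith
  · have h2 : Tendsto (fun n => (⨆ k, ‖x k‖ ^ 2) - ‖x n‖ ^ 2) atTop
        (𝓝 ((⨆ k, ‖x k‖ ^ 2) - ⨆ k, ‖x k‖ ^ 2)) := tendsto_const_nhds.sub ht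
    rw [sub_self] at h2
    simpa using h2.sqrt

/-- The invariant of the induction. -/
structure CltStep (S : M →L[ℂ] M) (A N : Submodule ℂ M) (n : ℕ) (B : M →L[ℂ] M) : Prop where
  con : ∀ m, ‖B m‖ ≤ ‖m‖
  mem : ∀ m, B m ∈ (cltN S N n)ᗮ
  comm : ∀ m ∈ A, B (S m) = (cltN S N n)ᗮ.starProjection (S (B m))

theorem clt_step {S : M →L[ℂ] M} (hS : ∀ m, ‖S m‖ = ‖m‖) (A : Submodule ℂ M) {N : Submodule ℂ M}
    (hN : Out S N) {n : ℕ} {B : M →L[ℂ] M} (hB : CltStep S A N n B) :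
    ∃ B' : M →L[ℂ] M, CltStep S A N (n + 1) B' ∧
      (∀ m, (cltN S N n)ᗮ.starProjection (B' m) = B m) ∧ ∀ m ∈ A, B' (S m) = S (B m) := by
  obtain ⟨C, hC, hCP, hCS⟩ := parrott ((S : M →ₗ[ℂ] M) ∘ₗ A.subtype)
    ((S : M →ₗ[ℂ] M) ∘ₗ (B : M →ₗ[ℂ] M) ∘ₗ A.subtype)
    (fun x => by
      change ‖S (B x)‖ ≤ ‖S x‖
      rw [hS, hS]
      exact hB.con _) (cltN S N n)ᗮ B hB.con hB.mem (fun x => hB.comm x x.2)
  have hle : (cltN S N n)ᗮ ≤ (cltN S N (n + 1))ᗮ := Submodule.orthogonal_le (clt_anti hN.inv n)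
  have h1 : ∀ m, (cltN S N n)ᗮ.starProjection ((cltN S N (n + 1))ᗮ.starProjection (C m)) = B m :=
    fun m => by rw [clt_proj_le hle, hCP]
  have h2 : ∀ m ∈ A, (cltN S N (n + 1))ᗮ.starProjection (C (S m)) = S (B m) := by
    intro m hm
    have : C (S m) = S (B m) := hCS ⟨m, hm⟩
    rw [this, clt_shift hS hN.closed, Submodule.starProjection_eq_self_iff.2 (hB.mem m)]
  refine ⟨(cltN S N (n + 1))ᗮ.starProjection ∘L C, ⟨fun m => ?_, fun m => ?_, fun m hm => ?_⟩,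
    h1, h2⟩
  · exact (Submodule.norm_starProjection_apply_le _ _).trans (hC m)
  · exact Submodule.starProjection_apply_mem _ _
  · change (cltN S N (n + 1))ᗮ.starProjection (C (S m)) =
      (cltN S N (n + 1))ᗮ.starProjection (S ((cltN S N (n + 1))ᗮ.starProjection (C m)))
    rw [h2 m hm, clt_shift hS hN.closed, h1]

/-- The limit of the induction. -/
theorem clt_limit {S : M →L[ℂ] M} (hS : ∀ m, ‖S m‖ = ‖m‖) (A : Submodule ℂ M) {N : Submodule ℂ M}
    (hN : Out S N) {B₀ : M →L[ℂ] M} (hB : CltStep S A N 0 B₀) :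
    ∃ B : M →L[ℂ] M, (∀ m, ‖B m‖ ≤ ‖m‖) ∧ (∀ m, (cltN S N 0)ᗮ.starProjection (B m) = B₀ m) ∧
      ∀ m ∈ A, B (S m) = S (B m) := by
  choose! nx hnx using fun (n : ℕ) (B : M →L[ℂ] M) (h : CltStep S A N n B) => clt_step hS A hN h
  let G : ℕ → M →L[ℂ] M := fun n => Nat.rec B₀ (fun k B => nx k B) n
  have hG0 : G 0 = B₀ := rfl
  have hGs : ∀ n, G (n + 1) = nx n (G n) := fun n => rfl
  have hG : ∀ n, CltStep S A N n (G n) := by
    intro n
    induction n with
    | zero => exact hB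
    | succ n ih => exact (hnx n _ ih).1
  have hP : ∀ m n k, n ≤ k → (cltN S N n)ᗮ.starProjection (G k m) = G n m := by
    intro m n k hk
    induction k, hk using Nat.le_induction with
    | base => exact Submodule.starProjection_eq_self_iff.2 ((hG n).mem m)
    | succ k hk ih =>
      have hle : (cltN S N n)ᗮ ≤ (cltN S N k)ᗮ :=
        Submodule.orthogonal_le (antitone_nat_of_succ_le (clt_anti hN.inv) hk)
      rw [← clt_proj_le hle, hGs, (hnx k _ (hG k)).2.1, ih]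
  have hc : ∀ m, ∃ y, Tendsto (fun n => G n m) atTop (𝓝 y) := fun m =>
    cauchySeq_tendsto_of_complete
      (clt_cauchy (fun n => (cltN S N n)ᗮ) (fun n => G n m) (hP m) fun n => (hG n).con m)
  choose f hf using hc
  let L : M →ₗ[ℂ] M :=
    { toFun := f
      map_add' := fun x y => tendsto_nhds_unique (hf (x + y))
        (by simpa only [map_add] using (hf x).add (hf y))
      map_smul' := fun c x => tendsto_nhds_unique (hf (c • x))
        (by simpa only [map_smul, RingHom.id_apply] using (hf x).const_smul c) }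
  have hL : ∀ m, ‖f m‖ ≤ ‖m‖ := fun m =>
    le_of_tendsto' (hf m).norm fun n => (hG n).con m
  refine ⟨L.mkContinuous 1 fun m => by rw [one_mul]; exact hL m, hL, fun m => ?_, fun m hm => ?_⟩
  · change (cltN S N 0)ᗮ.starProjection (f m) = B₀ m
    have h1 := ((cltN S N 0)ᗮ.starProjection.continuous.tendsto _).comp (hf m)
    refine tendsto_nhds_unique h1 (tendsto_const_nhds.congr fun n => ?_)
    exact (hP m 0 n (Nat.zero_le n)).symm
  · change f (S m) = S (f m)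
    have h1 := (hf (S m)).comp (tendsto_add_atTop_nat 1)
    have h2 := (S.continuous.tendsto _).comp (hf m)
    refine tendsto_nhds_unique h1 (h2.congr fun n => ?_)
    exact ((hnx n _ (hG n)).2.2 m hm).symm

theorem clt {U Θ : E →L[ℂ] E} {S : M →L[ℂ] M} {w : E →L[ℂ] M} {Np Nm : Submodule ℂ M}
    (he : Emb U S w) (hs : Function.Surjective U) (hc : ∀ a, U (Θ a) = Θ (U a))
    (hp : Out S Np) (hm : Out S Nm)
    (hd : ∀ a : E, ∀ m ∈ Np, ∀ ε : ℝ, 0 < ε → ∃ m' ∈ Nm, ‖w (Θ a) - m'‖ ≤ ‖w a - m‖ + ε) :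
    ∃ B : M →L[ℂ] M, Lifted Θ S w Np Nm B := by
  have h0 : ∀ x, x ∈ cltN S Nm 0 ↔ x ∈ Nm := by
    intro x
    rw [clt_mem]
    simp
  have hz : ∀ x, (cltN S Nm 0)ᗮ.starProjection x = 0 ↔ x ∈ Nm := by
    intro x
    rw [Submodule.starProjection_apply_eq_zero_iff, ← h0]
    exact ⟨clt_oo (clt_closed he.iso hm.closed 0), fun h => Submodule.le_orthogonal_orthogonal _ h⟩
  obtain ⟨Y, hY, hYe⟩ := doug (F := Np × E)
    (Np.subtype ∘ₗ LinearMap.fst ℂ Np E + (w : E →ₗ[ℂ] M) ∘ₗ LinearMap.snd ℂ Np E)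
    (((cltN S Nm 0)ᗮ.starProjection : M →ₗ[ℂ] M) ∘ₗ (w : E →ₗ[ℂ] M) ∘ₗ (Θ : E →ₗ[ℂ] E) ∘ₗ
      LinearMap.snd ℂ Np E) (c := 1) zero_le_one (by
      rintro ⟨m, a⟩
      rw [one_mul]
      change ‖(cltN S Nm 0)ᗮ.starProjection (w (Θ a))‖ ≤ ‖(m : M) + w a‖
      refine le_of_forall_pos_le_add fun ε hε => ?_
      obtain ⟨m', hm', hle⟩ := hd a (-(m : M)) (Np.neg_mem m.2) ε hε
      have h1 : (cltN S Nm 0)ᗮ.starProjection (w (Θ a)) =
          (cltN S Nm 0)ᗮ.starProjection (w (Θ a) - m') := by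
        rw [map_sub, (hz m').2 hm', sub_zero]
      rw [sub_neg_eq_add, add_comm (w a)] at hle
      rw [h1]
      exact (Submodule.norm_starProjection_apply_le _ _).trans hle)
  have hYe' : ∀ m ∈ Np, ∀ a, (cltN S Nm 0)ᗮ.starProjection (Y (m + w a)) =
      (cltN S Nm 0)ᗮ.starProjection (w (Θ a)) := by
    intro m hm' a
    have : Y (m + w a) = (cltN S Nm 0)ᗮ.starProjection (w (Θ a)) := hYe (⟨m, hm'⟩, a)
    rw [this, clt_proj_le le_rfl]
  have hB₀ : CltStep S (Hull w Np) Nm 0 ((cltN S Nm 0)ᗮ.starProjection ∘L Y) := by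
    refine ⟨fun m => ?_, fun m => Submodule.starProjection_apply_mem _ _, ?_⟩
    · have := hY m
      rw [one_mul] at this
      exact (Submodule.norm_starProjection_apply_le _ _).trans this
    · refine hull_ind (P := {m | ((cltN S Nm 0)ᗮ.starProjection ∘L Y) (S m) =
        (cltN S Nm 0)ᗮ.starProjection (S (((cltN S Nm 0)ᗮ.starProjection ∘L Y) m))})
        (isClosed_eq (by fun_prop) (by fun_prop)) fun m hm' a => ?_
      change (cltN S Nm 0)ᗮ.starProjection (Y (S (m + w a))) =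
        (cltN S Nm 0)ᗮ.starProjection (S ((cltN S Nm 0)ᗮ.starProjection (Y (m + w a))))
      rw [hYe' m hm', map_add S, he.sw, hYe' _ (hp.inv m hm'), ← hc, ← he.sw, ← sub_eq_zero,
        ← map_sub, ← map_sub, hz]
      apply hm.inv
      rw [← hz, map_sub, clt_proj_le le_rfl, sub_self]
  obtain ⟨B, hB, hB0, hBS⟩ := clt_limit he.iso (Hull w Np) hm hB₀
  have hB1 : ∀ m ∈ Np, ∀ a, B (m + w a) - w (Θ a) ∈ Nm := by
    intro m hm' a
    rw [← hz, map_sub, hB0]
    exact sub_eq_zero.2 (hYe' m hm' a)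
  have hr : ∀ a, B (w a) - w (Θ a) ∈ Nm := fun a => by simpa using hB1 0 Np.zero_mem a
  have hw : ∀ a, w a ∈ Hull w Np := fun a => by simpa using mem_hull (w := w) Np.zero_mem a
  have hU : ∀ a, B (w (U a)) - w (Θ (U a)) = S (B (w a) - w (Θ a)) := by
    intro a
    rw [← he.sw, hBS _ (hw a), ← hc, ← he.sw, map_sub]
  refine ⟨B, hB, fun m hm' => by simpa using hB1 m hm' 0, hBS, fun a => ?_⟩
  rw [← sub_eq_zero]
  apply hm.pure
  intro n
  induction n generalizing a with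
  | zero => exact ⟨_, hr a, by simp⟩
  | succ n ih =>
    obtain ⟨a', rfl⟩ := hs a
    obtain ⟨m', hm', h⟩ := ih a'
    exact ⟨m', hm', by rw [hU, h, pow_succ', mul_apply_eq_comp]⟩

end Pool.Agent.P.MP_f981b0_an.CD
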