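import Pool.Agent.P.MP_f981b0_an.CD.Base

/-! Package Case1: the two multipliers differ. -/

set_option autoImplicit false

open MeasureTheory Filter Topology ContinuousLinearMap
open scoped ComplexConjugate

noncomputable section

namespace Pool.Agent.P.MP_f981b0_an.CD

universe u

variable {M : Type u} [NormedAddCommGroup M] [InnerProductSpace ℂ M] [CompleteSpace M]

section abstract

variable {E : Type} [NormedAddCommGroup E] [InnerProductSpace ℂ E] [CompleteSpace E]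

private theorem c1_norm : ‖((√2 : ℝ) : ℂ)⁻¹‖ ^ 2 = 1 / 2 := by
  rw [norm_inv, Complex.norm_real, Real.norm_of_nonneg (Real.sqrt_nonneg 2), inv_pow,
    Real.sq_sqrt (by norm_num)]
  norm_num

private theorem c1_norm_le : ‖((√2 : ℝ) : ℂ)⁻¹‖ ≤ 1 := by
  have h := c1_norm
  nlinarith [norm_nonneg (((√2 : ℝ) : ℂ)⁻¹)]

private theorem c1_mul : ((√2 : ℝ) : ℂ)⁻¹ * ((√2 : ℝ) : ℂ)⁻¹ = 1 / 2 := by
  rw [← mul_inv, ← Complex.ofReal_mul, Real.mul_self_sqrt (by norm_num)]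
  norm_num

private theorem c1_conj : conj ((√2 : ℝ) : ℂ)⁻¹ = ((√2 : ℝ) : ℂ)⁻¹ := by
  rw [map_inv₀, Complex.conj_ofReal]

omit [CompleteSpace M] [CompleteSpace E] in
private theorem c1_iso {x y : M} {r : ℝ} (hr : 0 ≤ r) (hx : ‖x‖ = r) (hy : ‖y‖ = r)
    (h : inner ℂ x y = 0) : ‖((√2 : ℝ) : ℂ)⁻¹ • (x + y)‖ = r := by
  have h2 := norm_add_sq_eq_norm_sq_add_norm_sq_of_inner_eq_zero _ _ h
  have h3 : ‖((√2 : ℝ) : ℂ)⁻¹ • (x + y)‖ ^ 2 = r ^ 2 := by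
    rw [norm_smul, mul_pow, c1_norm, sq ‖x + y‖, h2, hx, hy]
    ring
  exact (pow_left_inj₀ (norm_nonneg _) hr two_ne_zero).1 h3

omit [CompleteSpace M] [CompleteSpace E] in
private theorem c1_vp (i j : E →L[ℂ] M) (a : E) :
    vp i j a = ((√2 : ℝ) : ℂ)⁻¹ • (i a + j a) := rfl

omit [CompleteSpace M] [CompleteSpace E] in
private theorem c1_vm (i j : E →L[ℂ] M) (a : E) :
    vm i j a = ((√2 : ℝ) : ℂ)⁻¹ • (i a - j a) := rfl

omit [CompleteSpace M] [CompleteSpace E] in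
private theorem c1_vp' (i j : E →L[ℂ] M) (a : E) :
    vp i j a = (i + j) (((√2 : ℝ) : ℂ)⁻¹ • a) := by
  rw [map_smul]
  rfl

theorem Model.vp_emb {U Θ : E →L[ℂ] E} {S : M →L[ℂ] M} {i j : E →L[ℂ] M} {Np Nm : Submodule ℂ M}
    (h : Model U Θ S i j Np Nm) : Emb U S (vp i j) := by
  refine ⟨h.ei.iso, fun a => ?_, fun a => ?_⟩
  · rw [c1_vp]
    exact c1_iso (norm_nonneg a) (h.ei.wiso a) (h.ej.wiso a) (h.orth a a)
  · rw [c1_vp, c1_vp, map_smul, map_add, h.ei.sw, h.ej.sw]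

theorem Model.vm_emb {U Θ : E →L[ℂ] E} {S : M →L[ℂ] M} {i j : E →L[ℂ] M} {Np Nm : Submodule ℂ M}
    (h : Model U Θ S i j Np Nm) : Emb U S (vm i j) := by
  refine ⟨h.ei.iso, fun a => ?_, fun a => ?_⟩
  · rw [c1_vm, sub_eq_add_neg]
    refine c1_iso (norm_nonneg a) (h.ei.wiso a) (by rw [norm_neg, h.ej.wiso a]) ?_
    rw [inner_neg_right, h.orth, neg_zero]
  · rw [c1_vm, c1_vm, map_smul, map_sub, h.ei.sw, h.ej.sw]

theorem Model.vp_abs {U Θ : E →L[ℂ] E} {S : M →L[ℂ] M} {i j : E →L[ℂ] M} {Np Nm : Submodule ℂ M}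
    (h : Model U Θ S i j Np Nm) : Abs U (vp i j) Np := by
  intro a ε hε
  filter_upwards [h.absi a (ε / 2) (half_pos hε), h.absj a (ε / 2) (half_pos hε)] with n h1 h2
  obtain ⟨m1, hm1, e1⟩ := h1
  obtain ⟨m2, hm2, e2⟩ := h2
  refine ⟨((√2 : ℝ) : ℂ)⁻¹ • (m1 + m2), Np.smul_mem _ (Np.add_mem hm1.1 hm2), ?_⟩
  have e : i ((U ^ n) a) + j ((U ^ n) a) - (m1 + m2) =
      (i ((U ^ n) a) - m1) + (j ((U ^ n) a) - m2) := by abel
  rw [c1_vp, ← smul_sub, norm_smul, e]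
  have h3 := norm_add_le (i ((U ^ n) a) - m1) (j ((U ^ n) a) - m2)
  have h4 := mul_le_of_le_one_left
    (norm_nonneg ((i ((U ^ n) a) - m1) + (j ((U ^ n) a) - m2))) c1_norm_le
  linarith

theorem Model.vm_abs {U Θ : E →L[ℂ] E} {S : M →L[ℂ] M} {i j : E →L[ℂ] M} {Np Nm : Submodule ℂ M}
    (h : Model U Θ S i j Np Nm) : Abs U (vm i j) Np := by
  intro a ε hε
  filter_upwards [h.absi a (ε / 2) (half_pos hε), h.absj a (ε / 2) (half_pos hε)] with n h1 h2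
  obtain ⟨m1, hm1, e1⟩ := h1
  obtain ⟨m2, hm2, e2⟩ := h2
  refine ⟨((√2 : ℝ) : ℂ)⁻¹ • (m1 - m2), Np.smul_mem _ (Np.sub_mem hm1.1 hm2), ?_⟩
  have e : i ((U ^ n) a) - j ((U ^ n) a) - (m1 - m2) =
      (i ((U ^ n) a) - m1) - (j ((U ^ n) a) - m2) := by abel
  rw [c1_vm, ← smul_sub, norm_smul, e]
  have h3 := norm_sub_le (i ((U ^ n) a) - m1) (j ((U ^ n) a) - m2)
  have h4 := mul_le_of_le_one_left
    (norm_nonneg ((i ((U ^ n) a) - m1) - (j ((U ^ n) a) - m2))) c1_norm_le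
  linarith

theorem Model.vp_dist {U Θ : E →L[ℂ] E} {S : M →L[ℂ] M} {i j : E →L[ℂ] M} {Np Nm : Submodule ℂ M}
    (h : Model U Θ S i j Np Nm) (a : E) (m : M) (hm : m ∈ Np) (ε : ℝ) (hε : 0 < ε) :
    ∃ m' ∈ Nm, ‖vp i j (Θ a) - m'‖ ≤ ‖vp i j a - m‖ + ε := by
  obtain ⟨m', hm', e⟩ := h.dist (((√2 : ℝ) : ℂ)⁻¹ • a) m hm ε hε
  refine ⟨m', hm', ?_⟩
  rw [c1_vp', c1_vp', ← map_smul Θ]
  exact e

private theorem c1_res {U Θ : E →L[ℂ] E} {S : M →L[ℂ] M} {i j : E →L[ℂ] M}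
    {Np Nm : Submodule ℂ M} (h : Model U Θ S i j Np Nm) : Res U (vp i j) Np := by
  intro z hz
  obtain ⟨C, hC⟩ := h.resv z hz
  refine ⟨C, fun a m hm => ?_⟩
  obtain ⟨m', hm', e⟩ := hC (((√2 : ℝ) : ℂ)⁻¹ • a) m hm
  refine ⟨m', hm', ?_⟩
  rw [c1_vp', c1_vp', smul_sub, ← map_smul U, smul_comm _ z a]
  exact e

private theorem c1_ij {i j : E →L[ℂ] M} (h : ∀ a a' : E, inner ℂ (i a) (j a') = 0) (a : E) :
    adjoint i (j a) = 0 := by
  refine ext_inner_left ℂ fun b => ?_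
  rw [adjoint_inner_right, h, inner_zero_right]

private theorem c1_ji {i j : E →L[ℂ] M} (h : ∀ a a' : E, inner ℂ (i a) (j a') = 0) (a : E) :
    adjoint j (i a) = 0 := by
  refine ext_inner_left ℂ fun b => ?_
  rw [adjoint_inner_right, inner_zero_right, ← inner_conj_symm, h, map_zero]

private theorem c1_avp (i j : E →L[ℂ] M) (m : M) :
    adjoint (vp i j) m = ((√2 : ℝ) : ℂ)⁻¹ • (adjoint i m + adjoint j m) := by
  refine ext_inner_left ℂ fun b => ?_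
  rw [adjoint_inner_right, c1_vp, inner_smul_left, inner_smul_right, c1_conj, inner_add_left,
    inner_add_right, adjoint_inner_right, adjoint_inner_right]

private theorem c1_avm (i j : E →L[ℂ] M) (m : M) :
    adjoint (vm i j) m = ((√2 : ℝ) : ℂ)⁻¹ • (adjoint i m - adjoint j m) := by
  refine ext_inner_left ℂ fun b => ?_
  rw [adjoint_inner_right, c1_vm, inner_smul_left, inner_smul_right, c1_conj, inner_sub_left,
    inner_sub_right, adjoint_inner_right, adjoint_inner_right]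

private theorem c1_lam (i j : E →L[ℂ] M) (m : M) :
    Lam i j m = (1 / 4 : ℂ) • m + (3 / 4 : ℂ) • (i (adjoint i m) + j (adjoint j m)) := rfl

private theorem c1_proj (i j : E →L[ℂ] M) (m : M) :
    i (adjoint i m) + j (adjoint j m) =
      vp i j (adjoint (vp i j) m) + vm i j (adjoint (vm i j) m) := by
  rw [c1_avp, c1_avm, map_smul, map_smul, c1_vp, c1_vm, smul_smul, smul_smul, c1_mul]
  simp only [map_add, map_sub]
  module

private theorem c1_lam_adj (i j : E →L[ℂ] M) (x y : M) :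
    inner ℂ (Lam i j x) y = inner ℂ x (Lam i j y) := by
  rw [c1_lam, c1_lam]
  simp only [inner_add_left, inner_add_right, inner_smul_left, inner_smul_right,
    ← adjoint_inner_right i, ← adjoint_inner_right j, ← adjoint_inner_left i,
    ← adjoint_inner_left j, map_div₀, map_one, map_ofNat]

private theorem c1_lam_le {U Θ : E →L[ℂ] E} {S : M →L[ℂ] M} {i j : E →L[ℂ] M}
    {Np Nm : Submodule ℂ M} (h : Model U Θ S i j Np Nm) (m : M) : ‖Lam i j m‖ ≤ ‖m‖ := by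
  have h1 := norm_sq_iso h.ei.wiso m
  have h2 := norm_sq_iso h.ej.wiso (m - i (adjoint i m))
  rw [map_sub, c1_ji h.orth, sub_zero] at h2
  have h3 := norm_add_sq_eq_norm_sq_add_norm_sq_of_inner_eq_zero _ _
    (h.orth (adjoint i m) (adjoint j m))
  rw [h.ei.wiso, h.ej.wiso] at h3
  have h4 : ‖i (adjoint i m) + j (adjoint j m)‖ ≤ ‖m‖ := by
    refine (pow_le_pow_iff_left₀ (norm_nonneg _) (norm_nonneg _) two_ne_zero).1 ?_
    nlinarith [sq_nonneg ‖m - i (adjoint i m) - j (adjoint j m)‖]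
  rw [c1_lam]
  refine (norm_add_le _ _).trans ?_
  rw [norm_smul, norm_smul]
  have e1 : ‖(1 / 4 : ℂ)‖ = 1 / 4 := by simp
  have e2 : ‖(3 / 4 : ℂ)‖ = 3 / 4 := by simp
  rw [e1, e2]
  linarith

end abstract

private theorem c1_real {F t d I T : ℝ} (hF : 0 ≤ F) (hd : 0 < d) (hd1 : d ≤ 1)
    (hI : 0 ≤ I) (hA : T ≤ (4 - 2 * d) * F ^ 2 + 5 / 2 * (F * t) + 2 * d * I)
    (hB : T ≤ 4 * F ^ 2 - t ^ 2) : T ≤ 4 * ((1 - d ^ 2 / 64) * F ^ 2 + I) := by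
  by_cases hc : d / 4 * F ≤ t
  · have h1 := pow_le_pow_left₀ (by positivity) hc 2
    nlinarith
  · have h1 : F * t ≤ F * (d / 4 * F) := mul_le_mul_of_nonneg_left (not_le.1 hc).le hF
    have h2 : d * I ≤ I := mul_le_of_le_one_left hI hd1
    have h3 : d * (d * F ^ 2) ≤ d * F ^ 2 := mul_le_of_le_one_left (by positivity) hd1
    have h4 : 0 ≤ d * F ^ 2 := by positivity
    nlinarith

variable {L : Measure X} [IsFiniteMeasure L]

omit [IsFiniteMeasure L] in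
private theorem c1_int {γ : X → ℂ} {Γ : K L →L[ℂ] K L} (hΓ : IsMul Γ γ) (h1 : ∀ t, ‖γ t‖ ≤ 1)
    {θ₀ : ℂ} (h0 : ‖θ₀‖ = 1) {Z : Set X} (hZ : MeasurableSet Z) {d : ℝ}
    (hd : ∀ t ∈ Z, (θ₀ * conj (γ t)).re ≤ 1 - d) (b : K L) :
    (inner ℂ (Γ b) (θ₀ • b)).re ≤ (1 - d) * ‖b‖ ^ 2 + d * ∫ t in Zᶜ, ‖b t‖ ^ 2 ∂L := by
  have hi := L2.integrable_inner (𝕜 := ℂ) (Γ b) (θ₀ • b)
  have e1 : (inner ℂ (Γ b) (θ₀ • b)).re = ∫ t, (inner ℂ ((Γ b) t) ((θ₀ • b) t)).re ∂L := by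
    rw [L2.inner_def]
    exact (integral_re hi).symm
  have hb := int_sq b
  have hb' : Integrable (Zᶜ.indicator fun t => ‖b t‖ ^ 2) L := hb.indicator hZ.compl
  rw [e1, norm_sq, ← integral_indicator hZ.compl, ← integral_const_mul, ← integral_const_mul,
    ← integral_add (hb.const_mul _) (hb'.const_mul _)]
  refine integral_mono_ae hi.re ((hb.const_mul _).add (hb'.const_mul _)) ?_
  filter_upwards [hΓ b, Lp.coeFn_smul θ₀ b] with t e2 e3
  have e4 : (inner ℂ ((Γ b) t) ((θ₀ • b) t)).re = (θ₀ * conj (γ t)).re * ‖b t‖ ^ 2 := by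
    rw [e2, e3, Pi.smul_apply, smul_eq_mul, RCLike.inner_apply, map_mul]
    have : θ₀ * b t * (conj (γ t) * conj (b t)) = θ₀ * conj (γ t) * ((‖b t‖ ^ 2 : ℝ) : ℂ) := by
      rw [← Complex.normSq_eq_norm_sq, ← Complex.mul_conj]
      ring
    rw [this, Complex.re_mul_ofReal]
  rw [e4]
  by_cases ht : t ∈ Z
  · rw [Set.indicator_of_notMem (by simpa using ht), mul_zero, add_zero]
    exact mul_le_mul_of_nonneg_right (hd t ht) (sq_nonneg _)
  · rw [Set.indicator_of_mem (by simpa using ht)]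
    have e5 : (θ₀ * conj (γ t)).re ≤ 1 := by
      refine (Complex.re_le_norm _).trans ?_
      rw [norm_mul, h0, one_mul, Complex.norm_conj]
      exact h1 t
    have := mul_le_mul_of_nonneg_right e5 (sq_nonneg ‖b t‖)
    linarith

private theorem c1_re {a g x : ℂ} (ha : ‖a‖ = 1) (hg : ‖g‖ ≤ 1) {δ : ℝ} (hδ : 0 ≤ δ)
    (h : δ ≤ ‖g - a‖) (hx : ‖a - x‖ ≤ δ ^ 2 / 4) : (x * conj g).re ≤ 1 - δ ^ 2 / 4 := by
  have h1 := pow_le_pow_left₀ hδ h 2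
  have h2 := pow_le_pow_left₀ (norm_nonneg _) hg 2
  have h3 : ‖g - a‖ ^ 2 = ‖g‖ ^ 2 + ‖a‖ ^ 2 - 2 * (a * conj g).re := by
    simp only [← Complex.normSq_eq_norm_sq, Complex.normSq_apply, Complex.sub_re, Complex.sub_im,
      Complex.mul_re, Complex.conj_re, Complex.conj_im]
    ring
  have h4 : ((x - a) * conj g).re ≤ δ ^ 2 / 4 := by
    refine (Complex.re_le_norm _).trans ?_
    rw [norm_mul, Complex.norm_conj, norm_sub_rev]
    exact (mul_le_of_le_one_right (norm_nonneg _) hg).trans hx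
  rw [sub_mul, Complex.sub_re] at h4
  rw [ha] at h3
  linarith

theorem case1 {θ γ : X → ℂ} {U Θ Γ : K L →L[ℂ] K L} (hc : Circ L θ U Θ) {S B : M →L[ℂ] M}
    {i j : K L →L[ℂ] M} {Np Nm : Submodule ℂ M} (h : Model U Θ S i j Np Nm)
    (hB : Lifted Θ S (vp i j) Np Nm B) (hm : Measurable γ) (h1 : ∀ t, ‖γ t‖ ≤ 1)
    (hΓ : IsMul Γ γ)
    (hb : ∀ f ∈ Hull (vp i j) Np, ‖adjoint (vm i j) (B f) - Γ (adjoint (vm i j) f)‖ ≤
      ‖f - vm i j (adjoint (vm i j) f)‖)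
    (hne : ¬ ∀ᵐ t ∂L, γ t = θ t) :
    Last U Θ θ S (vp i j) (adjoint (vm i j)) Np (Lam i j ∘L B) := by
  have hU : Function.Surjective U := hc.mu.surj (norm_fourier 1)
  have hvm := h.vm_emb
  have hvp := h.vp_emb
  refine ⟨hvp, h.op, h.vp_abs, c1_res h, fun m => ?_, fun m => hvm.adj hU m, fun a => ?_,
    fun m => (c1_lam_le h (B m)).trans (hB.con m), fun m hm' => h.lam _ (hB.maps m hm'),
    fun m hm' => ?_, fun a => ?_, ?_⟩
  · simpa using adj_con zero_le_one (S := vm i j) (fun a => by rw [hvm.wiso, one_mul]) m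
  · rw [c1_avm, c1_vp, map_smul, map_smul, map_add, map_add, adj_iso h.ei.wiso, adj_iso h.ej.wiso,
      c1_ij h.orth, c1_ji h.orth]
    simp
  · have hm2 : m ∈ Hull (vp i j) Np := by simpa using mem_hull (w := vp i j) hm' 0
    rw [comp_apply, comp_apply, hB.comm m hm2, c1_lam, c1_lam, h.ei.adj hU, h.ej.adj hU, map_add,
      map_smul, map_smul, map_add, h.ei.sw, h.ej.sw]
  · rw [comp_apply, hB.bw, c1_lam, c1_vp]
    simp only [map_smul, map_add, adj_iso h.ei.wiso, adj_iso h.ej.wiso, c1_ij h.orth, c1_ji h.orth,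
      add_zero, zero_add]
    module
  obtain ⟨n, hn⟩ : ∃ n : ℕ, L {t | 1 / ((n : ℝ) + 1) ≤ ‖γ t - θ t‖} ≠ 0 := by
    by_contra hn
    push Not at hn
    refine hne ?_
    have h2 : ∀ᵐ t ∂L, ∀ n : ℕ, ‖γ t - θ t‖ < 1 / ((n : ℝ) + 1) := by
      refine ae_all_iff.2 fun n => ?_
      rw [ae_iff]
      simpa only [not_lt] using hn n
    filter_upwards [h2] with t ht
    by_contra h3
    obtain ⟨n, hn'⟩ := exists_nat_one_div_lt (norm_pos_iff.2 (sub_ne_zero.2 h3))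
    exact lt_asymm hn' (ht n)
  obtain ⟨δ, hδ0, hδ1, hn⟩ : ∃ δ : ℝ, 0 < δ ∧ δ ≤ 1 ∧ L {t | δ ≤ ‖γ t - θ t‖} ≠ 0 := by
    refine ⟨_, by positivity, ?_, hn⟩
    rw [div_le_one (by positivity)]
    have := Nat.cast_nonneg (α := ℝ) n
    linarith
  have hd0 : 0 < δ ^ 2 / 4 := by positivity
  have hd1 : δ ^ 2 / 4 ≤ 1 := by nlinarith
  have hr : 0 ≤ 1 - (δ ^ 2 / 4) ^ 2 / 64 := by nlinarith
  refine ⟨√(1 - (δ ^ 2 / 4) ^ 2 / 64), Real.sqrt_nonneg _, ?_, fun ε hε => ?_⟩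
  · rw [Real.sqrt_lt' one_pos]
    have := pow_pos hd0 2
    linarith
  obtain ⟨θ₀, h0, Z, hZ0, hZ, hL, hθ⟩ := cover hc.meas hc.uni
    (measurableSet_le measurable_const (hm.sub hc.meas).norm) hn (lt_min hε hd0)
  refine ⟨θ₀, h0, Z, hZ, hL, fun t ht => (hθ t ht).trans (min_le_left _ _), fun f hf hf0 => ?_⟩
  rw [Real.sq_sqrt hr]
  obtain ⟨b, hbd⟩ : ∃ b, b = adjoint (vm i j) f := ⟨_, rfl⟩
  obtain ⟨g, hgd⟩ : ∃ g, g = f - vm i j b := ⟨_, rfl⟩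
  have e1 : ‖f‖ ^ 2 = ‖b‖ ^ 2 + ‖g‖ ^ 2 := by
    rw [hgd, hbd]
    exact norm_sq_iso hvm.wiso f
  have e2 : Lam i j f = (1 / 4 : ℂ) • g + vm i j b := by
    rw [c1_lam, c1_proj, hf0, map_zero, zero_add, ← hbd, hgd]
    module
  have e3 : inner ℂ ((1 / 4 : ℂ) • g) (vm i j b) = 0 := by
    rw [inner_smul_left, ← adjoint_inner_left, hgd, map_sub, adj_iso hvm.wiso, ← hbd, sub_self,
      inner_zero_left, mul_zero]
  have e14 : ‖(1 / 4 : ℂ)‖ = 1 / 4 := by simp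
  have e4 : ‖Lam i j f‖ ^ 2 = ‖g‖ ^ 2 / 16 + ‖b‖ ^ 2 := by
    rw [e2, sq, norm_add_sq_eq_norm_sq_add_norm_sq_of_inner_eq_zero _ _ e3, hvm.wiso, norm_smul,
      e14]
    ring
  have e5 : adjoint (Lam i j ∘L B) f = adjoint B (Lam i j f) := by
    refine ext_inner_left ℂ fun y => ?_
    rw [adjoint_inner_right, adjoint_inner_right, comp_apply, c1_lam_adj]
  obtain ⟨y, hyd⟩ : ∃ y, y = θ₀ • adjoint (Lam i j ∘L B) f := ⟨_, rfl⟩
  have e6 : ‖y‖ ≤ ‖Lam i j f‖ := by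
    rw [hyd, norm_smul, h0, one_mul, e5]
    simpa using adj_con zero_le_one (S := B) (fun a => by rw [one_mul]; exact hB.con a) (Lam i j f)
  have e7 := pow_le_pow_left₀ (norm_nonneg _) e6 2
  have e8 : inner ℂ f y = inner ℂ (B f) (θ₀ • (1 / 4 : ℂ) • g) +
      inner ℂ (adjoint (vm i j) (B f) - Γ b) (θ₀ • b) + inner ℂ (Γ b) (θ₀ • b) := by
    rw [hyd, e5, inner_sub_left, adjoint_inner_left, inner_smul_right, adjoint_inner_right, e2,
      inner_add_right, map_smul]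
    simp only [inner_smul_right]
    ring
  have e9 : (inner ℂ (B f) (θ₀ • (1 / 4 : ℂ) • g)).re ≤ ‖f‖ * ‖g‖ / 4 := by
    refine (Complex.re_le_norm _).trans ((norm_inner_le_norm _ _).trans ?_)
    rw [norm_smul, norm_smul, h0, e14]
    have := mul_le_mul_of_nonneg_right (hB.con f) (norm_nonneg g)
    linarith
  have hbf : ‖b‖ ≤ ‖f‖ := by
    rw [hbd]
    simpa using adj_con zero_le_one (S := vm i j) (fun a => by rw [hvm.wiso, one_mul]) f
  have e10 : (inner ℂ (adjoint (vm i j) (B f) - Γ b) (θ₀ • b)).re ≤ ‖f‖ * ‖g‖ := by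
    refine (Complex.re_le_norm _).trans ((norm_inner_le_norm _ _).trans ?_)
    rw [norm_smul, h0, one_mul, mul_comm]
    refine mul_le_mul hbf ?_ (norm_nonneg _) (norm_nonneg _)
    rw [hgd, hbd]
    exact hb f hf
  have e11 := c1_int hΓ h1 h0 hZ (d := δ ^ 2 / 4) (fun t ht => c1_re (hc.uni t) (h1 t) hδ0.le
    (hZ0 ht) ((hθ t ht).trans (min_le_right _ _))) b
  have e12 : ‖f + y‖ ^ 2 = ‖f‖ ^ 2 + 2 * (inner ℂ f y).re + ‖y‖ ^ 2 := norm_add_sq (𝕜 := ℂ) f y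
  have e13 : (inner ℂ f y).re ≤ ‖f‖ * ‖y‖ :=
    (Complex.re_le_norm _).trans (norm_inner_le_norm _ _)
  rw [← hbd, ← hyd]
  have hI : 0 ≤ ∫ t in Zᶜ, ‖b t‖ ^ 2 ∂L := integral_nonneg fun t => sq_nonneg _
  refine c1_real (t := ‖g‖) (norm_nonneg f) hd0 hd1 hI ?_ ?_
  · rw [e12, e8, Complex.add_re, Complex.add_re]
    have e15 : (1 - δ ^ 2 / 4) * ‖b‖ ^ 2 ≤ (1 - δ ^ 2 / 4) * ‖f‖ ^ 2 :=
      mul_le_mul_of_nonneg_left (pow_le_pow_left₀ (norm_nonneg _) hbf 2) (by linarith)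
    nlinarith [sq_nonneg ‖g‖]
  · rw [e12]
    nlinarith [sq_nonneg (‖f‖ - ‖y‖), sq_nonneg ‖g‖]

end Pool.Agent.P.MP_f981b0_an.CD
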