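import Pool.Agent.P.MP_f981b0_an.CD.Base

/-! Package Case2: the two multipliers agree. -/

set_option autoImplicit false

open MeasureTheory Filter Topology ContinuousLinearMap
open scoped ComplexConjugate

noncomputable section

namespace Pool.Agent.P.MP_f981b0_an.CD

universe u

variable {M : Type u} [NormedAddCommGroup M] [InnerProductSpace ℂ M] [CompleteSpace M]

section abstract

variable {E : Type} [NormedAddCommGroup E] [InnerProductSpace ℂ E] [CompleteSpace E]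

theorem case2_c_ne : ((√2 : ℝ) : ℂ)⁻¹ ≠ 0 := by
  apply inv_ne_zero
  have : (√2 : ℝ) ≠ 0 := by positivity
  exact_mod_cast this

/-- The two compressions of `B` to the copies of `E`. -/
theorem case2_comp {U Θ : E →L[ℂ] E} {S B : M →L[ℂ] M} {i j : E →L[ℂ] M}
    {Np Nm : Submodule ℂ M} (hΘ : ∀ a, ‖Θ a‖ = ‖a‖) (hs : Function.Surjective Θ)
    (h : Model U Θ S i j Np Nm) (hB : Lifted Θ S (vp i j) Np Nm B) {f : M}
    (hb : adjoint Θ (adjoint (vm i j) (B f)) = adjoint (vm i j) f) :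
    adjoint i (B f) = Θ (adjoint i f) ∧ adjoint j (B f) = Θ (adjoint j f) := by
  have hn : ∀ a : E, ‖i a + j a‖ ^ 2 = 2 * ‖a‖ ^ 2 := by
    intro a
    have h1 := norm_add_sq_eq_norm_sq_add_norm_sq_of_inner_eq_zero (𝕜 := ℂ) (i a) (j a)
      (h.orth a a)
    rw [h.ei.wiso, h.ej.wiso] at h1
    nlinarith
  have hw : ∀ a : E, B (i a + j a) = i (Θ a) + j (Θ a) := by
    intro a
    have h1 := hB.bw a
    simp only [vp, smul_apply, add_apply, map_smul] at h1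
    exact smul_right_injective M case2_c_ne h1
  have hp : ∀ a : E, inner ℂ (i (Θ a)) (B f) + inner ℂ (j (Θ a)) (B f) =
      inner ℂ (i a) f + inner ℂ (j a) f := by
    intro a
    have h1 : ‖B (i a + j a)‖ = ‖i a + j a‖ := by
      rw [hw]
      have h2 : ‖i (Θ a) + j (Θ a)‖ ^ 2 = ‖i a + j a‖ ^ 2 := by rw [hn, hn, hΘ]
      exact (pow_left_inj₀ (norm_nonneg _) (norm_nonneg _) two_ne_zero).1 h2
    have h2 := adj_fix hB.con h1
    rw [← inner_add_left, ← inner_add_left, ← hw, ← adjoint_inner_left, h2]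
  have hm : ∀ a : E, inner ℂ (i (Θ a)) (B f) - inner ℂ (j (Θ a)) (B f) =
      inner ℂ (i a) f - inner ℂ (j a) f := by
    intro a
    have h1 : inner ℂ a (adjoint Θ (adjoint (vm i j) (B f))) =
        inner ℂ a (adjoint (vm i j) f) := by rw [hb]
    rw [adjoint_inner_right, adjoint_inner_right, adjoint_inner_right] at h1
    simp only [vm, smul_apply, sub_apply, inner_smul_left, inner_sub_left] at h1
    have hc : conj (((√2 : ℝ) : ℂ)⁻¹) ≠ 0 := by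
      rw [map_ne_zero]
      exact case2_c_ne
    exact mul_left_cancel₀ hc h1
  have key : ∀ w : E →L[ℂ] M, (∀ a, inner ℂ (w (Θ a)) (B f) = inner ℂ (w a) f) →
      adjoint w (B f) = Θ (adjoint w f) := by
    intro w hw'
    apply ext_inner_left ℂ
    intro b
    obtain ⟨a, rfl⟩ := hs b
    rw [inner_iso hΘ, adjoint_inner_right, adjoint_inner_right, hw']
  refine ⟨key i fun a => ?_, key j fun a => ?_⟩
  · linear_combination (hp a + hm a) / 2
  · linear_combination (hp a - hm a) / 2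

theorem case2_abs {U Θ : E →L[ℂ] E} {S B : M →L[ℂ] M} {i j : E →L[ℂ] M}
    {Np Nm : Submodule ℂ M} (hΘ : ∀ a, ‖Θ a‖ = ‖a‖) (hs : Function.Surjective Θ)
    (hU : Function.Surjective U)
    (h : Model U Θ S i j Np Nm) (hB : Lifted Θ S (vp i j) Np Nm B)
    (hb : ∀ f ∈ Np, adjoint Θ (adjoint (vm i j) (B f)) = adjoint (vm i j) f) :
    ∃ Y : M →L[ℂ] M, (∀ m, ‖Y m‖ ≤ ‖m‖) ∧
      (∀ m ∈ Np ⊓ (adjoint j).ker, Y m ∈ Np ⊓ (adjoint j).ker) ∧
      (∀ m ∈ Np ⊓ (adjoint j).ker, Y (S m) = S (Y m)) ∧ (∀ a, Y (i a) = i (Θ a)) ∧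
      ∀ f, adjoint i f = 0 → ‖adjoint Y f‖ ≤ 1 / 4 * ‖f‖ := by
  set N : Submodule ℂ M := Np ⊓ (adjoint j).ker with hN
  have hmem : ∀ m, m ∈ N ↔ m ∈ Np ∧ adjoint j m = 0 := fun m => Iff.rfl
  obtain ⟨Q, hQ⟩ : ∃ Q : M →L[ℂ] M, ∀ m, Q m = m - i (adjoint i m) :=
    ⟨1 - i ∘L adjoint i, fun m => rfl⟩
  have hii : ∀ a, adjoint i (i a) = a := adj_iso h.ei.wiso
  have hji : ∀ a, adjoint j (i a) = 0 := by
    intro a
    apply ext_inner_right ℂ
    intro b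
    rw [adjoint_inner_left, h.orth, inner_zero_left]
  have hiQ : ∀ m, adjoint i (Q m) = 0 := by
    intro m
    rw [hQ, map_sub, hii, sub_self]
  have hQi : ∀ a, Q (i a) = 0 := by
    intro a
    rw [hQ, hii, sub_self]
  have hQQ : ∀ m, Q (Q m) = Q m := by
    intro m
    rw [hQ (Q m), hiQ, map_zero, sub_zero]
  have hpy : ∀ m, ‖m‖ ^ 2 = ‖adjoint i m‖ ^ 2 + ‖Q m‖ ^ 2 := by
    intro m
    rw [hQ]
    exact norm_sq_iso h.ei.wiso m
  have hQn : ∀ m, ‖Q m‖ ≤ ‖m‖ := by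
    intro m
    apply abs_le_of_sq_le_sq' _ (norm_nonneg _) |>.2
    have := hpy m
    nlinarith [sq_nonneg ‖adjoint i m‖]
  have hc : ∀ m ∈ N, adjoint i (B m) = Θ (adjoint i m) ∧ adjoint j (B m) = 0 := by
    intro m hm
    obtain ⟨h1, h2⟩ := case2_comp hΘ hs h hB (hb m hm.1)
    refine ⟨h1, ?_⟩
    rw [h2, ((hmem m).1 hm).2, map_zero]
  obtain ⟨Y₀, hY₀, hY₁⟩ := doug (F := N) ((Q : M →ₗ[ℂ] M) ∘ₗ N.subtype)
    ((Q : M →ₗ[ℂ] M) ∘ₗ (B : M →ₗ[ℂ] M) ∘ₗ N.subtype) (c := 1) zero_le_one (by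
      intro m
      change ‖Q (B m)‖ ≤ 1 * ‖Q m‖
      rw [one_mul]
      apply abs_le_of_sq_le_sq' _ (norm_nonneg _) |>.2
      have h1 := hpy (B m)
      have h2 := hpy m
      rw [(hc m m.2).1, hΘ] at h1
      have h3 : ‖B m‖ ^ 2 ≤ ‖(m : M)‖ ^ 2 := pow_le_pow_left₀ (norm_nonneg _) (hB.con m) 2
      linarith)
  have hY₂ : ∀ m ∈ N, Y₀ (Q m) = Q (B m) := fun m hm => hY₁ ⟨m, hm⟩
  obtain ⟨Y, hY⟩ : ∃ Y : M →L[ℂ] M, ∀ m,
      Y m = (1 / 4 : ℂ) • Q (Y₀ (Q m)) + i (Θ (adjoint i m)) :=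
    ⟨(1 / 4 : ℂ) • (Q ∘L Y₀ ∘L Q) + i ∘L Θ ∘L adjoint i, fun m => rfl⟩
  have hsm : ∀ m, ‖(1 / 4 : ℂ) • Q (Y₀ (Q m))‖ ≤ 1 / 4 * ‖Q m‖ := by
    intro m
    rw [norm_smul]
    have h1 : ‖(1 / 4 : ℂ)‖ = 1 / 4 := by simp
    rw [h1]
    have h2 := hQn (Y₀ (Q m))
    have h3 := hY₀ (Q m)
    linarith
  have hYN : ∀ m ∈ N, Y m =
      (1 / 4 : ℂ) • B m + (3 / 4 : ℂ) • (i (adjoint i (B m)) + j (adjoint j (B m))) := by
    intro m hm
    rw [hY, hY₂ m hm, hQQ, hQ, (hc m hm).2, map_zero, add_zero, (hc m hm).1]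
    module
  have hSN : ∀ m ∈ N, S m ∈ N := by
    intro m hm
    refine (hmem _).2 ⟨h.op.inv m hm.1, ?_⟩
    rw [h.ej.adj hU, ((hmem m).1 hm).2, map_zero]
  refine ⟨Y, fun m => ?_, fun m hm => ?_, fun m hm => ?_, fun a => ?_, fun f hf => ?_⟩
  · apply abs_le_of_sq_le_sq' _ (norm_nonneg _) |>.2
    have h0 : inner ℂ ((1 / 4 : ℂ) • Q (Y₀ (Q m))) (i (Θ (adjoint i m))) = 0 := by
      rw [← adjoint_inner_left, map_smul, hiQ, smul_zero, inner_zero_left]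
    have h1 := norm_add_sq_eq_norm_sq_add_norm_sq_of_inner_eq_zero (𝕜 := ℂ) _ _ h0
    rw [← hY, h.ei.wiso, hΘ] at h1
    have h2 := hsm m
    have h3 := hpy m
    have h4 := norm_nonneg ((1 / 4 : ℂ) • Q (Y₀ (Q m)))
    have h5 := norm_nonneg (Q m)
    nlinarith
  · refine (hmem _).2 ⟨?_, ?_⟩
    · rw [hYN m hm]
      exact h.lam _ (hB.maps m hm.1)
    · rw [hYN m hm, (hc m hm).2, map_zero, add_zero, map_add, map_smul, map_smul, (hc m hm).2,
        hji, smul_zero, smul_zero, add_zero]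
  · have hh : m ∈ Hull (vp i j) Np := by
      have := mem_hull (w := vp i j) hm.1 0
      rwa [map_zero, add_zero] at this
    rw [hYN _ (hSN m hm), hYN m hm, hB.comm m hh, h.ei.adj hU, h.ej.adj hU, map_add, map_smul,
      map_smul, map_add, h.ei.sw, h.ej.sw]
  · rw [hY, hQi, map_zero, map_zero, smul_zero, zero_add, hii]
  · set g := adjoint Y f with hg
    have h1 : inner ℂ g g = inner ℂ f ((1 / 4 : ℂ) • Q (Y₀ (Q g))) := by
      conv_lhs => rw [hg, adjoint_inner_left, ← hg, hY]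
      rw [inner_add_right, ← adjoint_inner_left i, hf, inner_zero_left, add_zero]
    have h2 : ‖g‖ ^ 2 ≤ ‖f‖ * (1 / 4 * ‖g‖) := by
      have h3 : ‖g‖ ^ 2 = ‖inner ℂ g g‖ := by
        rw [inner_self_eq_norm_sq_to_K]
        simp
      rw [h3, h1]
      refine (norm_inner_le_norm _ _).trans (mul_le_mul_of_nonneg_left ?_ (norm_nonneg _))
      have h4 := hsm g
      have h5 := hQn g
      linarith
    rcases (norm_nonneg g).eq_or_lt with h0 | h0
    · rw [← h0]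
      positivity
    · by_contra hlt
      push Not at hlt
      nlinarith

end abstract

variable {L : Measure X} [IsFiniteMeasure L]

theorem case2 {θ : X → ℂ} {U Θ : K L →L[ℂ] K L} (hc : Circ L θ U Θ) {S B : M →L[ℂ] M}
    {i j : K L →L[ℂ] M} {Np Nm : Submodule ℂ M} (h : Model U Θ S i j Np Nm)
    (hB : Lifted Θ S (vp i j) Np Nm B)
    (hb : ∀ f ∈ Np, adjoint Θ (adjoint (vm i j) (B f)) = adjoint (vm i j) f) :
    ∃ Y : M →L[ℂ] M, Last U Θ θ S i 0 (Np ⊓ (adjoint j).ker) Y := by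
  have hU : Function.Surjective U := hc.mu.surj (norm_fourier 1)
  obtain ⟨Y, h1, h2, h3, h4, h5⟩ :=
    case2_abs (hc.mth.iso hc.uni) (hc.mth.surj hc.uni) hU h hB hb
  refine ⟨Y, h.ei, ⟨?_, fun m hm => ⟨h.op.inv m hm.1, ?_⟩, fun m hm => h.op.pure m fun n => ?_⟩,
    h.absi, h.resi, fun m => by simp, fun m => by simp, fun a => by simp, h1, h2, h3, h4,
    5 / 8, by norm_num, by norm_num, fun ε hε => ?_⟩
  · exact h.op.closed.inter (adjoint j).isClosed_ker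
  · have h6 : adjoint j m = 0 := hm.2
    change adjoint j (S m) = 0
    rw [h.ej.adj hU, h6, map_zero]
  · obtain ⟨m', hm', e⟩ := hm n
    exact ⟨m', hm'.1, e⟩
  · obtain ⟨θ₀, hθ, Z, -, hZ, hZ0, hZε⟩ := cover (L := L) hc.meas hc.uni MeasurableSet.univ
      (by simpa using hc.ne) hε
    refine ⟨θ₀, hθ, Z, hZ, hZ0, hZε, fun f _ hf => ?_⟩
    have h6 : ‖f + θ₀ • adjoint Y f‖ ≤ 5 / 4 * ‖f‖ := by
      have h7 := norm_add_le f (θ₀ • adjoint Y f)
      rw [norm_smul, hθ, one_mul] at h7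
      have h8 := h5 f hf
      linarith
    have h9 : 0 ≤ ∫ t in Zᶜ, ‖(0 : M →L[ℂ] K L) f t‖ ^ 2 ∂L :=
      integral_nonneg fun t => by positivity
    have h10 := pow_le_pow_left₀ (norm_nonneg _) h6 2
    nlinarith

end Pool.Agent.P.MP_f981b0_an.CD
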