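import Pool.Agent.P.MP_f981b0_an.CD.Base

/-! Package Cone: growth on quotients. -/

set_option autoImplicit false

open MeasureTheory Filter Topology ContinuousLinearMap
open scoped ComplexConjugate

noncomputable section

namespace Pool.Agent.P.MP_f981b0_an.CD

universe u

variable {M : Type u} [NormedAddCommGroup M] [InnerProductSpace ℂ M] [CompleteSpace M]

omit [CompleteSpace M] in
theorem cone_le {g : M} {c : ℝ} (hc : 0 ≤ c) (h : ‖g‖ ^ 2 ≤ c * ‖g‖) : ‖g‖ ≤ c := by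
  rcases (norm_nonneg g).eq_or_lt with h0 | h0
  · rw [← h0]; exact hc
  · exact le_of_mul_le_mul_right (by rwa [← sq]) h0

omit [CompleteSpace M] in
theorem cone_sq (g : M) : ‖g‖ ^ 2 = ‖inner ℂ g g‖ := by
  rw [inner_self_eq_norm_sq_to_K]
  simp

theorem cone_adj {Y : M →L[ℂ] M} (hY : ∀ m, ‖Y m‖ ≤ ‖m‖) {e₀ : M} (h1 : ‖e₀‖ = 1) {η : ℝ}
    (hη : 0 ≤ η) (hfix : ‖Y e₀ - e₀‖ ≤ η ^ 2 / 2) : ‖adjoint Y e₀ - e₀‖ ≤ η := by
  have a1 := adj_con zero_le_one (S := Y) (fun x => by simpa using hY x) e₀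
  rw [h1, one_mul] at a1
  have a2 := norm_sub_sq (𝕜 := ℂ) (adjoint Y e₀) e₀
  have a3 : inner ℂ (adjoint Y e₀) e₀ = inner ℂ e₀ (Y e₀ - e₀) + 1 := by
    rw [adjoint_inner_left, inner_sub_right, inner_self_eq_norm_sq_to_K, h1]
    simp
  have a4 : ‖inner ℂ e₀ (Y e₀ - e₀)‖ ≤ η ^ 2 / 2 := by
    refine (norm_inner_le_norm _ _).trans ?_
    rwa [h1, one_mul]
  have a5 := (abs_le.1 ((Complex.abs_re_le_norm _).trans a4)).1
  rw [a3, h1, map_add] at a2
  simp only [RCLike.re_to_complex, Complex.one_re] at a2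
  refine (pow_le_pow_iff_left₀ (norm_nonneg _) hη two_ne_zero).1 ?_
  nlinarith [norm_nonneg (adjoint Y e₀)]

theorem cone {Y : M →L[ℂ] M} (hY : ∀ m, ‖Y m‖ ≤ ‖m‖) {A N : Submodule ℂ M}
    (hA : IsClosed (A : Set M)) (hN : IsClosed (N : Set M)) (hAN : A ≤ N)
    (iA : ∀ m ∈ A, Y m ∈ A) (iN : ∀ m ∈ N, Y m ∈ N) {e₀ : M} (h0 : e₀ ∈ N) (h0' : e₀ ∈ Aᗮ)
    (h1 : ‖e₀‖ = 1) {η ρ : ℝ} (hη : 0 ≤ η) (hρ : 0 ≤ ρ) (hc : η + ρ ≤ 1 - 2 * η)
    (hfix : ‖Y e₀ - e₀‖ ≤ η ^ 2 / 2)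
    (hgap : ∀ e ∈ N, e ∈ Aᗮ → inner ℂ e₀ e = 0 → ‖adjoint Y e‖ ≤ ρ * ‖e‖) (n : ℕ) :
    ∀ a ∈ A, (1 - 2 * η) ^ n ≤ ‖(Y ^ n) e₀ - a‖ := by
  have _ := hN
  have : CompleteSpace A := hA.completeSpace_coe
  have hadj := cone_adj hY h1 hη hfix
  have hfix' : ‖Y e₀ - e₀‖ ≤ η := hfix.trans (by nlinarith)
  have h11 : inner ℂ e₀ e₀ = 1 := by
    rw [inner_self_eq_norm_sq_to_K, h1]
    simp
  have hA0 : ∀ a ∈ A, ∀ e ∈ Aᗮ, inner ℂ e a = 0 := fun a ha e he =>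
    Submodule.inner_left_of_mem_orthogonal ha he
  have key : ∃ (s : ℂ) (e a : M), e ∈ N ∧ e ∈ Aᗮ ∧ inner ℂ e₀ e = 0 ∧ a ∈ A ∧
      (Y ^ n) e₀ = a + s • e₀ + e ∧ ‖e‖ ≤ ‖s‖ ∧ (1 - 2 * η) ^ n ≤ ‖s‖ := by
    induction n with
    | zero => exact ⟨1, 0, 0, N.zero_mem, Aᗮ.zero_mem, by simp, A.zero_mem, by simp, by simp,
        by simp⟩
    | succ n ih =>
      obtain ⟨s, e, a, e1, e2, e3, ha, hu, b1, b2⟩ := ih
      obtain ⟨u, hud⟩ : ∃ u, u = Y a + s • Y e₀ + Y e := ⟨_, rfl⟩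
      have hu' : (Y ^ (n + 1)) e₀ = u := by
        rw [pow_succ', mul_apply_eq_comp, hu, map_add, map_add, map_smul, hud]
      have huN : u ∈ N := by
        rw [hud]
        exact N.add_mem (N.add_mem (iN _ (hAN ha)) (N.smul_mem _ (iN _ h0))) (iN _ e1)
      obtain ⟨a', ha', v, hv, huv⟩ := A.exists_add_mem_mem_orthogonal u
      obtain ⟨s', hs'⟩ : ∃ s', s' = inner ℂ e₀ u := ⟨_, rfl⟩
      obtain ⟨e', he'⟩ : ∃ e', e' = v - s' • e₀ := ⟨_, rfl⟩
      have hvN : v ∈ N := by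
        have : v = u - a' := by rw [huv]; abel
        rw [this]
        exact N.sub_mem huN (hAN ha')
      have f1 : e' ∈ N := he' ▸ N.sub_mem hvN (N.smul_mem _ h0)
      have f2 : e' ∈ Aᗮ := he' ▸ Aᗮ.sub_mem hv (Aᗮ.smul_mem _ h0')
      have f3 : inner ℂ e₀ e' = 0 := by
        rw [he', inner_sub_right, inner_smul_right, h11, hs', huv, inner_add_right,
          hA0 a' ha' e₀ h0']
        ring
      have f3' : inner ℂ e' e₀ = 0 := inner_eq_zero_symm.1 f3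
      have f4 : u = a' + s' • e₀ + e' := by rw [he', huv]; abel
      have g1 : s = s' - (s * inner ℂ e₀ (Y e₀ - e₀) + inner ℂ (adjoint Y e₀ - e₀) e) := by
        rw [hs', hud, inner_add_right, inner_add_right, hA0 _ (iA a ha) e₀ h0', inner_smul_right,
          inner_sub_right, inner_sub_left, adjoint_inner_left, h11, e3]
        ring
      have g2 : ‖s‖ ≤ ‖s'‖ + (‖s‖ * η + η * ‖s‖) := by
        conv_lhs => rw [g1]
        refine (norm_sub_le _ _).trans (add_le_add le_rfl ((norm_add_le _ _).trans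
          (add_le_add ?_ ?_)))
        · rw [norm_mul]
          refine mul_le_mul_of_nonneg_left ((norm_inner_le_norm _ _).trans ?_) (norm_nonneg _)
          rwa [h1, one_mul]
        · exact (norm_inner_le_norm _ _).trans (mul_le_mul hadj b1 (norm_nonneg _) hη)
      have g3 : inner ℂ e' e' = s * inner ℂ e' (Y e₀ - e₀) + inner ℂ (adjoint Y e') e := by
        have t1 : inner ℂ e' u = inner ℂ e' e' := by
          rw [f4, inner_add_right, inner_add_right, hA0 a' ha' e' f2, inner_smul_right, f3']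
          ring
        rw [← t1, hud, inner_add_right, inner_add_right, hA0 _ (iA a ha) e' f2, inner_smul_right,
          inner_sub_right, f3', adjoint_inner_left]
        ring
      have g4 : ‖e'‖ ≤ (η + ρ) * ‖s‖ := by
        refine cone_le (by positivity) ?_
        rw [cone_sq, g3]
        have t1 : ‖s * inner ℂ e' (Y e₀ - e₀)‖ ≤ ‖s‖ * (‖e'‖ * η) := by
          rw [norm_mul]
          exact mul_le_mul_of_nonneg_left ((norm_inner_le_norm _ _).trans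
            (mul_le_mul_of_nonneg_left hfix' (norm_nonneg _))) (norm_nonneg _)
        have t2 : ‖inner ℂ (adjoint Y e') e‖ ≤ ρ * ‖e'‖ * ‖s‖ :=
          (norm_inner_le_norm _ _).trans
            (mul_le_mul (hgap e' f1 f2 f3) b1 (norm_nonneg _) (by positivity))
        refine (norm_add_le _ _).trans ((add_le_add t1 t2).trans (le_of_eq (by ring)))
      have g5 : (1 - 2 * η) * ‖s‖ ≤ ‖s'‖ := by linarith
      refine ⟨s', e', a', f1, f2, f3, ha', hu'.trans f4,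
        g4.trans ((mul_le_mul_of_nonneg_right hc (norm_nonneg _)).trans g5), ?_⟩
      rw [pow_succ']
      exact (mul_le_mul_of_nonneg_left b2 (by linarith)).trans g5
  obtain ⟨s, e, a, -, -, e3, ha, hu, -, b2⟩ := key
  intro a0 ha0
  have t1 : inner ℂ e₀ ((Y ^ n) e₀ - a0) = s := by
    rw [hu, inner_sub_right, inner_add_right, inner_add_right, hA0 a ha e₀ h0',
      hA0 a0 ha0 e₀ h0', inner_smul_right, h11, e3]
    ring
  have t2 := norm_inner_le_norm (𝕜 := ℂ) e₀ ((Y ^ n) e₀ - a0)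
  rw [t1, h1, one_mul] at t2
  exact b2.trans t2

theorem grow {Y : M →L[ℂ] M} {R N : Submodule ℂ M} (hR : IsClosed (R : Set M))
    (hRN : R ≤ N) (iR : ∀ m ∈ R, Y m ∈ R) (iN : ∀ m ∈ N, Y m ∈ N) {ρ : ℝ} (hρ : 0 ≤ ρ)
    (hgap : ∀ g ∈ N, g ∈ Rᗮ → ‖adjoint Y g‖ ≤ ρ * ‖g‖) (n : ℕ) :
    ∀ f ∈ N, ∃ r ∈ R, ‖(Y ^ n) f - r‖ ≤ ρ ^ n * ‖f‖ := by
  have : CompleteSpace R := hR.completeSpace_coe
  intro f hf
  have hn : ∀ k : ℕ, (Y ^ k) f ∈ N := by
    intro k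
    induction k with
    | zero => exact hf
    | succ k ih => rw [pow_succ', mul_apply_eq_comp]; exact iN _ ih
  induction n with
  | zero => exact ⟨0, R.zero_mem, by simp⟩
  | succ n ih =>
    obtain ⟨r, hr, hb⟩ := ih
    obtain ⟨r', hr', g, hg, huv⟩ := R.exists_add_mem_mem_orthogonal ((Y ^ (n + 1)) f)
    have hg' : (Y ^ (n + 1)) f - r' = g := by rw [huv]; abel
    have hgN : g ∈ N := hg' ▸ N.sub_mem (hn _) (hRN hr')
    refine ⟨r', hr', ?_⟩
    rw [hg']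
    refine cone_le (by positivity) ?_
    have t1 : inner ℂ g g = inner ℂ (adjoint Y g) ((Y ^ n) f - r) := by
      have t2 : Y ((Y ^ n) f) = r' + g := by rw [← huv, pow_succ', mul_apply_eq_comp]
      rw [adjoint_inner_left, map_sub, t2, inner_sub_right, inner_add_right,
        Submodule.inner_left_of_mem_orthogonal hr' hg,
        Submodule.inner_left_of_mem_orthogonal (iR r hr) hg]
      ring
    rw [cone_sq, t1]
    refine (norm_inner_le_norm _ _).trans ((mul_le_mul (hgap g hgN hg) hb (norm_nonneg _)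
      (by positivity)).trans (le_of_eq (by ring)))

variable {E : Type} [NormedAddCommGroup E] [InnerProductSpace ℂ E] [CompleteSpace E]

theorem iota {U : E →L[ℂ] E} {S : M →L[ℂ] M} {w : E →L[ℂ] M} (he : Emb U S w)
    (hs : Function.Surjective U) {N : Submodule ℂ M} (hN : Out S N) (hr : Res U w N) {z : ℂ}
    (hz : ‖z‖ < 1) :
    ∃ C : ℝ, 0 ≤ C ∧ ∀ f ∈ N, ∀ r ∈ Hull w (Sh S z N), ∀ ε : ℝ, 0 < ε →
      ∃ a ∈ Sh S z N, ‖f - a‖ ≤ C * (‖f - r‖ + ε) := by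
  obtain ⟨C, hC⟩ := hr z hz
  have hU : ∀ a, ‖U a‖ = ‖a‖ := fun a => by rw [← he.wiso, ← he.sw, he.iso, he.wiso]
  obtain ⟨V, hV⟩ := unit_sub hU hs hz
  refine ⟨1 + 2 * |C|, by positivity, fun f hf r hr ε hε => ?_⟩
  obtain ⟨r', hr', hd⟩ := Metric.mem_closure_iff.1 hr ε hε
  obtain ⟨_, ⟨l, hl, rfl⟩, _, ⟨a, rfl⟩, rfl⟩ := Submodule.mem_sup.1 hr'
  obtain ⟨a', ha'⟩ : ∃ a', U a' - z • a' = a := by
    refine ⟨(V⁻¹ : (E →L[ℂ] E)ˣ).1 a, ?_⟩
    have := congrArg (fun T : E →L[ℂ] E => T a) V.mul_inv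
    rw [hV] at this
    exact this
  have hm : f - (S l - z • l) ∈ N := N.sub_mem hf (N.sub_mem (hN.inv l hl) (N.smul_mem _ hl))
  obtain ⟨m', hm', hb⟩ := hC a' _ hm
  have d1 : ‖w a - (f - (S l - z • l))‖ ≤ ‖f - r‖ + ε := by
    have e : w a - (f - (S l - z • l)) = (S l - z • l + w a - r) - (f - r) := by abel
    rw [e]
    refine (norm_sub_le _ _).trans ?_
    rw [dist_eq_norm, norm_sub_rev] at hd
    have hd' : ‖S l - z • l + w a - r‖ < ε := hd
    linarith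
  rw [ha'] at hb
  have d2 : ‖w a' - m'‖ ≤ |C| * (‖f - r‖ + ε) :=
    hb.trans (mul_le_mul (le_abs_self C) d1 (norm_nonneg _) (abs_nonneg C))
  refine ⟨_, ⟨l + m', N.add_mem hl hm', rfl⟩, ?_⟩
  change ‖f - (S (l + m') - z • (l + m'))‖ ≤ _
  have e : f - (S (l + m') - z • (l + m')) =
      (S (w a' - m') - z • (w a' - m')) - (w a - (f - (S l - z • l))) := by
    rw [← ha', map_sub, map_sub, map_add, he.sw, map_smul, smul_add, smul_sub]
    abel
  have d3 : ‖S (w a' - m') - z • (w a' - m')‖ ≤ 2 * ‖w a' - m'‖ := by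
    refine (norm_sub_le _ _).trans ?_
    rw [he.iso, norm_smul]
    nlinarith [norm_nonneg (w a' - m')]
  rw [e]
  refine (norm_sub_le _ _).trans ?_
  nlinarith

end Pool.Agent.P.MP_f981b0_an.CD
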