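import Pool.Agent.P.MP_f981b0_an.CD.Base

/-! Package Double: the sum of two liftings. -/

set_option autoImplicit false

open MeasureTheory Filter Topology ContinuousLinearMap
open scoped ComplexConjugate

noncomputable section

namespace Pool.Agent.P.MP_f981b0_an.CD

universe u

variable {H : Type u} [NormedAddCommGroup H] [InnerProductSpace ℂ H] [CompleteSpace H]

variable {E : Type} [NormedAddCommGroup E] [InnerProductSpace ℂ E] [CompleteSpace E]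

section aux

variable {M₁ : Type u} [NormedAddCommGroup M₁] [InnerProductSpace ℂ M₁]
  {M₂ : Type u} [NormedAddCommGroup M₂] [InnerProductSpace ℂ M₂]

/-- The sum of two operators. -/
def dblS (S₁ : M₁ →L[ℂ] M₁) (S₂ : M₂ →L[ℂ] M₂) : WithLp 2 (M₁ × M₂) →L[ℂ] WithLp 2 (M₁ × M₂) :=
  ((WithLp.prodContinuousLinearEquiv 2 ℂ M₁ M₂).symm : M₁ × M₂ →L[ℂ] WithLp 2 (M₁ × M₂)) ∘L
    (S₁.prodMap S₂) ∘L
      (WithLp.prodContinuousLinearEquiv 2 ℂ M₁ M₂ : WithLp 2 (M₁ × M₂) →L[ℂ] M₁ × M₂)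

/-- A pair of maps, as a map into the sum. -/
def dblI (i₁ : E →L[ℂ] M₁) (i₂ : E →L[ℂ] M₂) : E →L[ℂ] WithLp 2 (M₁ × M₂) :=
  ((WithLp.prodContinuousLinearEquiv 2 ℂ M₁ M₂).symm : M₁ × M₂ →L[ℂ] WithLp 2 (M₁ × M₂)) ∘L
    i₁.prod i₂

/-- The sum of two subspaces. -/
def dblN (N₁ : Submodule ℂ M₁) (N₂ : Submodule ℂ M₂) : Submodule ℂ (WithLp 2 (M₁ × M₂)) :=
  (N₁.prod N₂).comap
    ((WithLp.prodContinuousLinearEquiv 2 ℂ M₁ M₂ : WithLp 2 (M₁ × M₂) →L[ℂ] M₁ × M₂) :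
      WithLp 2 (M₁ × M₂) →ₗ[ℂ] M₁ × M₂)

theorem dbl_mem {N₁ : Submodule ℂ M₁} {N₂ : Submodule ℂ M₂} {m : WithLp 2 (M₁ × M₂)} :
    m ∈ dblN N₁ N₂ ↔ m.fst ∈ N₁ ∧ m.snd ∈ N₂ := Iff.rfl

theorem dblS_fst (S₁ : M₁ →L[ℂ] M₁) (S₂ : M₂ →L[ℂ] M₂) (m : WithLp 2 (M₁ × M₂)) :
    (dblS S₁ S₂ m).fst = S₁ m.fst := rfl

theorem dblS_snd (S₁ : M₁ →L[ℂ] M₁) (S₂ : M₂ →L[ℂ] M₂) (m : WithLp 2 (M₁ × M₂)) :
    (dblS S₁ S₂ m).snd = S₂ m.snd := rfl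

omit [CompleteSpace E] in
theorem dblI_fst (i₁ : E →L[ℂ] M₁) (i₂ : E →L[ℂ] M₂) (a : E) : (dblI i₁ i₂ a).fst = i₁ a := rfl

omit [CompleteSpace E] in
theorem dblI_snd (i₁ : E →L[ℂ] M₁) (i₂ : E →L[ℂ] M₂) (a : E) : (dblI i₁ i₂ a).snd = i₂ a := rfl

omit [InnerProductSpace ℂ M₁] [InnerProductSpace ℂ M₂] in
theorem dbl_ext {m m' : WithLp 2 (M₁ × M₂)} (h₁ : m.fst = m'.fst) (h₂ : m.snd = m'.snd) :
    m = m' := WithLp.ofLp_injective 2 (Prod.ext h₁ h₂)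

theorem dblS_pow (S₁ : M₁ →L[ℂ] M₁) (S₂ : M₂ →L[ℂ] M₂) (n : ℕ) (m : WithLp 2 (M₁ × M₂)) :
    ((dblS S₁ S₂ ^ n) m).fst = (S₁ ^ n) m.fst ∧ ((dblS S₁ S₂ ^ n) m).snd = (S₂ ^ n) m.snd := by
  induction n with
  | zero => exact ⟨rfl, rfl⟩
  | succ n ih =>
    simp only [pow_succ', mul_apply_eq_comp]
    rw [dblS_fst, dblS_snd, ih.1, ih.2]
    exact ⟨rfl, rfl⟩

omit [InnerProductSpace ℂ M₁] [InnerProductSpace ℂ M₂] in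
theorem dbl_norm_of_snd {m : WithLp 2 (M₁ × M₂)} (h : m.snd = 0) : ‖m‖ = ‖m.fst‖ := by
  have h1 := WithLp.prod_norm_sq_eq_of_L2 m
  rw [h, norm_zero] at h1
  exact (pow_left_inj₀ (norm_nonneg _) (norm_nonneg _) two_ne_zero).1 (by rw [h1]; ring)

omit [InnerProductSpace ℂ M₁] [InnerProductSpace ℂ M₂] in
theorem dbl_norm_of_fst {m : WithLp 2 (M₁ × M₂)} (h : m.fst = 0) : ‖m‖ = ‖m.snd‖ := by
  have h1 := WithLp.prod_norm_sq_eq_of_L2 m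
  rw [h, norm_zero] at h1
  exact (pow_left_inj₀ (norm_nonneg _) (norm_nonneg _) two_ne_zero).1 (by rw [h1]; ring)

omit [InnerProductSpace ℂ M₁] [InnerProductSpace ℂ M₂] in
theorem dbl_fst_le (m : WithLp 2 (M₁ × M₂)) : ‖m.fst‖ ≤ ‖m‖ := by
  refine (pow_le_pow_iff_left₀ (norm_nonneg _) (norm_nonneg _) two_ne_zero).1 ?_
  rw [WithLp.prod_norm_sq_eq_of_L2 m]
  exact le_add_of_nonneg_right (sq_nonneg _)

omit [InnerProductSpace ℂ M₁] [InnerProductSpace ℂ M₂] in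
theorem dbl_snd_le (m : WithLp 2 (M₁ × M₂)) : ‖m.snd‖ ≤ ‖m‖ := by
  refine (pow_le_pow_iff_left₀ (norm_nonneg _) (norm_nonneg _) two_ne_zero).1 ?_
  rw [WithLp.prod_norm_sq_eq_of_L2 m]
  exact le_add_of_nonneg_left (sq_nonneg _)

omit [InnerProductSpace ℂ M₁] [InnerProductSpace ℂ M₂] in
theorem dbl_le_add (m : WithLp 2 (M₁ × M₂)) : ‖m‖ ≤ ‖m.fst‖ + ‖m.snd‖ := by
  refine (pow_le_pow_iff_left₀ (norm_nonneg _) (by positivity) two_ne_zero).1 ?_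
  rw [WithLp.prod_norm_sq_eq_of_L2 m]
  nlinarith [norm_nonneg m.fst, norm_nonneg m.snd]

theorem dbl_iso {S₁ : M₁ →L[ℂ] M₁} {S₂ : M₂ →L[ℂ] M₂} (h₁ : ∀ m, ‖S₁ m‖ = ‖m‖)
    (h₂ : ∀ m, ‖S₂ m‖ = ‖m‖) (m : WithLp 2 (M₁ × M₂)) : ‖dblS S₁ S₂ m‖ = ‖m‖ := by
  refine (pow_left_inj₀ (norm_nonneg _) (norm_nonneg _) two_ne_zero).1 ?_
  rw [WithLp.prod_norm_sq_eq_of_L2, WithLp.prod_norm_sq_eq_of_L2, dblS_fst, dblS_snd, h₁, h₂]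

theorem dbl_out {S₁ : M₁ →L[ℂ] M₁} {S₂ : M₂ →L[ℂ] M₂} {N₁ : Submodule ℂ M₁}
    {N₂ : Submodule ℂ M₂} (h₁ : Out S₁ N₁) (h₂ : Out S₂ N₂) : Out (dblS S₁ S₂) (dblN N₁ N₂) where
  closed := (h₁.closed.prod h₂.closed).preimage
    (WithLp.prodContinuousLinearEquiv 2 ℂ M₁ M₂).continuous
  inv := fun m hm => ⟨h₁.inv _ hm.1, h₂.inv _ hm.2⟩
  pure := fun m hm => by
    refine dbl_ext (h₁.pure _ fun n => ?_) (h₂.pure _ fun n => ?_)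
    · obtain ⟨m', hm', rfl⟩ := hm n
      exact ⟨m'.fst, hm'.1, (dblS_pow S₁ S₂ n m').1⟩
    · obtain ⟨m', hm', rfl⟩ := hm n
      exact ⟨m'.snd, hm'.2, (dblS_pow S₁ S₂ n m').2⟩

variable [CompleteSpace M₁] [CompleteSpace M₂]

theorem dbl_adj (i₁ : E →L[ℂ] M₁) (i₂ : E →L[ℂ] M₂) (m : WithLp 2 (M₁ × M₂)) :
    adjoint (dblI i₁ i₂) m = adjoint i₁ m.fst + adjoint i₂ m.snd := by
  refine ext_inner_right ℂ fun a => ?_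
  rw [adjoint_inner_left, inner_add_left, adjoint_inner_left, adjoint_inner_left,
    WithLp.prod_inner_apply]
  rfl

end aux

theorem double {U Θ : E →L[ℂ] E} {V V' : Submodule ℂ (H × E)} (h6 : C6 Θ V V')
    {M₁ : Type u} [NormedAddCommGroup M₁] [InnerProductSpace ℂ M₁] [CompleteSpace M₁]
    {M₂ : Type u} [NormedAddCommGroup M₂] [InnerProductSpace ℂ M₂] [CompleteSpace M₂]
    {S₁ : M₁ →L[ℂ] M₁} {i₁ : E →L[ℂ] M₁} {P₁ N₁ : Submodule ℂ M₁} (h₁ : Half U V S₁ i₁ P₁ N₁)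
    {S₂ : M₂ →L[ℂ] M₂} {i₂ : E →L[ℂ] M₂} {P₂ N₂ : Submodule ℂ M₂} (h₂ : Half U V' S₂ i₂ P₂ N₂) :
    ∃ (M : Type u) (_ : NormedAddCommGroup M) (_ : InnerProductSpace ℂ M) (_ : CompleteSpace M)
      (S : M →L[ℂ] M) (i j : E →L[ℂ] M) (Np Nm : Submodule ℂ M), Model U Θ S i j Np Nm := by
  have hi : ∀ m : WithLp 2 (M₁ × M₂), adjoint (dblI i₁ (0 : E →L[ℂ] M₂)) m = adjoint i₁ m.fst :=
    fun m => by rw [dbl_adj, map_zero, zero_apply, add_zero]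
  have hj : ∀ m : WithLp 2 (M₁ × M₂), adjoint (dblI (0 : E →L[ℂ] M₁) i₂) m = adjoint i₂ m.snd :=
    fun m => by rw [dbl_adj, map_zero, zero_apply, zero_add]
  have hv : dblI i₁ (0 : E →L[ℂ] M₂) + dblI (0 : E →L[ℂ] M₁) i₂ = dblI i₁ i₂ := by
    ext1 a
    exact dbl_ext (add_zero (i₁ a)) (zero_add (i₂ a))
  have hk : ∀ x ∈ P₁, (WithLp.toLp 2 (x, (0 : M₂)) : WithLp 2 (M₁ × M₂)) ∈
      dblN P₁ P₂ ⊓ (adjoint (dblI (0 : E →L[ℂ] M₁) i₂)).ker := fun x hx =>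
    ⟨⟨hx, P₂.zero_mem⟩, (hj _).trans (map_zero _)⟩
  refine ⟨WithLp 2 (M₁ × M₂), inferInstance, inferInstance, inferInstance, dblS S₁ S₂, dblI i₁ 0,
    dblI 0 i₂, dblN P₁ P₂, dblN N₁ N₂, ?_⟩
  refine
    { ei := ⟨dbl_iso h₁.emb.iso h₂.emb.iso, fun a => ?_, fun a => ?_⟩
      ej := ⟨dbl_iso h₁.emb.iso h₂.emb.iso, fun a => ?_, fun a => ?_⟩
      orth := fun a a' => ?_
      op := dbl_out h₁.op h₂.op
      om := dbl_out h₁.om h₂.om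
      lam := fun m hm => ?_
      absi := fun a ε hε => ?_
      absj := fun a ε hε => ?_
      resi := fun z hz => ?_
      resv := fun z hz => ?_
      dist := fun a m hm ε hε => ?_ }
  · exact (dbl_norm_of_snd rfl).trans (h₁.emb.wiso a)
  · exact dbl_ext (h₁.emb.sw a) (map_zero S₂)
  · exact (dbl_norm_of_fst rfl).trans (h₂.emb.wiso a)
  · exact dbl_ext (map_zero S₁) (h₂.emb.sw a)
  · rw [WithLp.prod_inner_apply]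
    change inner ℂ (i₁ a) (0 : M₁) + inner ℂ (0 : M₂) (i₂ a') = 0
    rw [inner_zero_right, inner_zero_left, add_zero]
  · rw [hi, hj, dbl_mem]
    constructor
    · change (1 / 4 : ℂ) • m.fst + (3 / 4 : ℂ) • (i₁ (adjoint i₁ m.fst) + 0) ∈ P₁
      rw [add_zero]
      exact h₁.lam _ hm.1
    · change (1 / 4 : ℂ) • m.snd + (3 / 4 : ℂ) • (0 + i₂ (adjoint i₂ m.snd)) ∈ P₂
      rw [zero_add]
      exact h₂.lam _ hm.2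
  · filter_upwards [h₁.abs a ε hε] with n ⟨x, hx, hn⟩
    refine ⟨_, hk x hx, (dbl_norm_of_snd ?_).trans_le hn⟩
    exact sub_zero (0 : M₂)
  · filter_upwards [h₂.abs a ε hε] with n ⟨x, hx, hn⟩
    refine ⟨WithLp.toLp 2 ((0 : M₁), x), ⟨P₁.zero_mem, hx⟩, (dbl_norm_of_fst ?_).trans_le hn⟩
    exact sub_zero (0 : M₁)
  · obtain ⟨C, hC⟩ := h₁.res z hz
    refine ⟨|C|, fun a m hm => ?_⟩
    obtain ⟨x, hx, hn⟩ := hC a m.fst hm.1.1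
    refine ⟨_, hk x hx, (dbl_norm_of_snd ?_).trans_le (hn.trans ?_)⟩
    · exact sub_zero (0 : M₂)
    · exact mul_le_mul (le_abs_self C) (dbl_fst_le (dblI i₁ 0 (U a - z • a) - m)) (norm_nonneg _)
        (abs_nonneg C)
  · obtain ⟨C, hC⟩ := h₁.res z hz
    obtain ⟨D, hD⟩ := h₂.res z hz
    rw [hv]
    refine ⟨|C| + |D|, fun a m hm => ?_⟩
    obtain ⟨x, hx, hn⟩ := hC a m.fst hm.1
    obtain ⟨y, hy, hn'⟩ := hD a m.snd hm.2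
    refine ⟨WithLp.toLp 2 (x, y), ⟨hx, hy⟩, (dbl_le_add _).trans ?_⟩
    rw [add_mul]
    refine add_le_add (hn.trans ?_) (hn'.trans ?_)
    · exact mul_le_mul (le_abs_self C) (dbl_fst_le (dblI i₁ i₂ (U a - z • a) - m)) (norm_nonneg _)
        (abs_nonneg C)
    · exact mul_le_mul (le_abs_self D) (dbl_snd_le (dblI i₁ i₂ (U a - z • a) - m)) (norm_nonneg _)
        (abs_nonneg D)
  · rw [hv]
    obtain ⟨p, hp, h1⟩ := h₁.lo m.fst hm.1 a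
    obtain ⟨p', hp', h2⟩ := h₂.lo m.snd hm.2 a
    obtain ⟨q, hq, q', hq', h3⟩ := h6 a p hp p' hp' (ε ^ 2) (by positivity)
    obtain ⟨x, hx, h4⟩ := h₁.up q hq (Θ a)
    obtain ⟨y, hy, h5⟩ := h₂.up q' hq' (Θ a)
    refine ⟨WithLp.toLp 2 (x, y), ⟨hx, hy⟩, ?_⟩
    have e1 : ‖dblI i₁ i₂ (Θ a) - WithLp.toLp 2 (x, y)‖ ^ 2 =
        ‖i₁ (Θ a) - x‖ ^ 2 + ‖i₂ (Θ a) - y‖ ^ 2 := WithLp.prod_norm_sq_eq_of_L2 _
    have e2 : ‖dblI i₁ i₂ a - m‖ ^ 2 = ‖i₁ a - m.fst‖ ^ 2 + ‖i₂ a - m.snd‖ ^ 2 :=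
      WithLp.prod_norm_sq_eq_of_L2 _
    refine (pow_le_pow_iff_left₀ (norm_nonneg _) (by positivity) two_ne_zero).1 ?_
    have e3 : 0 ≤ ‖dblI i₁ i₂ a - m‖ * ε := by positivity
    rw [e1, add_sq, e2]
    linarith

end Pool.Agent.P.MP_f981b0_an.CD
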