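import Pool.Agent.P.MP_f981b0_an.CD.Rinv

/-! Package Dual1: the two systems. -/

set_option autoImplicit false

open MeasureTheory Filter Topology ContinuousLinearMap
open scoped ComplexConjugate

noncomputable section

namespace Pool.Agent.P.MP_f981b0_an.CD

universe u

variable {H : Type u} [NormedAddCommGroup H] [InnerProductSpace ℂ H] [CompleteSpace H]

variable {L : Measure X} [IsFiniteMeasure L]

omit [IsFiniteMeasure L] in
theorem exists_conj : ∃ C : H → H, Conj C := by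
  obtain ⟨w, b, -⟩ := exists_hilbertBasis ℂ H
  refine ⟨fun x => b.repr.symm (star (b.repr x)), fun x y => ?_, fun c x => ?_, fun x => ?_,
    fun x y => ?_⟩
  · rw [map_add, star_add, map_add]
  · rw [map_smul, star_smul, map_smul]
    rfl
  · rw [LinearIsometryEquiv.apply_symm_apply, star_star, LinearIsometryEquiv.symm_apply_apply]
  · rw [LinearIsometryEquiv.inner_map_map, ← b.repr.inner_map_map y x, lp.inner_eq_tsum,
      lp.inner_eq_tsum]
    refine tsum_congr fun i => ?_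
    simp [mul_comm]

section cjg

omit [CompleteSpace H] in
theorem dual1_norm {C : H → H} (hC : Conj C) (x : H) : ‖C x‖ = ‖x‖ := by
  have h := hC.inner x x
  rw [inner_self_eq_norm_sq_to_K, inner_self_eq_norm_sq_to_K] at h
  have h2 : ‖C x‖ ^ 2 = ‖x‖ ^ 2 := by exact_mod_cast h
  exact (pow_left_inj₀ (norm_nonneg _) (norm_nonneg _) two_ne_zero).1 h2

omit [CompleteSpace H] in
theorem dual1_sub {C : H → H} (hC : Conj C) (x y : H) : C (x - y) = C x - C y := by
  rw [eq_sub_iff_add_eq, ← hC.add, sub_add_cancel]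

omit [CompleteSpace H] in
theorem dual1_zero {C : H → H} (hC : Conj C) : C 0 = 0 := by
  rw [← norm_eq_zero, dual1_norm hC, norm_zero]

omit [CompleteSpace H] in
theorem dual1_cont {C : H → H} (hC : Conj C) : Continuous C :=
  (Isometry.of_dist_eq fun x y => by
    rw [dist_eq_norm, dist_eq_norm, ← dual1_sub hC, dual1_norm hC]).continuous

/-- The conjugate of an operator. -/
def dual1_cj {C : H → H} (hC : Conj C) (A : H →L[ℂ] H) : H →L[ℂ] H where
  toFun x := C (A (C x))
  map_add' x y := by rw [hC.add, map_add, hC.add]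
  map_smul' c x := by rw [hC.smul, map_smul, hC.smul, Complex.conj_conj, RingHom.id_apply]
  cont := (dual1_cont hC).comp (A.continuous.comp (dual1_cont hC))

omit [CompleteSpace H] in
theorem dual1_cj_apply {C : H → H} (hC : Conj C) (A : H →L[ℂ] H) (x : H) :
    dual1_cj hC A x = C (A (C x)) := rfl

omit [CompleteSpace H] in
theorem dual1_cj_mul {C : H → H} (hC : Conj C) (A B : H →L[ℂ] H) :
    dual1_cj hC (A * B) = dual1_cj hC A * dual1_cj hC B := by
  ext x
  change C (A (B (C x))) = C (A (C (C (B (C x)))))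
  rw [hC.invol]

omit [CompleteSpace H] in
theorem dual1_cj_one {C : H → H} (hC : Conj C) : dual1_cj hC 1 = 1 := by
  ext x
  exact hC.invol x

omit [CompleteSpace H] in
theorem dual1_cj_pow {C : H → H} (hC : Conj C) (A : H →L[ℂ] H) (n : ℕ) :
    dual1_cj hC A ^ n = dual1_cj hC (A ^ n) := by
  induction n with
  | zero => rw [pow_zero, pow_zero, dual1_cj_one]
  | succ n ih => rw [pow_succ, pow_succ, dual1_cj_mul, ih]

omit [CompleteSpace H] in
theorem dual1_cj_unit {C : H → H} (hC : Conj C) {A : H →L[ℂ] H} (h : IsUnit A) :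
    IsUnit (dual1_cj hC A) := by
  obtain ⟨A, rfl⟩ := h
  exact ⟨⟨dual1_cj hC A, dual1_cj hC ↑A⁻¹, by rw [← dual1_cj_mul, A.mul_inv, dual1_cj_one],
    by rw [← dual1_cj_mul, A.inv_mul, dual1_cj_one]⟩, rfl⟩

theorem dual1_cj_adj {C : H → H} (hC : Conj C) (A : H →L[ℂ] H) :
    adjoint (dual1_cj hC (adjoint A)) = dual1_cj hC A := by
  symm
  rw [eq_adjoint_iff]
  intro x y
  rw [dual1_cj_apply, dual1_cj_apply]
  conv_lhs => rw [← hC.invol y, hC.inner]
  conv_rhs => rw [← hC.invol x, hC.inner, adjoint_inner_left]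

omit [CompleteSpace H] in
theorem dual1_tendsto {C : H → H} (hC : Conj C) {A : H →L[ℂ] H}
    (h : ∀ x, Tendsto (fun n : ℕ => (A ^ n) x) atTop (𝓝 0)) (x : H) :
    Tendsto (fun n : ℕ => (dual1_cj hC A ^ n) x) atTop (𝓝 0) := by
  have h1 := ((dual1_cont hC).tendsto 0).comp (h (C x))
  rw [dual1_zero hC] at h1
  simp only [dual1_cj_pow, dual1_cj_apply]
  exact h1

theorem dual1_con {C : H → H} (hC : Conj C) {T : H →L[ℂ] H} (hT : Con T) :
    Con (dual1_cj hC (adjoint T)) where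
  con x := by
    have h := adj_con (S := T) zero_le_one (fun x => by rw [one_mul]; exact hT.con x) (C x)
    rwa [one_mul, dual1_norm hC, ← dual1_norm hC] at h
  c0 := dual1_tendsto hC hT.c0'
  c0' := by
    rw [dual1_cj_adj]
    exact dual1_tendsto hC hT.c0
  unit z hz := by
    have h : dual1_cj hC (adjoint T) - z • (1 : H →L[ℂ] H) =
        dual1_cj hC (star (T - z • (1 : H →L[ℂ] H))) := by
      ext x
      rw [star_sub, star_smul, star_one, star_eq_adjoint]
      change C (adjoint T (C x)) - z • x = C (adjoint T (C x) - conj z • C x)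
      rw [dual1_sub hC, hC.smul, hC.invol, Complex.conj_conj]
    rw [h]
    exact dual1_cj_unit hC (hT.unit z hz).star

end cjg

omit [IsFiniteMeasure L] in
theorem dual1_J {θ : X → ℂ} {U Θ : K L →L[ℂ] K L} (hc : Circ L θ U Θ) (a : K L) :
    ∀ᵐ t ∂L, Θ (star a) t = θ t * conj (a t) := by
  filter_upwards [hc.mth (star a), Lp.coeFn_star a] with t h1 h2
  rw [h1, h2]
  rfl

omit [IsFiniteMeasure L] in
theorem dual1_conj_J {θ : X → ℂ} {U Θ : K L →L[ℂ] K L} (hc : Circ L θ U Θ) :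
    Conj fun a : K L => Θ (star a) := by
  have h1 : ∀ t, conj (θ t) * θ t = 1 := fun t => by
    rw [Complex.conj_mul', hc.uni]
    simp
  refine ⟨fun a b => Lp.ext ?_, fun c a => Lp.ext ?_, fun a => Lp.ext ?_, fun a b => ?_⟩
  · filter_upwards [dual1_J hc (a + b), dual1_J hc a, dual1_J hc b, Lp.coeFn_add a b,
      Lp.coeFn_add (Θ (star a)) (Θ (star b))] with t e1 e2 e3 e4 e5
    rw [e1, e4, e5, Pi.add_apply, Pi.add_apply, e2, e3, map_add, mul_add]
  · filter_upwards [dual1_J hc (c • a), dual1_J hc a, Lp.coeFn_smul c a,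
      Lp.coeFn_smul (conj c) (Θ (star a))] with t e1 e2 e3 e4
    rw [e1, e3, e4, Pi.smul_apply, Pi.smul_apply, e2, smul_eq_mul, smul_eq_mul, map_mul]
    ring
  · filter_upwards [dual1_J hc (Θ (star a)), dual1_J hc a] with t e1 e2
    rw [e1, e2, map_mul, Complex.conj_conj, ← mul_assoc, mul_comm (θ t), h1, one_mul]
  · rw [inner_eq, inner_eq]
    refine integral_congr_ae ?_
    filter_upwards [dual1_J hc a, dual1_J hc b] with t e1 e2
    rw [e1, e2, map_mul, Complex.conj_conj]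
    linear_combination (a t * conj (b t)) * h1 t

omit [IsFiniteMeasure L] in
theorem dual1_JU {θ : X → ℂ} {U Θ : K L →L[ℂ] K L} (hc : Circ L θ U Θ) (a : K L) :
    Θ (star (U a)) = adjoint U (Θ (star a)) := by
  refine Lp.ext ?_
  filter_upwards [dual1_J hc (U a), dual1_J hc a, hc.mu a, hc.mu.adj (Θ (star a))]
    with t e1 e2 e3 e4
  rw [e1, e3, e4, e2, map_mul]
  ring

theorem dual1_eq_zero {E : Type*} [NormedAddCommGroup E] [InnerProductSpace ℂ E] {a : E}
    (h : ∀ ε : ℝ, 0 < ε → ∃ b : E, inner ℂ a b = 0 ∧ ‖a - b‖ ≤ ε) : a = 0 := by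
  rw [← norm_le_zero_iff]
  refine le_of_forall_pos_le_add fun ε hε => ?_
  obtain ⟨b, h1, h2⟩ := h ε hε
  have h3 : ‖a‖ ^ 2 ≤ ‖a‖ * ε := by
    have h4 : ‖inner ℂ a (a - b)‖ = ‖a‖ ^ 2 := by
      rw [inner_sub_right, h1, sub_zero, inner_self_eq_norm_sq_to_K]
      simp
    rw [← h4]
    exact (norm_inner_le_norm _ _).trans (mul_le_mul_of_nonneg_left h2 (norm_nonneg _))
  nlinarith [norm_nonneg a]

theorem dual1_unit_prod {A B : Type*} [NormedAddCommGroup A] [NormedSpace ℂ A]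
    [NormedAddCommGroup B] [NormedSpace ℂ B] {S : A →L[ℂ] A} {R : B →L[ℂ] B} (hS : IsUnit S)
    (hR : IsUnit R) : IsUnit (S.prodMap R) := by
  obtain ⟨S, rfl⟩ := hS
  obtain ⟨R, rfl⟩ := hR
  refine ⟨⟨(S : A →L[ℂ] A).prodMap R, (↑S⁻¹ : A →L[ℂ] A).prodMap ↑R⁻¹, ?_, ?_⟩, rfl⟩
  · refine ContinuousLinearMap.ext fun p => Prod.ext ?_ ?_
    · exact congrArg (fun D : A →L[ℂ] A => D p.1) S.mul_inv
    · exact congrArg (fun D : B →L[ℂ] B => D p.2) R.mul_inv
  · refine ContinuousLinearMap.ext fun p => Prod.ext ?_ ?_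
    · exact congrArg (fun D : A →L[ℂ] A => D p.1) S.inv_mul
    · exact congrArg (fun D : B →L[ℂ] B => D p.2) R.inv_mul

theorem dual1_surj {A : Type*} [NormedAddCommGroup A] [NormedSpace ℂ A] {S : A →L[ℂ] A} {z : ℂ}
    (h : IsUnit (S - z • (1 : A →L[ℂ] A))) (y : A) : ∃ x, S x - z • x = y := by
  obtain ⟨R, hR⟩ := h
  refine ⟨(↑R⁻¹ : A →L[ℂ] A) y, ?_⟩
  have h1 : (R : A →L[ℂ] A) ((↑R⁻¹ : A →L[ℂ] A) y) = y :=
    congrArg (fun D : A →L[ℂ] A => D y) R.mul_inv
  rw [hR] at h1
  exact h1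

theorem sys1 {T : H →L[ℂ] H} (hT : Con T) {θ : X → ℂ} {U Θ : K L →L[ℂ] K L} (hc : Circ L θ U Θ)
    {V : Submodule ℂ (H × K L)} (hp : Pre T U Θ V) : Sys T U V := by
  have hU := hc.mu.iso (norm_fourier 1)
  refine ⟨hT, hU, hp.closed, hp.inv, fun a ha => dual1_eq_zero fun ε hε => ?_, hp.dense,
    fun z hz p hpV => ?_⟩
  · obtain ⟨p, h1, h2⟩ := hp.dense' a ε hε
    have h3 := h1 _ ha
    rw [inner_zero_right, zero_add] at h3
    exact ⟨p.2, inner_eq_zero_symm.1 h3, h2⟩
  · obtain ⟨q, h1, h2⟩ := rinv (W := T.prodMap U) hp.closed hp.inv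
      (convex_ball (0 : ℂ) 1).isPreconnected (fun z hz => by
        rw [mem_ball_zero_iff] at hz
        have h := dual1_unit_prod (hT.unit z hz) (unit_sub hU (hc.mu.surj (norm_fourier 1)) hz)
        convert h using 1
        exact ContinuousLinearMap.ext fun p => rfl) (Metric.mem_ball_self one_pos)
      (fun x hx => by
        obtain ⟨q, h1, h2, h3⟩ := hp.inv' x hx
        exact ⟨q, h1, by rw [zero_smul, sub_zero]; exact Prod.ext h2 h3⟩)
      z (mem_ball_zero_iff.2 hz) p hpV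
    exact ⟨q, h1, congrArg Prod.fst h2, congrArg Prod.snd h2⟩

theorem sys2 {T : H →L[ℂ] H} (hT : Con T) {θ : X → ℂ} {U Θ : K L →L[ℂ] K L} (hc : Circ L θ U Θ)
    {V : Submodule ℂ (H × K L)} (hp : Pre T U Θ V) {C : H → H} (hC : Conj C) :
    ∃ (T' : H →L[ℂ] H) (V' : Submodule ℂ (H × K L)), Sys T' U V' ∧
      ∀ p : H × K L, p ∈ V' ↔ (C p.1, Θ (star p.2)) ∈ perp V := by
  have hU := hc.mu.iso (norm_fourier 1)
  have hJ := dual1_conj_J hc
  have hJU := dual1_JU hc
  have hs := sys1 hT hc hp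
  have hT' := dual1_con hC hT
  set J : K L → K L := fun a => Θ (star a) with hJdef
  change ∀ a, J (U a) = adjoint U (J a) at hJU
  change ∃ (T' : H →L[ℂ] H) (V' : Submodule ℂ (H × K L)), Sys T' U V' ∧
      ∀ p : H × K L, p ∈ V' ↔ (C p.1, J p.2) ∈ perp V
  clear_value J
  let V' : Submodule ℂ (H × K L) :=
    { carrier := {p | ∀ q ∈ V, inner ℂ (C p.1) q.1 + inner ℂ (J p.2) q.2 = 0}
      add_mem' := fun {p p'} h h' q hq => by
        rw [Prod.fst_add, Prod.snd_add, hC.add, hJ.add, inner_add_left, inner_add_left]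
        linear_combination h q hq + h' q hq
      zero_mem' := fun q _ => by
        rw [Prod.fst_zero, Prod.snd_zero, dual1_zero hC, dual1_zero hJ, inner_zero_left,
          inner_zero_left, add_zero]
      smul_mem' := fun c p h q hq => by
        rw [Prod.smul_fst, Prod.smul_snd, hC.smul, hJ.smul, inner_smul_left, inner_smul_left,
          ← mul_add, h q hq, mul_zero] }
  have hV' : ∀ p : H × K L, p ∈ V' ↔ ∀ q ∈ V, inner ℂ (C p.1) q.1 + inner ℂ (J p.2) q.2 = 0 :=
    fun p => Iff.rfl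
  refine ⟨dual1_cj hC (adjoint T), V', ⟨hT', hU, ?_, fun p h => ?_, fun a h => ?_, fun a ε hε => ?_,
    fun z hz p h => ?_⟩, fun p => Iff.rfl⟩
  · have : (V' : Set (H × K L)) =
        ⋂ q ∈ V, {p : H × K L | inner ℂ (C p.1) q.1 + inner ℂ (J p.2) q.2 = 0} := by
      ext p
      simp only [SetLike.mem_coe, hV', Set.mem_iInter, Set.mem_ofPred_eq]
    rw [this]
    exact isClosed_biInter fun q _ => isClosed_eq
      ((((dual1_cont hC).comp continuous_fst).inner continuous_const).add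
        (((dual1_cont hJ).comp continuous_snd).inner continuous_const)) continuous_const
  · rw [hV'] at h ⊢
    intro q hq
    rw [dual1_cj_apply, hC.invol, hJU, adjoint_inner_left, adjoint_inner_left]
    exact h _ (hp.inv q hq)
  · rw [hV'] at h
    have h1 : J a = 0 := dual1_eq_zero fun ε hε => by
      obtain ⟨q, hq, h2⟩ := hp.dense (J a) ε hε
      have h3 := h q hq
      rw [dual1_zero hC, inner_zero_left, zero_add] at h3
      exact ⟨q.2, h3, h2⟩
    rw [← norm_eq_zero, ← dual1_norm hJ, h1, norm_zero]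
  · obtain ⟨p, h1, h2⟩ := hp.dense' (J a) ε hε
    refine ⟨(C p.1, J p.2), (hV' _).2 fun q hq => ?_, ?_⟩
    · rw [hC.invol, hJ.invol]
      exact h1 q hq
    · rwa [← dual1_norm hJ, dual1_sub hJ, hJ.invol]
  · obtain ⟨x, hx⟩ := dual1_surj (hT'.unit z hz) p.1
    obtain ⟨a, ha⟩ := dual1_surj (unit_sub hU (hc.mu.surj (norm_fourier 1)) hz) p.2
    refine ⟨(x, a), (hV' _).2 fun r hr => ?_, hx, ha⟩
    obtain ⟨q, hq, h1, h2⟩ := hs.res z hz r hr
    have h3 := (hV' _).1 h q hq
    rw [← hx, ← ha, dual1_sub hC, dual1_sub hJ, hC.smul, hJ.smul, dual1_cj_apply, hC.invol, hJU,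
      inner_sub_left, inner_sub_left, adjoint_inner_left, adjoint_inner_left, inner_smul_left,
      inner_smul_left, Complex.conj_conj] at h3
    rw [← h1, ← h2, inner_sub_right, inner_sub_right, inner_smul_right, inner_smul_right]
    exact h3

end Pool.Agent.P.MP_f981b0_an.CD
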