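import Pool.Agent.P.MP_f981b0_an.CD.Base

/-! Package Dual2: complexification of the second variation. -/

set_option autoImplicit false

open MeasureTheory Filter Topology ContinuousLinearMap
open scoped ComplexConjugate

noncomputable section

namespace Pool.Agent.P.MP_f981b0_an.CD

universe u

variable {H : Type u} [NormedAddCommGroup H] [InnerProductSpace ℂ H] [CompleteSpace H]

variable {L : Measure X} [IsFiniteMeasure L]

section aux

variable {G : Type*} [NormedAddCommGroup G] [InnerProductSpace ℂ G]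

theorem dual2_pyth {x y : G} (h : inner ℂ x y = 0) : ‖x + y‖ ^ 2 = ‖x‖ ^ 2 + ‖y‖ ^ 2 := by
  have := norm_add_sq_eq_norm_sq_add_norm_sq_of_inner_eq_zero (𝕜 := ℂ) x y h
  simpa [sq] using this

theorem dual2_par (x y : G) :
    ‖x + Complex.I • y‖ ^ 2 + ‖x - Complex.I • y‖ ^ 2 = 2 * ‖x‖ ^ 2 + 2 * ‖y‖ ^ 2 := by
  have h := parallelogram_law_with_norm ℂ x (Complex.I • y)
  rw [norm_smul, Complex.norm_I, one_mul] at h
  linarith

variable (W : Submodule ℂ G) [W.HasOrthogonalProjection]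

theorem dual2_min (u : G) {w : G} (hw : w ∈ W) :
    ‖u - W.starProjection u‖ ^ 2 ≤ ‖u - w‖ ^ 2 := by
  have h1 : u - w = (u - W.starProjection u) + (W.starProjection u - w) := by abel
  have h2 : inner ℂ (u - W.starProjection u) (W.starProjection u - w) = 0 :=
    W.starProjection_inner_eq_zero u _ (W.sub_mem (W.starProjection_apply_mem u) hw)
  rw [h1, dual2_pyth h2]
  linarith [sq_nonneg ‖W.starProjection u - w‖]

theorem dual2_sum (u : G) :
    ‖u‖ ^ 2 = ‖u - W.starProjection u‖ ^ 2 + ‖W.starProjection u‖ ^ 2 := by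
  have h2 : inner ℂ (u - W.starProjection u) (W.starProjection u) = 0 :=
    W.starProjection_inner_eq_zero u _ (W.starProjection_apply_mem u)
  rw [← dual2_pyth h2, sub_add_cancel]

theorem dual2_min' (u : G) {w : G} (hw : ∀ v ∈ W, inner ℂ w v = 0) :
    ‖W.starProjection u‖ ^ 2 ≤ ‖u - w‖ ^ 2 := by
  have h1 : u - w = (u - W.starProjection u - w) + W.starProjection u := by abel
  have h2 : inner ℂ (u - W.starProjection u - w) (W.starProjection u) = 0 := by
    rw [inner_sub_left, W.starProjection_inner_eq_zero u _ (W.starProjection_apply_mem u),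
      hw _ (W.starProjection_apply_mem u), sub_zero]
  rw [h1, dual2_pyth h2]
  linarith [sq_nonneg ‖u - W.starProjection u - w‖]

end aux

/-- The squared distance of `(0, a)` to the subspace scaled by `c` in the second entry. -/
theorem dual2_exQ {E : Type} [NormedAddCommGroup E] [InnerProductSpace ℂ E] [CompleteSpace E]
    {V : Submodule ℂ (H × E)} (hV : IsClosed (V : Set (H × E))) {c d : ℂ} (hcd : c * d = 1)
    (hc : conj c = c) : ∃ Q : E → ℝ,
      (∀ a, ∀ p ∈ V, Q a ≤ ‖p.1‖ ^ 2 + ‖a - c • p.2‖ ^ 2) ∧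
      (∀ a, ∃ p ∈ V, ‖p.1‖ ^ 2 + ‖a - c • p.2‖ ^ 2 = Q a) ∧
      (∀ a, ∀ q ∈ perp V, ‖a‖ ^ 2 - Q a ≤ ‖q.1‖ ^ 2 + ‖a - d • q.2‖ ^ 2) ∧
      (∀ a, ∃ q ∈ perp V, ‖q.1‖ ^ 2 + ‖a - d • q.2‖ ^ 2 = ‖a‖ ^ 2 - Q a) ∧
      ∀ a b, Q (a + Complex.I • b) + Q (a - Complex.I • b) = 2 * Q a + 2 * Q b := by
  have hdc : d * c = 1 := by rw [mul_comm, hcd]
  have hd : conj d = d := by
    have h1 : c * conj d = 1 := by
      have := congrArg conj hcd
      rwa [map_mul, hc, map_one] at this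
    calc conj d = (d * c) * conj d := by rw [hdc, one_mul]
      _ = d := by rw [mul_assoc, h1, mul_one]
  let D : WithLp 2 (H × E) →L[ℂ] H × E :=
    (WithLp.fstL 2 ℂ H E).prod (d • WithLp.sndL 2 ℂ H E)
  have hD : ∀ w : WithLp 2 (H × E), D w = (w.fst, d • w.snd) := fun _ => rfl
  let W : Submodule ℂ (WithLp 2 (H × E)) := V.comap (D : WithLp 2 (H × E) →ₗ[ℂ] H × E)
  have hW : ∀ w : WithLp 2 (H × E), w ∈ W ↔ (w.fst, d • w.snd) ∈ V := fun _ => Iff.rfl
  have hWc : IsClosed (W : Set (WithLp 2 (H × E))) := hV.preimage D.continuous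
  have : CompleteSpace W := hWc.completeSpace_coe
  let ι : E → WithLp 2 (H × E) := fun a => WithLp.toLp 2 ((0 : H), a)
  have hι1 : ∀ a, (ι a).fst = 0 := fun _ => rfl
  have hι2 : ∀ a, (ι a).snd = a := fun _ => rfl
  have hn : ∀ (a : E) (w : WithLp 2 (H × E)), ‖ι a - w‖ ^ 2 = ‖w.fst‖ ^ 2 + ‖a - w.snd‖ ^ 2 := by
    intro a w
    rw [WithLp.prod_norm_sq_eq_of_L2, WithLp.sub_fst, WithLp.sub_snd, hι1, hι2, zero_sub, norm_neg]
  have hn0 : ∀ a, ‖ι a‖ ^ 2 = ‖a‖ ^ 2 := by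
    intro a
    rw [WithLp.prod_norm_sq_eq_of_L2, hι1, hι2, norm_zero]
    ring
  have hin : ∀ w v : WithLp 2 (H × E),
      inner ℂ w v = inner ℂ w.fst v.fst + inner ℂ w.snd v.snd := fun w v =>
    WithLp.prod_inner_apply w v
  refine ⟨fun a => ‖ι a - W.starProjection (ι a)‖ ^ 2, ?_, ?_, ?_, ?_, ?_⟩
  · intro a p hp
    have h1 : WithLp.toLp 2 (p.1, c • p.2) ∈ W := by
      rw [hW]
      change (p.1, d • c • p.2) ∈ V
      rwa [smul_smul, hdc, one_smul]
    exact (dual2_min W (ι a) h1).trans_eq (hn a _)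
  · intro a
    refine ⟨_, (hW _).1 (W.starProjection_apply_mem (ι a)), ?_⟩
    beta_reduce
    rw [hn, smul_smul, hcd, one_smul]
  · intro a q hq
    have h1 : ∀ v ∈ W, inner ℂ (WithLp.toLp 2 (q.1, d • q.2)) v = 0 := by
      intro v hv
      have h2 := hq _ ((hW v).1 hv)
      rw [hin]
      change inner ℂ q.1 v.fst + inner ℂ (d • q.2) v.snd = 0
      rw [inner_smul_left, hd]
      rwa [inner_smul_right] at h2
    have h3 := (dual2_min' W (ι a) h1).trans_eq (hn a _)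
    have h4 := dual2_sum W (ι a)
    rw [hn0] at h4
    change _ ≤ ‖q.1‖ ^ 2 + ‖a - d • q.2‖ ^ 2 at h3
    beta_reduce
    linarith
  · intro a
    refine ⟨((ι a - W.starProjection (ι a)).fst, c • (ι a - W.starProjection (ι a)).snd), ?_, ?_⟩
    · intro p hp
      have h1 : WithLp.toLp 2 (p.1, c • p.2) ∈ W := by
        rw [hW]
        change (p.1, d • c • p.2) ∈ V
        rwa [smul_smul, hdc, one_smul]
      have h2 := W.starProjection_inner_eq_zero (ι a) _ h1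
      rw [hin] at h2
      change inner ℂ _ p.1 + inner ℂ _ (c • p.2) = 0 at h2
      rw [inner_smul_right] at h2
      rw [inner_smul_left, hc]
      exact h2
    · have h4 := dual2_sum W (ι a)
      have h5 := hn a (ι a - W.starProjection (ι a))
      rw [sub_sub_cancel] at h5
      rw [hn0] at h4
      beta_reduce
      rw [smul_smul, hdc, one_smul]
      linarith
  · intro a b
    have h1 : ι (a + Complex.I • b) = ι a + Complex.I • ι b := by
      simp only [ι, ← WithLp.toLp_smul, ← WithLp.toLp_add, Prod.smul_mk, Prod.mk_add_mk,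
        smul_zero, add_zero]
    have h2 : ι (a - Complex.I • b) = ι a - Complex.I • ι b := by
      simp only [ι, ← WithLp.toLp_smul, ← WithLp.toLp_sub, Prod.smul_mk, Prod.mk_sub_mk,
        smul_zero, sub_zero]
    beta_reduce
    rw [← dual2_par, h1, h2, map_add, map_sub, map_smul, smul_sub]
    congr 3 <;> abel

omit [CompleteSpace H] in
theorem dual2_norm_conj {C : H → H} (hC : Conj C) (x : H) : ‖C x‖ ^ 2 = ‖x‖ ^ 2 := by
  have h := hC.inner x x
  rw [inner_self_eq_norm_sq_to_K, inner_self_eq_norm_sq_to_K] at h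
  exact_mod_cast h

omit [IsFiniteMeasure L] in
theorem dual2_norm_star (a : K L) : ‖star a‖ ^ 2 = ‖a‖ ^ 2 := by
  rw [norm_sq, norm_sq]
  refine integral_congr_ae ?_
  filter_upwards [Lp.coeFn_star a] with t ht
  rw [ht, Pi.star_apply, norm_star]

omit [IsFiniteMeasure L] in
theorem dual2_star_sub (a f : K L) {c : ℂ} (hc : conj c = c) :
    star (a - c • f) = star a - c • star f := by
  refine Lp.ext ?_
  filter_upwards [Lp.coeFn_star (a - c • f), Lp.coeFn_sub a (c • f), Lp.coeFn_smul c f,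
    Lp.coeFn_sub (star a) (c • star f), Lp.coeFn_smul c (star f), Lp.coeFn_star a,
    Lp.coeFn_star f] with t h1 h2 h3 h4 h5 h6 h7
  rw [h1, Pi.star_apply, h2, Pi.sub_apply, h3, h4, Pi.sub_apply, h5, h6, Pi.smul_apply,
    Pi.smul_apply, h7, Pi.star_apply, Pi.star_apply, star_sub, smul_eq_mul, smul_eq_mul, star_mul',
    show star c = c from hc]

omit [IsFiniteMeasure L] in
theorem dual2_invol {θ : X → ℂ} {U Θ : K L →L[ℂ] K L} (hc : Circ L θ U Θ) (a : K L) :
    Θ (star (Θ a)) = star a := by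
  refine Lp.ext ?_
  filter_upwards [hc.mth (star (Θ a)), Lp.coeFn_star (Θ a), hc.mth a, Lp.coeFn_star a]
    with t h1 h2 h3 h4
  have h5 : θ t * star (θ t) = 1 := by
    have := Complex.mul_conj' (θ t)
    rw [hc.uni t] at this
    simpa using this
  rw [h1, h2, h4, Pi.star_apply, Pi.star_apply, h3, star_mul', ← mul_assoc, h5, one_mul]

omit [IsFiniteMeasure L] in
/-- Real and imaginary part. -/
theorem dual2_re_im (a : K L) : ∃ b₁ b₂ : K L, (∀ᵐ t ∂L, (b₁ t).im = 0) ∧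
    (∀ᵐ t ∂L, (b₂ t).im = 0) ∧ a = b₁ + Complex.I • b₂ ∧ star a = b₁ - Complex.I • b₂ := by
  refine ⟨(1 / 2 : ℂ) • (a + star a), (Complex.I / 2 : ℂ) • (star a - a), ?_, ?_, ?_, ?_⟩
  · filter_upwards [Lp.coeFn_smul (1 / 2 : ℂ) (a + star a), Lp.coeFn_add a (star a),
      Lp.coeFn_star a] with t h1 h2 h3
    rw [h1, Pi.smul_apply, h2, Pi.add_apply, h3, Pi.star_apply]
    simp
  · filter_upwards [Lp.coeFn_smul (Complex.I / 2 : ℂ) (star a - a), Lp.coeFn_sub (star a) a,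
      Lp.coeFn_star a] with t h1 h2 h3
    rw [h1, Pi.smul_apply, h2, Pi.sub_apply, h3, Pi.star_apply]
    simp
  · have h : Complex.I * (Complex.I / 2) = -(1 / 2) := by
      rw [← mul_div_assoc, Complex.I_mul_I]; ring
    rw [smul_smul, h]
    module
  · have h : Complex.I * (Complex.I / 2) = -(1 / 2) := by
      rw [← mul_div_assoc, Complex.I_mul_I]; ring
    rw [smul_smul, h]
    module

theorem c6 {T : H →L[ℂ] H} {θ : X → ℂ} {U Θ : K L →L[ℂ] K L} (hc : Circ L θ U Θ)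
    {V V' : Submodule ℂ (H × K L)} (hp : Pre T U Θ V) {C : H → H} (hC : Conj C)
    (hV : ∀ p : H × K L, p ∈ V' ↔ (C p.1, Θ (star p.2)) ∈ perp V) : C6 Θ V V' := by
  have e2 : conj (2 : ℂ) = 2 := map_ofNat _ 2
  have e3 : conj (1 / 2 : ℂ) = 1 / 2 := by rw [map_div₀, map_one, e2]
  obtain ⟨Q, hQ1, hQ2, -, hQ4, hQ5⟩ :=
    dual2_exQ hp.closed (c := 2) (d := 1 / 2) (by norm_num) e2
  obtain ⟨R, -, hR2, hR3, hR4, hR5⟩ :=
    dual2_exQ hp.closed (c := 1 / 2) (d := 2) (by norm_num) e3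
  have hiso : ∀ a, ‖Θ a‖ = ‖a‖ := hc.mth.iso hc.uni
  have hJ : ∀ a : K L, ‖Θ (star a)‖ ^ 2 = ‖a‖ ^ 2 := fun a => by rw [hiso, dual2_norm_star]
  have hreal : ∀ b : K L, (∀ᵐ t ∂L, (b t).im = 0) → R (Θ b) ≤ Q b := by
    intro b hb
    obtain ⟨p, hpV, h1⟩ := hQ2 b
    obtain ⟨q, hq, h2⟩ := hR4 (Θ b)
    have h3 := hp.p4 p hpV q hq b hb
    rw [h1, h2, hiso] at h3
    linarith
  intro a p hpV p' hp' ε hε
  obtain ⟨b₁, b₂, hb₁, hb₂, ha, ha'⟩ := dual2_re_im a
  have key : R (Θ a) + R (Θ (star a)) ≤ Q a + Q (star a) := by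
    have h1 := hQ5 b₁ b₂
    have h2 := hR5 (Θ b₁) (Θ b₂)
    rw [← ha, ← ha'] at h1
    rw [← map_smul, ← map_add, ← map_sub, ← ha, ← ha'] at h2
    linarith [hreal b₁ hb₁, hreal b₂ hb₂]
  obtain ⟨q, hq, h1⟩ := hR2 (Θ a)
  obtain ⟨r, hr, h2⟩ := hQ4 (star a)
  have h3 : Θ (star (Θ (star r.2))) = r.2 := by rw [dual2_invol hc, star_star]
  refine ⟨q, hq, (C r.1, Θ (star r.2)), ?_, ?_⟩
  · rw [hV]
    change (C (C r.1), Θ (star (Θ (star r.2)))) ∈ perp V
    rwa [hC.invol, h3]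
  · have h4 := hQ1 a p hpV
    have h5 := hR3 (Θ (star a)) _ ((hV p').1 hp')
    have h6 : ‖Θ (star a) - (2 : ℂ) • Θ (star p'.2)‖ ^ 2 = ‖a - (2 : ℂ) • p'.2‖ ^ 2 := by
      rw [← map_smul, ← map_sub, ← dual2_star_sub _ _ e2, hJ]
    have h7 : ‖Θ a - (1 / 2 : ℂ) • Θ (star r.2)‖ ^ 2 = ‖star a - (1 / 2 : ℂ) • r.2‖ ^ 2 := by
      rw [← map_smul, ← map_sub, ← dual2_norm_star (star a - _), dual2_star_sub _ _ e3, star_star,
        hiso]
    change _ ≤ ‖C p'.1‖ ^ 2 + ‖Θ (star a) - (2 : ℂ) • Θ (star p'.2)‖ ^ 2 at h5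
    rw [dual2_norm_conj hC, h6, hJ] at h5
    rw [dual2_norm_star] at h2
    change _ + (‖C r.1‖ ^ 2 + ‖Θ a - (1 / 2 : ℂ) • Θ (star r.2)‖ ^ 2) ≤ _
    rw [dual2_norm_conj hC, h7, h1, h2]
    linarith

end Pool.Agent.P.MP_f981b0_an.CD
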