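import Pool.Agent.P.MP_f981b0_an.CD.Pois

/-! Package Loc: localisation. -/

set_option autoImplicit false

open MeasureTheory Filter Topology ContinuousLinearMap
open scoped ComplexConjugate

noncomputable section

namespace Pool.Agent.P.MP_f981b0_an.CD

universe u

variable {M : Type u} [NormedAddCommGroup M] [InnerProductSpace ℂ M] [CompleteSpace M]

omit [CompleteSpace M] in
theorem loc_pow_mem {S : M →L[ℂ] M} {N : Submodule ℂ M} (hN : Out S N) (k : ℕ) {m : M}
    (hm : m ∈ N) : (S ^ k) m ∈ N := by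
  induction k with
  | zero => exact hm
  | succ k ih =>
    rw [pow_succ']
    exact hN.inv _ ih

omit [CompleteSpace M] in
theorem loc_norm_pow {S : M →L[ℂ] M} (hS : ∀ m, ‖S m‖ = ‖m‖) (k : ℕ) (m : M) :
    ‖(S ^ k) m‖ = ‖m‖ := by
  induction k with
  | zero => rfl
  | succ k ih =>
    rw [pow_succ']
    exact (hS _).trans ih

/-- A vector of `N` that is orthogonal to the wandering subspace lies in the image of `N`. -/
theorem loc_mem_image {S : M →L[ℂ] M} (hS : ∀ m, ‖S m‖ = ‖m‖) {N : Submodule ℂ M} (hN : Out S N)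
    {g : M} (hg : g ∈ N)
    (ho : ∀ e, e ∈ N → (∀ m ∈ N, inner ℂ e (S m) = 0) → inner ℂ e g = 0) :
    ∃ m ∈ N, S m = g := by
  have hiso : Isometry S := AddMonoidHomClass.isometry_of_norm S hS
  have hc : IsClosed (N.map (S : M →ₗ[ℂ] M) : Set M) :=
    hiso.isClosedEmbedding.isClosedMap _ hN.closed
  have := hc.completeSpace_coe
  set T := N.map (S : M →ₗ[ℂ] M) with hT
  have h1 : T.starProjection g ∈ T := T.starProjection_apply_mem g
  have h2 : g - T.starProjection g ∈ Tᗮ := T.sub_starProjection_mem_orthogonal g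
  have h3 : T.starProjection g ∈ N := by
    obtain ⟨m, hm, h⟩ := h1
    rw [← h]
    exact hN.inv m hm
  have h4 := ho _ (N.sub_mem hg h3) fun m hm =>
    (Submodule.mem_orthogonal' _ _).1 h2 _ ⟨m, hm, rfl⟩
  have h5 := (Submodule.mem_orthogonal' _ _).1 h2 _ h1
  have h6 : g - T.starProjection g = 0 := by
    rw [← inner_self_eq_zero (𝕜 := ℂ), inner_sub_right, h4, h5, sub_self]
  rw [sub_eq_zero] at h6
  rw [← h6] at h1
  exact h1

/-- Finite sums of shifted wandering vectors. -/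
def locSums (S : M →L[ℂ] M) (N : Submodule ℂ M) : Submodule ℂ M where
  carrier := {x | ∃ e : ℕ → M, (∀ k, e k ∈ N ∧ ∀ m ∈ N, inner ℂ (e k) (S m) = 0) ∧
    ∃ n₀, ∀ n ≥ n₀, x = ∑ k ∈ Finset.range n, (S ^ k) (e k)}
  add_mem' := by
    rintro x y ⟨e, he, n₀, hx⟩ ⟨e', he', n₁, hy⟩
    refine ⟨fun k => e k + e' k, fun k => ⟨N.add_mem (he k).1 (he' k).1, fun m hm => ?_⟩,
      max n₀ n₁, fun n hn => ?_⟩
    · rw [inner_add_left, (he k).2 m hm, (he' k).2 m hm, add_zero]
    · rw [hx n (le_of_max_le_left hn), hy n (le_of_max_le_right hn), ← Finset.sum_add_distrib]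
      simp only [map_add]
  zero_mem' := ⟨fun _ => 0, fun _ => ⟨N.zero_mem, fun _ _ => inner_zero_left _⟩, 0,
    fun _ _ => by simp⟩
  smul_mem' := by
    rintro c x ⟨e, he, n₀, hx⟩
    refine ⟨fun k => c • e k, fun k => ⟨N.smul_mem c (he k).1, fun m hm => ?_⟩, n₀,
      fun n hn => ?_⟩
    · rw [inner_smul_left, (he k).2 m hm, mul_zero]
    · rw [hx n hn, Finset.smul_sum]
      simp only [map_smul]

/-- The Wold decomposition for a pure isometry. -/
theorem wold {S : M →L[ℂ] M} (hS : ∀ m, ‖S m‖ = ‖m‖) {N : Submodule ℂ M} (hN : Out S N) {f : M}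
    (hf : f ∈ N) {ε : ℝ} (hε : 0 < ε) :
    ∃ (n : ℕ) (e : ℕ → M), (∀ k, e k ∈ N ∧ ∀ m ∈ N, inner ℂ (e k) (S m) = 0) ∧
      ‖f - ∑ k ∈ Finset.range n, (S ^ k) (e k)‖ ≤ ε := by
  have key : ∀ n : ℕ, ∀ g, g ∈ N → (∀ (k : ℕ) e, e ∈ N → (∀ m ∈ N, inner ℂ e (S m) = 0) →
      inner ℂ ((S ^ k) e) g = 0) → ∃ m' ∈ N, g = (S ^ n) m' := by
    intro n
    induction n with
    | zero => exact fun g hg _ => ⟨g, hg, rfl⟩
    | succ n ih =>
      intro g hg ho
      obtain ⟨g₁, hg₁, rfl⟩ := loc_mem_image hS hN hg (ho 0)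
      obtain ⟨m', hm', h⟩ := ih g₁ hg₁ fun k e he he' => by
        rw [← inner_iso hS]
        have h1 := ho (k + 1) e he he'
        rwa [pow_succ'] at h1
      exact ⟨m', hm', by rw [pow_succ', h]; rfl⟩
  set T := (locSums S N).topologicalClosure with hT
  have hle : T ≤ N := by
    refine Submodule.topologicalClosure_minimal _ ?_ hN.closed
    rintro x ⟨e, he, n₀, hx⟩
    rw [hx n₀ le_rfl]
    exact N.sum_mem fun k _ => loc_pow_mem hN k (he k).1
  have h1 : T.starProjection f ∈ T := T.starProjection_apply_mem f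
  have h2 : f - T.starProjection f ∈ Tᗮ := T.sub_starProjection_mem_orthogonal f
  have h3 : f - T.starProjection f = 0 := by
    refine hN.pure _ fun n => key n _ (N.sub_mem hf (hle h1)) fun k e he he' => ?_
    refine (Submodule.mem_orthogonal _ _).1 h2 _ (Submodule.le_topologicalClosure _ ?_)
    refine ⟨fun j => if j = k then e else 0, fun j => ?_, k + 1, fun n hn => ?_⟩
    · by_cases hj : j = k
      · simp only [if_pos hj]
        exact ⟨he, he'⟩
      · simp only [if_neg hj]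
        exact ⟨N.zero_mem, fun _ _ => inner_zero_left _⟩
    · rw [Finset.sum_eq_single k (fun j _ hj => by simp only [if_neg hj, map_zero])
        (fun h => absurd (Finset.mem_range.2 hn) h)]
      simp
  rw [sub_eq_zero] at h3
  rw [← h3] at h1
  obtain ⟨x, ⟨e, he, n₀, hx⟩, hd⟩ := Metric.mem_closure_iff.1 h1 ε hε
  refine ⟨n₀, e, he, ?_⟩
  rw [← hx n₀ le_rfl, ← dist_eq_norm]
  exact hd.le

/-- The resolvent at the conjugate point. -/
def locR (S : M →L[ℂ] M) (z : ℂ) : M →L[ℂ] M := Ring.inverse (1 - conj z • S)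

theorem loc_unit {S : M →L[ℂ] M} (hS : ∀ m, ‖S m‖ = ‖m‖) {z : ℂ} (hz : ‖z‖ < 1) :
    IsUnit (1 - conj z • S) := by
  have h1 : ‖S‖ ≤ 1 := S.opNorm_le_bound zero_le_one fun m => by rw [hS, one_mul]
  have h2 : ‖conj z • S‖ < 1 := by
    rw [norm_smul, RCLike.norm_conj]
    exact (mul_le_of_le_one_right (norm_nonneg _) h1).trans_lt hz
  exact (Units.oneSub _ h2).isUnit

theorem locR_eq {S : M →L[ℂ] M} (hS : ∀ m, ‖S m‖ = ‖m‖) {z : ℂ} (hz : ‖z‖ < 1) (x : M) :
    locR S z x = x + conj z • S (locR S z x) := by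
  have h1 := congrArg (fun T : M →L[ℂ] M => T x) (Ring.mul_inverse_cancel _ (loc_unit hS hz))
  exact sub_eq_iff_eq_add.1 h1

theorem locR_comm {S : M →L[ℂ] M} (hS : ∀ m, ‖S m‖ = ‖m‖) {z : ℂ} (hz : ‖z‖ < 1) (x : M) :
    S (locR S z x) = locR S z (S x) := by
  have h1 := congrArg (fun T : M →L[ℂ] M => T (S (locR S z x)))
    (Ring.inverse_mul_cancel _ (loc_unit hS hz))
  have h2 : S x = S (locR S z x) - conj z • S (S (locR S z x)) := by
    rw [← map_smul, ← map_sub, sub_eq_iff_eq_add.2 (locR_eq hS hz x)]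
  rw [h2]
  exact h1.symm

theorem locR_norm {S : M →L[ℂ] M} (hS : ∀ m, ‖S m‖ = ‖m‖) {z : ℂ} (hz : ‖z‖ < 1) (x : M) :
    ‖locR S z x‖ ≤ ‖x‖ / (1 - ‖z‖) := by
  have h1 := norm_add_le x (conj z • S (locR S z x))
  rw [← locR_eq hS hz x, norm_smul, RCLike.norm_conj, hS] at h1
  rw [le_div_iff₀ (sub_pos.2 hz)]
  linarith

theorem locR_mem {S : M →L[ℂ] M} (hS : ∀ m, ‖S m‖ = ‖m‖) {N : Submodule ℂ M} (hN : Out S N)
    {z : ℂ} (hz : ‖z‖ < 1) {x : M} (hx : x ∈ N) : locR S z x ∈ N := by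
  have h1 : ∀ n : ℕ, locR S z x - conj z ^ n • (S ^ n) (locR S z x) ∈ N := by
    intro n
    induction n with
    | zero => simp
    | succ n ih =>
      have h2 : locR S z x - conj z ^ (n + 1) • (S ^ (n + 1)) (locR S z x) =
          x + conj z • S (locR S z x - conj z ^ n • (S ^ n) (locR S z x)) := by
        rw [map_sub, map_smul, smul_sub, smul_smul, ← add_sub_assoc, ← locR_eq hS hz x, pow_succ',
          pow_succ']
        rfl
      rw [h2]
      exact N.add_mem hx (N.smul_mem _ (hN.inv _ ih))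
  have h3 : Tendsto (fun n : ℕ => conj z ^ n • (S ^ n) (locR S z x)) atTop (𝓝 0) := by
    rw [tendsto_zero_iff_norm_tendsto_zero]
    simp only [norm_smul, norm_pow, RCLike.norm_conj, loc_norm_pow hS]
    simpa using (tendsto_pow_atTop_nhds_zero_of_lt_one (norm_nonneg z) hz).mul_const ‖locR S z x‖
  have h4 := (tendsto_const_nhds (x := locR S z x)).sub h3
  rw [sub_zero] at h4
  exact hN.closed.mem_of_tendsto h4 (Eventually.of_forall h1)

theorem loc_norm_z {r : ℝ} (h0 : 0 ≤ r) (s : X) : ‖(r : ℂ) * fourier 1 s‖ = r := by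
  rw [norm_mul, norm_fourier, mul_one, Complex.norm_real, Real.norm_of_nonneg h0]

theorem locR_cont {S : M →L[ℂ] M} (hS : ∀ m, ‖S m‖ = ‖m‖) {r : ℝ} (h0 : 0 ≤ r) (h1 : r < 1)
    (x : M) : Continuous fun s : X => locR S (r * fourier 1 s) x := by
  have h2 : Continuous fun s : X => (1 : M →L[ℂ] M) - conj ((r : ℂ) * fourier 1 s) • S := by
    fun_prop
  have h3 : Continuous fun s : X => locR S (r * fourier 1 s) := by
    refine continuous_iff_continuousAt.2 fun s => ?_
    obtain ⟨v, hv⟩ := loc_unit hS (z := r * fourier 1 s) (by rwa [loc_norm_z h0])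
    exact ContinuousAt.comp (f := fun s : X => (1 : M →L[ℂ] M) - conj ((r : ℂ) * fourier 1 s) • S)
      (hv ▸ NormedRing.inverse_continuousAt v) h2.continuousAt
  exact h3.clm_apply continuous_const

theorem loc_int {F : X → ℂ} (hF : Continuous F) : Integrable F AddCircle.haarAddCircle :=
  hF.integrable_of_hasCompactSupport (HasCompactSupport.of_compactSpace _)

theorem loc_int_fourier (j : ℤ) :
    ∫ s : X, fourier j s ∂AddCircle.haarAddCircle = if j = 0 then (1 : ℂ) else 0 := by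
  split_ifs with h
  · subst h
    simp
  · exact integral_eq_zero_of_add_right_eq_neg
      (fourier_add_half_inv_index (T := 1) h one_pos)

/-- The Fourier coefficients of the resolvent on a circle. -/
def locJ (S : M →L[ℂ] M) (r : ℝ) (x : M) (j : ℤ) (y : M) : ℂ :=
  ∫ s : X, fourier j s * inner ℂ x (locR S (r * fourier 1 s) y) ∂AddCircle.haarAddCircle

theorem locJ_int {S : M →L[ℂ] M} (hS : ∀ m, ‖S m‖ = ‖m‖) {r : ℝ} (h0 : 0 ≤ r) (h1 : r < 1)
    (x : M) (j : ℤ) (y : M) : Integrable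
      (fun s : X => fourier j s * inner ℂ x (locR S (r * fourier 1 s) y))
      AddCircle.haarAddCircle :=
  loc_int ((fourier j).continuous.mul (continuous_const.inner (locR_cont hS h0 h1 y)))

theorem locJ_rec {S : M →L[ℂ] M} (hS : ∀ m, ‖S m‖ = ‖m‖) {r : ℝ} (h0 : 0 ≤ r) (h1 : r < 1)
    (x : M) (j : ℤ) (y : M) :
    locJ S r x j y = (if j = 0 then inner ℂ x y else 0) + r * locJ S r x (j - 1) (S y) := by
  have h2 : ∀ s : X, fourier j s * inner ℂ x (locR S (r * fourier 1 s) y) =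
      fourier j s * inner ℂ x y +
        r * (fourier (j - 1) s * inner ℂ x (locR S (r * fourier 1 s) (S y))) := by
    intro s
    have hz : ‖(r : ℂ) * fourier 1 s‖ < 1 := by rwa [loc_norm_z h0]
    rw [locR_eq hS hz y, locR_comm hS hz, inner_add_right, inner_smul_right, map_mul,
      Complex.conj_ofReal, ← fourier_neg, sub_eq_add_neg, fourier_add]
    ring
  rw [locJ, locJ]
  simp only [h2]
  rw [integral_add (loc_int (by fun_prop)) ((locJ_int hS h0 h1 x _ _).const_mul _),
    integral_mul_const, integral_const_mul, loc_int_fourier, ite_mul, one_mul, zero_mul]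

theorem locJ_neg {S : M →L[ℂ] M} (hS : ∀ m, ‖S m‖ = ‖m‖) {r : ℝ} (h0 : 0 ≤ r) (h1 : r < 1)
    (x : M) {j : ℤ} (hj : j < 0) (y : M) : locJ S r x j y = 0 := by
  have h2 : ∀ n : ℕ, ∀ j : ℤ, j < 0 → ∀ y' : M, ‖y'‖ = ‖y‖ →
      ‖locJ S r x j y'‖ ≤ r ^ n * (‖x‖ * (‖y‖ / (1 - r))) := by
    intro n
    induction n with
    | zero =>
      intro j _ y' hy
      have h3 := norm_integral_le_of_norm_le_const (μ := (AddCircle.haarAddCircle : Measure X))
        (f := fun s : X => fourier j s * inner ℂ x (locR S (r * fourier 1 s) y'))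
        (C := ‖x‖ * (‖y‖ / (1 - r))) (Eventually.of_forall fun s => by
          rw [norm_mul, norm_fourier, one_mul]
          refine (norm_inner_le_norm _ _).trans (mul_le_mul_of_nonneg_left ?_ (norm_nonneg _))
          have h4 := locR_norm hS (z := r * fourier 1 s) (by rwa [loc_norm_z h0]) y'
          rwa [loc_norm_z h0, hy] at h4)
      rw [probReal_univ, mul_one] at h3
      rw [pow_zero, one_mul]
      exact h3
    | succ n ih =>
      intro j hj y' hy
      rw [locJ_rec hS h0 h1, if_neg hj.ne, zero_add, norm_mul, Complex.norm_real,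
        Real.norm_of_nonneg h0, pow_succ', mul_assoc]
      exact mul_le_mul_of_nonneg_left (ih _ (by omega) _ ((hS _).trans hy)) h0
  have h3 := (tendsto_pow_atTop_nhds_zero_of_lt_one h0 h1).mul_const (‖x‖ * (‖y‖ / (1 - r)))
  rw [zero_mul] at h3
  exact norm_le_zero_iff.1 (ge_of_tendsto' h3 fun n => h2 n j hj y rfl)

theorem locJ_nat {S : M →L[ℂ] M} (hS : ∀ m, ‖S m‖ = ‖m‖) {r : ℝ} (h0 : 0 ≤ r) (h1 : r < 1)
    (x : M) (n : ℕ) (y : M) : locJ S r x n y = r ^ n * inner ℂ x ((S ^ n) y) := by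
  induction n generalizing y with
  | zero =>
    rw [locJ_rec hS h0 h1, locJ_neg hS h0 h1 x (by norm_num)]
    simp
  | succ n ih =>
    rw [locJ_rec hS h0 h1, if_neg (by omega), zero_add, Nat.cast_succ, add_sub_cancel_right, ih,
      pow_succ', pow_succ, mul_assoc]
    rfl

/-- A selfadjoint Toeplitz form that is nonnegative on reproducing kernels is nonnegative on
polynomials. -/
theorem loc_toeplitz {S : M →L[ℂ] M} (hS : ∀ m, ‖S m‖ = ‖m‖) {N : Submodule ℂ M} (hN : Out S N)
    (Q : M →L[ℂ] M) (hQ : ∀ x y, inner ℂ (Q x) y = inner ℂ x (Q y))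
    (hT : ∀ x y, inner ℂ (Q (S x)) (S y) = inner ℂ (Q x) y)
    (hpos : ∀ z : ℂ, ‖z‖ < 1 → ∀ g ∈ N, (∀ m ∈ N, inner ℂ g (S m - z • m) = 0) →
      0 ≤ (inner ℂ (Q g) g).re) (n : ℕ) (e : ℕ → M)
    (he : ∀ k, e k ∈ N ∧ ∀ m ∈ N, inner ℂ (e k) (S m) = 0) :
    0 ≤ (inner ℂ (Q (∑ k ∈ Finset.range n, (S ^ k) (e k)))
      (∑ k ∈ Finset.range n, (S ^ k) (e k))).re := by
  have hsym : ∀ x y, (inner ℂ (Q x) y).re = (inner ℂ (Q y) x).re := fun x y => by
    rw [hQ x y, ← inner_conj_symm, Complex.conj_re]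
  have hTk : ∀ (k : ℕ) x y, inner ℂ (Q ((S ^ k) x)) ((S ^ k) y) = inner ℂ (Q x) y := by
    intro k x y
    induction k with
    | zero => rfl
    | succ k ih =>
      rw [pow_succ']
      exact (hT _ _).trans ih
  have hk : ∀ z : ℂ, ‖z‖ < 1 → ∀ a ∈ N, (∀ m ∈ N, inner ℂ a (S m) = 0) →
      (inner ℂ (Q a) a).re ≤ 2 * (inner ℂ (Q a) (locR S z a)).re := by
    intro z hz a ha ho
    have h1 := locR_eq hS hz a
    have h2 := hpos z hz _ (locR_mem hS hN hz ha) fun m hm => by
      rw [inner_sub_right, inner_smul_right]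
      nth_rw 1 [h1]
      rw [inner_add_left, ho m hm, inner_smul_left, inner_iso hS, Complex.conj_conj, zero_add,
        sub_self]
    set g := locR S z a with hg
    have h3 : a = g - conj z • S g := (sub_eq_iff_eq_add.2 h1).symm
    have h4 : inner ℂ (Q (conj z • S g)) (conj z • S g) = (‖z‖ ^ 2 : ℝ) * inner ℂ (Q g) g := by
      rw [map_smul, inner_smul_left, inner_smul_right, hT, Complex.conj_conj, ← mul_assoc,
        Complex.mul_conj, Complex.normSq_eq_norm_sq]
    have h5 := hsym g (conj z • S g)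
    have h6 : ‖z‖ ^ 2 ≤ 1 := pow_le_one₀ (norm_nonneg _) hz.le
    clear_value g
    rw [h3, map_sub, inner_sub_left, inner_sub_left, inner_sub_right, inner_sub_right, h4]
    simp only [Complex.sub_re, Complex.re_ofReal_mul]
    nlinarith
  set a : ℕ → ℕ → ℂ := fun k l => inner ℂ (Q ((S ^ k) (e k))) ((S ^ l) (e l)) with ha
  set v : X → M := fun s => ∑ k ∈ Finset.range n, fourier k s • e k with hv
  have hexp : ∀ {r : ℝ}, 0 ≤ r → r < 1 → ∀ s : X,
      inner ℂ (Q (v s)) (locR S (r * fourier 1 s) (v s)) = ∑ k ∈ Finset.range n,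
        ∑ l ∈ Finset.range n, fourier ((l : ℤ) - k) s *
          inner ℂ (Q (e k)) (locR S (r * fourier 1 s) (e l)) := by
    intro r _ _ s
    simp only [hv, map_sum, map_smul, sum_inner, inner_sum, inner_smul_left, inner_smul_right]
    rw [Finset.sum_comm]
    refine Finset.sum_congr rfl fun k _ => ?_
    rw [Finset.mul_sum]
    refine Finset.sum_congr rfl fun l _ => ?_
    rw [← fourier_neg, sub_eq_add_neg, fourier_add]
    ring
  have hint : ∀ {r : ℝ}, 0 ≤ r → r < 1 → Integrable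
      (fun s => inner ℂ (Q (v s)) (locR S (r * fourier 1 s) (v s))) AddCircle.haarAddCircle := by
    intro r h0 h1
    simp only [hexp h0 h1]
    exact integrable_finsetSum _ fun k _ => integrable_finsetSum _ fun l _ =>
      locJ_int hS h0 h1 _ _ _
  have hH : ∀ {r : ℝ}, 0 ≤ r → r < 1 →
      ∫ s, (inner ℂ (Q (v s)) (locR S (r * fourier 1 s) (v s))).re ∂AddCircle.haarAddCircle =
        ∑ k ∈ Finset.range n, ∑ l ∈ Finset.range n,
          if k ≤ l then r ^ (l - k) * (a k l).re else 0 := by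
    intro r h0 h1
    have h2 := integral_re (hint h0 h1)
    simp only [RCLike.re_to_complex] at h2
    rw [h2]
    simp only [hexp h0 h1]
    rw [integral_finsetSum _ fun k _ => integrable_finsetSum _ fun l _ =>
      locJ_int hS h0 h1 _ _ _, Complex.re_sum]
    refine Finset.sum_congr rfl fun k _ => ?_
    rw [integral_finsetSum _ fun l _ => locJ_int hS h0 h1 _ _ _, Complex.re_sum]
    refine Finset.sum_congr rfl fun l _ => ?_
    change (locJ S r (Q (e k)) ((l : ℤ) - k) (e l)).re = _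
    split_ifs with hkl
    · obtain ⟨d, rfl⟩ := Nat.exists_eq_add_of_le hkl
      rw [Nat.cast_add, add_sub_cancel_left, locJ_nat hS h0 h1, Nat.add_sub_cancel_left,
        ← Complex.ofReal_pow, Complex.re_ofReal_mul, ← hTk k, ha]
      simp only [pow_add]
      rfl
    · rw [locJ_neg hS h0 h1 _ (by omega), Complex.zero_re]
  have hr : ∀ r ∈ Set.Ioo (0 : ℝ) 1, ∑ k ∈ Finset.range n, (a k k).re ≤
      2 * ∑ k ∈ Finset.range n, ∑ l ∈ Finset.range n,
        if k ≤ l then r ^ (l - k) * (a k l).re else 0 := by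
    intro r hr
    have h0 : ∑ k ∈ Finset.range n, (a k k).re = ∑ k ∈ Finset.range n, ∑ l ∈ Finset.range n,
        if k ≤ l then (0 : ℝ) ^ (l - k) * (a k l).re else 0 := by
      refine Finset.sum_congr rfl fun k hk => ?_
      rw [Finset.sum_eq_single k (fun l _ hl => ?_) (fun h => absurd hk h)]
      · simp
      · split_ifs with hkl
        · rw [zero_pow (by omega), zero_mul]
        · rfl
    rw [h0, ← hH le_rfl one_pos, ← hH hr.1.le hr.2, ← integral_const_mul]
    refine integral_mono (hint le_rfl one_pos).re ((hint hr.1.le hr.2).re.const_mul 2) fun s => ?_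
    have h1 : locR S (((0 : ℝ) : ℂ) * fourier 1 s) (v s) = v s := by
      have h2 := locR_eq hS (z := ((0 : ℝ) : ℂ) * fourier 1 s) (by simp) (v s)
      simpa using h2
    simp only [h1]
    refine hk _ (by rw [loc_norm_z hr.1.le]; exact hr.2) _
      (N.sum_mem fun k _ => N.smul_mem _ (he k).1) fun m hm => ?_
    simp only [hv, sum_inner, inner_smul_left]
    exact Finset.sum_eq_zero fun k _ => by rw [(he k).2 m hm, mul_zero]
  have hlim : ∑ k ∈ Finset.range n, (a k k).re ≤
      2 * ∑ k ∈ Finset.range n, ∑ l ∈ Finset.range n,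
        if k ≤ l then (1 : ℝ) ^ (l - k) * (a k l).re else 0 := by
    have hc : Continuous fun r : ℝ => 2 * ∑ k ∈ Finset.range n, ∑ l ∈ Finset.range n,
        if k ≤ l then r ^ (l - k) * (a k l).re else 0 := by
      refine continuous_const.mul (continuous_finsetSum _ fun k _ =>
        continuous_finsetSum _ fun l _ => ?_)
      split_ifs
      · fun_prop
      · fun_prop
    refine (isClosed_le continuous_const hc).closure_subset_iff.2 hr ?_
    rw [closure_Ioo zero_ne_one]
    exact ⟨zero_le_one, le_rfl⟩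
  have hfin : (inner ℂ (Q (∑ k ∈ Finset.range n, (S ^ k) (e k)))
      (∑ k ∈ Finset.range n, (S ^ k) (e k))).re = ∑ k ∈ Finset.range n, ∑ l ∈ Finset.range n,
        ((if k ≤ l then (a k l).re else 0) + (if l ≤ k then (a l k).re else 0) -
          if l = k then (a k k).re else 0) := by
    rw [map_sum, sum_inner, Complex.re_sum]
    refine Finset.sum_congr rfl fun k _ => ?_
    rw [inner_sum, Complex.re_sum]
    refine Finset.sum_congr rfl fun l _ => ?_
    rcases lt_trichotomy k l with h | h | h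
    · rw [if_pos h.le, if_neg (not_le.2 h), if_neg h.ne', add_zero, sub_zero]
    · subst h
      rw [if_pos le_rfl, if_pos rfl, add_sub_cancel_right]
    · rw [if_neg (not_le.2 h), if_pos h.le, if_neg h.ne, zero_add, sub_zero]
      exact hsym _ _
  rw [hfin]
  simp only [Finset.sum_sub_distrib, Finset.sum_add_distrib, Finset.sum_ite_eq', one_pow,
    one_mul] at hlim ⊢
  rw [Finset.sum_comm (f := fun k l => if l ≤ k then (a l k).re else 0),
    Finset.sum_congr rfl fun k hk => if_pos hk]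
  linarith

variable {L : Measure X} [IsFiniteMeasure L]

theorem loc {U : K L →L[ℂ] K L} (hU : IsMul U (fourier 1)) {S : M →L[ℂ] M} {w : K L →L[ℂ] M}
    (he : Emb U S w) {N : Submodule ℂ M} (hN : Out S N) (ha : Abs U w N) {Z : Set X}
    (hZ : MeasurableSet Z) (h0 : L Z ≠ 0) {ε : ℝ} (hε : 0 < ε) :
    ∃ z : ℂ, ‖z‖ < 1 ∧ ∃ e ∈ N, ‖e‖ = 1 ∧ (∀ m ∈ N, inner ℂ e (S m - z • m) = 0) ∧
      1 - ε ≤ ∫ t in Z, ‖adjoint w e t‖ ^ 2 ∂L := by
  by_contra hcon
  push Not at hcon
  obtain ⟨P, hP⟩ := exists_mul (L := L) (f := Z.indicator fun _ => (1 : ℂ))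
    (aestronglyMeasurable_const.indicator hZ) (C := 1) fun t => by
      by_cases ht : t ∈ Z <;> simp [ht]
  have hPn : ∀ b : K L, ‖P b‖ ^ 2 = ∫ t in Z, ‖b t‖ ^ 2 ∂L := fun b => by
    rw [norm_sq, ← integral_indicator hZ]
    refine integral_congr_ae ((hP b).mono fun t ht => ?_)
    by_cases h : t ∈ Z <;> simp [ht, h]
  have hPle : ∀ b : K L, ‖P b‖ ≤ ‖b‖ := fun b => by
    refine (pow_le_pow_iff_left₀ (norm_nonneg _) (norm_nonneg _) two_ne_zero).1 ?_
    rw [hPn, norm_sq]
    exact setIntegral_le_integral (int_sq b) (Eventually.of_forall fun _ => by positivity)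
  set A : M →L[ℂ] K L := P ∘L adjoint w with hA
  have hAS : ∀ x, A (S x) = U (A x) := fun x => by
    change P (adjoint w (S x)) = U (P (adjoint w x))
    rw [he.adj (hU.surj (norm_fourier 1)), hP.comm hU]
  set η : ℝ := min ε (1 / 2) with hη
  have hη0 : 0 < η := lt_min hε (by norm_num)
  have hη1 : η ≤ 1 / 2 := min_le_right _ _
  set Q : M →L[ℂ] M := ((1 - η : ℝ) : ℂ) • (1 : M →L[ℂ] M) - adjoint A ∘L A with hQ
  have hQe : ∀ x y, inner ℂ (Q x) y = ((1 - η : ℝ) : ℂ) * inner ℂ x y - inner ℂ (A x) (A y) :=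
    fun x y => by
      change inner ℂ (((1 - η : ℝ) : ℂ) • x - adjoint A (A x)) y = _
      rw [inner_sub_left, inner_smul_left, Complex.conj_ofReal, adjoint_inner_left]
  have hQr : ∀ x, (inner ℂ (Q x) x).re = (1 - η) * ‖x‖ ^ 2 - ‖A x‖ ^ 2 := fun x => by
    rw [hQe, Complex.sub_re, Complex.re_ofReal_mul, inner_self_eq_norm_sq_to_K,
      inner_self_eq_norm_sq_to_K]
    norm_cast
  have hpoly := loc_toeplitz he.iso hN Q
    (fun x y => by
      rw [← inner_conj_symm x, hQe, hQe, map_sub, map_mul, Complex.conj_ofReal, inner_conj_symm,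
        inner_conj_symm])
    (fun x y => by
      rw [hQe, hQe, hAS, hAS, inner_iso he.iso, inner_iso (hU.iso (norm_fourier 1))])
    (fun z hz g hg ho => by
      rw [hQr]
      rcases eq_or_ne g 0 with rfl | hg0
      · simp
      · have hn : 0 < ‖g‖ := norm_pos_iff.2 hg0
        have h1 := hcon z hz (((‖g‖⁻¹ : ℝ) : ℂ) • g) (N.smul_mem _ hg)
          (by rw [norm_smul, Complex.norm_real, norm_inv, norm_norm, inv_mul_cancel₀ hn.ne'])
          (fun m hm => by rw [inner_smul_left, ho m hm, mul_zero])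
        rw [← hPn] at h1
        change ‖A (((‖g‖⁻¹ : ℝ) : ℂ) • g)‖ ^ 2 < _ at h1
        rw [map_smul, norm_smul, Complex.norm_real, norm_inv, norm_norm, mul_pow, inv_pow,
          inv_mul_lt_iff₀ (by positivity)] at h1
        have h2 : η ≤ ε := min_le_left _ _
        nlinarith [sq_nonneg ‖g‖])
  have hall : ∀ f ∈ N, 0 ≤ (inner ℂ (Q f) f).re := fun f hf => by
    have hc : IsClosed {x : M | 0 ≤ (inner ℂ (Q x) x).re} :=
      isClosed_le continuous_const
        (Complex.continuous_re.comp (Q.continuous.inner continuous_id))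
    refine hc.closure_subset (Metric.mem_closure_iff.2 fun δ hδ => ?_)
    obtain ⟨n, e, h1, h2⟩ := wold he.iso hN hf (half_pos hδ)
    exact ⟨_, hpoly n e h1, by rw [dist_eq_norm]; exact h2.trans_lt (half_lt_self hδ)⟩
  set a : K L := indicatorConstLp 2 hZ (measure_ne_top L Z) (1 : ℂ) with ha'
  have ha0 : 0 < ‖a‖ := by
    rw [ha', norm_indicatorConstLp (by norm_num) (by norm_num), norm_one, one_mul]
    exact Real.rpow_pos_of_pos (ENNReal.toReal_pos h0 (measure_ne_top L Z)) _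
  have hPa : P a = a := by
    refine Lp.ext ?_
    filter_upwards [hP a, indicatorConstLp_coeFn (p := 2) (hs := hZ) (hμs := measure_ne_top L Z)
      (c := (1 : ℂ))] with t h1 h2
    rw [h1]
    by_cases h : t ∈ Z
    · rw [Set.indicator_of_mem h, one_mul]
    · rw [Set.indicator_of_notMem h, zero_mul, ha', h2, Set.indicator_of_notMem h]
  obtain ⟨n, m, hm, hd⟩ := (ha a (η / 8 * ‖a‖) (by positivity)).exists
  have hun : ‖(U ^ n) a‖ = ‖a‖ :=
    (hU.pow n).iso (fun t => by rw [norm_pow, norm_fourier, one_pow]) a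
  have h1 : A (w ((U ^ n) a)) = (U ^ n) a := by
    change P (adjoint w (w ((U ^ n) a))) = _
    rw [adj_iso he.wiso, hP.comm (hU.pow n), hPa]
  have h2 : ‖A (w ((U ^ n) a) - m)‖ ≤ η / 8 * ‖a‖ := by
    refine (hPle _).trans (le_trans ?_ hd)
    exact (adj_con zero_le_one (fun x => by rw [he.wiso, one_mul]) (w ((U ^ n) a) - m)).trans
      (one_mul _).le
  rw [map_sub, h1] at h2
  have h3 : (1 - η / 8) * ‖a‖ ≤ ‖A m‖ := by
    have := norm_sub_norm_le ((U ^ n) a) (A m)
    rw [hun] at this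
    linarith
  have h4 : ‖m‖ ≤ (1 + η / 8) * ‖a‖ := by
    have := norm_sub_norm_le m (w ((U ^ n) a))
    rw [he.wiso, hun, norm_sub_rev] at this
    linarith
  have h5 := hall m hm
  rw [hQr] at h5
  have h6 : ((1 - η / 8) * ‖a‖) ^ 2 ≤ ‖A m‖ ^ 2 :=
    pow_le_pow_left₀ (mul_nonneg (by linarith) ha0.le) h3 2
  have h7 : (1 - η) * ‖m‖ ^ 2 ≤ (1 - η) * ((1 + η / 8) * ‖a‖) ^ 2 :=
    mul_le_mul_of_nonneg_left (pow_le_pow_left₀ (norm_nonneg _) h4 2) (by linarith)
  have h8 : (1 - η) * (1 + η / 8) ^ 2 < (1 - η / 8) ^ 2 := by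
    nlinarith [mul_pos hη0 hη0, mul_pos (mul_pos hη0 hη0) hη0]
  have h9 := mul_lt_mul_of_pos_right h8 (pow_pos ha0 2)
  rw [mul_pow] at h6 h7
  nlinarith

end Pool.Agent.P.MP_f981b0_an.CD
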