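import Pool.Agent.P.MP_f981b0_an.CD.Wand
import Pool.Agent.P.MP_f981b0_an.CD.Loc
import Pool.Agent.P.MP_f981b0_an.CD.Cone

/-! Package FL: the final contradiction. -/

set_option autoImplicit false

open MeasureTheory Filter Topology ContinuousLinearMap
open scoped ComplexConjugate

noncomputable section

namespace Pool.Agent.P.MP_f981b0_an.CD

universe u

variable {M : Type u} [NormedAddCommGroup M] [InnerProductSpace ℂ M] [CompleteSpace M]

variable {L : Measure X} [IsFiniteMeasure L]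

omit [CompleteSpace M] in
theorem fl_pow {S : M →L[ℂ] M} {N : Submodule ℂ M} (hN : ∀ m ∈ N, S m ∈ N) {e : M}
    (he : e ∈ N) (n : ℕ) : (S ^ n) e ∈ N := by
  induction n with
  | zero => simpa using he
  | succ n ih =>
    rw [pow_succ', mul_apply_eq_comp]
    exact hN _ ih

omit [CompleteSpace M] in
theorem fl_mom {S : M →L[ℂ] M} {N : Submodule ℂ M} (hN : ∀ m ∈ N, S m ∈ N) {z : ℂ} {e e' : M}
    (he : ∀ m ∈ N, inner ℂ e (S m - z • m) = 0) (he' : e' ∈ N) (n : ℕ) :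
    inner ℂ e ((S ^ n) e') = z ^ n * inner ℂ e e' := by
  induction n with
  | zero => simp
  | succ n ih =>
    have h1 := he _ (fl_pow hN he' n)
    rw [inner_sub_right, inner_smul_right, ih, sub_eq_zero] at h1
    rw [pow_succ', mul_apply_eq_comp, h1]
    ring

omit [CompleteSpace M] in
theorem fl_scale (T : M →L[ℂ] M) {P : M → Prop} (hP : ∀ (c : ℂ) (g : M), P g → P (c • g))
    {r : ℝ} (h : ∀ g, P g → ‖g‖ = 1 → ‖T g‖ ≤ r) (g : M) (hg : P g) : ‖T g‖ ≤ r * ‖g‖ := by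
  by_cases h0 : g = 0
  · simp [h0]
  have hn : 0 < ‖g‖ := norm_pos_iff.mpr h0
  have hc : ‖((‖g‖⁻¹ : ℝ) : ℂ)‖ = ‖g‖⁻¹ := by
    rw [Complex.norm_real, Real.norm_of_nonneg (inv_nonneg.mpr hn.le)]
  have h1 := h (((‖g‖⁻¹ : ℝ) : ℂ) • g) (hP _ _ hg) (by
    rw [norm_smul, hc, inv_mul_cancel₀ hn.ne'])
  rw [map_smul, norm_smul, hc, inv_mul_le_iff₀ hn] at h1
  linarith

theorem fl_one {U : K L →L[ℂ] K L} (hU : IsMul U (fourier 1)) {S : M →L[ℂ] M}
    (hS : ∀ m, ‖S m‖ = ‖m‖) {c : M →L[ℂ] K L} (hc : ∀ m, ‖c m‖ ≤ ‖m‖)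
    (hcs : ∀ m, c (S m) = U (c m)) {z : ℂ} (hz : ‖z‖ < 1) {e : M} (n0 : ‖e‖ ≤ 1)
    (h00 : ∀ n : ℕ, inner ℂ e ((S ^ n) e) = z ^ n * inner ℂ e e)
    {Z : Set X} (hZ : MeasurableSet Z) :
    ∫ t in Z, ‖c e t‖ ^ 2 ∂L ≤ ∫ t in Z, pk z t ∂AddCircle.haarAddCircle := by
  have h1 := wand hU hS hc hcs hz (e₀ := e) (e₁ := 0) n0 (by simp) h00 (by simp) (by simp)
    (by simp) hZ
  refine le_trans ?_ h1
  refine integral_mono (int_sq _).integrableOn ((int_sq _).add (int_sq _)).integrableOn ?_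
  intro t
  have : 0 ≤ ‖c 0 t‖ ^ 2 := sq_nonneg _
  simp only
  linarith

omit [IsFiniteMeasure L] in
theorem fl_split (a : K L) {Z : Set X} (hZ : MeasurableSet Z) :
    ‖a‖ ^ 2 = ∫ t in Z, ‖a t‖ ^ 2 ∂L + ∫ t in Zᶜ, ‖a t‖ ^ 2 ∂L := by
  rw [norm_sq, integral_add_compl hZ (int_sq a)]

omit [IsFiniteMeasure L] in
theorem fl_nn (a : K L) (Z : Set X) : 0 ≤ ∫ t in Z, ‖a t‖ ^ 2 ∂L :=
  integral_nonneg fun _ => sq_nonneg _

theorem fl_pk {z : ℂ} (hz : ‖z‖ < 1) {Z : Set X} (hZ : MeasurableSet Z) :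
    ∫ t in Z, pk z t ∂AddCircle.haarAddCircle + ∫ t in Zᶜ, pk z t ∂AddCircle.haarAddCircle =
      1 := by
  have hi : Integrable (pk z) (AddCircle.haarAddCircle : Measure X) :=
    (pk_cont hz).integrable_of_hasCompactSupport (HasCompactSupport.of_compactSpace _)
  rw [integral_add_compl hZ hi, pois_one hz]

omit [IsFiniteMeasure L] in
theorem fl_th {θ : X → ℂ} {Θ : K L →L[ℂ] K L} (hΘ : IsMul Θ θ) (h1 : ∀ t, ‖θ t‖ = 1) {θ₀ : ℂ}
    (h0 : ‖θ₀‖ = 1) {Z : Set X} (hZ : MeasurableSet Z) {δ : ℝ}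
    (hZθ : ∀ t ∈ Z, ‖θ t - θ₀‖ ≤ δ) (a : K L) :
    ‖Θ a - θ₀ • a‖ ^ 2 ≤
      δ ^ 2 * ∫ t in Z, ‖a t‖ ^ 2 ∂L + 4 * ∫ t in Zᶜ, ‖a t‖ ^ 2 ∂L := by
  have hae : ∀ᵐ t ∂L, ‖(Θ a - θ₀ • a : K L) t‖ ^ 2 = ‖θ t - θ₀‖ ^ 2 * ‖a t‖ ^ 2 := by
    filter_upwards [Lp.coeFn_sub (Θ a) (θ₀ • a), Lp.coeFn_smul θ₀ a, hΘ a] with t e1 e2 e3
    rw [e1, Pi.sub_apply, e2, e3, Pi.smul_apply, smul_eq_mul, ← sub_mul, norm_mul, mul_pow]
  rw [fl_split _ hZ, ← integral_const_mul, ← integral_const_mul]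
  refine add_le_add ?_ ?_
  · refine setIntegral_mono_ae_restrict (int_sq _).integrableOn
      ((int_sq a).const_mul _).integrableOn ?_
    filter_upwards [ae_restrict_of_ae hae, ae_restrict_mem hZ] with t e1 e2
    rw [e1]
    exact mul_le_mul_of_nonneg_right (pow_le_pow_left₀ (norm_nonneg _) (hZθ t e2) 2)
      (sq_nonneg _)
  · refine setIntegral_mono_ae_restrict (int_sq _).integrableOn
      ((int_sq a).const_mul _).integrableOn ?_
    filter_upwards [ae_restrict_of_ae hae] with t e1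
    rw [e1]
    have h2 : ‖θ t - θ₀‖ ≤ 2 := by
      have := norm_sub_le (θ t) θ₀
      rw [h1 t, h0] at this
      linarith
    have h3 : ‖θ t - θ₀‖ ^ 2 ≤ 4 := by
      have := pow_le_pow_left₀ (norm_nonneg _) h2 2
      linarith
    exact mul_le_mul_of_nonneg_right h3 (sq_nonneg _)

/-- The average of the identity and a rotated operator. -/
def flAv (θ₀ : ℂ) (Y : M →L[ℂ] M) : M →L[ℂ] M :=
  (1 / 2 : ℂ) • ((1 : M →L[ℂ] M) + conj θ₀ • Y)

omit [CompleteSpace M] in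
theorem fl_av (θ₀ : ℂ) (Y : M →L[ℂ] M) (m : M) :
    flAv θ₀ Y m = (1 / 2 : ℂ) • (m + conj θ₀ • Y m) := by
  simp [flAv]

theorem fl_av_adj (θ₀ : ℂ) (Y : M →L[ℂ] M) (m : M) :
    adjoint (flAv θ₀ Y) m = (1 / 2 : ℂ) • (m + θ₀ • adjoint Y m) := by
  refine ext_inner_left ℂ fun v => ?_
  rw [adjoint_inner_right, fl_av, inner_smul_left, inner_smul_right, inner_add_left,
    inner_add_right, inner_smul_left, inner_smul_right, adjoint_inner_right, Complex.conj_conj,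
    map_div₀, map_one, Complex.conj_ofNat]

theorem fl_half : ‖(1 / 2 : ℂ)‖ = 1 / 2 := by simp

omit [CompleteSpace M] in
theorem fl_av_con {θ₀ : ℂ} (h0 : ‖θ₀‖ = 1) {Y : M →L[ℂ] M} (hY : ∀ m, ‖Y m‖ ≤ ‖m‖) (m : M) :
    ‖flAv θ₀ Y m‖ ≤ ‖m‖ := by
  rw [fl_av, norm_smul, fl_half]
  have h1 := norm_add_le m (conj θ₀ • Y m)
  rw [norm_smul, Complex.norm_conj, h0] at h1
  have := hY m
  linarith

theorem fl_gap {θ₀ : ℂ} {Y : M →L[ℂ] M} {f : M} {ρ δ I : ℝ} (hρ : 0 ≤ ρ) (hδ : 0 ≤ δ)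
    (hf : ‖f‖ ≤ 1) (hI : I ≤ δ ^ 2)
    (h : ‖f + θ₀ • adjoint Y f‖ ^ 2 ≤ 4 * (ρ ^ 2 * ‖f‖ ^ 2 + I)) :
    ‖adjoint (flAv θ₀ Y) f‖ ≤ ρ + δ := by
  rw [fl_av_adj, norm_smul, fl_half]
  have h1 : ‖f‖ ^ 2 ≤ 1 := by
    have := pow_le_pow_left₀ (norm_nonneg _) hf 2
    linarith
  have h2 : ρ ^ 2 * ‖f‖ ^ 2 ≤ ρ ^ 2 := by
    have := mul_le_mul_of_nonneg_left h1 (sq_nonneg ρ)
    linarith
  have h3 : ‖f + θ₀ • adjoint Y f‖ ^ 2 ≤ (2 * (ρ + δ)) ^ 2 := by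
    have := mul_nonneg hρ hδ
    nlinarith
  have h4 := abs_le_of_sq_le_sq' h3 (by positivity)
  linarith [h4.2]

omit [CompleteSpace M] in
theorem fl_sh {S : M →L[ℂ] M} {z : ℂ} {N : Submodule ℂ M} {a : M} :
    a ∈ Sh S z N ↔ ∃ m ∈ N, S m - z • m = a := by
  simp [Sh, Submodule.mem_map]

omit [CompleteSpace M] [IsFiniteMeasure L] in
theorem fl_hull_inv {T : M →L[ℂ] M} {w : K L →L[ℂ] M} {N : Submodule ℂ M}
    (hN : ∀ m ∈ N, T m ∈ N) (hw : ∀ a, ∃ a', T (w a) = w a') :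
    ∀ f ∈ Hull w N, T f ∈ Hull w N := by
  refine hull_ind (P := {f | T f ∈ Hull w N}) ((hull_closed w N).preimage T.continuous) ?_
  intro m hm a
  obtain ⟨a', ha'⟩ := hw a
  change T (m + w a) ∈ Hull w N
  rw [map_add, ha']
  exact mem_hull (hN m hm) a'

theorem fl_lim {C q : ℝ} (h0 : 0 ≤ q) (h1 : q < 1) (h : ∀ n : ℕ, 1 ≤ C * q ^ n) : False := by
  have h2 : Tendsto (fun n : ℕ => C * q ^ n) atTop (𝓝 (C * 0)) :=
    (tendsto_pow_atTop_nhds_zero_of_lt_one h0 h1).const_mul C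
  have h3 := ge_of_tendsto' h2 h
  linarith

theorem fl {θ : X → ℂ} {U Θ : K L →L[ℂ] K L} (hc : Circ L θ U Θ) {S Y : M →L[ℂ] M}
    {w : K L →L[ℂ] M} {b : M →L[ℂ] K L} {N : Submodule ℂ M} (h : Last U Θ θ S w b N Y) :
    False := by
  obtain ⟨ρ, hρ0, hρ1, hgap⟩ := h.gap
  obtain ⟨η, hη⟩ : ∃ η : ℝ, η = (1 - ρ) / 8 := ⟨_, rfl⟩
  have hη0 : 0 < η := by rw [hη]; linarith
  have hη1 : η ≤ 1 / 8 := by rw [hη]; linarith
  obtain ⟨δ, hδ⟩ : ∃ δ : ℝ, δ = η ^ 2 / 6 := ⟨_, rfl⟩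
  have hδ0 : 0 < δ := by rw [hδ]; positivity
  have hδη : δ ≤ η := by rw [hδ]; nlinarith
  obtain ⟨θ₀, hθ₀, Z, hZ, hLZ, hZθ, hg⟩ := hgap δ hδ0
  obtain ⟨z, hz, e₀, he₀N, he₀1, he₀p, he₀Z⟩ :=
    loc hc.mu h.emb h.out h.abs hZ hLZ (pow_pos hδ0 2)
  have hUs : Function.Surjective U := hc.mu.surj (norm_fourier 1)
  have hwc : ∀ m, ‖adjoint w m‖ ≤ ‖m‖ := fun m => by
    have := adj_con (S := w) (c := 1) zero_le_one (fun x => by rw [h.emb.wiso, one_mul]) m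
    simpa using this
  have hws : ∀ m, adjoint w (S m) = U (adjoint w m) := h.emb.adj hUs
  have hm00 := fl_mom h.out.inv he₀p he₀N
  -- the harmonic measure lives on Z
  have hpk : ∫ t in Zᶜ, pk z t ∂AddCircle.haarAddCircle ≤ δ ^ 2 := by
    have h1 := fl_one hc.mu h.emb.iso hwc hws hz he₀1.le hm00 hZ
    have h2 := fl_pk hz hZ
    linarith
  have hbZ : ∀ g : M, ‖g‖ = 1 → (∀ n : ℕ, inner ℂ g ((S ^ n) g) = z ^ n * inner ℂ g g) →
      ∫ t in Zᶜ, ‖b g t‖ ^ 2 ∂L ≤ δ ^ 2 := fun g g1 gm =>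
    (fl_one hc.mu h.emb.iso h.bn h.bs hz g1.le gm hZ.compl).trans hpk
  have ha₀ : 1 - δ ^ 2 ≤ ‖adjoint w e₀‖ ^ 2 := by
    have h1 := fl_split (adjoint w e₀) hZ
    have h2 := fl_nn (adjoint w e₀) Zᶜ
    linarith
  obtain ⟨Y₁, hY₁⟩ : ∃ Y₁ : M →L[ℂ] M, Y₁ = flAv θ₀ Y := ⟨_, rfl⟩
  have hYc : ∀ m, ‖Y₁ m‖ ≤ ‖m‖ := by rw [hY₁]; exact fl_av_con hθ₀ h.yn
  have hYa : ∀ m, ‖adjoint Y₁ m‖ ≤ ‖m‖ := fun m => by
    have := adj_con (S := Y₁) (c := 1) zero_le_one (fun x => by rw [one_mul]; exact hYc x) m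
    simpa using this
  have hYN : ∀ m ∈ N, Y₁ m ∈ N := fun m hm => by
    rw [hY₁, fl_av]
    exact N.smul_mem _ (N.add_mem hm (N.smul_mem _ (h.yN m hm)))
  have hYS : ∀ m ∈ N, Y₁ (S m) = S (Y₁ m) := fun m hm => by
    rw [hY₁, fl_av, fl_av, h.ys m hm, map_smul, map_add, map_smul]
  have hYw : ∀ a, ∃ a', Y₁ (w a) = w a' := fun a =>
    ⟨(1 / 2 : ℂ) • (a + conj θ₀ • Θ a), by
      rw [hY₁, fl_av, h.yw, map_smul, map_add, map_smul]⟩
  have hShN : Sh S z N ≤ N := fun a ha => by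
    obtain ⟨m, hm, rfl⟩ := fl_sh.mp ha
    exact N.sub_mem (h.out.inv m hm) (N.smul_mem _ hm)
  have hYSh : ∀ a ∈ Sh S z N, Y₁ a ∈ Sh S z N := fun a ha => by
    obtain ⟨m, hm, rfl⟩ := fl_sh.mp ha
    exact fl_sh.mpr ⟨Y₁ m, hYN m hm, by rw [map_sub, map_smul, hYS m hm]⟩
  -- the expanding cone
  have hfix : ‖Y₁ e₀ - e₀‖ ≤ η ^ 2 / 2 := by
    obtain ⟨a, ha⟩ : ∃ a, a = adjoint w e₀ := ⟨_, rfl⟩
    obtain ⟨r, hr⟩ : ∃ r, r = e₀ - w a := ⟨_, rfl⟩
    have h1 := norm_sq_iso h.emb.wiso e₀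
    rw [← ha, ← hr, he₀1] at h1
    rw [← ha] at ha₀ he₀Z
    have hr1 : ‖r‖ ≤ δ := (abs_le_of_sq_le_sq' (by linarith) hδ0.le).2
    have h2 := fl_th hc.mth hc.uni hθ₀ hZ hZθ a
    have h3 := fl_split a hZ
    have h4 := fl_nn a Zᶜ
    have h5 : ∫ t in Z, ‖a t‖ ^ 2 ∂L ≤ 1 := by nlinarith [sq_nonneg ‖r‖]
    have h6 : ∫ t in Zᶜ, ‖a t‖ ^ 2 ∂L ≤ δ ^ 2 := by nlinarith [sq_nonneg ‖r‖]
    have h7 : δ ^ 2 * ∫ t in Z, ‖a t‖ ^ 2 ∂L ≤ δ ^ 2 := by
      have := mul_le_mul_of_nonneg_left h5 (sq_nonneg δ)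
      linarith
    have h8 : ‖Θ a - θ₀ • a‖ ≤ 3 * δ :=
      (abs_le_of_sq_le_sq' (by nlinarith [sq_nonneg δ]) (by positivity)).2
    have hcc : conj θ₀ * θ₀ = 1 := by
      rw [Complex.conj_mul', hθ₀]
      simp
    have he : e₀ = w a + r := by rw [hr]; abel
    have h9 : Y₁ e₀ - e₀ =
        (Y₁ r - r) + (1 / 2 : ℂ) • (conj θ₀ • w (Θ a - θ₀ • a)) := by
      have e1 : Y₁ (w a) = (1 / 2 : ℂ) • (w a + conj θ₀ • w (Θ a)) := by
        rw [hY₁, fl_av, h.yw]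
      have e2 : conj θ₀ • w (Θ a - θ₀ • a) = conj θ₀ • w (Θ a) - w a := by
        rw [map_sub, map_smul, smul_sub, smul_smul, hcc, one_smul]
      rw [e2]
      conv_lhs => rw [he, map_add, e1]
      module
    have h10 : ‖Y₁ r - r‖ ≤ δ := by
      have e1 : Y₁ r - r = (1 / 2 : ℂ) • (conj θ₀ • Y r - r) := by
        rw [hY₁, fl_av]
        module
      have e2 := norm_sub_le (conj θ₀ • Y r) r
      rw [norm_smul, Complex.norm_conj, hθ₀] at e2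
      rw [e1, norm_smul, fl_half]
      have := h.yn r
      linarith
    have h11 := norm_add_le (Y₁ r - r) ((1 / 2 : ℂ) • (conj θ₀ • w (Θ a - θ₀ • a)))
    rw [← h9, norm_smul, norm_smul, fl_half, Complex.norm_conj, hθ₀, h.emb.wiso] at h11
    linarith
  have hperp : ∀ e : M, e ∈ (Sh S z N).topologicalClosureᗮ ↔
      ∀ m ∈ N, inner ℂ e (S m - z • m) = 0 := fun e => by
    rw [Submodule.orthogonal_closure, Submodule.mem_orthogonal']
    constructor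
    · intro h1 m hm
      exact h1 _ (fl_sh.mpr ⟨m, hm, rfl⟩)
    · intro h1 a ha
      obtain ⟨m, hm, rfl⟩ := fl_sh.mp ha
      exact h1 m hm
  have hcone := cone hYc (A := (Sh S z N).topologicalClosure) (N := N)
    (Submodule.isClosed_topologicalClosure _) h.out.closed
    (Submodule.topologicalClosure_minimal _ hShN h.out.closed)
    (fun m hm => map_mem_closure Y₁.continuous hm hYSh) hYN he₀N ((hperp e₀).mpr he₀p) he₀1
    (η := η) (ρ := ρ + 2 * δ) hη0.le (by positivity) (by linarith) hfix (by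
      intro e heN heA he0
      refine fl_scale (adjoint Y₁)
        (P := fun e => e ∈ N ∧ e ∈ (Sh S z N).topologicalClosureᗮ ∧ inner ℂ e₀ e = 0)
        (fun c g hg => ⟨N.smul_mem c hg.1, Submodule.smul_mem _ c hg.2.1, by
          rw [inner_smul_right, hg.2.2, mul_zero]⟩) ?_ e ⟨heN, heA, he0⟩
      rintro e ⟨heN, heA, he0⟩ he1
      have hep := (hperp e).mp heA
      have hm11 := fl_mom h.out.inv hep heN
      have he0' : inner ℂ e e₀ = 0 := inner_eq_zero_symm.mp he0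
      have h1 := wand hc.mu h.emb.iso hwc hws hz he₀1.le he1.le hm00 hm11
        (fun n => by rw [fl_mom h.out.inv he₀p heN n, he0, mul_zero])
        (fun n => by rw [fl_mom h.out.inv hep he₀N n, he0', mul_zero]) MeasurableSet.univ
      rw [Measure.restrict_univ, Measure.restrict_univ, pois_one hz,
        integral_add (int_sq _) (int_sq _), ← norm_sq, ← norm_sq] at h1
      have h2 : ‖adjoint w e‖ ≤ δ := (abs_le_of_sq_le_sq' (by linarith) hδ0.le).2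
      have h3 := norm_sq_iso h.emb.wiso e
      rw [he1] at h3
      have h4 : ‖e - w (adjoint w e)‖ ≤ 1 :=
        (abs_le_of_sq_le_sq' (by nlinarith [sq_nonneg ‖adjoint w e‖]) zero_le_one).2
      have h5 : e - w (adjoint w e) ∈ Hull w N := by
        have := mem_hull (w := w) heN (-(adjoint w e))
        rwa [map_neg, ← sub_eq_add_neg] at this
      have h6 := hg _ h5 (by rw [map_sub, adj_iso h.emb.wiso, sub_self])
      have h7 : b (e - w (adjoint w e)) = b e := by rw [map_sub, h.bw, sub_zero]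
      rw [h7] at h6
      have h8 := fl_gap hρ0 hδ0.le h4 (hbZ e he1 hm11) h6
      rw [← hY₁] at h8
      have h9 : adjoint Y₁ e =
          adjoint Y₁ (e - w (adjoint w e)) + adjoint Y₁ (w (adjoint w e)) := by
        rw [← map_add, sub_add_cancel]
      have h10 := norm_add_le (adjoint Y₁ (e - w (adjoint w e))) (adjoint Y₁ (w (adjoint w e)))
      have h11 := hYa (w (adjoint w e))
      rw [h.emb.wiso] at h11
      rw [h9]
      linarith)
  -- the contraction on the quotient of the hull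
  have hRN : Hull w (Sh S z N) ≤ Hull w N := fun f hf =>
    hull_ind (P := (Hull w N : Set M)) (hull_closed w N)
      (fun m hm a => mem_hull (hShN hm) a) f hf
  have hSH : ∀ f ∈ Hull w N, S f ∈ Hull w N :=
    fl_hull_inv h.out.inv fun a => ⟨U a, h.emb.sw a⟩
  have hgrow := grow (Y := Y₁) (R := Hull w (Sh S z N)) (N := Hull w N) (hull_closed _ _) hRN
    (fl_hull_inv hYSh hYw) (fl_hull_inv hYN hYw) (ρ := ρ + 2 * δ) (by positivity) (by
      intro g hgN hgR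
      refine fl_scale (adjoint Y₁)
        (P := fun g => g ∈ Hull w N ∧ g ∈ (Hull w (Sh S z N))ᗮ)
        (fun c g hg => ⟨Submodule.smul_mem _ c hg.1, Submodule.smul_mem _ c hg.2⟩) ?_ g
        ⟨hgN, hgR⟩
      rintro g ⟨hgN, hgR⟩ hg1
      rw [Submodule.mem_orthogonal'] at hgR
      have h1 : ∀ f ∈ Hull w N, inner ℂ g (S f - z • f) = 0 := by
        refine hull_ind (P := {f | inner ℂ g (S f - z • f) = 0})
          (isClosed_eq (by fun_prop) continuous_const) ?_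
        intro m hm a
        refine hgR _ ?_
        have e1 : S (m + w a) - z • (m + w a) = (S m - z • m) + w (U a - z • a) := by
          rw [map_add, map_sub, map_smul, h.emb.sw, smul_add]
          abel
        rw [e1]
        exact mem_hull (fl_sh.mpr ⟨m, hm, rfl⟩) _
      have h2 : adjoint w g = 0 := by
        refine ext_inner_right ℂ fun a => ?_
        rw [adjoint_inner_left, inner_zero_left]
        have := mem_hull (w := w) (Sh S z N).zero_mem a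
        rw [zero_add] at this
        exact hgR _ this
      have h3 := fl_gap hρ0 hδ0.le hg1.le (hbZ g hg1 (fl_mom hSH h1 hgN)) (hg g hgN h2)
      rw [← hY₁] at h3
      linarith)
  obtain ⟨C, hC0, hC⟩ := iota h.emb hUs h.out h.res hz
  have hp : 0 < ρ + 2 * δ := by positivity
  have hq : ρ + 2 * δ < 1 - 2 * η := by linarith
  have hq0 : 0 < 1 - 2 * η := by linarith
  refine fl_lim (C := 2 * C) (q := (ρ + 2 * δ) / (1 - 2 * η)) (by positivity)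
    ((div_lt_one hq0).mpr hq) fun n => ?_
  have he₀H : e₀ ∈ Hull w N := by
    have := mem_hull (w := w) he₀N 0
    rwa [map_zero, add_zero] at this
  obtain ⟨r, hrR, hr⟩ := hgrow n e₀ he₀H
  obtain ⟨a, haS, ha⟩ := hC _ (fl_pow hYN he₀N n) r hrR _ (pow_pos hp n)
  have h1 := hcone n a (Submodule.le_topologicalClosure _ haS)
  rw [he₀1, mul_one] at hr
  have h2 : C * (‖(Y₁ ^ n) e₀ - r‖ + (ρ + 2 * δ) ^ n) ≤ C * (2 * (ρ + 2 * δ) ^ n) :=
    mul_le_mul_of_nonneg_left (by linarith) hC0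
  rw [div_pow, ← mul_div_assoc, le_div_iff₀ (pow_pos hq0 n)]
  linarith

end Pool.Agent.P.MP_f981b0_an.CD
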