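import Pool.Agent.P.MP_f981b0_an.CD.Base

/-! Package Half: the isometric lifting. -/

set_option autoImplicit false

open MeasureTheory Filter Topology ContinuousLinearMap
open scoped ComplexConjugate

noncomputable section

namespace Pool.Agent.P.MP_f981b0_an.CD

universe u

variable {H : Type u} [NormedAddCommGroup H] [InnerProductSpace ℂ H] [CompleteSpace H]

variable {E : Type} [NormedAddCommGroup E] [InnerProductSpace ℂ E] [CompleteSpace E]

/-- The sequence map behind the isometric lifting. -/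
def half_seq (T D : H →L[ℂ] H) (d : ℕ → H) : ℕ → H
  | 0 => T (d 0)
  | 1 => D (d 0)
  | n + 2 => d (n + 1)

omit [CompleteSpace H] in
theorem half_hasSum {T D : H →L[ℂ] H} (hD : ∀ x, ‖D x‖ ^ 2 = ‖x‖ ^ 2 - ‖T x‖ ^ 2)
    (d : lp (fun _ : ℕ => H) 2) :
    HasSum (fun n => ‖half_seq T D d n‖ ^ (2 : ENNReal).toReal) (‖d‖ ^ (2 : ENNReal).toReal) := by
  have h0 : HasSum (fun n => ‖d n‖ ^ (2 : ENNReal).toReal) (‖d‖ ^ (2 : ENNReal).toReal) :=
    lp.hasSum_norm (by norm_num) d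
  have h1 := (hasSum_nat_add_iff' 1).2 h0
  rw [← hasSum_nat_add_iff' 2]
  have e : (‖d‖ ^ (2 : ENNReal).toReal - ∑ i ∈ Finset.range 2,
      ‖half_seq T D d i‖ ^ (2 : ENNReal).toReal) =
      ‖d‖ ^ (2 : ENNReal).toReal - ∑ i ∈ Finset.range 1, ‖d i‖ ^ (2 : ENNReal).toReal := by
    simp only [Finset.sum_range_succ, Finset.range_zero, Finset.sum_empty, half_seq,
      ENNReal.toReal_ofNat, Real.rpow_ofNat]
    rw [hD]
    ring
  rw [e]
  exact h1

/-- The isometric lifting on sequences. -/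
theorem half_shift (T : H →L[ℂ] H) (h : ∀ x, ‖T x‖ ≤ ‖x‖) :
    ∃ σ : lp (fun _ : ℕ => H) 2 →L[ℂ] lp (fun _ : ℕ => H) 2, (∀ d, ‖σ d‖ = ‖d‖) ∧
      (∀ d, σ d 0 = T (d 0)) ∧ (∀ d n, σ d (n + 2) = d (n + 1)) ∧
      ∀ d : lp (fun _ : ℕ => H) 2, d 0 = 0 → σ d 1 = 0 := by
  obtain ⟨D, hD⟩ := defect T h
  let σ₀ : lp (fun _ : ℕ => H) 2 →ₗ[ℂ] lp (fun _ : ℕ => H) 2 :=
    { toFun := fun d => ⟨half_seq T D d, memℓp_gen (half_hasSum hD d).summable⟩
      map_add' := fun d e => by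
        refine lp.ext (funext fun n => ?_)
        change half_seq T D (d + e : lp (fun _ : ℕ => H) 2) n =
          half_seq T D d n + half_seq T D e n
        match n with
        | 0 => simp [half_seq]
        | 1 => simp [half_seq]
        | n + 2 => simp [half_seq]
      map_smul' := fun c d => by
        refine lp.ext (funext fun n => ?_)
        change half_seq T D (c • d : lp (fun _ : ℕ => H) 2) n = c • half_seq T D d n
        match n with
        | 0 => simp [half_seq]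
        | 1 => simp [half_seq]
        | n + 2 => simp [half_seq] }
  have hn : ∀ d, ‖σ₀ d‖ = ‖d‖ := by
    intro d
    have h1 : HasSum (fun n => ‖half_seq T D d n‖ ^ (2 : ENNReal).toReal)
        (‖σ₀ d‖ ^ (2 : ENNReal).toReal) := lp.hasSum_norm (by norm_num) (σ₀ d)
    have h2 := h1.unique (half_hasSum hD d)
    simp only [ENNReal.toReal_ofNat, Real.rpow_ofNat] at h2
    exact (pow_left_inj₀ (norm_nonneg _) (norm_nonneg _) two_ne_zero).1 h2
  refine ⟨σ₀.mkContinuous 1 fun d => by rw [hn, one_mul], hn, fun d => rfl, fun d n => rfl,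
    fun d hd => ?_⟩
  change D (d 0) = 0
  rw [hd, map_zero]

/-- The data of the model space. -/
structure half_Data {M : Type u} [NormedAddCommGroup M] [InnerProductSpace ℂ M]
    (T : H →L[ℂ] H) (U : E →L[ℂ] E) (S : M →L[ℂ] M) (i : E →L[ℂ] M) (j : H →L[ℂ] M)
    (π : M →L[ℂ] H) (ρ : M →L[ℂ] E) : Prop where
  iso : ∀ m, ‖S m‖ = ‖m‖
  ps : ∀ m, π (S m) = T (π m)
  rs : ∀ m, ρ (S m) = U (ρ m)
  pi : ∀ a, π (i a) = 0
  ri : ∀ a, ρ (i a) = a
  pj : ∀ x, π (j x) = x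
  rj : ∀ x, ρ (j x) = 0
  adj : ∀ a m, inner ℂ (i a) m = inner ℂ a (ρ m)
  low : ∀ m, ‖π m‖ ^ 2 + ‖ρ m‖ ^ 2 ≤ ‖m‖ ^ 2
  nrm : ∀ x a, ‖j x + i a‖ ^ 2 = ‖x‖ ^ 2 + ‖a‖ ^ 2
  si : ∀ a, S (i a) = i (U a)
  pure : ∀ m, ρ m = 0 → (∀ n : ℕ, ∃ m', π m' = 0 ∧ m = (S ^ n) m') → m = 0

theorem half_model (T : H →L[ℂ] H) (h : ∀ x, ‖T x‖ ≤ ‖x‖) (U : E →L[ℂ] E)
    (hU : ∀ a, ‖U a‖ = ‖a‖) :
    ∃ (M : Type u) (_ : NormedAddCommGroup M) (_ : InnerProductSpace ℂ M) (_ : CompleteSpace M)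
      (S : M →L[ℂ] M) (i : E →L[ℂ] M) (j : H →L[ℂ] M) (π : M →L[ℂ] H) (ρ : M →L[ℂ] E),
      half_Data T U S i j π ρ := by
  obtain ⟨σ, h1, h2, h3, h4⟩ := half_shift T h
  let D := lp (fun _ : ℕ => H) 2
  let e := WithLp.prodContinuousLinearEquiv 2 ℂ D E
  let S : WithLp 2 (D × E) →L[ℂ] WithLp 2 (D × E) :=
    (e.symm : D × E →L[ℂ] WithLp 2 (D × E)) ∘L (σ.prodMap U) ∘L (e : WithLp 2 (D × E) →L[ℂ] D × E)
  let i : E →L[ℂ] WithLp 2 (D × E) :=
    (e.symm : D × E →L[ℂ] WithLp 2 (D × E)) ∘L ContinuousLinearMap.inr ℂ D E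
  let j : H →L[ℂ] WithLp 2 (D × E) :=
    (e.symm : D × E →L[ℂ] WithLp 2 (D × E)) ∘L ContinuousLinearMap.inl ℂ D E ∘L
      lp.singleContinuousLinearMap ℂ (fun _ : ℕ => H) 2 0
  let π : WithLp 2 (D × E) →L[ℂ] H :=
    lp.evalCLM ℂ (fun _ : ℕ => H) 2 0 ∘L WithLp.fstL 2 ℂ D E
  let ρ : WithLp 2 (D × E) →L[ℂ] E := WithLp.sndL 2 ℂ D E
  have S1 : ∀ m, (S m).fst = σ m.fst := fun m => rfl
  have S2 : ∀ m, (S m).snd = U m.snd := fun m => rfl
  have i1 : ∀ a, (i a).fst = 0 := fun m => rfl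
  have i2 : ∀ a, (i a).snd = a := fun m => rfl
  have j1 : ∀ x, (j x).fst = lp.single 2 0 x := fun m => rfl
  have j2 : ∀ x, (j x).snd = 0 := fun m => rfl
  have p1 : ∀ m, π m = m.fst 0 := fun m => rfl
  have r1 : ∀ m, ρ m = m.snd := fun m => rfl
  have ext' : ∀ m m' : WithLp 2 (D × E), m.fst = m'.fst → m.snd = m'.snd → m = m' := by
    intro m m' a b
    exact WithLp.ofLp_injective 2 (Prod.ext a b)
  refine ⟨WithLp 2 (D × E), inferInstance, inferInstance, inferInstance, S, i, j, π, ρ,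
    fun m => ?_, fun m => ?_, fun m => rfl, fun a => ?_, fun a => rfl, fun x => ?_,
    fun x => rfl, fun a m => ?_, fun m => ?_, fun x a => ?_, fun a => ?_, fun m hm hn => ?_⟩
  · have : ‖S m‖ ^ 2 = ‖m‖ ^ 2 := by
      rw [WithLp.prod_norm_sq_eq_of_L2, WithLp.prod_norm_sq_eq_of_L2, S1, S2, h1, hU]
    exact (pow_left_inj₀ (norm_nonneg _) (norm_nonneg _) two_ne_zero).1 this
  · rw [p1, p1, S1, h2]
  · rw [p1, i1]
    rfl
  · rw [p1, j1]
    exact lp.single_apply_self _ _ _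
  · rw [WithLp.prod_inner_apply]
    change inner ℂ (0 : D) m.fst + inner ℂ a m.snd = _
    rw [inner_zero_left, zero_add, r1]
  · rw [WithLp.prod_norm_sq_eq_of_L2 m, p1, r1]
    have := pow_le_pow_left₀ (norm_nonneg _) (lp.norm_apply_le_norm two_ne_zero m.fst 0) 2
    linarith
  · rw [WithLp.prod_norm_sq_eq_of_L2]
    have a1 : (j x + i a).fst = lp.single 2 0 x := by
      rw [WithLp.add_fst, j1, i1, add_zero]
    have a2 : (j x + i a).snd = a := by
      rw [WithLp.add_snd, j2, i2, zero_add]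
    rw [a1, a2, lp.norm_single (by norm_num)]
  · refine ext' _ _ ?_ ?_
    · rw [S1, i1, i1, map_zero]
    · rw [S2, i2, i2]
  · have key : ∀ m' : WithLp 2 (D × E), m'.fst 0 = 0 → ∀ n k : ℕ, k ≤ n →
        ((S ^ n) m').fst k = 0 := by
      intro m' h0 n
      induction n with
      | zero =>
        intro k hk
        obtain rfl : k = 0 := by omega
        exact h0
      | succ n ih =>
        intro k hk
        rw [pow_succ', mul_apply_eq_comp, S1]
        match k, hk with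
        | 0, _ => rw [h2, ih 0 (Nat.zero_le _), map_zero]
        | 1, _ => exact h4 _ (ih 0 (Nat.zero_le _))
        | k + 2, hk => rw [h3]; exact ih _ (by omega)
    refine ext' _ _ (lp.ext (funext fun k => ?_)) hm
    obtain ⟨m', h5, h6⟩ := hn k
    rw [h6]
    exact key m' h5 k k le_rfl

section main

variable {M : Type u} [NormedAddCommGroup M] [InnerProductSpace ℂ M]
  {T : H →L[ℂ] H} {U : E →L[ℂ] E} {V : Submodule ℂ (H × E)} {S : M →L[ℂ] M} {i : E →L[ℂ] M}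
  {j : H →L[ℂ] M} {π : M →L[ℂ] H} {ρ : M →L[ℂ] E}

/-- The subspace of the model with scaling `c`. -/
def half_N (V : Submodule ℂ (H × E)) (π : M →L[ℂ] H) (ρ : M →L[ℂ] E) (c : ℂ) :
    Submodule ℂ M :=
  V.comap ((π.prod (c • ρ) : M →L[ℂ] H × E) : M →ₗ[ℂ] H × E)

omit [CompleteSpace H] [CompleteSpace E] in
theorem half_mem {c : ℂ} {m : M} : m ∈ half_N V π ρ c ↔ (π m, c • ρ m) ∈ V := Iff.rfl

omit [CompleteSpace E] in
theorem half_out (h : Sys T U V) (g : half_Data T U S i j π ρ) {c : ℂ} (hc : c ≠ 0) :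
    Out S (half_N V π ρ c) := by
  refine ⟨h.closed.preimage (π.prod (c • ρ) : M →L[ℂ] H × E).continuous, fun m hm => ?_,
    fun m hm => ?_⟩
  · rw [half_mem] at hm ⊢
    have := h.inv _ hm
    rw [g.ps, g.rs, ← map_smul]
    exact this
  · have hp : ∀ (n : ℕ) (m' : M), π ((S ^ n) m') = (T ^ n) (π m') := by
      intro n
      induction n with
      | zero => intro m'; rfl
      | succ n ih =>
        intro m'
        rw [pow_succ', pow_succ', mul_apply_eq_comp, mul_apply_eq_comp, g.ps, ih]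
    have hi : ∀ (n : ℕ) (m' : M), ‖(S ^ n) m'‖ = ‖m'‖ := by
      intro n
      induction n with
      | zero => intro m'; rfl
      | succ n ih =>
        intro m'
        rw [pow_succ', mul_apply_eq_comp, g.iso, ih]
    have hl : ∀ m' : M, ‖π m'‖ ≤ ‖m'‖ := fun m' => by
      have := g.low m'
      refine (pow_le_pow_iff_left₀ (norm_nonneg _) (norm_nonneg _) two_ne_zero).1 ?_
      nlinarith [sq_nonneg ‖ρ m'‖]
    have h0 : π m = 0 := by
      have hb : ∀ n : ℕ, ‖inner ℂ (π m) (π m)‖ ≤ ‖(adjoint T ^ n) (π m)‖ * ‖m‖ := by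
        intro n
        obtain ⟨m', -, e⟩ := hm n
        have e1 : inner ℂ (π m) (π m) = inner ℂ ((adjoint T ^ n) (π m)) (π m') := by
          have e2 : adjoint T ^ n = adjoint (T ^ n) := by
            rw [← star_eq_adjoint, ← star_eq_adjoint, star_pow]
          rw [e2, adjoint_inner_left, ← hp, ← e]
        rw [e1]
        refine (norm_inner_le_norm _ _).trans (mul_le_mul_of_nonneg_left ?_ (norm_nonneg _))
        rw [e, hi]
        exact hl m'
      have ht : Tendsto (fun n : ℕ => ‖(adjoint T ^ n) (π m)‖ * ‖m‖) atTop (𝓝 0) := by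
        simpa using (h.con.c0' (π m)).norm.mul_const ‖m‖
      have := ge_of_tendsto' ht hb
      exact inner_self_eq_zero.1 (norm_le_zero_iff.1 this)
    have hmem : m ∈ half_N V π ρ c := by
      obtain ⟨m', h1, e⟩ := hm 0
      rw [e]
      exact h1
    rw [half_mem, h0] at hmem
    have h1 : ρ m = 0 := (smul_eq_zero.1 (h.graph _ hmem)).resolve_left hc
    have hu : IsUnit T := by simpa using h.con.unit 0 (by simp)
    refine g.pure m h1 fun n => ?_
    obtain ⟨m', -, e⟩ := hm n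
    refine ⟨m', ?_, e⟩
    obtain ⟨w, hw⟩ := (hu.pow n).exists_left_inv
    have e3 : π m' = w ((T ^ n) (π m')) := by rw [← mul_apply_eq_comp, hw]; rfl
    rw [e3, ← hp, ← e, h0, map_zero]

omit [CompleteSpace H] [CompleteSpace E] in
theorem half_dist (g : half_Data T U S i j π ρ) (x : H) (a b : E) :
    ‖i a - (j x + i b)‖ ^ 2 = ‖x‖ ^ 2 + ‖a - b‖ ^ 2 := by
  have : i a - (j x + i b) = j (-x) + i (a - b) := by
    rw [map_neg, map_sub]
    abel
  rw [this, g.nrm, norm_neg]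

omit [CompleteSpace H] [CompleteSpace E] in
theorem half_low (g : half_Data T U S i j π ρ) (a : E) (m : M) :
    ‖π m‖ ^ 2 + ‖a - ρ m‖ ^ 2 ≤ ‖i a - m‖ ^ 2 := by
  have := g.low (i a - m)
  rwa [map_sub, map_sub, g.pi, g.ri, zero_sub, norm_neg] at this

omit [CompleteSpace H] [CompleteSpace E] in
theorem half_in (g : half_Data T U S i j π ρ) {c c' : ℂ} (hc : c * c' = 1) {p : H × E}
    (hp : p ∈ V) : j p.1 + i (c' • p.2) ∈ half_N V π ρ c := by
  rw [half_mem, map_add, map_add, g.pj, g.pi, g.rj, g.ri, add_zero, zero_add, smul_smul, hc,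
    one_smul]
  exact hp

omit [CompleteSpace E] in
theorem half_abs (h : Sys T U V) (g : half_Data T U S i j π ρ) :
    Abs U i (half_N V π ρ (1 / 2)) := by
  intro a ε hε
  obtain ⟨p, hp, hd⟩ := h.dense ((1 / 2 : ℂ) • a) (ε / 4) (by positivity)
  have hn : ∀ n : ℕ, ((T ^ n) p.1, (U ^ n) p.2) ∈ V := by
    intro n
    induction n with
    | zero => exact hp
    | succ n ih =>
      rw [pow_succ', pow_succ', mul_apply_eq_comp, mul_apply_eq_comp]
      exact h.inv _ ih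
  have hi : ∀ (n : ℕ) (b : E), ‖(U ^ n) b‖ = ‖b‖ := by
    intro n
    induction n with
    | zero => intro b; rfl
    | succ n ih =>
      intro b
      rw [pow_succ', mul_apply_eq_comp, h.uiso, ih]
  have ht : ∀ᶠ n : ℕ in atTop, ‖(T ^ n) p.1‖ < ε / 2 := by
    have := (h.con.c0 p.1).norm
    rw [norm_zero] at this
    exact this.eventually (gt_mem_nhds (by positivity))
  filter_upwards [ht] with n hn'
  refine ⟨_, half_in g (c' := 2) (by norm_num) (hn n), ?_⟩
  refine (pow_le_pow_iff_left₀ (norm_nonneg _) hε.le two_ne_zero).1 ?_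
  rw [half_dist g]
  have e : (U ^ n) a - (2 : ℂ) • (U ^ n) p.2 = (2 : ℂ) • (U ^ n) ((1 / 2 : ℂ) • a - p.2) := by
    rw [map_sub, map_smul, smul_sub, smul_smul]
    norm_num
  have e2 : ‖(U ^ n) a - (2 : ℂ) • (U ^ n) p.2‖ ≤ ε / 2 := by
    rw [e, norm_smul, hi]
    simp only [Complex.norm_ofNat]
    linarith
  have b1 := pow_le_pow_left₀ (norm_nonneg _) hn'.le 2
  have b2 := pow_le_pow_left₀ (norm_nonneg _) e2 2
  change ‖(T ^ n) p.1‖ ^ 2 + ‖(U ^ n) a - (2 : ℂ) • (U ^ n) p.2‖ ^ 2 ≤ ε ^ 2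
  nlinarith

theorem half_res (h : Sys T U V) (g : half_Data T U S i j π ρ) :
    Res U i (half_N V π ρ (1 / 2)) := by
  intro z hz
  obtain ⟨w, hw⟩ := (h.con.unit z hz).exists_left_inv
  have hz' : 0 < 1 - ‖z‖ := by linarith
  refine ⟨‖w‖ + (1 - ‖z‖)⁻¹, fun a m hm => ?_⟩
  obtain ⟨q, hq, e1, e2⟩ := h.res z hz _ (half_mem.1 hm)
  refine ⟨_, half_in g (c' := 2) (by norm_num) hq, ?_⟩
  set R := ‖i (U a - z • a) - m‖ with hR
  have hR0 : 0 ≤ R := norm_nonneg _
  have hl := half_low g (U a - z • a) m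
  rw [← hR] at hl
  have l1 : ‖π m‖ ≤ R := by
    refine (pow_le_pow_iff_left₀ (norm_nonneg _) hR0 two_ne_zero).1 ?_
    nlinarith [sq_nonneg ‖U a - z • a - ρ m‖]
  have l2 : ‖U a - z • a - ρ m‖ ≤ R := by
    refine (pow_le_pow_iff_left₀ (norm_nonneg _) hR0 two_ne_zero).1 ?_
    nlinarith [sq_nonneg ‖π m‖]
  have b1 : ‖q.1‖ ≤ ‖w‖ * R := by
    have e3 : q.1 = w (π m) := by
      have e4 : π m = (T - z • (1 : H →L[ℂ] H)) q.1 := e1.symm
      rw [e4, ← mul_apply_eq_comp, hw]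
      rfl
    rw [e3]
    exact (w.le_opNorm _).trans (mul_le_mul_of_nonneg_left l1 (norm_nonneg _))
  have b2 : ‖a - (2 : ℂ) • q.2‖ ≤ (1 - ‖z‖)⁻¹ * R := by
    have e5 : ρ m = (2 : ℂ) • (U q.2 - z • q.2) := by
      rw [e2, smul_smul]
      norm_num
    have e6 : U (a - (2 : ℂ) • q.2) - z • (a - (2 : ℂ) • q.2) = U a - z • a - ρ m := by
      rw [e5, map_sub, map_smul, smul_sub, smul_sub, smul_comm z (2 : ℂ)]
      abel
    have := iso_sub h.uiso z (a - (2 : ℂ) • q.2)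
    rw [e6] at this
    rw [le_inv_mul_iff₀ hz']
    linarith
  have c1 : 0 ≤ ‖w‖ * R := by positivity
  have c2 : 0 ≤ (1 - ‖z‖)⁻¹ * R := by positivity
  refine (pow_le_pow_iff_left₀ (norm_nonneg _) (by positivity) two_ne_zero).1 ?_
  rw [half_dist g, add_mul]
  have d1 := pow_le_pow_left₀ (norm_nonneg _) b1 2
  have d2 := pow_le_pow_left₀ (norm_nonneg _) b2 2
  nlinarith [mul_nonneg c1 c2]

end main

theorem half {T : H →L[ℂ] H} {U : E →L[ℂ] E} {V : Submodule ℂ (H × E)} (h : Sys T U V) :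
    ∃ (M : Type u) (_ : NormedAddCommGroup M) (_ : InnerProductSpace ℂ M) (_ : CompleteSpace M)
      (S : M →L[ℂ] M) (i : E →L[ℂ] M) (Np Nm : Submodule ℂ M), Half U V S i Np Nm := by
  obtain ⟨M, i1, i2, i3, S, i, j, π, ρ, g⟩ := half_model T h.con.con U h.uiso
  have hadj : ∀ m, adjoint i m = ρ m := fun m =>
    ext_inner_left ℂ fun a => by rw [adjoint_inner_right, g.adj]
  refine ⟨M, i1, i2, i3, S, i, half_N V π ρ (1 / 2), half_N V π ρ 2, ⟨g.iso, fun a => ?_, g.si⟩,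
    half_out h g (by norm_num), half_out h g (by norm_num), fun m hm => ?_, half_abs h g,
    half_res h g, fun m hm a => ?_, fun p hp a => ?_⟩
  · have := g.nrm 0 a
    rw [map_zero, zero_add, norm_zero, zero_pow two_ne_zero, zero_add] at this
    exact (pow_left_inj₀ (norm_nonneg _) (norm_nonneg _) two_ne_zero).1 this
  · rw [half_mem] at hm ⊢
    have h1 := V.smul_mem (1 / 4 : ℂ) hm
    rw [hadj, map_add, map_add, map_smul, map_smul, map_smul, map_smul, g.pi, g.ri, smul_zero,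
      add_zero, ← add_smul, smul_smul]
    rw [Prod.smul_mk, smul_smul] at h1
    convert h1 using 3
    norm_num
  · refine ⟨_, half_mem.1 hm, ?_⟩
    have := half_low g a m
    have e : (2 : ℂ) • (1 / 2 : ℂ) • ρ m = ρ m := by
      rw [smul_smul]
      norm_num
    change ‖π m‖ ^ 2 + ‖a - (2 : ℂ) • (1 / 2 : ℂ) • ρ m‖ ^ 2 ≤ _
    rwa [e]
  · exact ⟨_, half_in g (c' := 1 / 2) (by norm_num) hp, (half_dist g _ _ _).le⟩

end Pool.Agent.P.MP_f981b0_an.CD
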