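import Pool.Agent.P.MP_f981b0_an.CD.Base

/-! Package Var2: the second variation on the circle. -/

set_option autoImplicit false

open MeasureTheory Filter Topology ContinuousLinearMap
open scoped ComplexConjugate

noncomputable section

namespace Pool.Agent.P.MP_f981b0_an.CD

universe u

variable {L : Measure X} [IsFiniteMeasure L]

theorem var2_am {x y p q : ℝ} (hp : 0 < p) (hpq : 1 ≤ p * q) :
    x * y ≤ (p * y ^ 2 + q * x ^ 2) / 2 := by
  have h : 0 ≤ p * ((p * y ^ 2 + q * x ^ 2) / 2 - x * y) := by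
    nlinarith [sq_nonneg (p * y - x), mul_nonneg (sub_nonneg.2 hpq) (sq_nonneg x)]
  have := (mul_nonneg_iff_of_pos_left hp).1 h
  linarith

/-- The integrand of the second variation. -/
def var2_G (θ f g : ℂ) (b e : ℝ) : ℝ :=
  ‖(b : ℂ) - f‖ ^ 2 + ‖θ * b - g‖ ^ 2 - b ^ 2 + (e * b) ^ 2 * (‖f‖ ^ 2 + ‖g‖ ^ 2) / 2

theorem var2_pt {θ : ℂ} (hθ : ‖θ‖ = 1) (f g : ℂ) (b e : ℝ) :
    ‖θ - e * g‖ * ‖1 + e * f‖ + ‖θ + e * g‖ * ‖1 - e * f‖ ≤ 2 + e ^ 2 * var2_G θ f g b e := by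
  have h0 : θ.re ^ 2 + θ.im ^ 2 = 1 := by
    have : ‖θ‖ ^ 2 = 1 := by rw [hθ, one_pow]
    rw [Complex.sq_norm, Complex.normSq_apply] at this
    linarith
  have hal : 0 < 1 - e * b + (e * b) ^ 2 / 2 := by nlinarith [sq_nonneg (e * b - 1)]
  have hbe : 0 < 1 + e * b + (e * b) ^ 2 / 2 := by nlinarith [sq_nonneg (e * b + 1)]
  have hab : 1 ≤ (1 - e * b + (e * b) ^ 2 / 2) * (1 + e * b + (e * b) ^ 2 / 2) := by
    nlinarith [sq_nonneg ((e * b) ^ 2)]
  have h1 := var2_am (x := ‖θ - e * g‖) (y := ‖1 + e * f‖) hal hab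
  have h2 := var2_am (x := ‖θ + e * g‖) (y := ‖1 - e * f‖) hbe (by rwa [mul_comm])
  refine (add_le_add h1 h2).trans (le_of_eq ?_)
  simp only [var2_G, Complex.sq_norm, Complex.normSq_apply, Complex.sub_re, Complex.add_re,
    Complex.mul_re, Complex.ofReal_re, Complex.ofReal_im, Complex.sub_im, Complex.add_im,
    Complex.mul_im, Complex.one_re, Complex.one_im]
  linear_combination (1 + (e * b) ^ 2 / 2 - e ^ 2 * b ^ 2) * h0

theorem var2_bd {θ : ℂ} (hθ : ‖θ‖ = 1) (f g : ℂ) {b e c : ℝ} (hb : b ^ 2 ≤ c)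
    (he : (e * b) ^ 2 ≤ 1) : |var2_G θ f g b e| ≤ 5 * c + 3 * ‖f‖ ^ 2 + 3 * ‖g‖ ^ 2 := by
  have h1 : ‖(b : ℂ) - f‖ ≤ |b| + ‖f‖ := by
    simpa using norm_sub_le (b : ℂ) f
  have h2 : ‖θ * b - g‖ ≤ |b| + ‖g‖ := by
    simpa [hθ] using norm_sub_le (θ * b) g
  have h3 := pow_le_pow_left₀ (norm_nonneg _) h1 2
  have h4 := pow_le_pow_left₀ (norm_nonneg _) h2 2
  have h5 : |b| ^ 2 = b ^ 2 := sq_abs b
  have h6 : (e * b) ^ 2 * (‖f‖ ^ 2 + ‖g‖ ^ 2) ≤ 1 * (‖f‖ ^ 2 + ‖g‖ ^ 2) :=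
    mul_le_mul_of_nonneg_right he (by positivity)
  have h7 : 0 ≤ (e * b) ^ 2 * (‖f‖ ^ 2 + ‖g‖ ^ 2) := by positivity
  rw [var2_G, abs_le]
  constructor
  · nlinarith [sq_nonneg ‖(b : ℂ) - f‖, sq_nonneg ‖θ * b - g‖, sq_nonneg ‖f‖, sq_nonneg ‖g‖,
      sq_nonneg b]
  · nlinarith [sq_nonneg (|b| - ‖f‖), sq_nonneg (|b| - ‖g‖), sq_nonneg ‖f‖, sq_nonneg ‖g‖,
      sq_nonneg b]

/-- A smooth truncation. -/
def var2_tr (b e : ℝ) : ℝ := b / (1 + (e * b) ^ 2)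

theorem var2_tr1 (b e : ℝ) : var2_tr b e ^ 2 ≤ b ^ 2 := by
  have h : 1 ≤ (1 + (e * b) ^ 2) ^ 2 := one_le_pow₀ (by nlinarith [sq_nonneg (e * b)])
  rw [var2_tr, div_pow]
  exact div_le_self (sq_nonneg _) h

theorem var2_tr2 (b e : ℝ) : (e * var2_tr b e) ^ 2 ≤ 1 := by
  rw [var2_tr, ← mul_div_assoc, div_pow, div_le_one (by positivity)]
  nlinarith [sq_nonneg (e * b), sq_nonneg ((e * b) ^ 2)]

theorem var2_cont (θ f g : ℂ) (b : ℝ) : Continuous fun e : ℝ => var2_G θ f g (var2_tr b e) e := by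
  have h : Continuous fun e : ℝ => var2_tr b e := by
    unfold var2_tr
    exact continuous_const.div (by fun_prop) fun e => by positivity
  unfold var2_G
  fun_prop

theorem var2 {θ : X → ℂ} (hm : Measurable θ) (h1 : ∀ t, ‖θ t‖ = 1) {Θ : K L →L[ℂ] K L}
    (hΘ : IsMul Θ θ) (f g : K L) {s : ℝ}
    (h : ∀ e : ℝ, 8 * L.real Set.univ ≤
      4 * (∫ t, ‖θ t - e * g t‖ * ‖1 + e * f t‖ ∂L) +
        4 * (∫ t, ‖θ t + e * g t‖ * ‖1 - e * f t‖ ∂L) + e ^ 2 * s)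
    (b : K L) (hb : ∀ᵐ t ∂L, (b t).im = 0) :
    ‖b‖ ^ 2 ≤ s / 4 + ‖b - f‖ ^ 2 + ‖Θ b - g‖ ^ 2 := by
  have mθ : AEMeasurable θ L := hm.aemeasurable
  have mf : AEMeasurable f L := (Lp.aestronglyMeasurable f).aemeasurable
  have mg : AEMeasurable g L := (Lp.aestronglyMeasurable g).aemeasurable
  have mb : AEMeasurable b L := (Lp.aestronglyMeasurable b).aemeasurable
  let G : ℝ → X → ℝ := fun e t => var2_G (θ t) (f t) (g t) (var2_tr (b t).re e) e
  have mG : ∀ e, AEStronglyMeasurable (G e) L := fun e => by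
    refine AEMeasurable.aestronglyMeasurable ?_
    simp only [G, var2_G, var2_tr]
    fun_prop
  have ib : Integrable (fun t => 5 * ‖b t‖ ^ 2 + 3 * ‖f t‖ ^ 2 + 3 * ‖g t‖ ^ 2) L :=
    (((int_sq b).const_mul 5).add ((int_sq f).const_mul 3)).add ((int_sq g).const_mul 3)
  have bG : ∀ e, ∀ᵐ t ∂L, ‖G e t‖ ≤ 5 * ‖b t‖ ^ 2 + 3 * ‖f t‖ ^ 2 + 3 * ‖g t‖ ^ 2 :=
    fun e => Eventually.of_forall fun t => by
      refine var2_bd (h1 t) _ _ ((var2_tr1 _ _).trans ?_) (var2_tr2 _ _)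
      rw [← sq_abs]
      exact pow_le_pow_left₀ (abs_nonneg _) (Complex.abs_re_le_norm _) 2
  have iG : ∀ e, Integrable (G e) L := fun e => ib.mono' (mG e) (bG e)
  have cG : Continuous fun e => ∫ t, G e t ∂L :=
    continuous_of_dominated mG bG ib (Eventually.of_forall fun t => var2_cont _ _ _ _)
  have key : ∀ e : ℝ, e ≠ 0 → 0 ≤ s + 4 * ∫ t, G e t ∂L := by
    intro e he
    have i2 : Integrable (fun t => 2 + e ^ 2 * G e t) L :=
      (integrable_const 2).add ((iG e).const_mul _)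
    have hpt := fun t => var2_pt (h1 t) (f t) (g t) (var2_tr (b t).re e) e
    have iP : Integrable (fun t => ‖θ t - e * g t‖ * ‖1 + e * f t‖) L := by
      refine i2.mono' (AEMeasurable.aestronglyMeasurable (by fun_prop))
        (Eventually.of_forall fun t => ?_)
      rw [Real.norm_of_nonneg (by positivity)]
      exact le_trans (le_add_of_nonneg_right (by positivity)) (hpt t)
    have iQ : Integrable (fun t => ‖θ t + e * g t‖ * ‖1 - e * f t‖) L := by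
      refine i2.mono' (AEMeasurable.aestronglyMeasurable (by fun_prop))
        (Eventually.of_forall fun t => ?_)
      rw [Real.norm_of_nonneg (by positivity)]
      exact le_trans (le_add_of_nonneg_left (by positivity)) (hpt t)
    have h2 := integral_mono (iP.add iQ) i2 hpt
    simp only [Pi.add_apply] at h2
    rw [integral_add iP iQ, integral_add (integrable_const 2) ((iG e).const_mul _),
      integral_const_mul, integral_const, smul_eq_mul] at h2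
    have h3 := h e
    have h4 : 0 ≤ e ^ 2 * (s + 4 * ∫ t, G e t ∂L) := by nlinarith
    exact (mul_nonneg_iff_of_pos_left (by positivity)).1 h4
  have lim : 0 ≤ s + 4 * ∫ t, G 0 t ∂L := by
    have hc : Continuous fun e => s + 4 * ∫ t, G e t ∂L := by fun_prop
    have ht : Tendsto (fun e => s + 4 * ∫ t, G e t ∂L) (𝓝[≠] 0) (𝓝 (s + 4 * ∫ t, G 0 t ∂L)) :=
      (hc.tendsto 0).mono_left nhdsWithin_le_nhds
    exact ge_of_tendsto ht (eventually_nhdsWithin_of_forall fun e he => key e he)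
  have h0 : ∫ t, G 0 t ∂L = ‖b - f‖ ^ 2 + ‖Θ b - g‖ ^ 2 - ‖b‖ ^ 2 := by
    have i1 : Integrable (fun t => ‖(b - f) t‖ ^ 2 + ‖(Θ b - g) t‖ ^ 2) L :=
      (int_sq _).add (int_sq _)
    rw [norm_sq, norm_sq, norm_sq, ← integral_add (int_sq _) (int_sq _),
      ← integral_sub i1 (int_sq _)]
    refine integral_congr_ae ?_
    filter_upwards [hb, hΘ b, Lp.coeFn_sub b f, Lp.coeFn_sub (Θ b) g] with t e1 e2 e3 e4
    have e5 : (((b t).re : ℝ) : ℂ) = b t := Complex.ext rfl (by simp [e1])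
    have e6 : (b t).re ^ 2 = ‖b t‖ ^ 2 := by
      rw [← e5, Complex.norm_real, Real.norm_eq_abs, sq_abs, Complex.ofReal_re]
    simp only [G, var2_G, var2_tr, e3, e4, Pi.sub_apply, e2]
    simp [e5, e6]
  linarith

end Pool.Agent.P.MP_f981b0_an.CD
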