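import Pool.Agent.P.MP_f981b0_an.CD.Polar
import Pool.Agent.P.MP_f981b0_an.CD.Var2

/-! Package Var: the system attached to a minimiser. -/

set_option autoImplicit false

open MeasureTheory Filter Topology ContinuousLinearMap
open scoped ComplexConjugate

noncomputable section

namespace Pool.Agent.P.MP_f981b0_an.CD

universe u

variable {H : Type u} [NormedAddCommGroup H] [InnerProductSpace ℂ H] [CompleteSpace H]

section aux

variable {L : Measure X} [IsFiniteMeasure L]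

/-- The generators of the subspace. -/
def varGen (T : (H →L[ℂ] H)ˣ) (ξ : H) (L : Measure X) [IsFiniteMeasure L] (n : ℤ) : H × K L :=
  (((T ^ n : (H →L[ℂ] H)ˣ) : H →L[ℂ] H) ξ, ContinuousMap.toLp (E := ℂ) 2 L ℂ (fourier n))

/-- The closed span of the generators. -/
def varV (T : (H →L[ℂ] H)ˣ) (ξ : H) (L : Measure X) [IsFiniteMeasure L] : Submodule ℂ (H × K L) :=
  (Submodule.span ℂ (Set.range (varGen T ξ L))).topologicalClosure

omit [CompleteSpace H] in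
theorem var_gen (T : (H →L[ℂ] H)ˣ) (ξ : H) (n : ℤ) : varGen T ξ L n ∈ varV T ξ L :=
  Submodule.le_topologicalClosure _ (Submodule.subset_span ⟨n, rfl⟩)

omit [CompleteSpace H] in
theorem var_le {T : (H →L[ℂ] H)ˣ} {ξ : H} {W : Submodule ℂ (H × K L)}
    (hW : IsClosed (W : Set (H × K L))) (h : ∀ n, varGen T ξ L n ∈ W) : varV T ξ L ≤ W :=
  Submodule.topologicalClosure_minimal _
    (Submodule.span_le.2 (by rintro _ ⟨n, rfl⟩; exact h n)) hW

omit [CompleteSpace H] in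
theorem var_op (T : (H →L[ℂ] H)ˣ) (c : ℤ →₀ ℂ) (x : H) :
    op T c x = ∑ n ∈ c.support, c n • ((T ^ n : (H →L[ℂ] H)ˣ) : H →L[ℂ] H) x := by
  simp [op, Finsupp.sum]

theorem var_mul_toLp {A : K L →L[ℂ] K L} {f : C(X, ℂ)} (h : IsMul A f) (g : C(X, ℂ)) :
    A (ContinuousMap.toLp (E := ℂ) 2 L ℂ g) = ContinuousMap.toLp (E := ℂ) 2 L ℂ (f * g) := by
  refine Lp.ext ?_
  filter_upwards [h (ContinuousMap.toLp (E := ℂ) 2 L ℂ g),
    ContinuousMap.coeFn_toLp (p := 2) (𝕜 := ℂ) L g,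
    ContinuousMap.coeFn_toLp (p := 2) (𝕜 := ℂ) L (f * g)] with t h1 h2 h3
  rw [h1, h2, h3, ContinuousMap.mul_apply]

omit [CompleteSpace H] in
theorem var_mul (T : (H →L[ℂ] H)ˣ) (ξ : H) (c : ℤ →₀ ℂ) :
    ∃ A : K L →L[ℂ] K L, IsMul A (ev c) ∧ ∀ p ∈ varV T ξ L, (op T c p.1, A p.2) ∈ varV T ξ L := by
  obtain ⟨A, hA⟩ := exists_mul (L := L) (f := ev c) (ev c).continuous.aestronglyMeasurable
    (fun t => (ev c).norm_coe_le_norm t)
  refine ⟨A, hA, fun p hp => ?_⟩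
  have hc : IsClosed (((varV T ξ L).comap (((op T c).prodMap A : H × K L →L[ℂ] H × K L) :
      H × K L →ₗ[ℂ] H × K L) : Submodule ℂ (H × K L)) : Set (H × K L)) :=
    (Submodule.isClosed_topologicalClosure _).preimage ((op T c).prodMap A).continuous
  refine var_le hc (fun n => ?_) hp
  have e : ((op T c).prodMap A) (varGen T ξ L n) =
      ∑ m ∈ c.support, c m • varGen T ξ L (m + n) := by
    refine Prod.ext ?_ ?_
    · rw [Prod.fst_sum]
      change op T c _ = _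
      rw [var_op]
      refine Finset.sum_congr rfl fun m _ => ?_
      simp only [varGen, Prod.smul_fst, zpow_add, Units.val_mul, mul_apply_eq_comp]
      rfl
    · rw [Prod.snd_sum]
      change A (ContinuousMap.toLp (E := ℂ) 2 L ℂ (fourier n)) = _
      rw [var_mul_toLp hA]
      simp only [varGen, Prod.smul_snd, ← map_smul, ← map_sum]
      congr 1
      ext t
      simp only [ContinuousMap.mul_apply, ev_apply, Finset.sum_mul, ContinuousMap.coe_sum,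
        Finset.sum_apply, ContinuousMap.smul_apply, smul_eq_mul, fourier_add, mul_assoc]
  change ((op T c).prodMap A) (varGen T ξ L n) ∈ varV T ξ L
  rw [e]
  exact Submodule.sum_mem _ fun m _ => Submodule.smul_mem _ _ (var_gen T ξ _)

omit [CompleteSpace H] in
theorem var_perp {T : (H →L[ℂ] H)ˣ} {ξ : H} {q : H × K L}
    (h : ∀ n, inner ℂ q.1 (varGen T ξ L n).1 + inner ℂ q.2 (varGen T ξ L n).2 = 0) :
    q ∈ perp (varV T ξ L) := by
  let F : H × K L →L[ℂ] ℂ :=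
    (innerSL ℂ q.1).comp (fst ℂ H (K L)) + (innerSL ℂ q.2).comp (snd ℂ H (K L))
  intro p hp
  exact var_le (W := F.ker) F.isClosed_ker h hp

omit [CompleteSpace H] in
theorem var_bdd {T : (H →L[ℂ] H)ˣ} {ξ : H} {p q : H × K L} (hp : p ∈ varV T ξ L)
    (hq : q ∈ perp (varV T ξ L)) : Bdd T p.1 q.1 (∫ t, ‖q.2 t‖ * ‖p.2 t‖ ∂L) := by
  intro c
  obtain ⟨A, hA, h1⟩ := var_mul (L := L) T ξ c
  have h2 := hq _ (h1 p hp)
  have h3 : inner ℂ q.1 (op T c p.1) = -inner ℂ q.2 (A p.2) := eq_neg_of_add_eq_zero_left h2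
  have hi : Integrable (fun t => ‖q.2 t‖ * ‖p.2 t‖) L := by
    refine (L2.integrable_inner (𝕜 := ℂ) q.2 p.2).norm.congr (Eventually.of_forall fun t => ?_)
    simp [mul_comm]
  rw [h3, norm_neg, inner_eq, ← integral_mul_const]
  refine norm_integral_le_of_norm_le (hi.mul_const _) ?_
  filter_upwards [hA p.2] with t ht
  rw [ht, norm_mul, norm_mul, Complex.norm_conj, mul_comm ‖ev c t‖, ← mul_assoc]
  exact mul_le_mul_of_nonneg_left ((ev c).norm_coe_le_norm t) (by positivity)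

omit [CompleteSpace H] [IsFiniteMeasure L] in
theorem var_perp_add {V : Submodule ℂ (H × K L)} {q q' : H × K L} (hq : q ∈ perp V)
    (hq' : q' ∈ perp V) (e : ℂ) : q + e • q' ∈ perp V := by
  intro p hp
  have h1 := hq p hp
  have h2 := hq' p hp
  simp only [Prod.fst_add, Prod.snd_add, Prod.smul_fst, Prod.smul_snd, inner_add_left,
    inner_smul_left]
  linear_combination h1 + conj e * h2

theorem var_ev_single (n : ℤ) : ev (Finsupp.single n 1) = fourier n := by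
  rw [← evL_apply, evL, Finsupp.linearCombination_single, one_smul]

omit [CompleteSpace H] in
theorem var_op_single (T : (H →L[ℂ] H)ˣ) (n : ℤ) :
    op T (Finsupp.single n 1) = ((T ^ n : (H →L[ℂ] H)ˣ) : H →L[ℂ] H) := by simp [op]

end aux

omit [CompleteSpace H] in
theorem var_phi (T : (H →L[ℂ] H)ˣ) {ξ η : H} {d : ℝ} (hd : 0 ≤ d) (hb : Bdd T ξ η d) :
    ∃ φ : C(X, ℂ) →L[ℂ] ℂ, ‖φ‖ ≤ d ∧
      ∀ n : ℤ, φ (fourier n) = inner ℂ η (((T ^ n : (H →L[ℂ] H)ˣ) : H →L[ℂ] H) ξ) := by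
  let β : (ℤ →₀ ℂ) →ₗ[ℂ] ℂ := (innerSL ℂ η : H →ₗ[ℂ] ℂ).comp
    (Finsupp.linearCombination ℂ fun n : ℤ => ((T ^ n : (H →L[ℂ] H)ˣ) : H →L[ℂ] H) ξ)
  have hβ : ∀ c, β c = inner ℂ η (op T c ξ) := fun c => by
    rw [var_op]
    rfl
  have h1 : ∀ c, ‖β c‖ ≤ d * ‖evL c‖ := fun c => by rw [hβ]; exact hb c
  refine ⟨β.extendOfNorm evL, opNorm_le_bound _ hd fun f =>
    LinearMap.norm_extendOfNorm_apply_le dense_evL d h1 f, fun n => ?_⟩
  rw [← var_ev_single, ← evL_apply, LinearMap.extendOfNorm_eq dense_evL ⟨d, h1⟩, hβ, var_op_single]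

theorem var (T : (H →L[ℂ] H)ˣ) {ξ η : H} {d : ℝ} (hd : 0 ≤ d) (hb : Bdd T ξ η d)
    (hmin : ∀ (h k : H) (d₁ d₂ : ℝ), 0 ≤ d₁ → 0 ≤ d₂ → Bdd T (ξ + h) (η + k) d₁ →
      Bdd T (ξ - h) (η - k) d₂ → 8 * d ≤ 4 * d₁ + 4 * d₂ + (‖h‖ ^ 2 + ‖k‖ ^ 2))
    (hne : ∃ n : ℤ, inner ℂ η (((T ^ n : (H →L[ℂ] H)ˣ) : H →L[ℂ] H) ξ) ≠ 0) :
    ∃ (L : Measure X) (_ : IsFiniteMeasure L) (θ : X → ℂ) (U Θ : K L →L[ℂ] K L)
      (V : Submodule ℂ (H × K L)), Circ L θ U Θ ∧ Pre (T : H →L[ℂ] H) U Θ V := by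
  obtain ⟨φ, hφ, hφn⟩ := var_phi T hd hb
  obtain ⟨L, hL, θ, hm, h1, hLφ, hrep⟩ := polar φ
  obtain ⟨U, hU, hUV⟩ := var_mul (L := L) T ξ (Finsupp.single 1 1)
  obtain ⟨U', hU', hUV'⟩ := var_mul (L := L) T ξ (Finsupp.single (-1) 1)
  rw [var_ev_single] at hU hU'
  rw [var_op_single] at hUV hUV'
  obtain ⟨Θ, hΘ⟩ := exists_mul (L := L) hm.aestronglyMeasurable (C := 1) fun t => (h1 t).le
  have hθ : MemLp θ 2 L :=
    MemLp.of_bound hm.aestronglyMeasurable 1 (Eventually.of_forall fun t => (h1 t).le)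
  set th : K L := hθ.toLp θ
  have hth : ∀ᵐ t ∂L, th t = θ t := hθ.coeFn_toLp
  have hq0 : (η, -th) ∈ perp (varV T ξ L) := by
    refine var_perp fun n => ?_
    change inner ℂ η _ + inner ℂ (-th) (ContinuousMap.toLp (E := ℂ) 2 L ℂ (fourier n)) = 0
    rw [inner_neg_left, inner_eq, add_neg_eq_zero]
    refine (hφn n).symm.trans ((hrep _).trans (integral_congr_ae ?_))
    filter_upwards [hth, ContinuousMap.coeFn_toLp (p := 2) (𝕜 := ℂ) L (fourier n : C(X, ℂ))]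
      with t a b
    rw [a, b]
  refine ⟨L, hL, θ, U, Θ, varV T ξ L, ⟨?_, hm, h1, hU, hΘ⟩,
    Submodule.isClosed_topologicalClosure _, fun p hp => ?_, fun p hp => ?_, fun a ε hε => ?_,
    fun a ε hε => ?_, fun p hp q hq b hb => ?_⟩
  · rintro rfl
    obtain ⟨n, hn⟩ := hne
    exact hn (by rw [← hφn, hrep, integral_zero_measure])
  · simpa using hUV p hp
  · refine ⟨_, hUV' p hp, ?_, Lp.ext ?_⟩
    · change ((T : H →L[ℂ] H) * ((T ^ (-1 : ℤ) : (H →L[ℂ] H)ˣ) : H →L[ℂ] H)) p.1 = p.1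
      simp
    · filter_upwards [hU (U' p.2), hU' p.2] with t a b
      rw [a, b, ← mul_assoc, ← fourier_add]
      simp
  · obtain ⟨c, hc⟩ := dense_ev a hε
    obtain ⟨A, hA, h2⟩ := var_mul (L := L) T ξ c
    refine ⟨_, h2 _ (var_gen T ξ 0), ?_⟩
    change ‖a - A (ContinuousMap.toLp (E := ℂ) 2 L ℂ (fourier 0))‖ ≤ ε
    have : ev c * fourier 0 = ev c := by ext t; simp
    rwa [var_mul_toLp hA, this]
  · obtain ⟨c, hc⟩ := dense_ev (-Θ (star a)) hε
    obtain ⟨A, hA, h2⟩ := var_mul (L := L) T ξ c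
    refine ⟨(adjoint (op T c) η, adjoint A (-th)), fun p hp => ?_, le_trans ?_ hc⟩
    · simp only [adjoint_inner_left]
      exact hq0 _ (h2 p hp)
    · refine Lp.norm_le_norm_of_ae_le ?_
      filter_upwards [Lp.coeFn_sub a (adjoint A (-th)), hA.adj (-th), Lp.coeFn_neg th, hth,
        Lp.coeFn_sub (-Θ (star a)) (ContinuousMap.toLp (E := ℂ) 2 L ℂ (ev c)),
        Lp.coeFn_neg (Θ (star a)), hΘ (star a), Lp.coeFn_star a,
        ContinuousMap.coeFn_toLp (p := 2) (𝕜 := ℂ) L (ev c)] with t a1 a2 a3 a4 a5 a6 a7 a8 a9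
      rw [a1, a5, Pi.sub_apply, Pi.sub_apply, a2, a3, a6, Pi.neg_apply, Pi.neg_apply, a4, a7, a8,
        a9, Pi.star_apply, Complex.star_def]
      have e1 : conj (θ t) * θ t = 1 := by
        rw [mul_comm, Complex.mul_conj, Complex.normSq_eq_norm_sq, h1]
        simp
      have e2 : -(θ t * conj (a t)) - ev c t = -(θ t * conj (a t - conj (ev c t) * -θ t)) := by
        simp only [map_sub, map_mul, map_neg, Complex.conj_conj]
        linear_combination (ev c t) * e1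
      rw [e2, norm_neg, norm_mul, h1, one_mul, Complex.norm_conj]
  · have key : ∀ e : ℝ, Bdd T (ξ + ((2 * e : ℝ) : ℂ) • p.1) (η + ((2 * e : ℝ) : ℂ) • q.1)
        (∫ t, ‖θ t - e * ((2 : ℂ) • q.2) t‖ * ‖1 + e * ((2 : ℂ) • p.2) t‖ ∂L) := by
      intro e
      have h3 := var_bdd ((varV T ξ L).add_mem (var_gen T ξ 0)
        ((varV T ξ L).smul_mem ((2 * e : ℝ) : ℂ) hp)) (var_perp_add hq0 hq ((2 * e : ℝ) : ℂ))
      have e1 : (varGen T ξ L 0 + ((2 * e : ℝ) : ℂ) • p).1 = ξ + ((2 * e : ℝ) : ℂ) • p.1 := by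
        simp [varGen]
      rw [e1] at h3
      convert h3 using 1
      congr 1
      refine integral_congr_ae ?_
      filter_upwards [Lp.coeFn_add (-th) (((2 * e : ℝ) : ℂ) • q.2), Lp.coeFn_neg th, hth,
        Lp.coeFn_smul ((2 * e : ℝ) : ℂ) q.2, Lp.coeFn_smul (2 : ℂ) q.2,
        Lp.coeFn_add (ContinuousMap.toLp (E := ℂ) 2 L ℂ (fourier 0)) (((2 * e : ℝ) : ℂ) • p.2),
        ContinuousMap.coeFn_toLp (p := 2) (𝕜 := ℂ) L (fourier 0 : C(X, ℂ)),
        Lp.coeFn_smul ((2 * e : ℝ) : ℂ) p.2, Lp.coeFn_smul (2 : ℂ) p.2]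
        with t a1 a2 a3 a4 a5 a6 a7 a8 a9
      change _ = ‖(-th + ((2 * e : ℝ) : ℂ) • q.2 : K L) t‖ *
        ‖(ContinuousMap.toLp (E := ℂ) 2 L ℂ (fourier 0) + ((2 * e : ℝ) : ℂ) • p.2 : K L) t‖
      rw [a1, a6, Pi.add_apply, Pi.add_apply, a2, Pi.neg_apply, a3, a4, a5, a7, a8, a9,
        ← norm_neg (θ t - _)]
      simp only [Pi.smul_apply, smul_eq_mul, fourier_zero]
      push_cast
      congr 2 <;> ring
    have h4 := var2 hm h1 hΘ ((2 : ℂ) • p.2) ((2 : ℂ) • q.2) (s := 4 * (‖p.1‖ ^ 2 + ‖q.1‖ ^ 2))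
      (fun e => ?_) b hb
    · linarith
    have k2 := key (-e)
    have e2 : ((2 * -e : ℝ) : ℂ) = -((2 * e : ℝ) : ℂ) := by push_cast; ring
    rw [e2, neg_smul, neg_smul, ← sub_eq_add_neg, ← sub_eq_add_neg] at k2
    have h5 := hmin _ _ _ _ (integral_nonneg fun t => by positivity)
      (integral_nonneg fun t => by positivity) (key e) k2
    simp only [Complex.ofReal_neg, neg_mul, sub_neg_eq_add, ← sub_eq_add_neg, norm_smul,
      Complex.norm_real, Real.norm_eq_abs, mul_pow, sq_abs] at h5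
    linarith

end Pool.Agent.P.MP_f981b0_an.CD
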