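import Pool.Agent.P.MP_f981b0_an.CD.BP
import Pool.Agent.P.MP_f981b0_an.CD.Var
import Pool.Agent.P.MP_f981b0_an.CD.Dual1
import Pool.Agent.P.MP_f981b0_an.CD.Dual2
import Pool.Agent.P.MP_f981b0_an.CD.Half
import Pool.Agent.P.MP_f981b0_an.CD.Double
import Pool.Agent.P.MP_f981b0_an.CD.CLT
import Pool.Agent.P.MP_f981b0_an.CD.Asym
import Pool.Agent.P.MP_f981b0_an.CD.Case1
import Pool.Agent.P.MP_f981b0_an.CD.Case2
import Pool.Agent.P.MP_f981b0_an.CD.FL
import Pool.Agent.P.MP_f981b0_an.CD.Dom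

/-! Package Core: assembly for contractions of class `C₀₀`. -/

set_option autoImplicit false

open MeasureTheory Filter Topology ContinuousLinearMap
open scoped ComplexConjugate

noncomputable section

namespace Pool.Agent.P.MP_f981b0_an.CD

universe u

variable {H : Type u} [NormedAddCommGroup H] [InnerProductSpace ℂ H] [CompleteSpace H]

theorem no_pre {T : H →L[ℂ] H} (hT : Con T) {L : Measure X} [IsFiniteMeasure L] {θ : X → ℂ}
    {U Θ : K L →L[ℂ] K L} (hc : Circ L θ U Θ) {V : Submodule ℂ (H × K L)} (hp : Pre T U Θ V) :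
    False := by
  obtain ⟨C, hC⟩ := exists_conj (H := H)
  obtain ⟨T', V', s2, hV⟩ := sys2 hT hc hp hC
  obtain ⟨M₁, _, _, _, S₁, i₁, P₁, N₁, h₁⟩ := half (sys1 hT hc hp)
  obtain ⟨M₂, _, _, _, S₂, i₂, P₂, N₂, h₂⟩ := half s2
  obtain ⟨M, _, _, _, S, i, j, Np, Nm, h⟩ := double (c6 hc hp hC hV) h₁ h₂
  have hs : Function.Surjective U := hc.mu.surj (norm_fourier 1)
  obtain ⟨B, hB⟩ := clt h.vp_emb hs (hc.mu.comm hc.mth) h.op h.om h.vp_dist
  have hle : ∀ m ∈ Np, m ∈ Hull (vp i j) Np := fun m hm => by simpa using mem_hull hm (0 : K L)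
  have hinv : ∀ m ∈ Hull (vp i j) Np, S m ∈ Hull (vp i j) Np :=
    hull_ind (P := S ⁻¹' (Hull (vp i j) Np : Set M))
      ((hull_closed _ _).preimage S.continuous) fun m hm a => by
        change S (m + vp i j a) ∈ Hull (vp i j) Np
        rw [map_add, h.vp_emb.sw]
        exact mem_hull (h.op.inv m hm) _
  have habs : Abs U (vm i j) (Hull (vp i j) Np) := fun a ε hε =>
    (h.vm_abs a ε hε).mono fun n ⟨m, hm, h'⟩ => ⟨m, hle m hm, h'⟩
  obtain ⟨Γ, g1, g2, g3, g4⟩ := asym h.vm_emb hs (hull_closed _ _) hinv habs hB.con hB.comm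
  obtain ⟨γ, hm, h1, hΓ⟩ := comm_mul hc.mu g1 g2
  by_cases he : ∀ᵐ t ∂L, γ t = θ t
  · have e : Γ = Θ := ContinuousLinearMap.ext fun a => Lp.ext (by
      filter_upwards [hΓ a, hc.mth a, he] with t a1 a2 a3
      rw [a1, a2, a3])
    subst e
    obtain ⟨Y, hY⟩ := case2 hc h hB fun f hf => g4 (hc.mth.iso hc.uni) f (hle f hf)
    exact fl hc hY
  · exact fl hc (case1 hc h hB hm h1 hΓ g3 he)

omit [CompleteSpace H] in
theorem core_zpow (T : (H →L[ℂ] H)ˣ) (m n : ℤ) (x : H) :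
    ((T ^ m : (H →L[ℂ] H)ˣ) : H →L[ℂ] H) (((T ^ n : (H →L[ℂ] H)ˣ) : H →L[ℂ] H) x) =
      ((T ^ (m + n) : (H →L[ℂ] H)ˣ) : H →L[ℂ] H) x := by
  rw [zpow_add, Units.val_mul]
  rfl

omit [CompleteSpace H] in
theorem core_shift (T : (H →L[ℂ] H)ˣ) {x y : H} {t : ℝ} (hb : Bdd T x y t) (k : ℤ) :
    Bdd T (((T ^ k : (H →L[ℂ] H)ˣ) : H →L[ℂ] H) x) y t := by
  intro c
  have h1 : op T (c.mapDomain (· + k)) x = op T c (((T ^ k : (H →L[ℂ] H)ˣ) : H →L[ℂ] H) x) := by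
    unfold op
    rw [Finsupp.sum_mapDomain_index_inj (add_left_injective k)]
    simp only [Finsupp.sum, FunLike.coe_sum, Finset.sum_apply, smul_apply, core_zpow]
  have h2 : ev (c.mapDomain (· + k)) = ev c * fourier k := by
    unfold ev
    rw [Finsupp.sum_mapDomain_index_inj (add_left_injective k)]
    ext t
    simp only [Finsupp.sum, ContinuousMap.coe_sum, Finset.sum_apply, ContinuousMap.smul_apply,
      ContinuousMap.mul_apply, Finset.sum_mul, fourier_add, smul_eq_mul, mul_assoc]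
  have h3 : ‖ev (c.mapDomain (· + k))‖ = ‖ev c‖ := by
    rw [h2, ContinuousMap.norm_eq_iSup_norm, ContinuousMap.norm_eq_iSup_norm]
    simp only [ContinuousMap.mul_apply, norm_mul, norm_fourier, mul_one]
  have := hb (c.mapDomain (· + k))
  rwa [h1, h3] at this

omit [CompleteSpace H] in
theorem core_smul (T : (H →L[ℂ] H)ˣ) {x y : H} {t : ℝ} (hb : Bdd T x y t) (a b : ℂ) :
    Bdd T (a • x) (b • y) (‖a‖ * ‖b‖ * t) := by
  intro c
  rw [map_smul, inner_smul_left, inner_smul_right, norm_mul, norm_mul, RCLike.norm_conj]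
  have := mul_le_mul_of_nonneg_left (hb c) (mul_nonneg (norm_nonneg a) (norm_nonneg b))
  linarith

theorem core_unb (T : (H →L[ℂ] H)ˣ) (hT : Con (T : H →L[ℂ] H)) {x : H} (hx : x ≠ 0) (R : ℝ) :
    ∃ k : ℤ, R < ‖((T ^ k : (H →L[ℂ] H)ˣ) : H →L[ℂ] H) x‖ := by
  by_contra hn
  push Not at hn
  have h1 : ∀ n : ℕ, ‖x‖ ^ 2 ≤ ‖(adjoint (T : H →L[ℂ] H) ^ n) x‖ * R := by
    intro n
    have e1 : ((T : H →L[ℂ] H) ^ n) (((T ^ (-(n : ℤ)) : (H →L[ℂ] H)ˣ) : H →L[ℂ] H) x) = x := by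
      have := core_zpow T n (-(n : ℤ)) x
      simpa using this
    have e2 : adjoint (T : H →L[ℂ] H) ^ n = adjoint ((T : H →L[ℂ] H) ^ n) := by
      rw [← star_eq_adjoint, ← star_eq_adjoint, star_pow]
    have e3 : inner ℂ ((adjoint (T : H →L[ℂ] H) ^ n) x)
        (((T ^ (-(n : ℤ)) : (H →L[ℂ] H)ˣ) : H →L[ℂ] H) x) = inner ℂ x x := by
      rw [e2, adjoint_inner_left, e1]
    have e4 := norm_inner_le_norm (𝕜 := ℂ) ((adjoint (T : H →L[ℂ] H) ^ n) x)
      (((T ^ (-(n : ℤ)) : (H →L[ℂ] H)ˣ) : H →L[ℂ] H) x)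
    rw [e3, inner_self_eq_norm_sq_to_K] at e4
    rw [norm_pow, RCLike.norm_ofReal, abs_norm] at e4
    exact e4.trans (mul_le_mul_of_nonneg_left (hn _) (norm_nonneg _))
  have h2 := ((hT.c0' x).norm.mul_const R)
  have h3 := ge_of_tendsto' h2 h1
  simp only [norm_zero, zero_mul] at h3
  exact hx (norm_eq_zero.1 (by nlinarith [norm_nonneg x]))

theorem core (T : (H →L[ℂ] H)ˣ) (hT : Con (T : H →L[ℂ] H)) {x y : H} {t : ℝ} (hx : x ≠ 0)
    (hy : y ≠ 0) (hb : Bdd T x y t) :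
    ∃ ξ η : H, ξ ≠ 0 ∧ η ≠ 0 ∧
      ∀ n : ℤ, inner ℂ η (((T ^ n : (H →L[ℂ] H)ˣ) : H →L[ℂ] H) ξ) = 0 := by
  have hy0 : 0 < ‖y‖ := norm_pos_iff.2 hy
  obtain ⟨k, hk⟩ := core_unb T hT hx (32 * |t| / ‖y‖)
  set x' := ((T ^ k : (H →L[ℂ] H)ˣ) : H →L[ℂ] H) x with hx'
  have hx0 : 0 < ‖x'‖ := lt_of_le_of_lt (by positivity) hk
  have hb' : Bdd T x' y |t| := fun c =>
    (core_shift T hb k c).trans (mul_le_mul_of_nonneg_right (le_abs_self t) (norm_nonneg _))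
  have hb2 := core_smul T hb' ((‖x'‖ : ℂ)⁻¹) ((‖y‖ : ℂ)⁻¹)
  set u := ((‖x'‖ : ℂ)⁻¹) • x' with hu
  set v := ((‖y‖ : ℂ)⁻¹) • y with hv
  set δ := ‖((‖x'‖ : ℂ)⁻¹)‖ * ‖((‖y‖ : ℂ)⁻¹)‖ * |t| with hδ
  have nu : ‖u‖ = 1 := by rw [hu, norm_smul]; simp [hx0.ne']
  have nv : ‖v‖ = 1 := by rw [hv, norm_smul]; simp [hy0.ne']
  have δ0 : 0 ≤ δ := by positivity
  have δ1 : 16 * δ < 1 := by
    rw [div_lt_iff₀ hy0] at hk
    have e : δ = |t| / (‖x'‖ * ‖y‖) := by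
      rw [hδ]
      simp only [norm_inv, Complex.norm_real, norm_norm]
      field_simp
    rw [e, ← mul_div_assoc, div_lt_one (by positivity)]
    nlinarith [abs_nonneg t, mul_pos hx0 hy0]
  obtain ⟨ξ, η, s, ⟨s0, hs⟩, hle, hmin⟩ := bp (H := H) (fun a b s => 0 ≤ s ∧ Bdd T a b (s / 16))
    (by
      have e : {p : H × H × ℝ | 0 ≤ p.2.2 ∧ Bdd T p.1 p.2.1 (p.2.2 / 16)} =
          {p : H × H × ℝ | 0 ≤ p.2.2} ∩ ⋂ c : ℤ →₀ ℂ,
            {p : H × H × ℝ | ‖inner ℂ p.2.1 (op T c p.1)‖ ≤ p.2.2 / 16 * ‖ev c‖} := by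
        ext p
        simp [Bdd]
      rw [e]
      exact (isClosed_le continuous_const (by fun_prop)).inter
        (isClosed_iInter fun c => isClosed_le (by fun_prop) (by fun_prop)))
    (fun _ _ _ h => h.1) (u := u) (v := v) (t₀ := 16 * δ)
    ⟨by positivity, by rwa [mul_div_cancel_left₀ _ (by norm_num)]⟩
  refine ⟨ξ, η, fun h0 => ?_, fun h0 => ?_, ?_⟩
  · rw [h0, zero_sub, norm_neg, nu] at hle
    nlinarith [sq_nonneg ‖η - v‖]
  · rw [h0, zero_sub, norm_neg, nv] at hle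
    nlinarith [sq_nonneg ‖ξ - u‖]
  by_contra hn
  push Not at hn
  obtain ⟨L, _, θ, U, Θ, V, hc, hp⟩ := var T (d := s / 16) (by positivity) hs
    (fun h k d₁ d₂ a1 a2 b1 b2 => by
      have := hmin h k (16 * d₁) (16 * d₂)
        ⟨by positivity, by rwa [mul_div_cancel_left₀ _ (by norm_num)]⟩
        ⟨by positivity, by rwa [mul_div_cancel_left₀ _ (by norm_num)]⟩
      linarith) hn
  exact no_pre hT hc hp

theorem core_sub (T : (H →L[ℂ] H)ˣ) (hT : Con (T : H →L[ℂ] H)) {x y : H} {t : ℝ} (hx : x ≠ 0)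
    (hy : y ≠ 0) (hb : Bdd T x y t) : HasSub (T : H →L[ℂ] H) := by
  obtain ⟨ξ, η, hξ, hη, h⟩ := core T hT hx hy hb
  let W := Submodule.span ℂ (Set.range fun n : ℤ => ((T ^ n : (H →L[ℂ] H)ˣ) : H →L[ℂ] H) ξ)
  have hk : ∀ k : ℤ, ∀ a ∈ W.topologicalClosure,
      ((T ^ k : (H →L[ℂ] H)ˣ) : H →L[ℂ] H) a ∈ W.topologicalClosure := by
    intro k a ha
    refine map_mem_closure (s := (W : Set H)) (t := (W : Set H))
      ((T ^ k : (H →L[ℂ] H)ˣ) : H →L[ℂ] H).continuous ha fun b hb => ?_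
    induction hb using Submodule.span_induction with
    | mem b hb =>
      obtain ⟨n, rfl⟩ := hb
      exact Submodule.subset_span ⟨k + n, (core_zpow T k n ξ).symm⟩
    | zero => simp
    | add a b _ _ h1 h2 => rw [map_add]; exact W.add_mem h1 h2
    | smul c a _ h1 => rw [map_smul]; exact W.smul_mem c h1
  have hi : ∀ a ∈ W.topologicalClosure, (T : H →L[ℂ] H) a ∈ W.topologicalClosure := fun a ha => by
    simpa using hk 1 a ha
  refine ⟨W.topologicalClosure, W.isClosed_topologicalClosure, fun h0 => hξ ?_, fun h0 => hη ?_,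
    hi, fun z hz a ha => rall hT.con hT.unit W.isClosed_topologicalClosure hi
      (fun a ha => ⟨_, hk (-1) a ha, by simpa using core_zpow T 1 (-1) a⟩) hz ha⟩
  · have : ξ ∈ W.topologicalClosure :=
      W.le_topologicalClosure (Submodule.subset_span ⟨0, by simp⟩)
    rwa [h0, Submodule.mem_bot] at this
  · have h1 : W.topologicalClosure ≤ (innerSL ℂ η).ker :=
      Submodule.topologicalClosure_minimal _ (Submodule.span_le.2 (by
        rintro _ ⟨n, rfl⟩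
        exact h n)) (innerSL ℂ η).isClosed_ker
    have h2 : inner ℂ η η = 0 := h1 (show η ∈ W.topologicalClosure by rw [h0]; trivial)
    exact inner_self_eq_zero.1 h2

end Pool.Agent.P.MP_f981b0_an.CD
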