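import Mathlib

/-! Contractions with compact defect: definitions and statements of the work packages. -/

set_option autoImplicit false

open MeasureTheory Filter Topology ContinuousLinearMap
open scoped ComplexConjugate

noncomputable section

namespace Pool.Agent.P.MP_f981b0_an.CD

universe u

/-- The circle. -/
abbrev X : Type := AddCircle (1 : ℝ)

/-- The space of square integrable functions on the circle. -/
abbrev K (L : Measure X) : Type := Lp ℂ 2 L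

/-- `A` is multiplication by `f`. -/
def IsMul {L : Measure X} (A : K L →L[ℂ] K L) (f : X → ℂ) : Prop :=
  ∀ a : K L, ∀ᵐ t ∂L, A a t = f t * a t

/-- The trigonometric polynomial with coefficients `c`. -/
def ev (c : ℤ →₀ ℂ) : C(X, ℂ) := c.sum fun n a => a • fourier n

/-- The Poisson kernel. -/
def pk (z : ℂ) (t : X) : ℝ := (1 - ‖z‖ ^ 2) / ‖1 - conj z * fourier 1 t‖ ^ 2

section ops

variable {H : Type u} [NormedAddCommGroup H] [InnerProductSpace ℂ H]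

/-- The Laurent polynomial in `T` with coefficients `c`. -/
def op (T : (H →L[ℂ] H)ˣ) (c : ℤ →₀ ℂ) : H →L[ℂ] H :=
  c.sum fun n a => a • ((T ^ n : (H →L[ℂ] H)ˣ) : H →L[ℂ] H)

/-- The pair `x, y` is given by a measure of total variation at most `t`. -/
def Bdd (T : (H →L[ℂ] H)ˣ) (x y : H) (t : ℝ) : Prop :=
  ∀ c : ℤ →₀ ℂ, ‖inner ℂ y (op T c x)‖ ≤ t * ‖ev c‖

/-- The orthogonal complement of a subspace of a product. -/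
def perp {E : Type} [NormedAddCommGroup E] [InnerProductSpace ℂ E] (V : Submodule ℂ (H × E)) :
    Set (H × E) :=
  {p | ∀ q ∈ V, inner ℂ p.1 q.1 + inner ℂ p.2 q.2 = 0}

/-- The result of the variational step. -/
structure Pre (T : H →L[ℂ] H) {L : Measure X} (U Θ : K L →L[ℂ] K L)
    (V : Submodule ℂ (H × K L)) : Prop where
  closed : IsClosed (V : Set (H × K L))
  inv : ∀ p ∈ V, (T p.1, U p.2) ∈ V
  inv' : ∀ p ∈ V, ∃ q ∈ V, T q.1 = p.1 ∧ U q.2 = p.2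
  dense : ∀ (a : K L) (ε : ℝ), 0 < ε → ∃ p ∈ V, ‖a - p.2‖ ≤ ε
  dense' : ∀ (a : K L) (ε : ℝ), 0 < ε → ∃ p ∈ perp V, ‖a - p.2‖ ≤ ε
  p4 : ∀ p ∈ V, ∀ q ∈ perp V, ∀ b : K L, (∀ᵐ t ∂L, (b t).im = 0) →
    ‖b‖ ^ 2 ≤ ‖p.1‖ ^ 2 + ‖b - (2 : ℂ) • p.2‖ ^ 2 + (‖q.1‖ ^ 2 + ‖Θ b - (2 : ℂ) • q.2‖ ^ 2)

/-- A conjugation. -/
structure Conj (C : H → H) : Prop where
  add : ∀ x y, C (x + y) = C x + C y
  smul : ∀ (c : ℂ) (x : H), C (c • x) = conj c • C x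
  invol : ∀ x, C (C x) = x
  inner : ∀ x y, inner ℂ (C x) (C y) = inner ℂ y x

/-- The second variation inequality for complex functions. -/
def C6 {E : Type} [NormedAddCommGroup E] [InnerProductSpace ℂ E] (Θ : E →L[ℂ] E)
    (V V' : Submodule ℂ (H × E)) : Prop :=
  ∀ a : E, ∀ p ∈ V, ∀ p' ∈ V', ∀ ε : ℝ, 0 < ε → ∃ q ∈ V, ∃ q' ∈ V',
    ‖q.1‖ ^ 2 + ‖Θ a - (1 / 2 : ℂ) • q.2‖ ^ 2 + (‖q'.1‖ ^ 2 + ‖Θ a - (1 / 2 : ℂ) • q'.2‖ ^ 2) ≤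
      ‖p.1‖ ^ 2 + ‖a - (2 : ℂ) • p.2‖ ^ 2 + (‖p'.1‖ ^ 2 + ‖a - (2 : ℂ) • p'.2‖ ^ 2) + ε

/-- A nontrivial closed subspace invariant under `T` and under its resolvents. -/
def HasSub (T : H →L[ℂ] H) : Prop :=
  ∃ N : Submodule ℂ H, IsClosed (N : Set H) ∧ N ≠ ⊥ ∧ N ≠ ⊤ ∧ (∀ x ∈ N, T x ∈ N) ∧
    ∀ z : ℂ, IsUnit (T - z • (1 : H →L[ℂ] H)) → ∀ x, T x - z • x ∈ N → x ∈ N

variable [CompleteSpace H]

/-- Contractions of class `C₀₀` without spectrum in the open disc. -/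
structure Con (T : H →L[ℂ] H) : Prop where
  con : ∀ x, ‖T x‖ ≤ ‖x‖
  c0 : ∀ x, Tendsto (fun n : ℕ => (T ^ n) x) atTop (𝓝 0)
  c0' : ∀ x, Tendsto (fun n : ℕ => (adjoint T ^ n) x) atTop (𝓝 0)
  unit : ∀ z : ℂ, ‖z‖ < 1 → IsUnit (T - z • (1 : H →L[ℂ] H))

/-- A contraction with a closed intertwining map into an isometry. -/
structure Sys {E : Type} [NormedAddCommGroup E] [InnerProductSpace ℂ E] (T : H →L[ℂ] H)
    (U : E →L[ℂ] E) (V : Submodule ℂ (H × E)) : Prop where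
  con : Con T
  uiso : ∀ a, ‖U a‖ = ‖a‖
  closed : IsClosed (V : Set (H × E))
  inv : ∀ p ∈ V, (T p.1, U p.2) ∈ V
  graph : ∀ a : E, ((0 : H), a) ∈ V → a = 0
  dense : ∀ (a : E) (ε : ℝ), 0 < ε → ∃ p ∈ V, ‖a - p.2‖ ≤ ε
  res : ∀ z : ℂ, ‖z‖ < 1 → ∀ p ∈ V, ∃ q ∈ V, T q.1 - z • q.1 = p.1 ∧ U q.2 - z • q.2 = p.2

end ops

section model

variable {M : Type u} [NormedAddCommGroup M] [InnerProductSpace ℂ M]
  {E : Type} [NormedAddCommGroup E] [InnerProductSpace ℂ E]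

/-- A closed invariant subspace on which `S` is pure. -/
structure Out (S : M →L[ℂ] M) (N : Submodule ℂ M) : Prop where
  closed : IsClosed (N : Set M)
  inv : ∀ m ∈ N, S m ∈ N
  pure : ∀ m, (∀ n : ℕ, ∃ m' ∈ N, m = (S ^ n) m') → m = 0

/-- `N` absorbs the range of `w`. -/
def Abs (U : E →L[ℂ] E) (w : E →L[ℂ] M) (N : Submodule ℂ M) : Prop :=
  ∀ (a : E) (ε : ℝ), 0 < ε → ∀ᶠ n : ℕ in atTop, ∃ m ∈ N, ‖w ((U ^ n) a) - m‖ ≤ ε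

/-- The resolvent bound modulo `N`. -/
def Res (U : E →L[ℂ] E) (w : E →L[ℂ] M) (N : Submodule ℂ M) : Prop :=
  ∀ z : ℂ, ‖z‖ < 1 → ∃ C : ℝ, ∀ a : E, ∀ m ∈ N, ∃ m' ∈ N,
    ‖w a - m'‖ ≤ C * ‖w (U a - z • a) - m‖

/-- An isometry `S` and an isometry `w` that intertwines `U` and `S`. -/
structure Emb (U : E →L[ℂ] E) (S : M →L[ℂ] M) (w : E →L[ℂ] M) : Prop where
  iso : ∀ m, ‖S m‖ = ‖m‖
  wiso : ∀ a, ‖w a‖ = ‖a‖
  sw : ∀ a, S (w a) = w (U a)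

/-- The closed span of `N` and the range of `w`. -/
def Hull (w : E →L[ℂ] M) (N : Submodule ℂ M) : Submodule ℂ M :=
  (N ⊔ w.range).topologicalClosure

/-- The image of `N` under `S - z`. -/
def Sh (S : M →L[ℂ] M) (z : ℂ) (N : Submodule ℂ M) : Submodule ℂ M :=
  N.map ((S - z • (1 : M →L[ℂ] M) : M →L[ℂ] M) : M →ₗ[ℂ] M)

variable [CompleteSpace M] [CompleteSpace E]

/-- The isometric lifting of a system. -/
structure Half {H : Type u} [NormedAddCommGroup H] [InnerProductSpace ℂ H] (U : E →L[ℂ] E)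
    (V : Submodule ℂ (H × E)) (S : M →L[ℂ] M) (i : E →L[ℂ] M) (Np Nm : Submodule ℂ M) :
    Prop where
  emb : Emb U S i
  op : Out S Np
  om : Out S Nm
  lam : ∀ m ∈ Nm, (1 / 4 : ℂ) • m + (3 / 4 : ℂ) • i (adjoint i m) ∈ Np
  abs : Abs U i Np
  res : Res U i Np
  lo : ∀ m ∈ Np, ∀ a : E, ∃ p ∈ V, ‖p.1‖ ^ 2 + ‖a - (2 : ℂ) • p.2‖ ^ 2 ≤ ‖i a - m‖ ^ 2
  up : ∀ p ∈ V, ∀ a : E, ∃ m ∈ Nm, ‖i a - m‖ ^ 2 ≤ ‖p.1‖ ^ 2 + ‖a - (1 / 2 : ℂ) • p.2‖ ^ 2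

/-- The doubled model. -/
structure Model (U Θ : E →L[ℂ] E) (S : M →L[ℂ] M) (i j : E →L[ℂ] M) (Np Nm : Submodule ℂ M) :
    Prop where
  ei : Emb U S i
  ej : Emb U S j
  orth : ∀ a a' : E, inner ℂ (i a) (j a') = 0
  op : Out S Np
  om : Out S Nm
  lam : ∀ m ∈ Nm, (1 / 4 : ℂ) • m + (3 / 4 : ℂ) • (i (adjoint i m) + j (adjoint j m)) ∈ Np
  absi : Abs U i (Np ⊓ (adjoint j).ker)
  absj : Abs U j Np
  resi : Res U i (Np ⊓ (adjoint j).ker)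
  resv : Res U (i + j) Np
  dist : ∀ a : E, ∀ m ∈ Np, ∀ ε : ℝ, 0 < ε → ∃ m' ∈ Nm,
    ‖(i + j) (Θ a) - m'‖ ≤ ‖(i + j) a - m‖ + ε

/-- The operator that shrinks the part outside the two copies of `E`. -/
def Lam (i j : E →L[ℂ] M) : M →L[ℂ] M :=
  (1 / 4 : ℂ) • (1 : M →L[ℂ] M) + (3 / 4 : ℂ) • (i ∘L adjoint i + j ∘L adjoint j)

/-- The symmetric embedding. -/
def vp (i j : E →L[ℂ] M) : E →L[ℂ] M := ((√2 : ℝ) : ℂ)⁻¹ • (i + j)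

/-- The antisymmetric embedding. -/
def vm (i j : E →L[ℂ] M) : E →L[ℂ] M := ((√2 : ℝ) : ℂ)⁻¹ • (i - j)

omit [CompleteSpace M] [CompleteSpace E] in
/-- The result of commutant lifting. -/
structure Lifted (Θ : E →L[ℂ] E) (S : M →L[ℂ] M) (w : E →L[ℂ] M) (Np Nm : Submodule ℂ M)
    (B : M →L[ℂ] M) : Prop where
  con : ∀ m, ‖B m‖ ≤ ‖m‖
  maps : ∀ m ∈ Np, B m ∈ Nm
  comm : ∀ m ∈ Hull w Np, B (S m) = S (B m)
  bw : ∀ a, B (w a) = w (Θ a)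

end model

section fin

variable {M : Type u} [NormedAddCommGroup M] [InnerProductSpace ℂ M] [CompleteSpace M]

/-- The hypotheses of the final lemma. -/
structure Last {L : Measure X} (U Θ : K L →L[ℂ] K L) (θ : X → ℂ) (S : M →L[ℂ] M)
    (w : K L →L[ℂ] M) (b : M →L[ℂ] K L) (N : Submodule ℂ M) (Y : M →L[ℂ] M) : Prop where
  emb : Emb U S w
  out : Out S N
  abs : Abs U w N
  res : Res U w N
  bn : ∀ m, ‖b m‖ ≤ ‖m‖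
  bs : ∀ m, b (S m) = U (b m)
  bw : ∀ a, b (w a) = 0
  yn : ∀ m, ‖Y m‖ ≤ ‖m‖
  yN : ∀ m ∈ N, Y m ∈ N
  ys : ∀ m ∈ N, Y (S m) = S (Y m)
  yw : ∀ a, Y (w a) = w (Θ a)
  gap : ∃ ρ : ℝ, 0 ≤ ρ ∧ ρ < 1 ∧ ∀ ε : ℝ, 0 < ε → ∃ θ₀ : ℂ, ‖θ₀‖ = 1 ∧ ∃ Z : Set X,
    MeasurableSet Z ∧ L Z ≠ 0 ∧ (∀ t ∈ Z, ‖θ t - θ₀‖ ≤ ε) ∧
    ∀ f ∈ Hull w N, adjoint w f = 0 →
      ‖f + θ₀ • adjoint Y f‖ ^ 2 ≤ 4 * (ρ ^ 2 * ‖f‖ ^ 2 + ∫ t in Zᶜ, ‖b f t‖ ^ 2 ∂L)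

end fin

/-- The data on the circle. -/
structure Circ (L : Measure X) (θ : X → ℂ) (U Θ : K L →L[ℂ] K L) : Prop where
  ne : L ≠ 0
  meas : Measurable θ
  uni : ∀ t, ‖θ t‖ = 1
  mu : IsMul U (fourier 1)
  mth : IsMul Θ θ

end Pool.Agent.P.MP_f981b0_an.CD
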