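import Pool.Agent.P.MP_f981b0_an.CD.Base

/-! Package Dom: domination of measures, and the commutant of the coordinate. -/

set_option autoImplicit false

open MeasureTheory Filter Topology ContinuousLinearMap
open scoped ComplexConjugate

noncomputable section

namespace Pool.Agent.P.MP_f981b0_an.CD

universe u

variable {L : Measure X} [IsFiniteMeasure L]

theorem dom_bd {f : X → ℂ} (h1 : ∀ t, ‖f t‖ ≤ 1) (p : C(X, ℂ)) (t : X) :
    ‖‖f t - p t‖ ^ 2‖ ≤ (1 + ‖p‖) ^ 2 := by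
  rw [Real.norm_of_nonneg (sq_nonneg _)]
  have h2 : ‖f t - p t‖ ≤ 1 + ‖p‖ :=
    (norm_sub_le _ _).trans (add_le_add (h1 t) (p.norm_coe_le_norm t))
  exact pow_le_pow_left₀ (norm_nonneg _) h2 2

theorem dom_meas {f : X → ℂ} (hf : Measurable f) (p : C(X, ℂ)) :
    Measurable fun t => ‖f t - p t‖ ^ 2 :=
  ((hf.sub p.continuous.measurable).norm).pow_const 2

theorem dom_int (ω : Measure X) [IsFiniteMeasure ω] {f : X → ℂ} (hf : Measurable f)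
    (h1 : ∀ t, ‖f t‖ ≤ 1) (p : C(X, ℂ)) : Integrable (fun t => ‖f t - p t‖ ^ 2) ω :=
  Integrable.of_bound (dom_meas hf p).aestronglyMeasurable _
    (Eventually.of_forall (dom_bd h1 p))

omit [IsFiniteMeasure L] in
theorem dom_approx (ω : Measure X) [IsFiniteMeasure ω] {φ : X → ℝ} (hφ : Measurable φ)
    (h0 : ∀ t, 0 ≤ φ t) (hi : Integrable φ L) {f : X → ℂ} (hf : Measurable f)
    (h1 : ∀ t, ‖f t‖ ≤ 1) {ε : ℝ} (hε : 0 < ε) :
    ∃ c : ℤ →₀ ℂ, ∫ t, ‖f t - ev c t‖ ^ 2 ∂ω ≤ ε ∧ ∫ t, ‖f t - ev c t‖ ^ 2 * φ t ∂L ≤ ε := by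
  set ν : Measure X := L.withDensity fun t => ENNReal.ofReal (φ t) with hν
  have : IsFiniteMeasure ν := isFiniteMeasure_withDensity_ofReal hi.2
  have hm : MemLp f 2 (ω + ν) :=
    MemLp.of_bound hf.aestronglyMeasurable 1 (Eventually.of_forall h1)
  obtain ⟨c, hc⟩ := dense_ev (L := ω + ν) (hm.toLp f) (Real.sqrt_pos.2 hε)
  refine ⟨c, ?_⟩
  have h2 : ‖hm.toLp f - ContinuousMap.toLp (E := ℂ) 2 (ω + ν) ℂ (ev c)‖ ^ 2 ≤ ε := by
    have := pow_le_pow_left₀ (norm_nonneg _) hc 2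
    rwa [Real.sq_sqrt hε.le] at this
  rw [norm_sq] at h2
  have h3 : ∫ t, ‖(hm.toLp f - ContinuousMap.toLp (E := ℂ) 2 (ω + ν) ℂ (ev c) : K (ω + ν)) t‖ ^ 2
      ∂(ω + ν) = ∫ t, ‖f t - ev c t‖ ^ 2 ∂(ω + ν) := by
    refine integral_congr_ae ?_
    filter_upwards [Lp.coeFn_sub (hm.toLp f) (ContinuousMap.toLp (E := ℂ) 2 (ω + ν) ℂ (ev c)),
      hm.coeFn_toLp, ContinuousMap.coeFn_toLp (p := 2) (𝕜 := ℂ) (ω + ν) (ev c)] with t a b d
    rw [a, Pi.sub_apply, b, d]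
  rw [h3, integral_add_measure (dom_int ω hf h1 _) (dom_int ν hf h1 _)] at h2
  have h4 : ∫ t, ‖f t - ev c t‖ ^ 2 ∂ν = ∫ t, ‖f t - ev c t‖ ^ 2 * φ t ∂L := by
    rw [hν, integral_withDensity_eq_integral_toReal_smul hφ.ennreal_ofReal
      (Eventually.of_forall fun t => ENNReal.ofReal_lt_top)]
    refine integral_congr_ae (Eventually.of_forall fun t => ?_)
    simp only [smul_eq_mul]
    rw [ENNReal.toReal_ofReal (h0 t), mul_comm]
  have h5 : 0 ≤ ∫ t, ‖f t - ev c t‖ ^ 2 ∂ω := integral_nonneg fun t => sq_nonneg _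
  have h6 : 0 ≤ ∫ t, ‖f t - ev c t‖ ^ 2 ∂ν := integral_nonneg fun t => sq_nonneg _
  rw [← h4]
  constructor <;> linarith

theorem dom_ineq (x y : ℂ) {s : ℝ} (hs : 0 < s) :
    ‖x + y‖ ^ 2 ≤ (1 + s) * ‖x‖ ^ 2 + (1 + s⁻¹) * ‖y‖ ^ 2 := by
  have h1 : ‖x + y‖ ^ 2 ≤ (‖x‖ + ‖y‖) ^ 2 :=
    pow_le_pow_left₀ (norm_nonneg _) (norm_add_le _ _) 2
  have h2 : 2 * ‖x‖ * ‖y‖ ≤ s * ‖x‖ ^ 2 + s⁻¹ * ‖y‖ ^ 2 := by
    have h3 : 0 ≤ s⁻¹ * (s * ‖x‖ - ‖y‖) ^ 2 := by positivity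
    have h4 : s⁻¹ * (s * ‖x‖ - ‖y‖) ^ 2 =
        s * ‖x‖ ^ 2 + s⁻¹ * ‖y‖ ^ 2 - 2 * ‖x‖ * ‖y‖ := by
      field_simp
      ring
    linarith
  nlinarith

theorem dom_cs (x y a b : ℂ) :
    ‖x * a + y * b‖ ^ 2 ≤ (‖x‖ ^ 2 + ‖y‖ ^ 2) * (‖a‖ ^ 2 + ‖b‖ ^ 2) := by
  have h1 : ‖x * a + y * b‖ ≤ ‖x‖ * ‖a‖ + ‖y‖ * ‖b‖ := by
    refine (norm_add_le _ _).trans ?_
    rw [norm_mul, norm_mul]
  have h2 := pow_le_pow_left₀ (norm_nonneg _) h1 2
  nlinarith [sq_nonneg (‖x‖ * ‖b‖ - ‖y‖ * ‖a‖)]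

omit [IsFiniteMeasure L] in
theorem dom_gen (ω : Measure X) [IsFiniteMeasure ω] (a₀ a₁ : K L)
    (h : ∀ c₀ c₁ : ℤ →₀ ℂ, ∫ t, ‖ev c₀ t * a₀ t + ev c₁ t * a₁ t‖ ^ 2 ∂L ≤
      ∫ t, (‖ev c₀ t‖ ^ 2 + ‖ev c₁ t‖ ^ 2) ∂ω) {f₀ f₁ : X → ℂ} (m0 : Measurable f₀)
    (m1 : Measurable f₁) (b0 : ∀ t, ‖f₀ t‖ ≤ 1) (b1 : ∀ t, ‖f₁ t‖ ≤ 1) :
    ∫ t, ‖f₀ t * a₀ t + f₁ t * a₁ t‖ ^ 2 ∂L ≤ ∫ t, (‖f₀ t‖ ^ 2 + ‖f₁ t‖ ^ 2) ∂ω := by
  have ma0 : Measurable (a₀ : X → ℂ) := (Lp.stronglyMeasurable a₀).measurable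
  have ma1 : Measurable (a₁ : X → ℂ) := (Lp.stronglyMeasurable a₁).measurable
  set φ : X → ℝ := fun t => ‖a₀ t‖ ^ 2 + ‖a₁ t‖ ^ 2 with hφ
  have mφ : Measurable φ := (ma0.norm.pow_const 2).add (ma1.norm.pow_const 2)
  have h0 : ∀ t, 0 ≤ φ t := fun t => by positivity
  have hi : Integrable φ L := (int_sq a₀).add (int_sq a₁)
  set A := ∫ t, ‖f₀ t * a₀ t + f₁ t * a₁ t‖ ^ 2 ∂L with hA
  set B := ∫ t, (‖f₀ t‖ ^ 2 + ‖f₁ t‖ ^ 2) ∂ω with hB
  have iB : Integrable (fun t => ‖f₀ t‖ ^ 2 + ‖f₁ t‖ ^ 2) ω := by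
    have e0 := dom_int ω m0 b0 0
    have e1 := dom_int ω m1 b1 0
    simp only [ContinuousMap.zero_apply, sub_zero] at e0 e1
    exact e0.add e1
  have key : ∀ s : ℝ, 0 < s → ∀ ε : ℝ, 0 < ε →
      A ≤ (1 + s) * ((1 + s) * B + (1 + s⁻¹) * (2 * ε)) + (1 + s⁻¹) * (2 * ε) := by
    intro s hs ε hε
    obtain ⟨c₀, u0, v0⟩ := dom_approx ω mφ h0 hi m0 b0 hε
    obtain ⟨c₁, u1, v1⟩ := dom_approx ω mφ h0 hi m1 b1 hε
    have hs1 : 0 ≤ 1 + s := by positivity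
    have hs2 : 0 ≤ 1 + s⁻¹ := by positivity
    have i0 : Integrable (fun t => ‖f₀ t - ev c₀ t‖ ^ 2 * φ t) L :=
      hi.bdd_mul (dom_meas m0 _).aestronglyMeasurable (Eventually.of_forall (dom_bd b0 _))
    have i1 : Integrable (fun t => ‖f₁ t - ev c₁ t‖ ^ 2 * φ t) L :=
      hi.bdd_mul (dom_meas m1 _).aestronglyMeasurable (Eventually.of_forall (dom_bd b1 _))
    have iP : Integrable (fun t => ‖ev c₀ t * a₀ t + ev c₁ t * a₁ t‖ ^ 2) L := by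
      refine (hi.const_mul (‖ev c₀‖ ^ 2 + ‖ev c₁‖ ^ 2)).mono' ?_ (Eventually.of_forall fun t => ?_)
      · exact ((((ev c₀).continuous.measurable.mul ma0).add
          ((ev c₁).continuous.measurable.mul ma1)).norm.pow_const 2).aestronglyMeasurable
      · rw [Real.norm_of_nonneg (sq_nonneg _)]
        refine (dom_cs _ _ _ _).trans (mul_le_mul_of_nonneg_right (add_le_add ?_ ?_) (h0 t))
        · exact pow_le_pow_left₀ (norm_nonneg _) ((ev c₀).norm_coe_le_norm t) 2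
        · exact pow_le_pow_left₀ (norm_nonneg _) ((ev c₁).norm_coe_le_norm t) 2
    have i01 : Integrable (fun t => ‖f₀ t - ev c₀ t‖ ^ 2 * φ t + ‖f₁ t - ev c₁ t‖ ^ 2 * φ t) L :=
      i0.add i1
    have s1 : A ≤ (1 + s) * ∫ t, ‖ev c₀ t * a₀ t + ev c₁ t * a₁ t‖ ^ 2 ∂L +
        (1 + s⁻¹) * (∫ t, ‖f₀ t - ev c₀ t‖ ^ 2 * φ t ∂L + ∫ t, ‖f₁ t - ev c₁ t‖ ^ 2 * φ t ∂L) := by
      rw [← integral_add i0 i1, ← integral_const_mul, ← integral_const_mul,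
        ← integral_add (iP.const_mul _) (i01.const_mul _)]
      refine integral_mono_of_nonneg (Eventually.of_forall fun t => sq_nonneg _)
        ((iP.const_mul _).add (i01.const_mul _)) (Eventually.of_forall fun t => ?_)
      have e : f₀ t * a₀ t + f₁ t * a₁ t = (ev c₀ t * a₀ t + ev c₁ t * a₁ t) +
          ((f₀ t - ev c₀ t) * a₀ t + (f₁ t - ev c₁ t) * a₁ t) := by ring
      have e2 := dom_ineq (ev c₀ t * a₀ t + ev c₁ t * a₁ t)
        ((f₀ t - ev c₀ t) * a₀ t + (f₁ t - ev c₁ t) * a₁ t) hs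
      have e3 := mul_le_mul_of_nonneg_left
        (dom_cs (f₀ t - ev c₀ t) (f₁ t - ev c₁ t) (a₀ t) (a₁ t)) hs2
      simp only [hφ]
      rw [e]
      nlinarith
    have j0 := dom_int ω m0 b0 (ev c₀)
    have j1 := dom_int ω m1 b1 (ev c₁)
    have j01 : Integrable (fun t => ‖f₀ t - ev c₀ t‖ ^ 2 + ‖f₁ t - ev c₁ t‖ ^ 2) ω := j0.add j1
    have s2 : ∫ t, (‖ev c₀ t‖ ^ 2 + ‖ev c₁ t‖ ^ 2) ∂ω ≤ (1 + s) * B +
        (1 + s⁻¹) * (∫ t, ‖f₀ t - ev c₀ t‖ ^ 2 ∂ω + ∫ t, ‖f₁ t - ev c₁ t‖ ^ 2 ∂ω) := by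
      rw [hB, ← integral_add j0 j1, ← integral_const_mul, ← integral_const_mul,
        ← integral_add (iB.const_mul _) (j01.const_mul _)]
      refine integral_mono_of_nonneg (Eventually.of_forall fun t => by positivity)
        ((iB.const_mul _).add (j01.const_mul _)) (Eventually.of_forall fun t => ?_)
      have e0 := dom_ineq (f₀ t) (-(f₀ t - ev c₀ t)) hs
      have e1 := dom_ineq (f₁ t) (-(f₁ t - ev c₁ t)) hs
      rw [norm_neg, show f₀ t + -(f₀ t - ev c₀ t) = ev c₀ t by ring] at e0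
      rw [norm_neg, show f₁ t + -(f₁ t - ev c₁ t) = ev c₁ t by ring] at e1
      beta_reduce
      nlinarith
    have s3 := h c₀ c₁
    have s4 := mul_le_mul_of_nonneg_left (add_le_add u0 u1) hs2
    have s5 := mul_le_mul_of_nonneg_left (add_le_add v0 v1) hs2
    have s6 := mul_le_mul_of_nonneg_left (s3.trans s2) hs1
    have s7 := mul_le_mul_of_nonneg_left s4 hs1
    nlinarith
  have key2 : ∀ s : ℝ, 0 < s → A ≤ (1 + s) * ((1 + s) * B) := by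
    intro s hs
    have hc : Tendsto (fun ε : ℝ => (1 + s) * ((1 + s) * B + (1 + s⁻¹) * (2 * ε)) +
        (1 + s⁻¹) * (2 * ε)) (𝓝[>] 0)
        (𝓝 ((1 + s) * ((1 + s) * B + (1 + s⁻¹) * (2 * 0)) + (1 + s⁻¹) * (2 * 0))) :=
      (Continuous.tendsto (by fun_prop) 0).mono_left nhdsWithin_le_nhds
    have := ge_of_tendsto hc (eventually_nhdsWithin_of_forall fun ε hε => key s hs ε hε)
    simpa using this
  have hc : Tendsto (fun s : ℝ => (1 + s) * ((1 + s) * B)) (𝓝[>] 0)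
      (𝓝 ((1 + 0) * ((1 + 0) * B))) :=
    (Continuous.tendsto (by fun_prop) 0).mono_left nhdsWithin_le_nhds
  have := ge_of_tendsto hc (eventually_nhdsWithin_of_forall fun s hs => key2 s hs)
  simpa using this

theorem dom_pt (a b : ℂ) :
    ‖conj a / (√(‖a‖ ^ 2 + ‖b‖ ^ 2) : ℝ)‖ ^ 2 + ‖conj b / (√(‖a‖ ^ 2 + ‖b‖ ^ 2) : ℝ)‖ ^ 2 ≤ 1 ∧
    ‖conj a / (√(‖a‖ ^ 2 + ‖b‖ ^ 2) : ℝ) * a + conj b / (√(‖a‖ ^ 2 + ‖b‖ ^ 2) : ℝ) * b‖ ^ 2 =
      ‖a‖ ^ 2 + ‖b‖ ^ 2 := by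
  have h0 : 0 ≤ ‖a‖ ^ 2 + ‖b‖ ^ 2 := by positivity
  set r := √(‖a‖ ^ 2 + ‖b‖ ^ 2) with hr
  have hr2 : r ^ 2 = ‖a‖ ^ 2 + ‖b‖ ^ 2 := Real.sq_sqrt h0
  have hr0 : 0 ≤ r := Real.sqrt_nonneg _
  rcases hr0.eq_or_lt with h | h
  · rw [← hr2, ← h]
    simp
  · constructor
    · rw [norm_div, norm_div, Complex.norm_conj, Complex.norm_conj, Complex.norm_real,
        Real.norm_of_nonneg hr0, div_pow, div_pow, ← add_div, ← hr2, div_self (by positivity)]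
    · have e : conj a / (r : ℂ) * a + conj b / (r : ℂ) * b = (r : ℂ) := by
        have hr' : (r : ℂ) ≠ 0 := by exact_mod_cast h.ne'
        have e1 : conj a * a + conj b * b = (r : ℂ) ^ 2 := by
          rw [Complex.conj_mul', Complex.conj_mul']
          exact_mod_cast hr2.symm
        field_simp
        rw [← e1]
      rw [e, Complex.norm_real, Real.norm_of_nonneg hr0, hr2]

theorem dom (ω : Measure X) [IsFiniteMeasure ω] (a₀ a₁ : K L)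
    (h : ∀ c₀ c₁ : ℤ →₀ ℂ, ∫ t, ‖ev c₀ t * a₀ t + ev c₁ t * a₁ t‖ ^ 2 ∂L ≤
      ∫ t, (‖ev c₀ t‖ ^ 2 + ‖ev c₁ t‖ ^ 2) ∂ω) {Z : Set X} (hZ : MeasurableSet Z) :
    ∫ t in Z, (‖a₀ t‖ ^ 2 + ‖a₁ t‖ ^ 2) ∂L ≤ ω.real Z := by
  have ma0 : Measurable (a₀ : X → ℂ) := (Lp.stronglyMeasurable a₀).measurable
  have ma1 : Measurable (a₁ : X → ℂ) := (Lp.stronglyMeasurable a₁).measurable
  have mr : Measurable fun t => ((√(‖a₀ t‖ ^ 2 + ‖a₁ t‖ ^ 2) : ℝ) : ℂ) :=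
    Complex.measurable_ofReal.comp
      (((ma0.norm.pow_const 2).add (ma1.norm.pow_const 2)).sqrt)
  have mc : Measurable (fun z : ℂ => conj z) := Complex.continuous_conj.measurable
  set f₀ : X → ℂ := Z.indicator fun t => conj (a₀ t) / (√(‖a₀ t‖ ^ 2 + ‖a₁ t‖ ^ 2) : ℝ) with h0
  set f₁ : X → ℂ := Z.indicator fun t => conj (a₁ t) / (√(‖a₀ t‖ ^ 2 + ‖a₁ t‖ ^ 2) : ℝ) with h1
  have m0 : Measurable f₀ := ((mc.comp ma0).div mr).indicator hZ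
  have m1 : Measurable f₁ := ((mc.comp ma1).div mr).indicator hZ
  have hb : ∀ t, ‖f₀ t‖ ^ 2 + ‖f₁ t‖ ^ 2 ≤ Z.indicator (fun _ => (1 : ℝ)) t := by
    intro t
    by_cases ht : t ∈ Z
    · simp only [h0, h1, Set.indicator_of_mem ht]
      exact (dom_pt _ _).1
    · simp [h0, h1, Set.indicator_of_notMem ht]
  have hb' : ∀ t, ‖f₀ t‖ ^ 2 + ‖f₁ t‖ ^ 2 ≤ 1 := fun t =>
    (hb t).trans (Set.indicator_le_self' (fun _ _ => zero_le_one) t)
  have b0 : ∀ t, ‖f₀ t‖ ≤ 1 := fun t => by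
    have := hb' t
    nlinarith [norm_nonneg (f₀ t), sq_nonneg ‖f₁ t‖]
  have b1 : ∀ t, ‖f₁ t‖ ≤ 1 := fun t => by
    have := hb' t
    nlinarith [norm_nonneg (f₁ t), sq_nonneg ‖f₀ t‖]
  have key := dom_gen ω a₀ a₁ h m0 m1 b0 b1
  have e1 : ∫ t in Z, (‖a₀ t‖ ^ 2 + ‖a₁ t‖ ^ 2) ∂L =
      ∫ t, ‖f₀ t * a₀ t + f₁ t * a₁ t‖ ^ 2 ∂L := by
    rw [← integral_indicator hZ]
    refine integral_congr_ae (Eventually.of_forall fun t => ?_)
    by_cases ht : t ∈ Z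
    · simp only [h0, h1, Set.indicator_of_mem ht]
      exact (dom_pt _ _).2.symm
    · simp [h0, h1, Set.indicator_of_notMem ht]
  rw [e1]
  refine key.trans ?_
  rw [← integral_indicator_one hZ]
  exact integral_mono_of_nonneg (Eventually.of_forall fun t => by positivity)
    ((integrable_const (1 : ℝ)).indicator hZ) (Eventually.of_forall hb)

theorem dom_four {U Γ : K L →L[ℂ] K L} (hU : IsMul U (fourier 1))
    (hc : ∀ a, Γ (U a) = U (Γ a)) (n : ℤ) :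
    ∀ᵐ t ∂L, Γ (ContinuousMap.toLp (E := ℂ) 2 L ℂ (fourier n)) t =
      fourier n t * Γ (ContinuousMap.toLp (E := ℂ) 2 L ℂ (fourier 0)) t := by
  have hstep : ∀ n : ℤ, ContinuousMap.toLp (E := ℂ) 2 L ℂ (fourier (n + 1)) =
      U (ContinuousMap.toLp (E := ℂ) 2 L ℂ (fourier n)) := by
    intro n
    refine Lp.ext ?_
    filter_upwards [hU (ContinuousMap.toLp (E := ℂ) 2 L ℂ (fourier n)),
      ContinuousMap.coeFn_toLp (p := 2) (𝕜 := ℂ) L (fourier (T := 1) (n + 1)),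
      ContinuousMap.coeFn_toLp (p := 2) (𝕜 := ℂ) L (fourier (T := 1) n)] with t a b d
    rw [a, b, d, fourier_add, mul_comm]
  induction n using Int.induction_on with
  | zero => exact Eventually.of_forall fun t => by simp
  | succ n ih =>
    rw [hstep, hc]
    filter_upwards [ih, hU (Γ (ContinuousMap.toLp (E := ℂ) 2 L ℂ (fourier (n : ℤ))))] with t a b
    rw [b, a, fourier_add]
    ring
  | pred n ih =>
    have e := hstep (-(n : ℤ) - 1)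
    rw [sub_add_cancel] at e
    rw [e, hc] at ih
    filter_upwards [ih, hU (Γ (ContinuousMap.toLp (E := ℂ) 2 L ℂ (fourier (-(n : ℤ) - 1))))]
      with t a b
    rw [b] at a
    have hne : (fourier 1 t : ℂ) ≠ 0 := by
      intro h0
      have := norm_fourier 1 t
      rw [h0, norm_zero] at this
      exact zero_ne_one this
    apply mul_left_cancel₀ hne
    rw [a, ← mul_assoc, ← fourier_add]
    congr 3
    ring

theorem dom_ev {U Γ : K L →L[ℂ] K L} (hU : IsMul U (fourier 1))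
    (hc : ∀ a, Γ (U a) = U (Γ a)) (c : ℤ →₀ ℂ) :
    ∀ᵐ t ∂L, Γ (ContinuousMap.toLp (E := ℂ) 2 L ℂ (ev c)) t =
      ev c t * Γ (ContinuousMap.toLp (E := ℂ) 2 L ℂ (fourier 0)) t := by
  induction c using Finsupp.induction_linear with
  | zero =>
    rw [← evL_apply, map_zero, map_zero, map_zero]
    filter_upwards [Lp.coeFn_zero ℂ 2 L] with t a
    rw [a]
    simp
  | add c d hc' hd =>
    rw [← evL_apply, map_add, map_add, map_add, evL_apply, evL_apply]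
    filter_upwards [hc', hd, Lp.coeFn_add (Γ (ContinuousMap.toLp (E := ℂ) 2 L ℂ (ev c)))
      (Γ (ContinuousMap.toLp (E := ℂ) 2 L ℂ (ev d)))] with t a b e
    rw [e, Pi.add_apply, a, b, ContinuousMap.add_apply]
    ring
  | single n x =>
    have e : ev (Finsupp.single n x) = x • fourier n := by
      rw [← evL_apply, evL, Finsupp.linearCombination_single]
    rw [e, map_smul, map_smul]
    filter_upwards [dom_four hU hc n,
      Lp.coeFn_smul x (Γ (ContinuousMap.toLp (E := ℂ) 2 L ℂ (fourier n)))] with t a b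
    rw [b, Pi.smul_apply, a, ContinuousMap.smul_apply, smul_eq_mul, smul_eq_mul, mul_assoc]

theorem comm_mul {U Γ : K L →L[ℂ] K L} (hU : IsMul U (fourier 1)) (hΓ : ∀ a, ‖Γ a‖ ≤ ‖a‖)
    (hc : ∀ a, Γ (U a) = U (Γ a)) :
    ∃ γ : X → ℂ, Measurable γ ∧ (∀ t, ‖γ t‖ ≤ 1) ∧ IsMul Γ γ := by
  set g : K L := Γ (ContinuousMap.toLp (E := ℂ) 2 L ℂ (fourier 0)) with hg
  have mg : Measurable (g : X → ℂ) := (Lp.stronglyMeasurable g).measurable
  have hZ : MeasurableSet {t | 1 < ‖g t‖} := measurableSet_lt measurable_const mg.norm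
  have h1 : ∫ t in {t | 1 < ‖g t‖}, (‖g t‖ ^ 2 + ‖(0 : K L) t‖ ^ 2) ∂L ≤
      L.real {t | 1 < ‖g t‖} := by
    refine dom L g 0 (fun c₀ c₁ => ?_) hZ
    have e1 : ∫ t, ‖ev c₀ t * g t + ev c₁ t * (0 : K L) t‖ ^ 2 ∂L =
        ‖Γ (ContinuousMap.toLp (E := ℂ) 2 L ℂ (ev c₀))‖ ^ 2 := by
      rw [norm_sq]
      refine integral_congr_ae ?_
      filter_upwards [dom_ev hU hc c₀, Lp.coeFn_zero ℂ 2 L] with t a b
      rw [a, b]
      simp [hg]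
    have e2 : ‖ContinuousMap.toLp (E := ℂ) 2 L ℂ (ev c₀)‖ ^ 2 = ∫ t, ‖ev c₀ t‖ ^ 2 ∂L := by
      rw [norm_sq]
      refine integral_congr_ae ?_
      filter_upwards [ContinuousMap.coeFn_toLp (p := 2) (𝕜 := ℂ) L (ev c₀)] with t a
      rw [a]
    have i0 : ∀ c : ℤ →₀ ℂ, Integrable (fun t => ‖ev c t‖ ^ 2) L := fun c =>
      ((ev c).continuous.norm.pow 2).integrable_of_hasCompactSupport
        (HasCompactSupport.of_compactSpace _)
    rw [e1, integral_add (i0 c₀) (i0 c₁), ← e2]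
    have e3 := pow_le_pow_left₀ (norm_nonneg _) (hΓ (ContinuousMap.toLp (E := ℂ) 2 L ℂ (ev c₀))) 2
    have e4 : 0 ≤ ∫ t, ‖ev c₁ t‖ ^ 2 ∂L := integral_nonneg fun t => sq_nonneg _
    linarith
  have h2 : L {t | 1 < ‖g t‖} = 0 := by
    by_contra hne
    have iF : IntegrableOn (fun t => ‖g t‖ ^ 2 + ‖(0 : K L) t‖ ^ 2 - 1) {t | 1 < ‖g t‖} L :=
      (((int_sq g).add (int_sq 0)).sub (integrable_const 1)).integrableOn
    have hp : ∀ t ∈ {t | 1 < ‖g t‖}, 0 < ‖g t‖ ^ 2 + ‖(0 : K L) t‖ ^ 2 - 1 := by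
      intro t ht
      have ht' : 1 < ‖g t‖ := ht
      nlinarith [sq_nonneg ‖(0 : K L) t‖]
    have hpos : 0 < ∫ t in {t | 1 < ‖g t‖}, (‖g t‖ ^ 2 + ‖(0 : K L) t‖ ^ 2 - 1) ∂L := by
      rw [setIntegral_pos_iff_support_of_nonneg_ae
        ((ae_restrict_iff' hZ).2 (Eventually.of_forall fun t ht => (hp t ht).le)) iF]
      refine (pos_iff_ne_zero.2 hne).trans_le (measure_mono fun t ht => ⟨(hp t ht).ne', ht⟩)
    have iG : Integrable (fun t => ‖g t‖ ^ 2 + ‖(0 : K L) t‖ ^ 2) L := (int_sq g).add (int_sq 0)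
    rw [integral_sub iG.integrableOn (integrable_const 1)] at hpos
    simp only [integral_const, MeasurableSet.univ, measureReal_restrict_apply, Set.univ_inter,
      smul_eq_mul, mul_one] at hpos
    linarith
  set γ : X → ℂ := {t | 1 < ‖g t‖}ᶜ.indicator g with hγ
  have mγ : Measurable γ := mg.indicator hZ.compl
  have bγ : ∀ t, ‖γ t‖ ≤ 1 := by
    intro t
    by_cases ht : t ∈ {t | 1 < ‖g t‖}ᶜ
    · rw [hγ, Set.indicator_of_mem ht]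
      exact not_lt.1 ht
    · rw [hγ, Set.indicator_of_notMem ht]
      simp
  have eγ : ∀ᵐ t ∂L, γ t = g t := by
    filter_upwards [compl_mem_ae_iff.2 h2] with t ht
    rw [hγ, Set.indicator_of_mem ht]
  obtain ⟨A, hA⟩ := exists_mul mγ.aestronglyMeasurable bγ (L := L)
  have hAΓ : ∀ c : ℤ →₀ ℂ, A (ContinuousMap.toLp (E := ℂ) 2 L ℂ (ev c)) =
      Γ (ContinuousMap.toLp (E := ℂ) 2 L ℂ (ev c)) := by
    intro c
    refine Lp.ext ?_
    filter_upwards [hA (ContinuousMap.toLp (E := ℂ) 2 L ℂ (ev c)), dom_ev hU hc c, eγ,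
      ContinuousMap.coeFn_toLp (p := 2) (𝕜 := ℂ) L (ev c)] with t a b d e
    rw [a, b, d, e, mul_comm]
  have hE : ∀ a, A a = Γ a := by
    intro a
    have hcl : IsClosed {a : K L | A a = Γ a} := isClosed_eq A.continuous Γ.continuous
    refine hcl.closure_subset ?_
    refine Metric.mem_closure_iff.2 fun ε hε => ?_
    obtain ⟨c, hc'⟩ := dense_ev a (half_pos hε)
    refine ⟨_, hAΓ c, ?_⟩
    rw [dist_eq_norm]
    linarith
  refine ⟨γ, mγ, bγ, fun a => ?_⟩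
  rw [← hE a]
  exact hA a

end Pool.Agent.P.MP_f981b0_an.CD
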