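import Pool.Agent.P.MP_f981b0_an.CD.Mob

/-! Package Main: reductive operators. -/

set_option autoImplicit false

open MeasureTheory Filter Topology ContinuousLinearMap
open scoped ComplexConjugate

noncomputable section

namespace Pool.Agent.P.MP_f981b0_an.CD

universe u

variable {H : Type u} [NormedAddCommGroup H] [InnerProductSpace ℂ H] [CompleteSpace H]

theorem main_orth {A : H →L[ℂ] H} {M : Submodule ℂ H} (h : ∀ x ∈ M, adjoint A x ∈ M) :
    ∀ y ∈ Mᗮ, A y ∈ Mᗮ := by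
  intro y hy x hx
  rw [← adjoint_inner_left]
  exact hy _ (h x hx)

theorem main_orth' {A : H →L[ℂ] H} {M : Submodule ℂ H} (h : ∀ x ∈ M, A x ∈ M) :
    ∀ y ∈ Mᗮ, adjoint A y ∈ Mᗮ := by
  intro y hy x hx
  rw [adjoint_inner_right]
  exact hy _ (h x hx)

theorem main_restrict {T : H →L[ℂ] H} {M : Submodule ℂ H} [CompleteSpace M]
    (h1 : ∀ x ∈ M, T x ∈ M) (h2 : ∀ x ∈ M, adjoint T x ∈ M) :
    adjoint (T.restrict h1) = (adjoint T).restrict h2 := by
  symm
  rw [eq_adjoint_iff]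
  exact fun x y => adjoint_inner_left T y x

/-- A compact symmetric operator that preserves the reducing subspaces vanishes on a part without
joint eigenvectors. -/
theorem main_zero {T D : H →L[ℂ] H} (hD : IsCompactOperator D)
    (hsym : ∀ x y, inner ℂ (D x) y = inner ℂ x (D y))
    (hinv : ∀ L : Submodule ℂ H, (∀ x ∈ L, T x ∈ L) → (∀ x ∈ L, adjoint T x ∈ L) →
      ∀ x ∈ L, D x ∈ L)
    (hS : ∀ M : Submodule ℂ H, IsClosed (M : Set H) → (∀ x ∈ M, T x ∈ M) →
      1 < Module.rank ℂ M →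
      ∃ L : Submodule ℂ H, IsClosed (L : Set H) ∧ L ≤ M ∧ (∀ x ∈ L, T x ∈ L) ∧ L ≠ ⊥ ∧ L ≠ M)
    (hred : ∀ N : Submodule ℂ H, IsClosed (N : Set H) → (∀ x ∈ N, T x ∈ N) →
      ∀ x ∈ N, adjoint T x ∈ N)
    {M₀ : Submodule ℂ H} (hM₀ : IsClosed (M₀ : Set H)) (hM₀T : ∀ x ∈ M₀, T x ∈ M₀)
    (hj : ∀ y ∈ M₀, ∀ μ ν : ℂ, T y = μ • y → adjoint T y = ν • y → y = 0) :
    ∀ x ∈ M₀, D x = 0 := by
  classical
  by_contra hno
  have hC0 := hinv M₀ hM₀T (hred M₀ hM₀ hM₀T)
  obtain ⟨κ, hκ, x0, hx0, hx0', hx0''⟩ : ∃ κ : ℂ, κ ≠ 0 ∧ ∃ x ∈ M₀, x ≠ 0 ∧ D x = κ • x := by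
    have := hM₀.completeSpace_coe
    by_contra hcon
    refine hno fun x hx => ?_
    have h0 : D.restrict hC0 = 0 :=
      (eq_zero_of_forall_hasEigenvalue_eq_zero (T := D.restrict hC0)
        (hD.restrict hC0 hM₀) fun y z => hsym y z).1 fun μ hμ => by
          by_contra hμ0
          obtain ⟨y, hy⟩ := hμ.exists_hasEigenvector
          exact hcon ⟨μ, hμ0, y, y.2, fun h => hy.2 (Subtype.ext h),
            congrArg Subtype.val hy.apply_eq_smul⟩
    exact congrArg (fun L : M₀ →L[ℂ] M₀ => (L ⟨x, hx⟩ : H)) h0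
  set Q : Submodule ℂ H := Module.End.eigenspace (D : H →ₗ[ℂ] H) κ with hQ
  have hQm : ∀ x, x ∈ Q ↔ D x = κ • x := fun x => Module.End.mem_eigenspace_iff
  have hQf : FiniteDimensional ℂ Q := finite_dimensional_eigenspace hD κ hκ
  have hex : ∃ n, ∃ M : Submodule ℂ H, IsClosed (M : Set H) ∧ M ≤ M₀ ∧ (∀ x ∈ M, T x ∈ M) ∧
      M ⊓ Q ≠ ⊥ ∧ Module.finrank ℂ (M ⊓ Q : Submodule ℂ H) = n :=
    ⟨_, M₀, hM₀, le_rfl, hM₀T, (Submodule.ne_bot_iff _).2 ⟨x0, ⟨hx0, (hQm _).2 hx0''⟩, hx0'⟩, rfl⟩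
  obtain ⟨M, hMc, hMM, hMT, hM0, hMn⟩ := Nat.find_spec hex
  obtain ⟨x, ⟨hxM, hxQ⟩, hx⟩ := (Submodule.ne_bot_iff _).1 hM0
  set N : Submodule ℂ H := sInf {L | IsClosed (L : Set H) ∧ (∀ y ∈ L, T y ∈ L) ∧ x ∈ L} with hN
  have hNc : IsClosed (N : Set H) := by
    rw [hN, Submodule.coe_sInf]
    exact isClosed_biInter fun L hL => hL.1
  have hNT : ∀ y ∈ N, T y ∈ N := fun y hy =>
    Submodule.mem_sInf.mpr fun L hL => hL.2.1 y (Submodule.mem_sInf.mp hy L hL)
  have hxN : x ∈ N := Submodule.mem_sInf.mpr fun L hL => hL.2.2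
  have hNM : N ≤ M := sInf_le ⟨hMc, hMT, hxM⟩
  have hr : 1 < Module.rank ℂ N := by
    by_contra hle
    obtain ⟨y, hy, hyN⟩ := (rank_submodule_le_one_iff N).mp (not_lt.mp hle)
    obtain ⟨μ, hμ⟩ := Submodule.mem_span_singleton.mp (hyN (hNT y hy))
    obtain ⟨ν, hν⟩ := Submodule.mem_span_singleton.mp (hyN (hred N hNc hNT y hy))
    obtain ⟨c, rfl⟩ := Submodule.mem_span_singleton.mp (hyN hxN)
    exact hx (by rw [hj y (hMM (hNM hy)) μ ν hμ.symm hν.symm, smul_zero])
  obtain ⟨L, l1, l2, l3, l4, l5⟩ := hS N hNc hNT hr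
  have l0 : L ≤ M₀ := l2.trans (hNM.trans hMM)
  have l6 := hred L l1 l3
  have := l1.completeSpace_coe
  obtain ⟨y, hy, z, hz, rfl⟩ := L.exists_add_mem_mem_orthogonal x
  rcases eq_or_ne y 0 with rfl | hy0
  · have h1 : N ≤ Lᗮ := sInf_le ⟨L.isClosed_orthogonal, main_orth l6, by rwa [zero_add]⟩
    apply l4
    rw [eq_bot_iff, ← L.inf_orthogonal_eq_bot]
    exact le_inf le_rfl (l2.trans h1)
  · have h0 : D y - κ • y ∈ L ⊓ Lᗮ := by
      refine ⟨L.sub_mem (hinv L l3 l6 y hy) (L.smul_mem κ hy), ?_⟩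
      have e : D y - κ • y = κ • z - D z := by
        have := (hQm _).1 hxQ
        rw [map_add, smul_add] at this
        rw [sub_eq_sub_iff_add_eq_add, this, add_comm]
      rw [e]
      exact Lᗮ.sub_mem (Lᗮ.smul_mem κ hz) (hinv _ (main_orth l6) (main_orth' l3) z hz)
    rw [Submodule.inf_orthogonal_eq_bot, Submodule.mem_bot, sub_eq_zero] at h0
    have h1 : Module.finrank ℂ (M ⊓ Q : Submodule ℂ H) ≤
        Module.finrank ℂ (L ⊓ Q : Submodule ℂ H) := by
      rw [hMn]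
      exact Nat.find_min' hex ⟨L, l1, l0, l3,
        (Submodule.ne_bot_iff _).2 ⟨y, ⟨hy, (hQm _).2 h0⟩, hy0⟩, rfl⟩
    have : FiniteDimensional ℂ (M ⊓ Q : Submodule ℂ H) :=
      Submodule.finiteDimensional_of_le inf_le_right
    have h2 : L ⊓ Q = M ⊓ Q :=
      Submodule.eq_of_le_of_finrank_le (inf_le_inf_right Q (l2.trans hNM)) h1
    have h3 : y + z ∈ L ⊓ Q := h2 ▸ ⟨hxM, hxQ⟩
    exact l5 (le_antisymm l2 (sInf_le ⟨l1, l3, h3.1⟩))

/-- A multiple of an isometry built from a reductive operator is a multiple of a unitary. -/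
theorem main_iso {T A : H →L[ℂ] H} {M : Submodule ℂ H} {s : ℂ} (hs : s ≠ 0)
    (hM : IsClosed (M : Set H)) (hMT : ∀ x ∈ M, T x ∈ M) (hc : ∀ x, T (A x) = A (T x))
    (hA : ∀ L : Submodule ℂ H, (∀ x ∈ L, T x ∈ L) → ∀ x ∈ L, A x ∈ L)
    (hA' : ∀ x ∈ M, adjoint A x ∈ M)
    (hred : ∀ N : Submodule ℂ H, IsClosed (N : Set H) → (∀ x ∈ N, T x ∈ N) →
      ∀ x ∈ N, adjoint T x ∈ N)
    (h : ∀ x ∈ M, adjoint A (A x) = s • x) : ∀ x ∈ M, A (adjoint A x) = s • x := by
  set R : Submodule ℂ H := M ⊓ LinearMap.ker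
    ((A * adjoint A - s • (1 : H →L[ℂ] H) : H →L[ℂ] H) : H →ₗ[ℂ] H) with hR
  have hm : ∀ y, y ∈ R ↔ y ∈ M ∧ A (adjoint A y) = s • y := fun y =>
    and_congr_right fun _ => sub_eq_zero
  have hRc : IsClosed (R : Set H) := hM.inter (isClosed_ker _)
  have h1 : ∀ x ∈ M, A x ∈ R := fun x hx => (hm _).2 ⟨hA M hMT x hx, by rw [h x hx, map_smul]⟩
  have hRT : ∀ y ∈ R, T y ∈ R := fun y hy => by
    obtain ⟨a1, a2⟩ := (hm y).1 hy
    have := h1 _ (hMT _ (hA' y a1))
    rw [← hc, a2, map_smul] at this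
    exact (R.smul_mem_iff hs).1 this
  have := hRc.completeSpace_coe
  intro x hx
  obtain ⟨y, hy, z, hz, rfl⟩ := R.exists_add_mem_mem_orthogonal x
  have hzM : z ∈ M := (M.add_mem_iff_right hy.1).1 hx
  have h2 : A z ∈ R ⊓ Rᗮ := ⟨h1 z hzM, hA _ (main_orth (hred R hRc hRT)) z hz⟩
  rw [Submodule.inf_orthogonal_eq_bot, Submodule.mem_bot] at h2
  have h3 := h z hzM
  rw [h2, map_zero, eq_comm, smul_eq_zero] at h3
  rw [h3.resolve_left hs, add_zero]
  exact ((hm y).1 hy).2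

theorem main {T : H →L[ℂ] H} {α γ : ℝ} {β : ℂ} (hd : α * γ < ‖β‖ ^ 2)
    (hK : IsCompactOperator ((α : ℂ) • (adjoint T * T) + β • T + conj β • adjoint T +
      (γ : ℂ) • (1 : H →L[ℂ] H) : H →L[ℂ] H))
    (G : H →L[ℂ] H) {c : ℝ} (hc : 0 < c) (hG : ∀ x, c * ‖x‖ ≤ ‖G x‖)
    (hT : ∀ x, 0 ≤ α * ‖G (T x)‖ ^ 2 + 2 * (β * inner ℂ (G x) (G (T x))).re + γ * ‖G x‖ ^ 2)
    (hred : ∀ N : Submodule ℂ H, IsClosed (N : Set H) → (∀ x ∈ N, T x ∈ N) →
      ∀ x ∈ N, adjoint T x ∈ N) : IsStarNormal T := by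
  set D : H →L[ℂ] H := (α : ℂ) • (adjoint T * T) + β • T + conj β • adjoint T +
    (γ : ℂ) • (1 : H →L[ℂ] H) with hD
  have hDx : ∀ x, D x = (α : ℂ) • adjoint T (T x) + β • T x + conj β • adjoint T x + (γ : ℂ) • x :=
    fun x => rfl
  have hinv : ∀ L : Submodule ℂ H, (∀ x ∈ L, T x ∈ L) → (∀ x ∈ L, adjoint T x ∈ L) →
      ∀ x ∈ L, D x ∈ L := fun L h1 h2 x hx =>
    L.add_mem (L.add_mem (L.add_mem (L.smul_mem _ (h2 _ (h1 x hx))) (L.smul_mem _ (h1 x hx)))
      (L.smul_mem _ (h2 x hx))) (L.smul_mem _ hx)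
  set J : Submodule ℂ H :=
    Submodule.span ℂ {y | ∃ μ ν : ℂ, T y = μ • y ∧ adjoint T y = ν • y} with hJ
  have hJT : ∀ x ∈ J, adjoint T x ∈ J := fun x hx => by
    induction hx using Submodule.span_induction with
    | mem y hy =>
      obtain ⟨μ, ν, h1, h2⟩ := hy
      rw [h2]
      exact J.smul_mem _ (Submodule.subset_span ⟨μ, ν, h1, h2⟩)
    | zero => simp
    | add y z _ _ h1 h2 => rw [map_add]; exact J.add_mem h1 h2
    | smul a y _ h1 => rw [map_smul]; exact J.smul_mem _ h1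
  have hJC : ∀ x ∈ J, adjoint T (T x) = T (adjoint T x) := fun x hx => by
    induction hx using Submodule.span_induction with
    | mem y hy =>
      obtain ⟨μ, ν, h1, h2⟩ := hy
      rw [h1, h2, map_smul, map_smul, h1, h2, smul_comm]
    | zero => simp
    | add y z _ _ h1 h2 => simp only [map_add, h1, h2]
    | smul a y _ h1 => simp only [map_smul, h1]
  have h1 := main_orth hJT
  have h2 := hred _ J.isClosed_orthogonal h1
  have h0 : ∀ x ∈ Jᗮ, D x = 0 := by
    refine main_zero hK (fun x y => ?_) hinv (fun M hM a1 hr => ?_) hred J.isClosed_orthogonal h1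
      fun y hy μ ν a1 a2 => inner_self_eq_zero.1 (hy y (Submodule.subset_span ⟨μ, ν, a1, a2⟩))
    · simp only [hDx, inner_add_left, inner_add_right, inner_smul_left, inner_smul_right,
        adjoint_inner_left, adjoint_inner_right, Complex.conj_ofReal, Complex.conj_conj]
      ring
    · have := hM.completeSpace_coe
      have a2 := hred M hM a1
      obtain ⟨V, b1, b2, b3, b4⟩ := mob hr (T := T.restrict a1) hd
        (by
          rw [main_restrict a1 a2]
          exact hK.restrict (hinv M a1 a2) hM)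
        (G ∘L M.subtypeL) hc (fun x => hG x) fun x => hT x
      refine ⟨V.map M.subtype, hM.isClosedEmbedding_subtypeVal.isClosedMap _ b1,
        M.map_subtype_le V, ?_, fun h => b2 ?_, fun h => b3 ?_⟩
      · rintro _ ⟨y, hy, rfl⟩
        exact ⟨_, b4 y hy, rfl⟩
      · exact Submodule.map_injective_of_injective M.injective_subtype (h.trans (by simp))
      · exact Submodule.map_injective_of_injective M.injective_subtype (h.trans (by simp))
  have h3 : ∀ x ∈ Jᗮ, adjoint T (T x) = T (adjoint T x) := fun x hx => by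
    rcases eq_or_ne α 0 with rfl | hα
    · have hβ : conj β ≠ 0 := by
        rintro h
        rw [map_eq_zero] at h
        simp [h] at hd
      have e1 := h0 _ (h1 x hx)
      have e2 := congrArg T (h0 x hx)
      simp only [hDx, map_add, map_smul, map_zero, Complex.ofReal_zero, zero_smul, zero_add] at e1 e2
      exact smul_right_injective H hβ (add_left_cancel (add_right_cancel (e1.trans e2.symm)))
    · have hα' : (α : ℂ) ≠ 0 := Complex.ofReal_ne_zero.2 hα
      set A : H →L[ℂ] H := (α : ℂ) • T + conj β • (1 : H →L[ℂ] H) with hA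
      have hAx : ∀ y, A y = (α : ℂ) • T y + conj β • y := fun y => rfl
      have hA' : ∀ y, adjoint A y = (α : ℂ) • adjoint T y + β • y := fun y =>
        ext_inner_left ℂ fun v => by
          simp only [adjoint_inner_right, hAx, inner_add_left, inner_add_right, inner_smul_left,
            inner_smul_right, Complex.conj_ofReal, Complex.conj_conj]
      have hs : β * conj β - α * γ ≠ 0 := by
        rw [Complex.mul_conj', sub_ne_zero]
        exact_mod_cast hd.ne'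
      have e0 : ∀ y ∈ Jᗮ, adjoint A (A y) = (β * conj β - α * γ) • y := fun y hy => by
        have e1 := h0 y hy
        rw [hDx] at e1
        simp only [hA', hAx, map_add, map_smul]
        linear_combination (norm := module) (α : ℂ) • e1
      have e2 := main_iso hs J.isClosed_orthogonal h1
        (fun y => by simp only [hAx, map_add, map_smul])
        (fun L hL y hy => L.add_mem (L.smul_mem _ (hL y hy)) (L.smul_mem _ hy))
        (fun y hy => by
          rw [hA']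
          exact Jᗮ.add_mem (Jᗮ.smul_mem _ (h2 y hy)) (Jᗮ.smul_mem _ hy)) hred e0 x hx
      have e3 := e0 x hx
      simp only [hA', hAx, map_add, map_smul] at e2 e3
      refine smul_right_injective H (mul_ne_zero hα' hα') ?_
      change ((α : ℂ) * α) • adjoint T (T x) = ((α : ℂ) * α) • T (adjoint T x)
      linear_combination (norm := module) e3 - e2
  refine ⟨ContinuousLinearMap.ext fun x => ?_⟩
  change adjoint T (T x) = T (adjoint T x)
  have key : ∀ y, adjoint T (T y) = T (adjoint T y) →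
      inner ℂ y (adjoint T (T x) - T (adjoint T x)) = 0 := fun y hy => by
    rw [inner_sub_right, adjoint_inner_right, ← adjoint_inner_left T x (T y), hy,
      ← adjoint_inner_left T (adjoint T x) y, adjoint_inner_right, sub_self]
  exact sub_eq_zero.1 (inner_self_eq_zero.1 (key _ (h3 _ fun y hy => key y (hJC y hy))))

end Pool.Agent.P.MP_f981b0_an.CD
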