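import Pool.Agent.P.MP_f981b0_an.CD.Red2

/-! Package Mob: discs and half-planes. -/

set_option autoImplicit false

open MeasureTheory Filter Topology ContinuousLinearMap
open scoped ComplexConjugate

noncomputable section

namespace Pool.Agent.P.MP_f981b0_an.CD

universe u

variable {H : Type u} [NormedAddCommGroup H] [InnerProductSpace ℂ H] [CompleteSpace H]

theorem mob_point {α γ : ℝ} {β : ℂ} (hd : α * γ < ‖β‖ ^ 2) :
    ∃ l : ℂ, α * ‖l‖ ^ 2 + 2 * (β * l).re + γ < 0 := by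
  have hB : ∀ s : ℝ, (β * ((-s : ℝ) * conj β)).re = -s * ‖β‖ ^ 2 := by
    intro s
    rw [mul_left_comm, Complex.mul_conj', ← Complex.ofReal_pow, ← Complex.ofReal_mul,
      Complex.ofReal_re]
  have hN : ∀ s : ℝ, ‖((-s : ℝ) : ℂ) * conj β‖ ^ 2 = s ^ 2 * ‖β‖ ^ 2 := by
    intro s
    rw [norm_mul, Complex.norm_conj, Complex.norm_real, mul_pow, Real.norm_eq_abs, sq_abs, neg_sq]
  rcases lt_trichotomy α 0 with h | h | h
  · set t : ℝ := (2 * |β.re| + |γ| + 1) / (-α) + 1 with ht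
    have h0 : 0 ≤ (2 * |β.re| + |γ| + 1) / (-α) := div_nonneg (by positivity) (by linarith)
    have h1 : α * t = -(2 * |β.re| + |γ| + 1) + α := by
      have : α ≠ 0 := h.ne
      rw [ht]
      field_simp
    refine ⟨t, ?_⟩
    have h2 : (β * (t : ℂ)).re = β.re * t := by simp
    rw [h2, Complex.norm_real, Real.norm_eq_abs, sq_abs]
    have h3 := le_abs_self β.re
    have h4 := le_abs_self γ
    have h5 := abs_nonneg γ
    have h6 : 1 ≤ t := by linarith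
    have h7 : α * t + 2 * β.re ≤ -(|γ| + 1) := by linarith
    nlinarith
  · subst h
    have h0 : 0 < ‖β‖ ^ 2 := by linarith
    refine ⟨((-((γ + 1) / (2 * ‖β‖ ^ 2)) : ℝ) : ℂ) * conj β, ?_⟩
    rw [hB]
    have : (γ + 1) / (2 * ‖β‖ ^ 2) * ‖β‖ ^ 2 = (γ + 1) / 2 := by
      have : ‖β‖ ≠ 0 := fun h => by simp [h] at h0
      field_simp
    linarith
  · refine ⟨((-α⁻¹ : ℝ) : ℂ) * conj β, ?_⟩
    rw [hB, hN]
    have h1 : α * (α⁻¹ ^ 2 * ‖β‖ ^ 2) + 2 * (-α⁻¹ * ‖β‖ ^ 2) + γ = (α * γ - ‖β‖ ^ 2) / α := by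
      field_simp
      ring
    rw [h1]
    exact div_neg_of_neg_of_pos (by linarith) h

theorem mob_normb (α : ℝ) (β l : ℂ) :
    ‖α * conj l + β‖ ^ 2 = α ^ 2 * ‖l‖ ^ 2 + 2 * α * (β * l).re + ‖β‖ ^ 2 := by
  simp only [Complex.sq_norm, Complex.normSq_apply]
  simp
  ring

theorem mob_form {E : Type*} [NormedAddCommGroup E] [InnerProductSpace ℂ E] (α γ : ℝ) (β l : ℂ)
    (u w : E) :
    α * ‖w + l • u‖ ^ 2 + 2 * (β * inner ℂ u (w + l • u)).re + γ * ‖u‖ ^ 2 =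
      α * ‖w‖ ^ 2 + 2 * ((α * conj l + β) * inner ℂ u w).re +
        (α * ‖l‖ ^ 2 + 2 * (β * l).re + γ) * ‖u‖ ^ 2 := by
  have h1 : ‖w + l • u‖ ^ 2 = ‖w‖ ^ 2 + 2 * (conj l * inner ℂ u w).re + ‖l‖ ^ 2 * ‖u‖ ^ 2 := by
    rw [add_comm w, @norm_add_sq ℂ, inner_smul_left, norm_smul, mul_pow]
    simp only [RCLike.re_to_complex]
    ring
  have h2 : inner ℂ u (w + l • u) = inner ℂ u w + l * ((‖u‖ ^ 2 : ℝ) : ℂ) := by
    rw [inner_add_right, inner_smul_right, inner_self_eq_norm_sq_to_K]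
    simp
  rw [h1, h2]
  generalize ‖u‖ ^ 2 = s
  generalize inner ℂ u w = p
  simp
  ring

theorem mob_disc {E : Type*} [NormedAddCommGroup E] [InnerProductSpace ℂ E] {α k r : ℝ} {b : ℂ}
    (hk : 0 < k) (hr : 0 < r) (hr2 : r ^ 2 * k ^ 2 = α * k + ‖b‖ ^ 2) {u w : E}
    (h : 0 ≤ α * ‖w‖ ^ 2 + 2 * (b * inner ℂ u w).re + -k * ‖u‖ ^ 2) :
    ‖u - (b / k) • w‖ ≤ r * ‖w‖ := by
  refine (pow_le_pow_iff_left₀ (norm_nonneg _) (by positivity) two_ne_zero).1 ?_
  have h1 : ‖u - (b / k) • w‖ ^ 2 =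
      ‖u‖ ^ 2 - 2 * ((b * inner ℂ u w).re / k) + ‖b‖ ^ 2 / k ^ 2 * ‖w‖ ^ 2 := by
    rw [@norm_sub_sq ℂ, inner_smul_right, norm_smul, mul_pow, norm_div, Complex.norm_real,
      Real.norm_of_nonneg hk.le, div_pow, div_mul_eq_mul_div, RCLike.re_to_complex,
      Complex.div_ofReal_re]
  have h2 : r ^ 2 = α / k + ‖b‖ ^ 2 / k ^ 2 := by
    field_simp
    linarith
  rw [h1, mul_pow, h2]
  have h3 : ‖u‖ ^ 2 - 2 * ((b * inner ℂ u w).re / k) ≤ α / k * ‖w‖ ^ 2 := by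
    rw [← sub_nonneg]
    have : α / k * ‖w‖ ^ 2 - (‖u‖ ^ 2 - 2 * ((b * inner ℂ u w).re / k)) =
        (α * ‖w‖ ^ 2 + 2 * (b * inner ℂ u w).re + -k * ‖u‖ ^ 2) / k := by
      field_simp
      ring
    rw [this]
    positivity
  linarith

theorem mob_alg {𝒜 : Type*} [Ring 𝒜] [Algebra ℂ 𝒜] [StarRing 𝒜] [StarModule ℂ 𝒜] {A R : 𝒜}
    (hAR : A * R = 1) {α γ k r : ℝ} {β l : ℂ} (hk : 0 < k) (hr : 0 < r)
    (hq : α * ‖l‖ ^ 2 + 2 * (β * l).re + γ = -k)
    (hr2 : r ^ 2 * k ^ 2 = α * k + ‖α * conj l + β‖ ^ 2) :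
    1 - star ((r : ℂ)⁻¹ • (R - ((α * conj l + β) / k) • 1)) *
        ((r : ℂ)⁻¹ • (R - ((α * conj l + β) / k) • 1)) =
      ((k : ℂ) * r ^ 2)⁻¹ • (star R * ((α : ℂ) • (star (A + l • 1) * (A + l • 1)) +
        β • (A + l • 1) + conj β • star (A + l • 1) + (γ : ℂ) • (1 : 𝒜)) * R) := by
  have h1 : star R * star A = 1 := by rw [← star_mul, hAR, star_one]
  have h2 : ∀ x : 𝒜, star R * (star A * x) = x := fun x => by rw [← mul_assoc, h1, one_mul]
  have hk' : (k : ℂ) ≠ 0 := by exact_mod_cast hk.ne'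
  have hr' : (r : ℂ) ≠ 0 := by exact_mod_cast hr.ne'
  have hq' : (α : ℂ) * (conj l * l) + (β * l + conj β * conj l) + γ = -k := by
    have h3 : β * l + conj β * conj l = ((2 * (β * l).re : ℝ) : ℂ) := by
      rw [← map_mul, Complex.add_conj]
    rw [h3, Complex.conj_mul']
    exact_mod_cast hq
  have hr2' : (r : ℂ) ^ 2 * k ^ 2 = α * k + (α * l + conj β) * (α * conj l + β) := by
    have h3 : (α : ℂ) * l + conj β = conj (α * conj l + β) := by simp
    rw [h3, Complex.conj_mul']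
    exact_mod_cast hr2
  simp only [star_smul, star_sub, star_add, star_one, mul_add, add_mul, mul_sub, sub_mul,
    smul_mul_assoc, mul_smul_comm, mul_assoc, hAR, h2, mul_one, one_mul, Complex.star_def,
    map_inv₀, Complex.conj_ofReal, map_div₀, map_add, map_mul, Complex.conj_conj]
  match_scalars
  · field_simp
    linear_combination hr2'
  · field_simp
    linear_combination (-1 : ℂ) * hq'
  · field_simp
  · field_simp

theorem mob (hH : 1 < Module.rank ℂ H) {T : H →L[ℂ] H} {α γ : ℝ} {β : ℂ} (hd : α * γ < ‖β‖ ^ 2)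
    (hK : IsCompactOperator ((α : ℂ) • (adjoint T * T) + β • T + conj β • adjoint T +
      (γ : ℂ) • (1 : H →L[ℂ] H) : H →L[ℂ] H))
    {H' : Type u} [NormedAddCommGroup H'] [InnerProductSpace ℂ H'] [CompleteSpace H']
    (G : H →L[ℂ] H') {c : ℝ} (hc : 0 < c) (hG : ∀ x, c * ‖x‖ ≤ ‖G x‖)
    (hT : ∀ x, 0 ≤ α * ‖G (T x)‖ ^ 2 + 2 * (β * inner ℂ (G x) (G (T x))).re + γ * ‖G x‖ ^ 2) :
    ∃ N : Submodule ℂ H, IsClosed (N : Set H) ∧ N ≠ ⊥ ∧ N ≠ ⊤ ∧ ∀ x ∈ N, T x ∈ N := by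
  obtain ⟨l, hl⟩ := mob_point hd
  obtain ⟨k, hq⟩ : ∃ k : ℝ, α * ‖l‖ ^ 2 + 2 * (β * l).re + γ = -k := ⟨_, (neg_neg _).symm⟩
  have hk : 0 < k := by linarith
  obtain ⟨A, rfl⟩ : ∃ A : H →L[ℂ] H, T = A + l • 1 := ⟨T - l • 1, by simp⟩
  set r : ℝ := √(‖β‖ ^ 2 - α * γ) / k with hrd
  have hr : 0 < r := div_pos (Real.sqrt_pos.2 (by linarith)) hk
  have hr2 : r ^ 2 * k ^ 2 = α * k + ‖α * conj l + β‖ ^ 2 := by
    rw [← mul_pow, hrd, div_mul_cancel₀ _ hk.ne', Real.sq_sqrt (by linarith), mob_normb]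
    have : k = -(α * ‖l‖ ^ 2 + 2 * (β * l).re + γ) := by linarith
    rw [this]
    ring
  have key : ∀ x, ‖G x - ((α * conj l + β) / k) • G (A x)‖ ≤ r * ‖G (A x)‖ := by
    intro x
    refine mob_disc hk hr hr2 ?_
    have h1 := hT x
    have h2 : G ((A + l • 1 : H →L[ℂ] H) x) = G (A x) + l • G x := by simp
    rwa [h2, mob_form, hq] at h1
  have low : ∀ x, ‖x‖ ≤ (r + ‖(α * conj l + β) / k‖) * ‖G‖ / c * ‖A x‖ := by
    intro x
    have h1 : ‖G x‖ ≤ (r + ‖(α * conj l + β) / k‖) * ‖G (A x)‖ := by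
      have h2 := norm_add_le (G x - ((α * conj l + β) / k) • G (A x))
        (((α * conj l + β) / k) • G (A x))
      rw [sub_add_cancel, norm_smul] at h2
      have := key x
      linarith
    have h3 : (r + ‖(α * conj l + β) / k‖) * ‖G (A x)‖ ≤
        (r + ‖(α * conj l + β) / k‖) * (‖G‖ * ‖A x‖) := by
      gcongr
      exact G.le_opNorm _
    rw [div_mul_eq_mul_div, le_div_iff₀ hc]
    have := hG x
    linarith
  have anti : AntilipschitzWith ⟨(r + ‖(α * conj l + β) / k‖) * ‖G‖ / c, by positivity⟩ A :=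
    A.antilipschitz_of_bound low
  by_cases hs : A.range = ⊤
  · have hker : A.ker = ⊥ := LinearMap.ker_eq_bot.2 anti.injective
    let e := ContinuousLinearEquiv.ofBijective A hker hs
    set R : H →L[ℂ] H := e.symm.toContinuousLinearMap with hR
    have hAR : A * R = 1 := by
      ext x
      exact e.apply_symm_apply x
    have hRA : R * A = 1 := by
      ext x
      exact e.symm_apply_apply x
    have hAR' : ∀ x, A (R x) = x := fun x => congrArg (fun S : H →L[ℂ] H => S x) hAR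
    have hRA' : ∀ x, R (A x) = x := fun x => congrArg (fun S : H →L[ℂ] H => S x) hRA
    have hr' : (r : ℂ) ≠ 0 := by exact_mod_cast hr.ne'
    obtain ⟨N, h1, h2, h3, -, h5⟩ := red2 hH
      (T := (r : ℂ)⁻¹ • (R - ((α * conj l + β) / k) • 1)) (by
        rw [← star_eq_adjoint, mob_alg hAR hk hr hq hr2]
        rw [← star_eq_adjoint] at hK
        exact ((hK.comp_clm R).clm_comp (star R)).smul _) G hc hG (by
        intro y
        have h6 := key (R y)
        rw [hAR'] at h6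
        have h7 : G (((r : ℂ)⁻¹ • (R - ((α * conj l + β) / k) • 1) : H →L[ℂ] H) y) =
            (r : ℂ)⁻¹ • (G (R y) - ((α * conj l + β) / k) • G y) := by simp
        rw [h7, norm_smul, norm_inv, Complex.norm_real, Real.norm_of_nonneg hr.le,
          inv_mul_le_iff₀ hr]
        exact h6)
    refine ⟨N, h1, h2, h3, fun x hx => ?_⟩
    have h8 : ((r : ℂ)⁻¹ • (R - ((α * conj l + β) / k) • 1) : H →L[ℂ] H) -
        (-((r : ℂ)⁻¹ * ((α * conj l + β) / k))) • 1 = (r : ℂ)⁻¹ • R := by module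
    have h9 : A x ∈ N := by
      refine h5 (-((r : ℂ)⁻¹ * ((α * conj l + β) / k))) ?_ _ ?_
      · rw [h8]
        refine ⟨⟨_, (r : ℂ) • A, ?_, ?_⟩, rfl⟩
        · rw [smul_mul_smul_comm, hRA, inv_mul_cancel₀ hr', one_smul]
        · rw [smul_mul_smul_comm, hAR, mul_inv_cancel₀ hr', one_smul]
      · have h10 : ((r : ℂ)⁻¹ • (R - ((α * conj l + β) / k) • 1) : H →L[ℂ] H) (A x) -
            (-((r : ℂ)⁻¹ * ((α * conj l + β) / k))) • A x = (r : ℂ)⁻¹ • x := by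
          have h11 := congrArg (fun S : H →L[ℂ] H => S (A x)) h8
          have h12 : ((r : ℂ)⁻¹ • R) (A x) = (r : ℂ)⁻¹ • x := by
            rw [ContinuousLinearMap.smul_apply, hRA']
          exact h11.trans h12
        rw [h10]
        exact N.smul_mem _ hx
    exact N.add_mem h9 (N.smul_mem l hx)
  · refine ⟨A.range, anti.isClosed_range A.uniformContinuous, ?_, hs, ?_⟩
    · intro h0
      have : Nontrivial H := rank_pos_iff_nontrivial.1 (zero_lt_one.trans hH)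
      obtain ⟨x, hx⟩ := exists_ne (0 : H)
      have h1 : A x ∈ A.range := ⟨x, rfl⟩
      rw [h0, Submodule.mem_bot] at h1
      exact hx (anti.injective (h1.trans (map_zero A).symm))
    · rintro _ ⟨x, rfl⟩
      exact ⟨A x + l • x, by simp⟩

end Pool.Agent.P.MP_f981b0_an.CD
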