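import Pool.Agent.P.MP_f981b0_an.PB.Main
import Pool.Agent.P.MP_49c4d9_an.PBR.A

set_option autoImplicit false

open scoped InnerProductSpace ComplexConjugate
open Filter Topology

noncomputable section

namespace Pool.Agent.P.MP_f981b0_an.CD.P0

variable {H : Type*} [NormedAddCommGroup H] [InnerProductSpace ℂ H] [CompleteSpace H]

/-- Fredholm alternative for the identity minus a compact operator. -/
theorem isUnit_one_sub {K : H →L[ℂ] H} (hK : IsCompactOperator K)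
    (hinj : ∀ x, (1 - K) x = 0 → x = 0) : IsUnit (1 - K) := by
  rcases hK.hasEigenvalue_or_mem_resolventSet (μ := 1) one_ne_zero with h | h
  · obtain ⟨v, hv⟩ := h.exists_hasEigenvector
    have h1 : K v = v := by simpa using hv.apply_eq_smul
    exact absurd (hinj v (by simp [h1])) hv.2
  · simpa using spectrum.mem_resolventSet_iff.1 h

theorem isUnit_of_left {A B : H →L[ℂ] H} (h : IsUnit (B * A))
    (hd : ∀ y, star A y = 0 → y = 0) : IsUnit A := by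
  obtain ⟨u, hu⟩ := h
  have h1 : ((u⁻¹ : (H →L[ℂ] H)ˣ) : H →L[ℂ] H) * B * A = 1 := by
    rw [mul_assoc, ← hu, Units.inv_mul]
  refine ⟨⟨A, ((u⁻¹ : (H →L[ℂ] H)ˣ) : H →L[ℂ] H) * B, ?_, h1⟩, rfl⟩
  set L := ((u⁻¹ : (H →L[ℂ] H)ˣ) : H →L[ℂ] H) * B with hL
  have h2 : star A * star (A * L - 1) = 0 := by
    rw [← star_mul, sub_mul, mul_assoc, h1, mul_one, one_mul, sub_self, star_zero]
  have h3 : star (A * L - 1) = 0 := ContinuousLinearMap.ext fun y =>
    hd _ (congrArg (fun C : H →L[ℂ] H => C y) h2)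
  exact sub_eq_zero.1 (star_eq_zero.1 h3)

theorem isUnit_one_sub_smul {A : H →L[ℂ] H} {M : ℝ} (hM : ∀ n : ℕ, ‖A ^ n‖ ≤ M) {z : ℂ}
    (hz : ‖z‖ < 1) : IsUnit (1 - z • A) := by
  have hs : Summable fun n : ℕ => (z • A) ^ n := by
    refine Summable.of_norm_bounded
      ((summable_geometric_of_lt_one (norm_nonneg z) hz).mul_right M) fun n => ?_
    rw [smul_pow, norm_smul, norm_pow]
    exact mul_le_mul_of_nonneg_left (hM n) (by positivity)
  exact ⟨⟨_, _, hs.one_sub_mul_tsum_pow, hs.tsum_pow_mul_one_sub⟩, rfl⟩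

theorem inner_star_mul (T : H →L[ℂ] H) (x : H) : ⟪x, (star T * T) x⟫_ℂ = ⟪T x, T x⟫_ℂ := by
  rw [mul_apply_eq_comp, ContinuousLinearMap.star_eq_adjoint,
    ContinuousLinearMap.adjoint_inner_right]

/-- An injective operator with dense range and compact defect is invertible. -/
theorem isUnit_of_defect {T : H →L[ℂ] H}
    (hK : IsCompactOperator ((1 - star T * T : H →L[ℂ] H) : H → H))
    (h1 : ∀ x, T x = 0 → x = 0) (h2 : ∀ y, star T y = 0 → y = 0) : IsUnit T := by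
  have h3 := isUnit_one_sub hK fun x hx => h1 x (by
    rw [sub_sub_cancel] at hx
    rw [← inner_self_eq_zero (𝕜 := ℂ), ← inner_star_mul, hx, inner_zero_right])
  rw [sub_sub_cancel] at h3
  exact isUnit_of_left h3 h2

/-- No point spectrum in the disc, for the operator and its adjoint, leaves no spectrum there. -/
theorem isUnit_sub {T : H →L[ℂ] H} {M : ℝ} (hM : ∀ n : ℕ, ‖T ^ n‖ ≤ M)
    (hK : IsCompactOperator ((1 - star T * T : H →L[ℂ] H) : H → H))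
    (h0 : ∀ y, star T y = 0 → y = 0) {z : ℂ} (hz : ‖z‖ < 1)
    (h1 : ∀ x, (T - z • 1 : H →L[ℂ] H) x = 0 → x = 0)
    (h2 : ∀ y, star (T - z • 1 : H →L[ℂ] H) y = 0 → y = 0) : IsUnit (T - z • 1 : H →L[ℂ] H) := by
  obtain ⟨u, hu⟩ := isUnit_one_sub_smul (A := star T) (M := M)
    (fun n => by rw [← star_pow, norm_star]; exact hM n) hz
  have h3 : star T * (T - z • 1) =
      u * (1 - ((u⁻¹ : (H →L[ℂ] H)ˣ) : H →L[ℂ] H) * (1 - star T * T)) := by
    rw [mul_sub (u : H →L[ℂ] H), ← mul_assoc, Units.mul_inv, hu, mul_sub, mul_smul_comm]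
    noncomm_ring
  have h4 := isUnit_one_sub (K := ((u⁻¹ : (H →L[ℂ] H)ˣ) : H →L[ℂ] H) * (1 - star T * T))
    (hK.clm_comp ((u⁻¹ : (H →L[ℂ] H)ˣ) : H →L[ℂ] H)) fun x hx => h1 x (h0 _ (by
      rw [← mul_apply_eq_comp, h3, mul_apply_eq_comp, hx, map_zero]))
  exact isUnit_of_left (h3 ▸ u.isUnit.mul h4) h2

/-- The only closed invariant subspaces are the trivial ones. -/
def Trans (T : H →L[ℂ] H) : Prop :=
  ∀ V : Submodule ℂ H, IsClosed (V : Set H) → (∀ x ∈ V, T x ∈ V) → V = ⊥ ∨ V = ⊤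

omit [CompleteSpace H] in
theorem Trans.ne_smul (hH : 1 < Module.rank ℂ H) {T : H →L[ℂ] H} (h : Trans T) (c : ℂ) :
    T ≠ c • 1 := by
  rintro rfl
  have : Nontrivial H := rank_pos_iff_nontrivial.1 (zero_lt_one.trans hH)
  obtain ⟨x, hx⟩ := exists_ne (0 : H)
  rcases h (ℂ ∙ x) (Submodule.closed_of_finiteDimensional _)
    (fun y hy => Submodule.smul_mem _ c hy) with h1 | h1
  · exact hx (Submodule.span_singleton_eq_bot.1 h1)
  · have h2 : Module.rank ℂ (ℂ ∙ x) ≤ 1 := by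
      simpa using rank_span_le (R := ℂ) ({x} : Set H)
    rw [h1, rank_top] at h2
    exact absurd hH (not_lt.2 h2)

theorem Trans.star {T : H →L[ℂ] H} (h : Trans T) : Trans (star T) := fun V hV hi => by
  have := hV.completeSpace_coe
  rcases h Vᗮ V.isClosed_orthogonal (MP_49c4d9_an.PBR.orth_inv hi) with h1 | h1
  · exact Or.inr (Submodule.orthogonal_eq_bot_iff.1 h1)
  · exact Or.inl (V.orthogonal_eq_top_iff.1 h1)

omit [CompleteSpace H] in
theorem Trans.inj (hH : 1 < Module.rank ℂ H) {T : H →L[ℂ] H} (h : Trans T) (c : ℂ) (x : H)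
    (hx : (T - c • 1 : H →L[ℂ] H) x = 0) : x = 0 := by
  rcases h (T - c • 1 : H →L[ℂ] H).ker (ContinuousLinearMap.isClosed_ker _) (fun y hy => by
    have h1 : T y - c • y = 0 := hy
    change T (T y) - c • T y = 0
    rw [← map_smul, ← map_sub, h1, map_zero]) with h1 | h1
  · exact (Submodule.eq_bot_iff _).1 h1 x hx
  · exact absurd (sub_eq_zero.1 (ContinuousLinearMap.ext fun y =>
      (Submodule.eq_top_iff'.1 h1 y :))) (h.ne_smul hH c)

theorem Trans.isUnit_sub (hH : 1 < Module.rank ℂ H) {T : H →L[ℂ] H} (h : Trans T) {M : ℝ}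
    (hM : ∀ n : ℕ, ‖T ^ n‖ ≤ M) (hK : IsCompactOperator ((1 - Star.star T * T : H →L[ℂ] H) : H → H))
    {z : ℂ} (hz : ‖z‖ < 1) : IsUnit (T - z • 1 : H →L[ℂ] H) := by
  refine P0.isUnit_sub hM hK (fun y hy => h.star.inj hH 0 y (by simpa using hy)) hz (h.inj hH z)
    fun y hy => h.star.inj hH (conj z) y ?_
  rwa [star_sub, star_smul, star_one] at hy

theorem Trans.tendsto_pow (hH : 1 < Module.rank ℂ H) {T : H →L[ℂ] H} (h : Trans T) {M : ℝ}
    (hM : ∀ n : ℕ, ‖T ^ n‖ ≤ M) (x : H) : Tendsto (fun n : ℕ => (T ^ n) x) atTop (𝓝 0) := by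
  by_contra hx
  obtain ⟨V, h1, h2, h3, h4⟩ :=
    PB.hyp_of_orbit MP_49c4d9_an.PBR.refl_hilbert hM hx (h.ne_smul hH)
  exact (h V h1 (h4 T rfl)).elim h2 h3

theorem Trans.tendsto_star_pow (hH : 1 < Module.rank ℂ H) {T : H →L[ℂ] H} (h : Trans T) {M : ℝ}
    (hM : ∀ n : ℕ, ‖T ^ n‖ ≤ M) (x : H) :
    Tendsto (fun n : ℕ => (Star.star T ^ n) x) atTop (𝓝 0) :=
  h.star.tendsto_pow hH (M := M) (fun n => by rw [← star_pow, norm_star]; exact hM n) x

/-- No spectrum in the open disc: the negative powers grow subexponentially. -/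
theorem growth {T : (H →L[ℂ] H)ˣ}
    (hT : ∀ z : ℂ, ‖z‖ < 1 → IsUnit ((T : H →L[ℂ] H) - z • 1)) {r : ℝ} (hr : 1 < r) :
    ∃ C : ℝ, ∀ n : ℕ, ‖((T⁻¹ : (H →L[ℂ] H)ˣ) : H →L[ℂ] H) ^ n‖ ≤ C * r ^ n := by
  set A := ((T⁻¹ : (H →L[ℂ] H)ˣ) : H →L[ℂ] H) with hA
  have h1 : spectralRadius ℂ A ≤ 1 := by
    refine iSup₂_le fun k hk => ?_
    by_contra hcon
    have hk1 : 1 < ‖k‖ := by exact_mod_cast not_le.1 hcon
    have hk0 : k ≠ 0 := norm_pos_iff.1 (zero_lt_one.trans hk1)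
    rw [hA, ← spectrum.map_inv, Set.mem_inv, spectrum.mem_iff] at hk
    refine hk ?_
    rw [← IsUnit.neg_iff, neg_sub, Algebra.algebraMap_eq_smul_one]
    exact hT _ (by rw [norm_inv]; exact inv_lt_one_of_one_lt₀ hk1)
  have h2 : spectralRadius ℂ A < ENNReal.ofReal r :=
    h1.trans_lt (ENNReal.one_lt_ofReal.2 hr)
  have h3 := (spectrum.pow_norm_pow_one_div_tendsto_nhds_spectralRadius A).eventually
    (gt_mem_nhds h2)
  obtain ⟨N, hN⟩ := eventually_atTop.1 h3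
  have hr0 : 0 < r := zero_lt_one.trans hr
  refine ⟨1 + ∑ n ∈ Finset.range (N + 1), ‖A ^ n‖, fun n => ?_⟩
  have hs : 0 ≤ ∑ n ∈ Finset.range (N + 1), ‖A ^ n‖ := Finset.sum_nonneg fun _ _ => norm_nonneg _
  have hrn : 1 ≤ r ^ n := one_le_pow₀ hr.le
  rcases le_or_gt n N with hn | hn
  · have h4 := Finset.single_le_sum (f := fun n => ‖A ^ n‖) (fun _ _ => norm_nonneg _)
      (Finset.mem_range.2 (Nat.lt_succ_of_le hn))
    nlinarith
  · have h4 := (ENNReal.ofReal_lt_ofReal_iff hr0).1 (hN n hn.le)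
    have hn0 : n ≠ 0 := by omega
    have h5 := pow_le_pow_left₀ (by positivity) h4.le n
    rw [one_div, Real.rpow_inv_natCast_pow (norm_nonneg _) hn0] at h5
    nlinarith

/-- Backward orbits are unbounded when the adjoint powers tend to zero. -/
theorem unbounded {T : (H →L[ℂ] H)ˣ}
    (hT : ∀ y, Tendsto (fun n : ℕ => (star (T : H →L[ℂ] H) ^ n) y) atTop (𝓝 0)) {x : H}
    (hx : x ≠ 0) (R : ℝ) : ∃ n : ℕ, R < ‖(((T⁻¹ : (H →L[ℂ] H)ˣ) : H →L[ℂ] H) ^ n) x‖ := by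
  by_contra hcon
  push Not at hcon
  have h1 : ∀ n : ℕ, ‖⟪x, x⟫_ℂ‖ ≤ ‖(star (T : H →L[ℂ] H) ^ n) x‖ * R := fun n => by
    have h2 : ((T : H →L[ℂ] H) ^ n) ((((T⁻¹ : (H →L[ℂ] H)ˣ) : H →L[ℂ] H) ^ n) x) = x := by
      rw [← mul_apply_eq_comp, ← Units.val_pow_eq_pow_val, ← Units.val_pow_eq_pow_val,
        ← Units.val_mul, inv_pow, mul_inv_cancel]
      rfl
    calc ‖⟪x, x⟫_ℂ‖ = ‖⟪(star (T : H →L[ℂ] H) ^ n) x,
          (((T⁻¹ : (H →L[ℂ] H)ˣ) : H →L[ℂ] H) ^ n) x⟫_ℂ‖ := by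
          rw [← star_pow, ContinuousLinearMap.star_eq_adjoint,
            ContinuousLinearMap.adjoint_inner_left, h2]
      _ ≤ _ := (norm_inner_le_norm _ _).trans
          (mul_le_mul_of_nonneg_left (hcon n) (norm_nonneg _))
  have h3 : Tendsto (fun n : ℕ => ‖(star (T : H →L[ℂ] H) ^ n) x‖ * R) atTop (𝓝 0) := by
    simpa using (hT x).norm.mul_const R
  have h4 := ge_of_tendsto' h3 h1
  exact hx (inner_self_eq_zero.1 (norm_le_zero_iff.1 h4))

end Pool.Agent.P.MP_f981b0_an.CD.P0
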