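import Pool.Agent.P.MP_f981b0_an.CD.P1b

set_option autoImplicit false

open scoped InnerProductSpace ComplexConjugate
open Filter Topology

noncomputable section

namespace Pool.Agent.P.MP_f981b0_an.CD.P1

variable {H : Type*} [NormedAddCommGroup H] [InnerProductSpace ℂ H] [CompleteSpace H]

omit [CompleteSpace H] in
theorem zpow_mem {S : (H →L[ℂ] H)ˣ} {M : Submodule ℂ H} [FiniteDimensional ℂ M]
    (hM : ∀ x ∈ M, (S : H →L[ℂ] H) x ∈ M) (n : ℤ) :
    ∀ x ∈ M, ((S ^ n : (H →L[ℂ] H)ˣ) : H →L[ℂ] H) x ∈ M := by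
  have hli : ∀ x, ((S⁻¹ : (H →L[ℂ] H)ˣ) : H →L[ℂ] H) ((S : H →L[ℂ] H) x) = x := fun x => by
    rw [← mul_apply_eq_comp, Units.inv_mul]; rfl
  have hinv : ∀ x ∈ M, ((S⁻¹ : (H →L[ℂ] H)ˣ) : H →L[ℂ] H) x ∈ M := fun x hx => by
    let f : M →ₗ[ℂ] M := ((S : H →L[ℂ] H) : H →ₗ[ℂ] H).restrict hM
    have hf : Function.Injective f := fun a b h => by
      have h1 : (S : H →L[ℂ] H) a = (S : H →L[ℂ] H) b := congrArg Subtype.val h
      exact Subtype.ext (by rw [← hli a, h1, hli])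
    obtain ⟨y, hy⟩ := LinearMap.injective_iff_surjective.1 hf ⟨x, hx⟩
    have h1 : (S : H →L[ℂ] H) y = x := congrArg Subtype.val hy
    rw [← h1, hli]
    exact y.2
  have hpow : ∀ (A : H →L[ℂ] H), (∀ x ∈ M, A x ∈ M) → ∀ k : ℕ, ∀ x ∈ M, (A ^ k) x ∈ M :=
    fun A hA k => by
      induction k with
      | zero => exact fun x hx => hx
      | succ k ih => exact fun x hx => by rw [pow_succ]; exact ih _ (hA x hx)
  cases n with
  | ofNat n => simpa using hpow _ hM n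
  | negSucc n =>
    simpa only [zpow_negSucc, ← inv_pow, Units.val_pow_eq_pow_val] using hpow _ hinv (n + 1)

omit [CompleteSpace H] in
theorem str_of_eq {ι : Type*} {F : Filter ι} {A : ι → H →L[ℂ] H} {T : H →L[ℂ] H}
    (h : ∀ x, ∀ᶠ i in F, A i x = T x) (x : H) : Tendsto (fun i => A i x) F (𝓝 (T x)) :=
  tendsto_const_nhds.congr' ((h x).mono fun _ hi => hi.symm)

/-- The finite sections. -/
theorem exists_section (W K : H →L[ℂ] H) (hW : W ∈ unitary (H →L[ℂ] H)) {m : ℝ} (hm : 0 < m)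
    (hm1 : m ≤ 1) (hK : ∀ x, m * ‖x‖ ^ 2 ≤ (⟪(1 + K) x, x⟫_ℂ).re) {e : Fin 2 → H}
    (he : Orthonormal ℂ e) (F : Finset H) :
    ∃ (G M : Submodule ℂ H) (_ : FiniteDimensional ℂ G) (_ : FiniteDimensional ℂ M)
      (S V : (H →L[ℂ] H)ˣ), (V : H →L[ℂ] H) ∈ unitary (H →L[ℂ] H) ∧
      (∀ x ∈ F, x ∈ G ∧ (V : H →L[ℂ] H) x = W x) ∧
      (S : H →L[ℂ] H) = V * (1 + G.starProjection * K * G.starProjection) ∧
      ‖((S⁻¹ : (H →L[ℂ] H)ˣ) : H →L[ℂ] H)‖ ≤ m⁻¹ ∧ (∀ x ∈ M, (S : H →L[ℂ] H) x ∈ M) ∧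
      1 / 2 ≤ ∑ j, ‖M.starProjection (e j)‖ ^ 2 ∧ ∑ j, ‖M.starProjection (e j)‖ ^ 2 ≤ 3 / 2 := by
  have hfin : ((F : Set H) ∪ Set.range e).Finite := F.finite_toSet.union (Set.finite_range e)
  have := FiniteDimensional.span_of_finite ℂ hfin
  obtain ⟨G, hG, hEG, W', hW', hWE, hWG⟩ :=
    exists_unitary_ext W hW (Submodule.span ℂ ((F : Set H) ∪ Set.range e))
  set Q := G.starProjection with hQ
  set B : H →L[ℂ] H := 1 + Q * K * Q with hB
  have hco : ∀ x, m * ‖x‖ ^ 2 ≤ (⟪B x, x⟫_ℂ).re := fun x => by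
    have h1 := hK (Q x)
    have h2 : ‖Q x‖ ≤ ‖x‖ := G.norm_starProjection_apply_le x
    have h3 := pow_le_pow_left₀ (norm_nonneg _) h2 2
    have h4 : ∀ y : H, (⟪y, y⟫_ℂ).re = ‖y‖ ^ 2 := fun y => inner_self_eq_norm_sq (𝕜 := ℂ) y
    have h5 : ⟪Q (K (Q x)), x⟫_ℂ = ⟪K (Q x), Q x⟫_ℂ := G.inner_starProjection_left_eq_right _ _
    simp only [hB, add_apply, one_apply_eq_self, mul_apply_eq_comp, inner_add_left, Complex.add_re,
      h4, h5] at h1 ⊢
    nlinarith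
  have hlow : ∀ x, m * ‖x‖ ≤ ‖B x‖ := fun x => by
    rcases (norm_nonneg x).eq_or_lt with h | h
    · rw [← h, mul_zero]; exact norm_nonneg _
    · have h1 := (hco x).trans ((Complex.re_le_norm _).trans (norm_inner_le_norm _ _))
      nlinarith
  obtain ⟨b, hb⟩ : IsUnit B :=
    ContinuousLinearMap.isUnit_of_forall_le_norm_inner_map _ (c := ⟨m, hm.le⟩) hm fun x => by
      rw [mul_comm]; exact (hco x).trans (Complex.re_le_norm _)
  let V : (H →L[ℂ] H)ˣ := Unitary.toUnits ⟨W', hW'⟩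
  have hV : (V : H →L[ℂ] H) = W' := rfl
  have hS : ((V * b : (H →L[ℂ] H)ˣ) : H →L[ℂ] H) = W' * B := by rw [Units.val_mul, hV, hb]
  have hSG : ∀ x ∈ G, ((V * b : (H →L[ℂ] H)ˣ) : H →L[ℂ] H) x ∈ G := fun x hx => by
    rw [hS]
    exact hWG _ (G.add_mem hx (G.starProjection_apply_mem _))
  obtain ⟨M, hM, hMi, h1, h2⟩ := exists_mid _ G hSG he fun j =>
    hEG (Submodule.subset_span (Or.inr ⟨j, rfl⟩))
  refine ⟨G, M, hG, hM, V * b, V, hW', fun x hx => ?_, hS, ?_, hMi, h1, h2⟩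
  · have h3 : x ∈ Submodule.span ℂ ((F : Set H) ∪ Set.range e) := Submodule.subset_span (Or.inl hx)
    exact ⟨hEG h3, hWE x h3⟩
  · refine ContinuousLinearMap.opNorm_le_bound _ (by positivity) fun x => ?_
    set y := (((V * b)⁻¹ : (H →L[ℂ] H)ˣ) : H →L[ℂ] H) x with hy
    have h3 : ((V * b : (H →L[ℂ] H)ˣ) : H →L[ℂ] H) y = x := by
      rw [hy, ← mul_apply_eq_comp, Units.mul_inv]; rfl
    have h4 : ‖x‖ = ‖B y‖ := by
      rw [← h3, hS, mul_apply_eq_comp, ContinuousLinearMap.norm_map_of_mem_unitary hW']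
    rw [h4, inv_mul_eq_div, le_div_iff₀ hm, mul_comm]
    exact hlow y

omit [CompleteSpace H] in
theorem wlim_ne_zero {ι : Type*} {U : Ultrafilter ι} {a : ι → H} {e x : H}
    (hx : Tendsto (fun i => ⟪e, a i⟫_ℂ) U (𝓝 ⟪e, x⟫_ℂ))
    (ha : ∀ᶠ i in U, 1 / 4 ≤ (⟪e, a i⟫_ℂ).re) : x ≠ 0 := by
  rintro rfl
  have h1 := ge_of_tendsto ((Complex.continuous_re.tendsto _).comp hx) ha
  norm_num at h1

/-- Two nonzero vectors whose functional is continuous for the supremum norm on the circle. -/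
theorem exists_pair (T : (H →L[ℂ] H)ˣ)
    (hT : Kill (1 - star (T : H →L[ℂ] H) * (T : H →L[ℂ] H)))
    {e : Fin 2 → H} (he : Orthonormal ℂ e) :
    ∃ x y : H, x ≠ 0 ∧ y ≠ 0 ∧ ∀ (s : Finset ℤ) (a : ℤ → ℂ) (B : ℝ),
      (∀ z : ℂ, ‖z‖ = 1 → ‖∑ n ∈ s, a n * z ^ n‖ ≤ B) →
      ‖⟪y, (∑ n ∈ s, a n • ((T ^ n : (H →L[ℂ] H)ˣ) : H →L[ℂ] H)) x⟫_ℂ‖ ≤ 4 * B := by
  obtain ⟨W, hW, K, hK, hTW, m₀, hm₀, hco₀⟩ := exists_polar _ T.isUnit hT
  set m := min m₀ 1 with hm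
  have hm0 : 0 < m := lt_min hm₀ one_pos
  have hco : ∀ x, m * ‖x‖ ^ 2 ≤ (⟪(1 + K) x, x⟫_ℂ).re := fun x =>
    (mul_le_mul_of_nonneg_right (min_le_left _ _) (sq_nonneg _)).trans (hco₀ x)
  choose G M hG hM S V hV hF hS hSi hMi h1 h2 using
    exists_section W K hW hm0 (min_le_right _ _) hco he
  let U : Ultrafilter (Finset H) := Ultrafilter.of atTop
  have hU : (U : Filter (Finset H)) ≤ atTop := Ultrafilter.of_le _
  have hev : ∀ x, ∀ᶠ F : Finset H in U, x ∈ F := fun x =>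
    hU ((eventually_ge_atTop {x}).mono fun F hF => Finset.singleton_subset_iff.1 hF)
  have hQ1 : ∀ F, ‖(G F).starProjection‖ ≤ 1 := fun F => (G F).starProjection_norm_le
  have hQ : ∀ x, Tendsto (fun F => (G F).starProjection x) U (𝓝 ((1 : H →L[ℂ] H) x)) :=
    str_of_eq fun x => (hev x).mono fun F hx => Submodule.starProjection_eq_self_iff.2 (hF F x hx).1
  have hQs : ∀ F, star (G F).starProjection = (G F).starProjection := fun F =>
    (isSelfAdjoint_starProjection (G F)).star_eq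
  have hV1 : ∀ F, ‖(V F : H →L[ℂ] H)‖ ≤ 1 := fun F =>
    ContinuousLinearMap.opNorm_le_bound _ zero_le_one fun x => by
      rw [ContinuousLinearMap.norm_map_of_mem_unitary (hV F), one_mul]
  have hVi : ∀ F, (((V F)⁻¹ : (H →L[ℂ] H)ˣ) : H →L[ℂ] H) = star (V F : H →L[ℂ] H) := fun F =>
    Units.inv_eq_of_mul_eq_one_left (hV F).1
  have hVs : ∀ x, Tendsto (fun F => (V F : H →L[ℂ] H) x) U (𝓝 (W x)) :=
    str_of_eq fun x => (hev x).mono fun F hx => (hF F x hx).2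
  have hVa : ∀ x, Tendsto (fun F => star (V F : H →L[ℂ] H) x) U (𝓝 (star W x)) :=
    str_of_eq fun x => (hev (star W x)).mono fun F hx => by
      have h3 : (V F : H →L[ℂ] H) (star W x) = x := by
        rw [(hF F _ hx).2, ← mul_apply_eq_comp, hW.2]; rfl
      calc star (V F : H →L[ℂ] H) x = star (V F : H →L[ℂ] H) ((V F : H →L[ℂ] H) (star W x)) := by
            rw [h3]
        _ = star W x := by rw [← mul_apply_eq_comp, (hV F).1]; rfl
  have hQKQ : ∀ K : H →L[ℂ] H, ∀ x, Tendsto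
      (fun F => (1 + (G F).starProjection * K * (G F).starProjection : H →L[ℂ] H) x) U
      (𝓝 ((1 + K) x)) := fun K x =>
    tendsto_const_nhds.add (tendsto_str_apply hQ1 hQ ((K.continuous.tendsto _).comp (hQ x)))
  have hg1 : Good U (fun F => (V F : H →L[ℂ] H)) (fun F => (V F : H →L[ℂ] H)) W :=
    ⟨⟨1, hV1⟩, ⟨1, hV1⟩, hVs, hVa, fun r _ => by simp⟩
  have hg2 : Good U (fun F => 1 + (G F).starProjection * K * (G F).starProjection)
      (fun _ => 1) (1 + K) := by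
    refine ⟨⟨‖(1 : H →L[ℂ] H)‖ + 1 * ‖K‖ * 1, fun F => (norm_add_le _ _).trans ?_⟩,
      ⟨_, fun _ => le_rfl⟩, hQKQ K, fun x => ?_, fun r hr => ?_⟩
    · refine add_le_add le_rfl ((norm_mul_le _ _).trans (mul_le_mul ((norm_mul_le _ _).trans
        (mul_le_mul_of_nonneg_right (hQ1 F) (norm_nonneg _))) (hQ1 F) (norm_nonneg _) ?_))
      positivity
    · simp only [star_add, star_one, star_mul, hQs, ← mul_assoc]
      exact hQKQ (star K) x
    · have h3 : WN U fun F => (G F).starProjection (r F) :=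
        wn_apply hQ1 (fun x => by simp only [hQs]; exact hQ x) hr
      simpa using tendsto_bdd_apply hQ1 (hK U _ h3)
  have hg : Good U (fun F => (S F : H →L[ℂ] H)) (fun F => (V F : H →L[ℂ] H)) (T : H →L[ℂ] H) := by
    have h3 := hg1.mul hg2
    simp only [mul_one, ← hS, ← hTW] at h3
    exact h3
  have hgz := hg.zpow hSi (N := 1) fun F => by rw [hVi, norm_star]; exact hV1 F
  have hre : ∀ (N : Submodule ℂ H) [N.HasOrthogonalProjection] (v : H),
      (⟪v, N.starProjection v⟫_ℂ).re = ‖N.starProjection v‖ ^ 2 := fun N _ v => by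
    have h3 := N.starProjection_inner_eq_zero v _ (N.starProjection_apply_mem v)
    rw [inner_sub_left, sub_eq_zero] at h3
    rw [h3]
    exact inner_self_eq_norm_sq (𝕜 := ℂ) _
  obtain ⟨j, hj⟩ : ∃ j, ∀ᶠ F in U, 1 / 4 ≤ (⟪e j, (M F).starProjection (e j)⟫_ℂ).re := by
    rw [← Ultrafilter.eventually_exists_iff]
    refine Eventually.of_forall fun F => ?_
    by_contra hcon
    push Not at hcon
    have h3 := h1 F
    have h4 := hcon 0
    have h5 := hcon 1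
    rw [hre] at h4 h5
    rw [Fin.sum_univ_two] at h3
    linarith
  obtain ⟨k, hk⟩ : ∃ k, ∀ᶠ F in U, 1 / 4 ≤ (⟪e k, (M F)ᗮ.starProjection (e k)⟫_ℂ).re := by
    rw [← Ultrafilter.eventually_exists_iff]
    refine Eventually.of_forall fun F => ?_
    by_contra hcon
    push Not at hcon
    have h3 := h2 F
    have h4 := hcon 0
    have h5 := hcon 1
    rw [hre] at h4 h5
    rw [Fin.sum_univ_two] at h3
    have h6 := Submodule.norm_sq_eq_add_norm_sq_starProjection (e 0) (M F)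
    have h7 := Submodule.norm_sq_eq_add_norm_sq_starProjection (e 1) (M F)
    rw [he.norm_eq_one] at h6 h7
    linarith
  have hb1 : ∀ F, ‖(M F).starProjection (e j)‖ ≤ 1 := fun F =>
    ((M F).norm_starProjection_apply_le _).trans (he.norm_eq_one j).le
  have hb2 : ∀ F, ‖(M F)ᗮ.starProjection (e k)‖ ≤ 1 := fun F =>
    ((M F)ᗮ.norm_starProjection_apply_le _).trans (he.norm_eq_one k).le
  obtain ⟨x, hx1, hx⟩ := exists_wlim U _ hb1
  obtain ⟨y, hy1, hy⟩ := exists_wlim U _ hb2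
  refine ⟨x, y, wlim_ne_zero (hx _) hj, wlim_ne_zero (hy _) hk, fun s a B hB => ?_⟩
  set r : Finset H → H := fun F => (M F).starProjection (e j) - x with hr
  set q : Finset H → H := fun F => (M F)ᗮ.starProjection (e k) - y with hq
  have hr2 : ∀ F, ‖r F‖ ≤ 2 := fun F => (norm_sub_le _ _).trans (by linarith [hb1 F])
  have hq2 : ∀ F, ‖q F‖ ≤ 2 := fun F => (norm_sub_le _ _).trans (by linarith [hb2 F])
  have hrw : WN U r := ⟨⟨2, hr2⟩, fun h => by
    simpa only [hr, inner_sub_right] using tendsto_sub_nhds_zero_iff.2 (hx h)⟩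
  have hqw : WN U q := ⟨⟨2, hq2⟩, fun h => by
    simpa only [hq, inner_sub_right] using tendsto_sub_nhds_zero_iff.2 (hy h)⟩
  have hkey : ∀ n : ℤ, Tendsto
      (fun F => ⟪q F, (((V F) ^ n : (H →L[ℂ] H)ˣ) : H →L[ℂ] H) (r F)⟫_ℂ) U
      (𝓝 (-⟪y, ((T ^ n : (H →L[ℂ] H)ˣ) : H →L[ℂ] H) x⟫_ℂ)) := fun n =>
    (hgz n).key hrw hqw fun F => by
      simp only [hr, hq, add_sub_cancel]
      exact Submodule.inner_left_of_mem_orthogonal
        (zpow_mem (hMi F) n _ ((M F).starProjection_apply_mem _))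
        ((M F)ᗮ.starProjection_apply_mem _)
  have hsum := (tendsto_finsetSum s fun n _ => (hkey n).const_mul (a n)).norm
  have hB0 : 0 ≤ B := (norm_nonneg _).trans (hB 1 norm_one)
  have hfin := le_of_tendsto hsum (b := 4 * B) (Eventually.of_forall fun F => by
    have h3 := norm_sum_zpow_le (V F) (hV F) s a hB
    have h4 : ∑ n ∈ s, a n * ⟪q F, (((V F) ^ n : (H →L[ℂ] H)ˣ) : H →L[ℂ] H) (r F)⟫_ℂ =
        ⟪q F, (∑ n ∈ s, a n • (((V F) ^ n : (H →L[ℂ] H)ˣ) : H →L[ℂ] H)) (r F)⟫_ℂ := by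
      simp only [sum_apply, inner_sum, smul_apply, inner_smul_right]
    rw [h4]
    refine (norm_inner_le_norm _ _).trans ?_
    have h5 := ContinuousLinearMap.le_of_opNorm_le_of_le _ h3 (hr2 F)
    calc _ ≤ 2 * (B * 2) := mul_le_mul (hq2 F) h5 (norm_nonneg _) (by norm_num)
      _ = 4 * B := by ring)
  simp only [mul_neg, Finset.sum_neg_distrib, norm_neg] at hfin
  simpa only [sum_apply, inner_sum, smul_apply, inner_smul_right] using hfin

omit [CompleteSpace H] in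
theorem exists_two (hH : 1 < Module.rank ℂ H) : ∃ e : Fin 2 → H, Orthonormal ℂ e := by
  have : Nontrivial H := rank_pos_iff_nontrivial.1 (zero_lt_one.trans hH)
  obtain ⟨x, hx⟩ := exists_ne (0 : H)
  obtain ⟨y, hy⟩ := exists_linearIndependent_pair_of_one_lt_rank hH hx
  exact ⟨_, InnerProductSpace.gramSchmidtNormed_orthonormal hy⟩

theorem sum_zpow_le (c : ℤ →₀ ℂ) (z : ℂ) (hz : ‖z‖ = 1) :
    ‖∑ n ∈ c.support, c n * z ^ n‖ ≤
      ‖(c.sum fun n a => a • fourier n : C(AddCircle (1 : ℝ), ℂ))‖ := by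
  obtain ⟨t, ht⟩ : ∃ t : AddCircle (1 : ℝ), (AddCircle.toCircle t : ℂ) = z := by
    obtain ⟨t, ht⟩ := (AddCircle.homeomorphCircle (T := (1 : ℝ)) one_ne_zero).surjective
      ⟨z, mem_sphere_zero_iff_norm.2 hz⟩
    exact ⟨t, by rw [← AddCircle.homeomorphCircle_apply one_ne_zero, ht]⟩
  refine le_trans (le_of_eq ?_) (ContinuousMap.norm_coe_le_norm _ t)
  congr 1
  simp only [Finsupp.sum, ContinuousMap.coe_sum, Finset.sum_apply, ContinuousMap.smul_apply,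
    smul_eq_mul, fourier_apply, AddCircle.toCircle_zsmul, Circle.coe_zpow, ht]

/-- The form used in the main proof. -/
theorem exists_pair' (hH : 1 < Module.rank ℂ H) (T : (H →L[ℂ] H)ˣ)
    (hT : Kill (1 - star (T : H →L[ℂ] H) * (T : H →L[ℂ] H))) :
    ∃ x y : H, x ≠ 0 ∧ y ≠ 0 ∧ ∀ c : ℤ →₀ ℂ,
      ‖⟪y, (c.sum fun n a => a • ((T ^ n : (H →L[ℂ] H)ˣ) : H →L[ℂ] H)) x⟫_ℂ‖ ≤
        4 * ‖(c.sum fun n a => a • fourier n : C(AddCircle (1 : ℝ), ℂ))‖ := by
  obtain ⟨e, he⟩ := exists_two hH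
  obtain ⟨x, y, hx, hy, h⟩ := exists_pair T hT he
  exact ⟨x, y, hx, hy, fun c => h c.support c _ (sum_zpow_le c)⟩

end Pool.Agent.P.MP_f981b0_an.CD.P1
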