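import Pool.Agent.P.MP_f981b0_an.CD.Base
import Pool.Agent.P.MP_f981b0_an.CD.P1c

/-! Package P1: a pair of vectors given by a measure. -/

set_option autoImplicit false

open MeasureTheory Filter Topology ContinuousLinearMap
open scoped ComplexConjugate

noncomputable section

namespace Pool.Agent.P.MP_f981b0_an.CD

universe u

variable {H : Type u} [NormedAddCommGroup H] [InnerProductSpace ℂ H] [CompleteSpace H]

theorem pair (hH : 1 < Module.rank ℂ H) (T : (H →L[ℂ] H)ˣ) (W : H →L[ℂ] H)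
    (hW : W ∈ unitary (H →L[ℂ] H))
    (hK : IsCompactOperator ((T : H →L[ℂ] H) - W : H →L[ℂ] H)) :
    ∃ (x y : H) (t : ℝ), x ≠ 0 ∧ y ≠ 0 ∧ Bdd T x y t := by
  obtain ⟨x, y, hx, hy, h⟩ := P1.exists_pair' hH T ((P1.Kill.of_compact hK).defect hW)
  exact ⟨x, y, 4, hx, hy, h⟩

end Pool.Agent.P.MP_f981b0_an.CD
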