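import Mathlib

set_option autoImplicit false

open scoped InnerProductSpace ComplexConjugate
open Filter Topology

noncomputable section

namespace Pool.Agent.P.MP_f981b0_an.CD.P1

variable {H : Type*} [NormedAddCommGroup H] [InnerProductSpace ℂ H] [CompleteSpace H]

/-- Bounded families have weak limits along ultrafilters. -/
theorem exists_wlim {ι : Type*} (U : Ultrafilter ι) (x : ι → H) {B : ℝ} (hB : ∀ k, ‖x k‖ ≤ B) :
    ∃ y : H, ‖y‖ ≤ B ∧ ∀ h : H, Tendsto (fun k => ⟪h, x k⟫_ℂ) U (𝓝 ⟪h, y⟫_ℂ) := by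
  have h1 : ∀ h : H, ∀ k, ‖⟪x k, h⟫_ℂ‖ ≤ B * ‖h‖ := fun h k =>
    (norm_inner_le_norm _ _).trans (mul_le_mul_of_nonneg_right (hB k) (norm_nonneg _))
  have h2 : ∀ h : H, ∃ l : ℂ, Tendsto (fun k => ⟪x k, h⟫_ℂ) U (𝓝 l) := fun h => by
    obtain ⟨l, -, hl⟩ := (isCompact_closedBall (0 : ℂ) (B * ‖h‖)).ultrafilter_le_nhds
      (U.map fun k => ⟪x k, h⟫_ℂ) (by
        rw [Ultrafilter.coe_map, le_principal_iff, mem_map]
        exact Eventually.of_forall fun k => by simpa using h1 h k)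
    exact ⟨l, hl⟩
  choose l hl using h2
  let L : H →ₗ[ℂ] ℂ :=
    { toFun := l
      map_add' := fun e e' => tendsto_nhds_unique (hl (e + e')) (by
        simpa only [inner_add_right] using (hl e).add (hl e'))
      map_smul' := fun c e => tendsto_nhds_unique (hl (c • e)) (by
        simpa only [inner_smul_right, smul_eq_mul, RingHom.id_apply] using (hl e).const_mul c) }
  have hL : ∀ e, ‖L e‖ ≤ B * ‖e‖ := fun e =>
    le_of_tendsto (hl e).norm (Eventually.of_forall (h1 e))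
  have hB0 : 0 ≤ B := by
    obtain ⟨k⟩ := U.neBot.nonempty
    exact (norm_nonneg _).trans (hB k)
  refine ⟨(InnerProductSpace.toDual ℂ H).symm (L.mkContinuous B hL), ?_, fun h => ?_⟩
  · rw [LinearIsometryEquiv.norm_map]
    exact LinearMap.mkContinuous_norm_le _ hB0 _
  · have h3 := (Complex.continuous_conj.tendsto _).comp (hl h)
    rw [← inner_conj_symm, InnerProductSpace.toDual_symm_apply]
    refine h3.congr fun k => ?_
    simp only [Function.comp, inner_conj_symm]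

/-- Bounded weakly null families. -/
def WN {ι : Type*} (F : Filter ι) (r : ι → H) : Prop :=
  (∃ B : ℝ, ∀ i, ‖r i‖ ≤ B) ∧ ∀ h : H, Tendsto (fun i => ⟪h, r i⟫_ℂ) F (𝓝 0)

omit [CompleteSpace H] in
theorem WN.inner_of_tendsto {ι : Type*} {F : Filter ι} {r : ι → H} (hr : WN F r) {a : ι → H}
    {b : H} (ha : Tendsto a F (𝓝 b)) : Tendsto (fun i => ⟪a i, r i⟫_ℂ) F (𝓝 0) := by
  obtain ⟨⟨B, hB⟩, hw⟩ := hr
  have h1 : Tendsto (fun i => ⟪a i - b, r i⟫_ℂ) F (𝓝 0) := by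
    have h2 : Tendsto (fun i => ‖a i - b‖ * B) F (𝓝 0) := by
      simpa using (tendsto_iff_norm_sub_tendsto_zero.1 ha).mul_const B
    refine squeeze_zero_norm (fun i => ?_) h2
    exact (norm_inner_le_norm _ _).trans (mul_le_mul_of_nonneg_left (hB i) (norm_nonneg _))
  have h3 := h1.add (hw b)
  simp only [inner_sub_left, sub_add_cancel, add_zero] at h3
  exact h3

omit [CompleteSpace H] in
theorem tendsto_bdd_apply {ι : Type*} {F : Filter ι} {A : ι → H →L[ℂ] H} {M : ℝ}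
    (hA : ∀ i, ‖A i‖ ≤ M) {a : ι → H} (ha : Tendsto a F (𝓝 0)) :
    Tendsto (fun i => A i (a i)) F (𝓝 0) := by
  have h2 : Tendsto (fun i => M * ‖a i‖) F (𝓝 0) := by
    simpa using (tendsto_zero_iff_norm_tendsto_zero.1 ha).const_mul M
  exact squeeze_zero_norm (fun i => (A i).le_of_opNorm_le (hA i) _) h2

omit [CompleteSpace H] in
theorem tendsto_str_apply {ι : Type*} {F : Filter ι} {A : ι → H →L[ℂ] H} {M : ℝ}
    (hA : ∀ i, ‖A i‖ ≤ M) {T : H →L[ℂ] H} (hT : ∀ x, Tendsto (fun i => A i x) F (𝓝 (T x)))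
    {a : ι → H} {b : H} (ha : Tendsto a F (𝓝 b)) :
    Tendsto (fun i => A i (a i)) F (𝓝 (T b)) := by
  have h1 := tendsto_bdd_apply hA (tendsto_sub_nhds_zero_iff.2 ha)
  have h3 := h1.add (hT b)
  simp only [map_sub, sub_add_cancel, zero_add] at h3
  exact h3

/-- `S i` tends to `T` star-strongly and `S i - W i` kills bounded weakly null families. -/
structure Good {ι : Type*} (F : Filter ι) (S W : ι → H →L[ℂ] H) (T : H →L[ℂ] H) : Prop where
  bddS : ∃ M : ℝ, ∀ i, ‖S i‖ ≤ M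
  bddW : ∃ M : ℝ, ∀ i, ‖W i‖ ≤ M
  str : ∀ x, Tendsto (fun i => S i x) F (𝓝 (T x))
  adj : ∀ x, Tendsto (fun i => star (S i) x) F (𝓝 (star T x))
  kill : ∀ r : ι → H, WN F r → Tendsto (fun i => S i (r i) - W i (r i)) F (𝓝 0)

theorem wn_apply {ι : Type*} {F : Filter ι} {S : ι → H →L[ℂ] H} {M : ℝ} (hS : ∀ i, ‖S i‖ ≤ M)
    {T : H →L[ℂ] H} (hT : ∀ x, Tendsto (fun i => star (S i) x) F (𝓝 (T x))) {r : ι → H}
    (hr : WN F r) : WN F fun i => S i (r i) := by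
  refine ⟨?_, fun h => ?_⟩
  · obtain ⟨B, hB⟩ := hr.1
    refine ⟨M * B, fun i => ((S i).le_of_opNorm_le (hS i) _).trans ?_⟩
    exact mul_le_mul_of_nonneg_left (hB i) ((norm_nonneg _).trans (hS i))
  · refine (hr.inner_of_tendsto (hT h)).congr fun i => ?_
    rw [ContinuousLinearMap.star_eq_adjoint, ContinuousLinearMap.adjoint_inner_left]

theorem Good.wn {ι : Type*} {F : Filter ι} {S W : ι → H →L[ℂ] H} {T : H →L[ℂ] H}
    (h : Good F S W T) {r : ι → H} (hr : WN F r) : WN F fun i => S i (r i) := by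
  obtain ⟨M, hM⟩ := h.bddS
  exact wn_apply hM h.adj hr

theorem Good.one {ι : Type*} (F : Filter ι) :
    Good F (fun _ => (1 : H →L[ℂ] H)) (fun _ => 1) 1 where
  bddS := ⟨‖(1 : H →L[ℂ] H)‖, fun _ => le_rfl⟩
  bddW := ⟨‖(1 : H →L[ℂ] H)‖, fun _ => le_rfl⟩
  str _ := tendsto_const_nhds
  adj _ := tendsto_const_nhds
  kill r _ := by simpa using tendsto_const_nhds

theorem Good.mul {ι : Type*} {F : Filter ι} {S W S' W' : ι → H →L[ℂ] H} {T T' : H →L[ℂ] H}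
    (h : Good F S W T) (h' : Good F S' W' T') :
    Good F (fun i => S i * S' i) (fun i => W i * W' i) (T * T') := by
  obtain ⟨M, hM⟩ := h.bddS
  obtain ⟨M', hM'⟩ := h'.bddS
  obtain ⟨N, hN⟩ := h.bddW
  obtain ⟨N', hN'⟩ := h'.bddW
  refine ⟨⟨M * M', fun i => (norm_mul_le _ _).trans
      (mul_le_mul (hM i) (hM' i) (norm_nonneg _) ((norm_nonneg _).trans (hM i)))⟩,
    ⟨N * N', fun i => (norm_mul_le _ _).trans
      (mul_le_mul (hN i) (hN' i) (norm_nonneg _) ((norm_nonneg _).trans (hN i)))⟩,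
    fun x => ?_, fun x => ?_, fun r hr => ?_⟩
  · exact tendsto_str_apply hM h.str (h'.str x)
  · simp only [star_mul]
    exact tendsto_str_apply (A := fun i => star (S' i)) (fun i => by rw [norm_star]; exact hM' i)
      h'.adj (h.adj x)
  · have h1 := (h.kill _ (h'.wn hr)).add (tendsto_bdd_apply hN (h'.kill r hr))
    simp only [map_sub, sub_add_sub_cancel, add_zero] at h1
    exact h1

theorem Good.pow {ι : Type*} {F : Filter ι} {S W : ι → H →L[ℂ] H} {T : H →L[ℂ] H}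
    (h : Good F S W T) (n : ℕ) : Good F (fun i => S i ^ n) (fun i => W i ^ n) (T ^ n) := by
  induction n with
  | zero => simpa using Good.one F
  | succ n ih => simpa only [pow_succ] using ih.mul h

theorem Good.inv {ι : Type*} {F : Filter ι} {S W : ι → (H →L[ℂ] H)ˣ} {T : (H →L[ℂ] H)ˣ}
    (h : Good F (fun i => (S i : H →L[ℂ] H)) (fun i => (W i : H →L[ℂ] H)) (T : H →L[ℂ] H))
    {M N : ℝ} (hM : ∀ i, ‖(((S i)⁻¹ : (H →L[ℂ] H)ˣ) : H →L[ℂ] H)‖ ≤ M)
    (hN : ∀ i, ‖(((W i)⁻¹ : (H →L[ℂ] H)ˣ) : H →L[ℂ] H)‖ ≤ N) :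
    Good F (fun i => (((S i)⁻¹ : (H →L[ℂ] H)ˣ) : H →L[ℂ] H))
      (fun i => (((W i)⁻¹ : (H →L[ℂ] H)ˣ) : H →L[ℂ] H)) ((T⁻¹ : (H →L[ℂ] H)ˣ) : H →L[ℂ] H) := by
  have hadj : ∀ x, Tendsto (fun i => star (((S i)⁻¹ : (H →L[ℂ] H)ˣ) : H →L[ℂ] H) x) F
      (𝓝 (star ((T⁻¹ : (H →L[ℂ] H)ˣ) : H →L[ℂ] H) x)) := fun x => by
    set y := star ((T⁻¹ : (H →L[ℂ] H)ˣ) : H →L[ℂ] H) x with hy
    have hx : star (T : H →L[ℂ] H) y = x := by
      rw [hy, ← mul_apply_eq_comp, ← star_mul, Units.inv_mul, star_one]; rfl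
    have h1 := tendsto_bdd_apply
      (A := fun i => star (((S i)⁻¹ : (H →L[ℂ] H)ˣ) : H →L[ℂ] H))
      (fun i => by rw [norm_star]; exact hM i) (tendsto_sub_nhds_zero_iff.2 (h.adj y))
    have h2 := (tendsto_const_nhds (x := y)).sub h1
    rw [sub_zero] at h2
    refine h2.congr fun i => ?_
    rw [map_sub, ← mul_apply_eq_comp, ← star_mul, Units.mul_inv, star_one, hx]
    simp
  refine ⟨⟨M, hM⟩, ⟨N, hN⟩, fun x => ?_, hadj, fun r hr => ?_⟩
  · set y := ((T⁻¹ : (H →L[ℂ] H)ˣ) : H →L[ℂ] H) x with hy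
    have hx : (T : H →L[ℂ] H) y = x := by
      rw [hy, ← mul_apply_eq_comp, Units.mul_inv]; rfl
    have h1 := tendsto_bdd_apply hM (tendsto_sub_nhds_zero_iff.2 (h.str y))
    have h2 := (tendsto_const_nhds (x := y)).sub h1
    rw [sub_zero] at h2
    refine h2.congr fun i => ?_
    rw [map_sub, ← mul_apply_eq_comp, Units.inv_mul, hx]
    simp
  · have h1 := (tendsto_bdd_apply hN (h.kill _ (wn_apply hM hadj hr))).neg
    rw [neg_zero] at h1
    refine h1.congr fun i => ?_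
    rw [map_sub, ← mul_apply_eq_comp (S i : H →L[ℂ] H), Units.mul_inv,
      ← mul_apply_eq_comp _ (W i : H →L[ℂ] H), Units.inv_mul]
    simp

theorem Good.zpow {ι : Type*} {F : Filter ι} {S W : ι → (H →L[ℂ] H)ˣ} {T : (H →L[ℂ] H)ˣ}
    (h : Good F (fun i => (S i : H →L[ℂ] H)) (fun i => (W i : H →L[ℂ] H)) (T : H →L[ℂ] H))
    {M N : ℝ} (hM : ∀ i, ‖(((S i)⁻¹ : (H →L[ℂ] H)ˣ) : H →L[ℂ] H)‖ ≤ M)
    (hN : ∀ i, ‖(((W i)⁻¹ : (H →L[ℂ] H)ˣ) : H →L[ℂ] H)‖ ≤ N) (n : ℤ) :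
    Good F (fun i => (((S i) ^ n : (H →L[ℂ] H)ˣ) : H →L[ℂ] H))
      (fun i => (((W i) ^ n : (H →L[ℂ] H)ˣ) : H →L[ℂ] H)) ((T ^ n : (H →L[ℂ] H)ˣ) : H →L[ℂ] H) := by
  cases n with
  | ofNat n => simpa using h.pow n
  | negSucc n =>
    simpa only [zpow_negSucc, ← inv_pow, Units.val_pow_eq_pow_val] using (h.inv hM hN).pow (n + 1)

theorem Good.key {ι : Type*} {F : Filter ι} {S W : ι → H →L[ℂ] H} {T : H →L[ℂ] H}
    (h : Good F S W T) {x y : H} {r s : ι → H} (hr : WN F r) (hs : WN F s)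
    (h0 : ∀ i, ⟪y + s i, S i (x + r i)⟫_ℂ = 0) :
    Tendsto (fun i => ⟪s i, W i (r i)⟫_ℂ) F (𝓝 (-⟪y, T x⟫_ℂ)) := by
  have h1 : Tendsto (fun i => ⟪y, S i x⟫_ℂ) F (𝓝 ⟪y, T x⟫_ℂ) := tendsto_const_nhds.inner (h.str x)
  have h2 := (h.wn hr).2 y
  have h3 : Tendsto (fun i => ⟪s i, S i x⟫_ℂ) F (𝓝 0) := by
    have h4 := (Complex.continuous_conj.tendsto _).comp (hs.inner_of_tendsto (h.str x))
    simp only [map_zero] at h4
    refine h4.congr fun i => ?_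
    simp only [Function.comp, inner_conj_symm]
  have h5 : Tendsto (fun i => ⟪s i, S i (r i) - W i (r i)⟫_ℂ) F (𝓝 0) := by
    have h4 := (Complex.continuous_conj.tendsto _).comp (hs.inner_of_tendsto (h.kill r hr))
    simp only [map_zero] at h4
    refine h4.congr fun i => ?_
    simp only [Function.comp, inner_conj_symm]
  have h6 := (((h1.add h2).add h3).add h5).neg
  simp only [add_zero] at h6
  refine h6.congr fun i => ?_
  have h7 := h0 i
  simp only [map_add, inner_add_left, inner_add_right, inner_sub_right] at h7 ⊢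
  linear_combination -h7

/-- Von Neumann's inequality for a unitary and a Laurent polynomial. -/
theorem norm_sum_zpow_le (W : (H →L[ℂ] H)ˣ) (hW : (W : H →L[ℂ] H) ∈ unitary (H →L[ℂ] H))
    (s : Finset ℤ) (a : ℤ → ℂ) {B : ℝ}
    (hB : ∀ z : ℂ, ‖z‖ = 1 → ‖∑ n ∈ s, a n * z ^ n‖ ≤ B) :
    ‖∑ n ∈ s, a n • ((W ^ n : (H →L[ℂ] H)ˣ) : H →L[ℂ] H)‖ ≤ B := by
  have hB0 : 0 ≤ B := (norm_nonneg _).trans (hB 1 norm_one)
  have hn : IsStarNormal (W : H →L[ℂ] H) := isStarNormal_of_mem_unitary hW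
  have hc : ∀ n : ℤ, ContinuousOn (fun z : ℂ => z ^ n) (spectrum ℂ (W : H →L[ℂ] H)) := fun n =>
    W.continuousOn_zpow₀_spectrum n
  have h1 : ∑ n ∈ s, a n • ((W ^ n : (H →L[ℂ] H)ˣ) : H →L[ℂ] H) =
      cfc (∑ n ∈ s, fun z : ℂ => a n * z ^ n) (W : H →L[ℂ] H) := by
    rw [cfc_sum (fun n => fun z : ℂ => a n * z ^ n) _ _
      (fun n _ => continuousOn_const.mul (hc n))]
    refine Finset.sum_congr rfl fun n _ => ?_
    rw [cfc_const_mul _ _ _ (hc n), cfc_zpow W n hn]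
  rw [h1]
  refine norm_cfc_le hB0 fun z hz => ?_
  rw [Finset.sum_apply]
  exact hB z (spectrum.norm_eq_one_of_unitary hW hz)

end Pool.Agent.P.MP_f981b0_an.CD.P1
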