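import Pool.Agent.P.MP_f981b0_an.CD.P1a

set_option autoImplicit false

open scoped InnerProductSpace ComplexConjugate
open Filter Topology

noncomputable section

namespace Pool.Agent.P.MP_f981b0_an.CD.P1

variable {H : Type*} [NormedAddCommGroup H] [InnerProductSpace ℂ H] [CompleteSpace H]

omit [CompleteSpace H] in
theorem tendsto_of_ultra {ι : Type*} {U : Ultrafilter ι} {r : ι → H} {K : Set H}
    (hK : IsCompact K) (hr : ∀ i, r i ∈ K)
    (hw : ∀ h : H, Tendsto (fun i => ⟪h, r i⟫_ℂ) U (𝓝 0)) : Tendsto r U (𝓝 0) := by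
  obtain ⟨z, -, hz⟩ := hK.ultrafilter_le_nhds (U.map r) (by
    rw [Ultrafilter.coe_map, le_principal_iff, mem_map]
    exact Eventually.of_forall hr)
  have hz' : Tendsto r U (𝓝 z) := hz
  have h1 : ⟪z, z⟫_ℂ = 0 := tendsto_nhds_unique (tendsto_const_nhds.inner hz') (hw z)
  rwa [inner_self_eq_zero.1 h1] at hz'

theorem compact_kill {ι : Type*} {U : Ultrafilter ι} {K : H →L[ℂ] H} (hK : IsCompactOperator K)
    {r : ι → H} (hr : WN U r) : Tendsto (fun i => K (r i)) U (𝓝 0) := by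
  obtain ⟨B, hB⟩ := hr.1
  obtain ⟨C, hC, hsub⟩ := IsCompactOperator.image_closedBall_subset_compact
    (f := (K : H →ₗ[ℂ] H)) hK B
  refine tendsto_of_ultra hC (fun i => hsub ⟨r i, by simpa using hB i, rfl⟩) ?_
  exact (wn_apply (S := fun _ => K) (fun _ => le_rfl) (fun _ => tendsto_const_nhds) hr).2

/-- The operator sends bounded weakly null families to null families. -/
def Kill (K : H →L[ℂ] H) : Prop :=
  ∀ (U : Ultrafilter (Finset H)) (r : Finset H → H), WN U r →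
    Tendsto (fun i => K (r i)) U (𝓝 0)

theorem Kill.of_compact {K : H →L[ℂ] H} (hK : IsCompactOperator K) : Kill K :=
  fun _ _ hr => compact_kill hK hr

omit [CompleteSpace H] in
theorem Kill.mul_left {K : H →L[ℂ] H} (hK : Kill K) (A : H →L[ℂ] H) : Kill (A * K) :=
  fun U r hr => tendsto_bdd_apply (A := fun _ => A) (fun _ => le_rfl) (hK U r hr)

theorem Kill.mul_right {K : H →L[ℂ] H} (hK : Kill K) (A : H →L[ℂ] H) : Kill (K * A) :=
  fun U _ hr => hK U _ (wn_apply (S := fun _ => A) (fun _ => le_rfl) (fun _ => tendsto_const_nhds) hr)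

omit [CompleteSpace H] in
theorem Kill.add {K K' : H →L[ℂ] H} (hK : Kill K) (hK' : Kill K') : Kill (K + K') :=
  fun U r hr => by simpa using (hK U r hr).add (hK' U r hr)

omit [CompleteSpace H] in
theorem Kill.neg {K : H →L[ℂ] H} (hK : Kill K) : Kill (-K) :=
  fun U r hr => by simpa using (hK U r hr).neg

theorem Kill.star {K : H →L[ℂ] H} (hK : Kill K) : Kill (star K) := fun U r hr => by
  have h1 := hr.inner_of_tendsto (hK.mul_right (Star.star K) U r hr)
  have h2 : Tendsto (fun i => ‖Star.star K (r i)‖ ^ 2) U (𝓝 0) := by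
    have h3 := (Complex.continuous_re.tendsto _).comp h1
    simp only [Complex.zero_re] at h3
    refine h3.congr fun i => ?_
    simp only [Function.comp, mul_apply_eq_comp, ContinuousLinearMap.star_eq_adjoint]
    rw [← ContinuousLinearMap.adjoint_inner_right]
    exact inner_self_eq_norm_sq (𝕜 := ℂ) _
  rw [tendsto_zero_iff_norm_tendsto_zero]
  have h4 := (Real.continuous_sqrt.tendsto _).comp h2
  simp only [Real.sqrt_zero] at h4
  refine h4.congr fun i => ?_
  simp only [Function.comp, Real.sqrt_sq (norm_nonneg _)]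

theorem Kill.defect {T W : H →L[ℂ] H} (hW : W ∈ unitary (H →L[ℂ] H)) (hK : Kill (T - W)) :
    Kill (1 - Star.star T * T) := by
  have h1 : 1 - Star.star T * T =
      -(Star.star W * (T - W) + Star.star (T - W) * T) := by
    rw [star_sub, mul_sub, hW.1]; noncomm_ring
  rw [h1]
  exact ((hK.mul_left _).add (hK.star.mul_right _)).neg

/-- A unitary agrees on a finite-dimensional subspace with a unitary that leaves a larger
finite-dimensional subspace invariant. -/
theorem exists_unitary_ext (W : H →L[ℂ] H) (hW : W ∈ unitary (H →L[ℂ] H)) (E : Submodule ℂ H)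
    [FiniteDimensional ℂ E] :
    ∃ G : Submodule ℂ H, FiniteDimensional ℂ G ∧ E ≤ G ∧ ∃ W' ∈ unitary (H →L[ℂ] H),
      (∀ x ∈ E, W' x = W x) ∧ ∀ x ∈ G, W' x ∈ G := by
  set G : Submodule ℂ H := E ⊔ E.map (W : H →ₗ[ℂ] H) with hG
  have hfin : FiniteDimensional ℂ G := inferInstance
  have hEG : E ≤ G := le_sup_left
  let E' : Submodule ℂ G := E.comap G.subtype
  let L : E' →ₗᵢ[ℂ] G :=
    { toFun := fun x => ⟨W (x : G), Submodule.mem_sup_right ⟨(x : G), x.2, rfl⟩⟩
      map_add' := fun x y => by ext; simp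
      map_smul' := fun c x => by ext; simp
      norm_map' := fun x => by
        change ‖W ((x : G) : H)‖ = ‖((x : G) : H)‖
        exact ContinuousLinearMap.norm_map_of_mem_unitary hW _ }
  let u : G ≃ₗᵢ[ℂ] G := L.extend.toLinearIsometryEquiv rfl
  have hu : ∀ x (hx : x ∈ E), ((u ⟨x, hEG hx⟩ : G) : H) = W x := fun x hx => by
    have := L.extend_apply ⟨⟨x, hEG hx⟩, hx⟩
    exact congrArg Subtype.val this
  let V : (G ≃ₗᵢ[ℂ] G) → H →L[ℂ] H := fun u =>
    G.subtypeL ∘L (u : G →L[ℂ] G) ∘L G.orthogonalProjectionOnto + Gᗮ.starProjection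
  have hV : ∀ u x, V u x = (u (G.orthogonalProjectionOnto x) : H) + Gᗮ.starProjection x :=
    fun u x => rfl
  have hVP : ∀ u x, G.orthogonalProjectionOnto (V u x) = u (G.orthogonalProjectionOnto x) :=
    fun u x => by
      rw [hV, map_add, Submodule.orthogonalProjectionOnto_mem_subspace_eq_self,
        Submodule.orthogonalProjectionOnto_apply_of_mem_orthogonal
          (Submodule.starProjection_apply_mem _ _), add_zero]
  have hVQ : ∀ u x, Gᗮ.starProjection (V u x) = Gᗮ.starProjection x := fun u x => by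
    rw [hV, map_add, Submodule.starProjection_orthogonal_apply_eq_zero (u _).2, zero_add,
      Submodule.starProjection_eq_self_iff.2 (Submodule.starProjection_apply_mem _ _)]
  have hinv : ∀ (u : G ≃ₗᵢ[ℂ] G) x, V u (V u.symm x) = x := fun u x => by
    rw [hV u, hVP, hVQ, u.apply_symm_apply]
    exact Submodule.starProjection_add_starProjection_orthogonal x
  have hnorm : ∀ x, ‖V u x‖ = ‖x‖ := fun x => by
    have h1 := Submodule.norm_sq_eq_add_norm_sq_projection (V u x) G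
    have h2 := Submodule.norm_sq_eq_add_norm_sq_projection x G
    have h3 : ‖Gᗮ.orthogonalProjectionOnto (V u x)‖ = ‖Gᗮ.orthogonalProjectionOnto x‖ :=
      congrArg norm (Subtype.ext (hVQ u x))
    rw [hVP, u.norm_map, h3, ← h2] at h1
    exact (sq_eq_sq₀ (norm_nonneg _) (norm_nonneg _)).1 h1
  let e : H ≃ₗᵢ[ℂ] H := LinearIsometryEquiv.ofSurjective ⟨(V u : H →ₗ[ℂ] H), hnorm⟩
    fun x => ⟨_, hinv u x⟩
  have hGx : ∀ x (hx : x ∈ G), V u x = (u ⟨x, hx⟩ : H) := fun x hx => by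
    rw [hV, Submodule.starProjection_orthogonal_apply_eq_zero hx, add_zero]
    congr 2
    exact Submodule.orthogonalProjectionOnto_mem_subspace_eq_self (⟨x, hx⟩ : G)
  refine ⟨G, hfin, hEG, (Unitary.linearIsometryEquiv.symm e : H →L[ℂ] H),
    (Unitary.linearIsometryEquiv.symm e).2, fun x hx => ?_, fun x hx => ?_⟩
  · change V u x = W x
    rw [hGx x (hEG hx), hu x hx]
  · change V u x ∈ G
    rw [hGx x hx]
    exact (u _).2

omit [CompleteSpace H] in
/-- One step up in a chain of invariant subspaces. -/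
theorem exists_step (S : H →L[ℂ] H) (G M : Submodule ℂ H) [FiniteDimensional ℂ G] (hMG : M ≤ G)
    (hne : M ≠ G) (hG : ∀ x ∈ G, S x ∈ G) :
    ∃ g ∈ G, ‖g‖ = 1 ∧ g ∈ Mᗮ ∧ ∃ c : ℂ, S g - c • g ∈ M := by
  have : FiniteDimensional ℂ M := Submodule.finiteDimensional_of_le hMG
  set N : Submodule ℂ H := G ⊓ Mᗮ with hN
  have : FiniteDimensional ℂ N := Submodule.finiteDimensional_of_le inf_le_left
  have hdec : ∀ x ∈ G, x - M.starProjection x ∈ N := fun x hx =>
    ⟨G.sub_mem hx (hMG (M.starProjection_apply_mem x)), M.sub_starProjection_mem_orthogonal x⟩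
  have : Nontrivial N := by
    by_contra hcon
    rw [Submodule.nontrivial_iff_ne_bot, not_not] at hcon
    refine hne (le_antisymm hMG fun x hx => ?_)
    have h1 := hdec x hx
    rw [hcon, Submodule.mem_bot, sub_eq_zero] at h1
    rw [h1]
    exact M.starProjection_apply_mem x
  let B : Module.End ℂ N :=
    { toFun := fun x => ⟨S x - M.starProjection (S x), hdec _ (hG _ x.2.1)⟩
      map_add' := fun x y => by ext; simp only [Submodule.coe_add, map_add]; abel
      map_smul' := fun c x => by ext; simp [smul_sub] }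
  obtain ⟨c, hc⟩ := Module.End.exists_eigenvalue B
  obtain ⟨v, hv⟩ := hc.exists_hasEigenvector
  have hv0 : (v : H) ≠ 0 := fun h => hv.2 (Subtype.ext h)
  have hv1 : S v - M.starProjection (S v) = c • (v : H) :=
    congrArg Subtype.val hv.apply_eq_smul
  refine ⟨((‖(v : H)‖⁻¹ : ℝ) : ℂ) • (v : H), G.smul_mem _ v.2.1, ?_, Submodule.smul_mem _ _ v.2.2,
    c, ?_⟩
  · rw [norm_smul, Complex.norm_real, norm_inv, norm_norm, inv_mul_cancel₀ (norm_ne_zero_iff.2 hv0)]
  · rw [map_smul, smul_comm c, ← smul_sub, ← hv1, sub_sub_cancel]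
    exact M.smul_mem _ (M.starProjection_apply_mem _)

omit [CompleteSpace H] in
theorem starProjection_sup_span (M : Submodule ℂ H) [FiniteDimensional ℂ M] {g : H} (hg : ‖g‖ = 1)
    (hgM : g ∈ Mᗮ) (x : H) :
    ‖(M ⊔ ℂ ∙ g).starProjection x‖ ^ 2 = ‖M.starProjection x‖ ^ 2 + ‖⟪g, x⟫_ℂ‖ ^ 2 := by
  have hgg : ⟪g, g⟫_ℂ = 1 := by rw [inner_self_eq_norm_sq_to_K, hg]; simp
  have h0 : ⟪g, M.starProjection x⟫_ℂ = 0 :=
    Submodule.inner_left_of_mem_orthogonal (M.starProjection_apply_mem x) hgM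
  have h1 : (M ⊔ ℂ ∙ g).starProjection x = M.starProjection x + ⟪g, x⟫_ℂ • g := by
    refine Submodule.eq_starProjection_of_mem_of_inner_eq_zero
      (Submodule.add_mem_sup (M.starProjection_apply_mem x)
        (Submodule.smul_mem _ _ (Submodule.mem_span_singleton_self g))) fun w hw => ?_
    obtain ⟨m, hm, z, hz, rfl⟩ := Submodule.mem_sup.1 hw
    obtain ⟨c, rfl⟩ := Submodule.mem_span_singleton.1 hz
    have h2 := M.starProjection_inner_eq_zero x m hm
    have h3 : ⟪g, m⟫_ℂ = 0 := Submodule.inner_left_of_mem_orthogonal hm hgM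
    have h4 : ⟪M.starProjection x, g⟫_ℂ = 0 := by rw [← inner_conj_symm, h0, map_zero]
    simp only [inner_sub_left, inner_add_left, inner_add_right, inner_smul_left, inner_smul_right,
      h3, h4, hgg, inner_conj_symm] at h2 ⊢
    linear_combination h2
  have h5 : ⟪M.starProjection x, ⟪g, x⟫_ℂ • g⟫_ℂ = 0 := by
    rw [inner_smul_right, ← inner_conj_symm (M.starProjection x), h0, map_zero, mul_zero]
  rw [h1, sq, norm_add_sq_eq_norm_sq_add_norm_sq_of_inner_eq_zero _ _ h5, norm_smul, hg]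
  ring

omit [CompleteSpace H] in
/-- An invariant subspace in the middle of the chain. -/
theorem exists_mid (S : H →L[ℂ] H) (G : Submodule ℂ H) [FiniteDimensional ℂ G]
    (hG : ∀ x ∈ G, S x ∈ G) {e : Fin 2 → H} (he : Orthonormal ℂ e) (heG : ∀ j, e j ∈ G) :
    ∃ M : Submodule ℂ H, ∃ _ : FiniteDimensional ℂ M, (∀ x ∈ M, S x ∈ M) ∧
      1 / 2 ≤ ∑ j, ‖M.starProjection (e j)‖ ^ 2 ∧ ∑ j, ‖M.starProjection (e j)‖ ^ 2 ≤ 3 / 2 := by
  classical
  let P : ℕ → Prop := fun n => ∃ M : Submodule ℂ H, ∃ _ : FiniteDimensional ℂ M, M ≤ G ∧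
    Module.finrank ℂ M = n ∧ (∀ x ∈ M, S x ∈ M) ∧ ∑ j, ‖M.starProjection (e j)‖ ^ 2 < 1 / 2
  have hP0 : P 0 := ⟨⊥, inferInstance, bot_le, finrank_bot _ _, fun x hx => by
    rw [(Submodule.mem_bot ℂ).1 hx, map_zero]; exact Submodule.zero_mem _, by simp⟩
  have hspec := Nat.findGreatest_spec (P := P) (Nat.zero_le (Module.finrank ℂ G)) hP0
  obtain ⟨M, hfin, hMG, hrank, hinv, hs⟩ := hspec
  have hne : M ≠ G := by
    rintro rfl
    have : ∀ j, M.starProjection (e j) = e j := fun j =>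
      Submodule.starProjection_eq_self_iff.2 (heG j)
    simp only [this, he.norm_eq_one] at hs
    norm_num at hs
  obtain ⟨g, hgG, hg, hgM, c, hc⟩ := exists_step S G M hMG hne hG
  have hle : M ⊔ ℂ ∙ g ≤ G := sup_le hMG ((Submodule.span_singleton_le_iff_mem _ _).2 hgG)
  have hinv' : ∀ x ∈ M ⊔ ℂ ∙ g, S x ∈ M ⊔ ℂ ∙ g := fun x hx => by
    obtain ⟨m, hm, z, hz, rfl⟩ := Submodule.mem_sup.1 hx
    obtain ⟨a, rfl⟩ := Submodule.mem_span_singleton.1 hz
    have h1 : S (m + a • g) = (S m + a • (S g - c • g)) + (a * c) • g := by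
      simp only [map_add, map_smul, smul_sub, mul_smul]; abel
    rw [h1]
    exact Submodule.add_mem_sup (M.add_mem (hinv m hm) (M.smul_mem _ hc))
      (Submodule.smul_mem _ _ (Submodule.mem_span_singleton_self g))
  refine ⟨M ⊔ ℂ ∙ g, inferInstance, hinv', ?_, ?_⟩
  · by_contra hcon
    have hlt : M < M ⊔ ℂ ∙ g := by
      refine lt_of_le_of_ne le_sup_left fun h => ?_
      have h1 : g ∈ M := h ▸ Submodule.mem_sup_right (Submodule.mem_span_singleton_self g)
      have h2 : ⟪g, g⟫_ℂ = 0 := Submodule.inner_left_of_mem_orthogonal h1 hgM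
      rw [inner_self_eq_zero] at h2
      simp [h2] at hg
    have h3 := Submodule.finrank_lt_finrank_of_lt hlt
    refine Nat.findGreatest_is_greatest (P := P) (hrank ▸ h3) (Submodule.finrank_mono hle) ?_
    exact ⟨_, inferInstance, hle, rfl, hinv', not_le.1 hcon⟩
  · simp only [starProjection_sup_span M hg hgM, Finset.sum_add_distrib]
    have h4 := he.sum_inner_products_le g (s := Finset.univ)
    have h5 : ∑ j, ‖⟪g, e j⟫_ℂ‖ ^ 2 = ∑ j, ‖⟪e j, g⟫_ℂ‖ ^ 2 :=
      Finset.sum_congr rfl fun j _ => by rw [norm_inner_symm]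
    rw [hg] at h4
    linarith

/-- Polar decomposition of an invertible operator with compact defect. -/
theorem exists_polar (T : H →L[ℂ] H) (hT : IsUnit T) (hK : Kill (1 - star T * T)) :
    ∃ W ∈ unitary (H →L[ℂ] H), ∃ K : H →L[ℂ] H, Kill K ∧ T = W * (1 + K) ∧
      ∃ m : ℝ, 0 < m ∧ ∀ x, m * ‖x‖ ^ 2 ≤ (⟪(1 + K) x, x⟫_ℂ).re := by
  have hpos : 0 ≤ star T * T := star_mul_self_nonneg T
  have hu : IsUnit (star T * T) := hT.star.mul hT
  set A := CFC.sqrt (star T * T) with hA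
  have hA0 : 0 ≤ A := CFC.sqrt_nonneg _
  have hAA : A * A = star T * T := CFC.sqrt_mul_sqrt_self _ hpos
  have hAu : IsUnit A := (CFC.isUnit_sqrt_iff _ hpos).2 hu
  have hAs : star A = A := hA0.isSelfAdjoint.star_eq
  obtain ⟨a, ha⟩ := hAu
  obtain ⟨t, rfl⟩ := hT
  have hre : ∀ x, 0 ≤ (⟪A x, x⟫_ℂ).re := fun x =>
    ((ContinuousLinearMap.nonneg_iff_isPositive _).1 hA0).re_inner_nonneg_left x
  have hA1 : IsUnit (A + 1) := by
    refine ContinuousLinearMap.isUnit_of_forall_le_norm_inner_map _ (c := 1) one_pos fun x => ?_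
    refine le_trans ?_ (Complex.re_le_norm _)
    have h1 := hre x
    have h2 : (⟪x, x⟫_ℂ).re = ‖x‖ ^ 2 := inner_self_eq_norm_sq (𝕜 := ℂ) x
    simp only [add_apply, one_apply_eq_self, inner_add_left,
      Complex.add_re, NNReal.coe_one, mul_one]
    linarith
  obtain ⟨b, hb⟩ := hA1
  have hai : star ((a⁻¹ : (H →L[ℂ] H)ˣ) : H →L[ℂ] H) = ((a⁻¹ : (H →L[ℂ] H)ˣ) : H →L[ℂ] H) := by
    have h1 : star a = a := Units.ext (by rw [Units.coe_star, ha, hAs])
    rw [← Units.coe_star, star_inv, h1]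
  refine ⟨t * (a⁻¹ : (H →L[ℂ] H)ˣ), ⟨?_, ?_⟩, A - 1, ?_, ?_, ?_⟩
  · rw [star_mul, hai, mul_assoc, ← mul_assoc (star (t : H →L[ℂ] H)), ← hAA, ← ha]
    simp [mul_assoc]
  · have h1 : star (t : H →L[ℂ] H) = a * a * ((t⁻¹ : (H →L[ℂ] H)ˣ) : H →L[ℂ] H) := by
      rw [ha, hAA, mul_assoc, Units.mul_inv, mul_one]
    rw [star_mul, hai, h1]
    simp [mul_assoc]
  · have h1 : A - 1 = -((1 - star (t : H →L[ℂ] H) * t) * ((b⁻¹ : (H →L[ℂ] H)ˣ) : H →L[ℂ] H)) := by
      have h2 : 1 - star (t : H →L[ℂ] H) * t = -((A - 1) * b) := by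
        rw [hb, ← hAA]; noncomm_ring
      rw [h2, neg_mul, neg_neg, mul_assoc, Units.mul_inv, mul_one]
    rw [h1]
    exact (hK.mul_right _).neg
  · rw [add_sub_cancel, ← ha, mul_assoc, Units.inv_mul, mul_one]
  · set R := CFC.sqrt A with hR
    have hRR : R * R = A := CFC.sqrt_mul_sqrt_self _ hA0
    have hRs : IsSelfAdjoint R := (CFC.sqrt_nonneg A).isSelfAdjoint
    obtain ⟨ρ, hρ⟩ := (CFC.isUnit_sqrt_iff _ hA0).2 ⟨a, ha⟩
    set c := ‖((ρ⁻¹ : (H →L[ℂ] H)ˣ) : H →L[ℂ] H)‖ with hc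
    refine ⟨1 / (c ^ 2 + 1), by positivity, fun x => ?_⟩
    have h1 : ‖x‖ ≤ c * ‖R x‖ := by
      have h2 : x = ((ρ⁻¹ : (H →L[ℂ] H)ˣ) : H →L[ℂ] H) (R x) := by
        rw [hR, ← hρ, ← mul_apply_eq_comp, Units.inv_mul]; rfl
      calc ‖x‖ = ‖((ρ⁻¹ : (H →L[ℂ] H)ˣ) : H →L[ℂ] H) (R x)‖ := congrArg norm h2
        _ ≤ _ := ContinuousLinearMap.le_opNorm _ _
    have h3 : (⟪(1 + (A - 1)) x, x⟫_ℂ).re = ‖R x‖ ^ 2 := by
      rw [add_sub_cancel, ← hRR, mul_apply_eq_comp,
        show ⟪R (R x), x⟫_ℂ = ⟪R x, R x⟫_ℂ from hRs.isSymmetric (R x) x]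
      exact inner_self_eq_norm_sq (𝕜 := ℂ) _
    rw [h3, div_mul_eq_mul_div, one_mul, div_le_iff₀ (by positivity)]
    have h4 := pow_le_pow_left₀ (norm_nonneg _) h1 2
    nlinarith [sq_nonneg ‖R x‖]

end Pool.Agent.P.MP_f981b0_an.CD.P1
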