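import Pool.Agent.P.MP_f981b0_an.CD.Base

/-! Package Pois: moments of the Poisson kernel. -/

set_option autoImplicit false

open MeasureTheory Filter Topology ContinuousLinearMap
open scoped ComplexConjugate

noncomputable section

namespace Pool.Agent.P.MP_f981b0_an.CD

universe u

theorem pois_pow (m : ℤ) (k : ℕ) (t : X) : (fourier m t : ℂ) ^ k = fourier (k * m) t := by
  induction k with
  | zero => simp
  | succ k ih => rw [pow_succ, ih, ← fourier_add]; congr 2; push_cast; ring

theorem pois_den {z : ℂ} (hz : ‖z‖ < 1) (m : ℤ) (t : X) : 1 - z * fourier m t ≠ 0 := by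
  intro h
  have h1 := congrArg norm (sub_eq_zero.1 h)
  rw [norm_mul, norm_fourier, norm_one, mul_one] at h1
  exact hz.ne' h1

theorem pois_char (n : ℤ) :
    ∫ t : X, (fourier n t : ℂ) ∂AddCircle.haarAddCircle = if n = 0 then 1 else 0 := by
  have h := congrFun (fourierCoeff_fourier (T := 1) n) 0
  simp only [fourierCoeff, neg_zero, fourier_zero, one_smul] at h
  rw [h, Pi.single_apply]
  simp only [eq_comm]

theorem pois_intg {f : X → ℂ} (hf : Continuous f) : Integrable f AddCircle.haarAddCircle :=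
  hf.integrable_of_hasCompactSupport (HasCompactSupport.of_compactSpace f)

theorem pois_geo {w : ℂ} (hw : ‖w‖ < 1) (m n : ℤ) :
    HasSum (fun k : ℕ => w ^ k * if (k : ℤ) * m + n = 0 then 1 else 0)
      (∫ t : X, (1 - w * fourier m t)⁻¹ * fourier n t ∂AddCircle.haarAddCircle) := by
  have h := hasSum_integral_of_summable_integral_norm (μ := AddCircle.haarAddCircle)
    (F := fun (k : ℕ) (t : X) => w ^ k * (fourier ((k : ℤ) * m + n) t : ℂ))
    (fun k => pois_intg (by fun_prop)) (by
      simp only [norm_mul, norm_fourier, mul_one, norm_pow, integral_const, probReal_univ,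
        one_smul]
      exact summable_geometric_of_lt_one (norm_nonneg _) hw)
  simp only [integral_const_mul, pois_char] at h
  have h2 : ∀ t : X, ∑' k : ℕ, w ^ k * (fourier ((k : ℤ) * m + n) t : ℂ) =
      (1 - w * fourier m t)⁻¹ * fourier n t := fun t => by
    have h1 : ‖w * fourier m t‖ < 1 := by rwa [norm_mul, norm_fourier, mul_one]
    rw [← tsum_geometric_of_norm_lt_one h1, ← tsum_mul_right]
    refine tsum_congr fun k => ?_
    rw [fourier_add, mul_pow, pois_pow, mul_assoc]
  simp only [h2] at h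
  exact h

theorem pois_split {z : ℂ} (hz : ‖z‖ < 1) (t : X) :
    (pk z t : ℂ) = (1 - conj z * fourier 1 t)⁻¹ + (1 - z * fourier (-1) t)⁻¹ - 1 := by
  have h1 := pois_den (z := conj z) (by rwa [RCLike.norm_conj]) 1 t
  have h2 := pois_den hz (-1) t
  have h3 : (fourier 1 t : ℂ) * fourier (-1) t = 1 := by rw [← fourier_add]; simp
  have h4 : ((‖1 - conj z * fourier 1 t‖ : ℝ) : ℂ) ^ 2 =
      (1 - conj z * fourier 1 t) * (1 - z * fourier (-1) t) := by
    rw [← Complex.mul_conj', fourier_neg]
    simp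
  have h5 : ((‖z‖ : ℝ) : ℂ) ^ 2 = z * conj z := (Complex.mul_conj' z).symm
  rw [pk]
  push_cast
  rw [h4, h5]
  generalize (fourier 1 t : ℂ) = a at *
  generalize (fourier (-1) t : ℂ) = b at *
  field_simp
  linear_combination (z * conj z) * h3

theorem pk_nonneg {z : ℂ} (hz : ‖z‖ < 1) (t : X) : 0 ≤ pk z t := by
  have := norm_nonneg z
  exact div_nonneg (by nlinarith) (by positivity)

theorem pk_cont {z : ℂ} (hz : ‖z‖ < 1) : Continuous (pk z) := by
  refine Continuous.div continuous_const (by fun_prop) fun t => ?_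
  exact pow_ne_zero _ (norm_ne_zero_iff.2 (pois_den (by rwa [RCLike.norm_conj]) 1 t))

theorem pois {z : ℂ} (hz : ‖z‖ < 1) (n : ℕ) :
    ∫ t, (pk z t : ℂ) * fourier n t ∂AddCircle.haarAddCircle = z ^ n := by
  have hz' : ‖conj z‖ < 1 := by rwa [RCLike.norm_conj]
  have c1 : Continuous fun t : X => (1 - conj z * fourier 1 t)⁻¹ * (fourier n t : ℂ) :=
    (Continuous.inv₀ (by fun_prop) (pois_den hz' 1)).mul (by fun_prop)
  have c2 : Continuous fun t : X => (1 - z * fourier (-1) t)⁻¹ * (fourier n t : ℂ) :=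
    (Continuous.inv₀ (by fun_prop) (pois_den hz (-1))).mul (by fun_prop)
  have c3 : Continuous fun t : X => (fourier n t : ℂ) := by fun_prop
  have h1 := (pois_geo hz' 1 n).unique (hasSum_single 0 fun k hk => by
    rw [if_neg (by omega), mul_zero])
  have h2 := (pois_geo hz (-1) n).unique (hasSum_single n fun k hk => by
    rw [if_neg (by omega), mul_zero])
  simp only [pois_split hz, sub_mul, add_mul, one_mul]
  rw [integral_sub (pois_intg (by exact c1.add c2)) (pois_intg c3),
    integral_add (pois_intg c1) (pois_intg c2), h1, h2, pois_char]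
  simp

theorem pois_neg {z : ℂ} (hz : ‖z‖ < 1) (n : ℕ) :
    ∫ t, (pk z t : ℂ) * fourier (-(n : ℤ)) t ∂AddCircle.haarAddCircle = conj z ^ n := by
  rw [← map_pow, ← pois hz n, ← integral_conj]
  simp only [fourier_neg, map_mul, Complex.conj_ofReal]

theorem pois_one {z : ℂ} (hz : ‖z‖ < 1) : ∫ t, pk z t ∂AddCircle.haarAddCircle = 1 := by
  have h := pois hz 0
  simp only [Nat.cast_zero, fourier_zero, mul_one, pow_zero, integral_complex_ofReal] at h
  exact_mod_cast h

theorem pk_symm (r : ℝ) (s t : X) : pk (r * fourier 1 s) t = pk (r * fourier 1 t) s := by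
  rw [pk, pk, norm_mul, norm_mul, norm_fourier, norm_fourier,
    ← RCLike.norm_conj (1 - conj (r * fourier 1 s) * fourier 1 t : ℂ)]
  congr 3
  simp only [map_sub, map_one, map_mul, Complex.conj_conj, Complex.conj_ofReal]
  ring

theorem pk_joint {r : ℝ} (h0 : 0 ≤ r) (h1 : r < 1) :
    Continuous fun p : X × X => pk (r * fourier 1 p.1) p.2 := by
  refine Continuous.div (by fun_prop) (by fun_prop) fun p => ?_
  refine pow_ne_zero _ (norm_ne_zero_iff.2 (pois_den ?_ 1 p.2))
  rwa [RCLike.norm_conj, norm_mul, norm_fourier, mul_one, Complex.norm_real,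
    Real.norm_of_nonneg h0]

/-- The Poisson integral of a character. -/
theorem pois_int {r : ℝ} (h0 : 0 ≤ r) (h1 : r < 1) (n : ℤ) (t : X) :
    ∫ s : X, (pk (r * fourier 1 s) t : ℂ) * fourier n s ∂AddCircle.haarAddCircle =
      (r : ℂ) ^ n.natAbs * fourier n t := by
  have hz : ‖(r * fourier 1 t : ℂ)‖ < 1 := by
    rwa [norm_mul, norm_fourier, mul_one, Complex.norm_real, Real.norm_of_nonneg h0]
  simp only [pk_symm r _ t]
  obtain ⟨k, rfl | rfl⟩ := Int.eq_nat_or_neg n
  · rw [pois hz, mul_pow, pois_pow, mul_one, Int.natAbs_natCast]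
  · rw [pois_neg hz, map_mul, Complex.conj_ofReal, mul_pow, ← map_pow, pois_pow, mul_one,
      fourier_neg, Int.natAbs_neg, Int.natAbs_natCast]

end Pool.Agent.P.MP_f981b0_an.CD
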