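import Pool.Agent.P.MP_f981b0_an.CD.Base

/-! Package Polar: polar decomposition of a functional. -/

set_option autoImplicit false

open MeasureTheory Filter Topology ContinuousLinearMap
open scoped ComplexConjugate CompactlySupported

noncomputable section

namespace Pool.Agent.P.MP_f981b0_an.CD

universe u

/-- The pairs of a real function and a complex function that it dominates. -/
def polarCone : PointedCone ℝ (C(X, ℝ) × C(X, ℂ)) where
  carrier := {p | ∀ t, ‖p.2 t‖ ≤ p.1 t}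
  add_mem' := fun {p q} hp hq t => (norm_add_le _ _).trans (add_le_add (hp t) (hq t))
  zero_mem' := fun t => by simp
  smul_mem' := fun c p hp t => by
    change ‖(c : ℝ) • p.2 t‖ ≤ (c : ℝ) • p.1 t
    rw [norm_smul, Real.norm_of_nonneg c.2, smul_eq_mul]
    exact mul_le_mul_of_nonneg_left (hp t) c.2

/-- The pairs whose first entry is constant. -/
def polarDom : Submodule ℝ (C(X, ℝ) × C(X, ℂ)) where
  carrier := {p | ∀ t, p.1 t = p.1 0}
  add_mem' := fun {p q} hp hq t => by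
    change p.1 t + q.1 t = p.1 0 + q.1 0
    rw [hp t, hq t]
  zero_mem' := fun _ => rfl
  smul_mem' := fun c p hp t => by
    change c • p.1 t = c • p.1 0
    rw [hp t]

/-- The functional that is extended. -/
def polarFun (φ : C(X, ℂ) →L[ℂ] ℂ) : (C(X, ℝ) × C(X, ℂ)) →ₗ[ℝ] ℝ where
  toFun p := p.1 0 * ‖φ‖ - (φ p.2).re
  map_add' p q := by
    simp only [Prod.fst_add, Prod.snd_add, ContinuousMap.add_apply, map_add, Complex.add_re]
    ring
  map_smul' c p := by
    have h : φ (c • p.2) = (c : ℂ) * φ p.2 := by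
      rw [φ.map_smul_of_tower, Complex.real_smul]
    simp only [Prod.smul_fst, Prod.smul_snd, ContinuousMap.smul_apply, smul_eq_mul, h,
      RingHom.id_apply, Complex.re_ofReal_mul]
    ring

theorem polar_pos (φ : C(X, ℂ) →L[ℂ] ℂ) :
    ∃ l : C(X, ℝ) →ₗ[ℝ] ℝ, l 1 = ‖φ‖ ∧
      ∀ (h : C(X, ℝ)) (g : C(X, ℂ)), (∀ t, ‖g t‖ ≤ h t) → (φ g).re ≤ l h := by
  obtain ⟨G, h1, h2⟩ := riesz_extension polarCone ((polarFun φ).toPMap polarDom)
    (fun x hx => by
      change 0 ≤ x.1.1 0 * ‖φ‖ - (φ x.1.2).re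
      have h0 : 0 ≤ x.1.1 0 := (norm_nonneg _).trans (hx 0)
      have h3 : ‖x.1.2‖ ≤ x.1.1 0 :=
        (ContinuousMap.norm_le _ h0).2 fun t => (hx t).trans (x.2 t).le
      have h4 : (φ x.1.2).re ≤ ‖φ‖ * ‖x.1.2‖ := (Complex.re_le_norm _).trans (φ.le_opNorm _)
      have h5 := mul_le_mul_of_nonneg_left h3 (norm_nonneg φ)
      linarith [mul_comm (x.1.1 0) ‖φ‖])
    (fun y => ⟨⟨(ContinuousMap.const X ‖y.1‖, -y.2), fun _ => rfl⟩, fun t => by
      change ‖-y.2 t + y.2 t‖ ≤ ‖y.1‖ + y.1 t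
      have h3 := y.1.norm_coe_le_norm t
      rw [Real.norm_eq_abs] at h3
      rw [neg_add_cancel, norm_zero]
      linarith [neg_abs_le (y.1 t)]⟩)
  refine ⟨G ∘ₗ LinearMap.inl ℝ _ _, ?_, fun h g hg => ?_⟩
  · have h3 := h1 ⟨(1, 0), fun _ => rfl⟩
    change G (1, 0) = (1 : C(X, ℝ)) 0 * ‖φ‖ - (φ 0).re at h3
    change G (1, 0) = _
    rw [h3]
    simp
  · have h3 := h1 ⟨(0, g), fun _ => rfl⟩
    change G (0, g) = (0 : C(X, ℝ)) 0 * ‖φ‖ - (φ g).re at h3
    have h4 := h2 (h, g) hg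
    have h5 : G (h, g) = G (h, 0) + G (0, g) := by
      rw [← map_add]
      simp
    change _ ≤ G (h, 0)
    simp only [ContinuousMap.zero_apply, zero_mul, zero_sub] at h3
    linarith

theorem polar_meas (φ : C(X, ℂ) →L[ℂ] ℂ) :
    ∃ (L : Measure X) (_ : IsFiniteMeasure L), L.real Set.univ = ‖φ‖ ∧
      ∀ f : C(X, ℂ), ‖φ f‖ ≤ ∫ t, ‖f t‖ ∂L := by
  obtain ⟨l, h1, h2⟩ := polar_pos φ
  have hpos : ∀ g : C(X, ℝ), (∀ t, 0 ≤ g t) → 0 ≤ l g := fun g hg => by
    simpa using h2 g 0 fun t => by simpa using hg t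
  let Λ : C_c(X, ℝ) →ₚ[ℝ] ℝ :=
    { toFun := fun g => l g.toContinuousMap
      map_add' := fun g g' => map_add l g.toContinuousMap g'.toContinuousMap
      map_smul' := fun a g => map_smul l a g.toContinuousMap
      monotone' := fun g g' hgg' => by
        have := hpos (g'.toContinuousMap - g.toContinuousMap) fun x => sub_nonneg.2 (hgg' x)
        rw [map_sub] at this
        exact sub_nonneg.1 this }
  have hint : ∀ g : C(X, ℝ), ∫ x, g x ∂(RealRMK.rieszMeasure Λ) = l g := fun g =>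
    RealRMK.integral_rieszMeasure Λ ⟨g, HasCompactSupport.of_compactSpace _⟩
  refine ⟨RealRMK.rieszMeasure Λ, inferInstance, ?_, fun f => ?_⟩
  · rw [← h1, ← hint]
    simp
  · obtain ⟨c, hc, hc'⟩ := Complex.exists_norm_eq_mul_self (φ f)
    have h3 := h2 ⟨fun t => ‖f t‖, f.continuous.norm⟩ (c • f) fun t => by
      simp [hc]
    rw [← hint, map_smul, smul_eq_mul, ← hc', Complex.ofReal_re] at h3
    exact h3

theorem polar_var {L : Measure X} [IsFiniteMeasure L] (a : K L) (c : ℝ) :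
    ∫ t, (‖a t‖ - c) ^ 2 ∂L =
      ‖a‖ ^ 2 - 2 * c * ∫ t, ‖a t‖ ∂L + c ^ 2 * L.real Set.univ := by
  have h1 : Integrable (fun t => ‖a t‖) L := ((Lp.memLp a).integrable one_le_two).norm
  have h2 : (fun t => (‖a t‖ - c) ^ 2) = fun t => (‖a t‖ ^ 2 - 2 * c * ‖a t‖) + c ^ 2 := by
    funext t
    ring
  have h3 : Integrable (fun t => ‖a t‖ ^ 2 - 2 * c * ‖a t‖) L := (int_sq a).sub (h1.const_mul _)
  rw [h2, integral_add h3 (integrable_const _),
    integral_sub (int_sq a) (h1.const_mul _), integral_const_mul, integral_const, norm_sq,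
    smul_eq_mul, mul_comm (L.real _)]

theorem polar_cs {L : Measure X} [IsFiniteMeasure L] (a : K L) :
    ∫ t, ‖a t‖ ∂L ≤ √(L.real Set.univ) * ‖a‖ := by
  have h1 := discrim_le_zero (a := L.real Set.univ) (b := -(2 * ∫ t, ‖a t‖ ∂L)) (c := ‖a‖ ^ 2)
    fun c => by
      have h2 : 0 ≤ ∫ t, (‖a t‖ - c) ^ 2 ∂L := integral_nonneg fun t => sq_nonneg _
      rw [polar_var] at h2
      linarith
  rw [discrim] at h1
  refine (le_abs_self _).trans (abs_le_of_sq_le_sq ?_ (by positivity))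
  rw [mul_pow, Real.sq_sqrt measureReal_nonneg]
  linarith

theorem polar (φ : C(X, ℂ) →L[ℂ] ℂ) :
    ∃ (L : Measure X) (_ : IsFiniteMeasure L) (θ : X → ℂ), Measurable θ ∧ (∀ t, ‖θ t‖ = 1) ∧
      L.real Set.univ = ‖φ‖ ∧ ∀ f : C(X, ℂ), φ f = ∫ t, conj (θ t) * f t ∂L := by
  classical
  obtain ⟨L, hL, h1, h2⟩ := polar_meas φ
  set e : C(X, ℂ) →ₗ[ℂ] K L := (ContinuousMap.toLp (E := ℂ) 2 L ℂ).toLinearMap with he
  have hd : DenseRange e := ContinuousMap.toLp_denseRange ℂ L ℂ (by simp)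
  have hae : ∀ f : C(X, ℂ), ∀ᵐ t ∂L, e f t = f t := fun f =>
    ContinuousMap.coeFn_toLp (p := 2) (μ := L) (𝕜 := ℂ) f
  have hb : ∀ f : C(X, ℂ), ‖φ.toLinearMap f‖ ≤ √(L.real Set.univ) * ‖e f‖ := fun f => by
    refine (h2 f).trans (le_trans (le_of_eq ?_) (polar_cs (e f)))
    exact integral_congr_ae ((hae f).mono fun t ht => by simp only [ht])
  set a : K L := (InnerProductSpace.toDual ℂ (K L)).symm (φ.toLinearMap.extendOfNorm e) with ha
  have hna : ‖a‖ ≤ √(L.real Set.univ) := by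
    rw [ha, LinearIsometryEquiv.norm_map]
    exact LinearMap.opNorm_extendOfNorm_le hd (Real.sqrt_nonneg _) hb
  have hφ : ∀ f : C(X, ℂ), φ f = ∫ t, conj (a t) * f t ∂L := fun f => by
    have h3 : inner ℂ a (e f) = φ f := by
      rw [ha, InnerProductSpace.toDual_symm_apply, LinearMap.extendOfNorm_eq hd ⟨_, hb⟩]
      rfl
    rw [← h3, inner_eq]
    exact integral_congr_ae ((hae f).mono fun t ht => by simp only [ht])
  have hi : Integrable (fun t => ‖a t‖) L := ((Lp.memLp a).integrable one_le_two).norm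
  have h4 : ‖φ‖ ≤ ∫ t, ‖a t‖ ∂L := by
    refine φ.opNorm_le_bound (integral_nonneg fun t => norm_nonneg _) fun f => ?_
    rw [hφ, ← integral_mul_const]
    refine norm_integral_le_of_norm_le (hi.mul_const _) (Eventually.of_forall fun t => ?_)
    rw [norm_mul, RCLike.norm_conj]
    exact mul_le_mul_of_nonneg_left (f.norm_coe_le_norm t) (norm_nonneg _)
  have h5 : ∫ t, (‖a t‖ - 1) ^ 2 ∂L = 0 := by
    refine le_antisymm ?_ (integral_nonneg fun t => sq_nonneg _)
    have h6 := pow_le_pow_left₀ (norm_nonneg _) hna 2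
    rw [Real.sq_sqrt measureReal_nonneg] at h6
    rw [polar_var]
    linarith
  have h6 : Integrable (fun t => (‖a t‖ - 1) ^ 2) L := by
    have h7 : (fun t => (‖a t‖ - 1) ^ 2) = fun t => (‖a t‖ ^ 2 - 2 * ‖a t‖) + 1 := by
      funext t
      ring
    rw [h7]
    exact ((int_sq a).sub (hi.const_mul _)).add (integrable_const _)
  have h7 := (integral_eq_zero_iff_of_nonneg (fun t => sq_nonneg _) h6).1 h5
  have hm : Measurable (a : X → ℂ) := (Lp.stronglyMeasurable a).measurable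
  refine ⟨L, hL, fun t => if ‖a t‖ = 1 then a t else 1, ?_, fun t => ?_, h1, fun f => ?_⟩
  · exact Measurable.ite (measurableSet_eq_fun hm.norm measurable_const) hm measurable_const
  · by_cases h : ‖a t‖ = 1
    · simp only [if_pos h]
      exact h
    · simp only [if_neg h, norm_one]
  · rw [hφ]
    refine integral_congr_ae (h7.mono fun t ht => ?_)
    have h8 : ‖a t‖ = 1 := sub_eq_zero.1 (pow_eq_zero_iff two_ne_zero |>.1 ht)
    simp only [if_pos h8]

end Pool.Agent.P.MP_f981b0_an.CD
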