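import Pool.Agent.P.MP_f981b0_an.CD.Base

/-! Package Red1: operators with compact defect and no invariant subspace. -/

set_option autoImplicit false

open MeasureTheory Filter Topology ContinuousLinearMap
open scoped ComplexConjugate

noncomputable section

namespace Pool.Agent.P.MP_f981b0_an.CD

universe u

variable {H : Type u} [NormedAddCommGroup H] [InnerProductSpace ℂ H] [CompleteSpace H]

theorem hasSub_of_hyper {T : H →L[ℂ] H} {N : Submodule ℂ H} (h1 : IsClosed (N : Set H))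
    (h2 : N ≠ ⊥) (h3 : N ≠ ⊤) (h4 : ∀ A : H →L[ℂ] H, A * T = T * A → ∀ x ∈ N, A x ∈ N) :
    HasSub T := by
  refine ⟨N, h1, h2, h3, h4 T rfl, fun z hz x hx => ?_⟩
  obtain ⟨u, hu⟩ := hz
  have c1 : Commute (u : H →L[ℂ] H) T := by
    rw [hu]
    exact (Commute.refl T).sub_left ((Commute.one_left T).smul_left z)
  have c2 := h4 _ c1.units_inv_left.eq _ hx
  have c3 : T x - z • x = (u : H →L[ℂ] H) x := by
    rw [hu]
    rfl
  rwa [c3, ← mul_apply_eq_comp, Units.inv_mul] at c2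

theorem hasSub_of_scalar (hH : 1 < Module.rank ℂ H) (c : ℂ) : HasSub (c • (1 : H →L[ℂ] H)) := by
  have hnt : Nontrivial H := rank_pos_iff_nontrivial.1 (zero_lt_one.trans hH)
  obtain ⟨x, hx⟩ := exists_ne (0 : H)
  refine ⟨Submodule.span ℂ {x}, Submodule.closed_of_finiteDimensional _, by simpa using hx,
    fun h => ?_, fun y hy => Submodule.smul_mem _ c hy, fun z hz y hy => ?_⟩
  · have h1 : Module.rank ℂ (Submodule.span ℂ ({x} : Set H)) ≤ 1 := by
      simpa using rank_span_le (R := ℂ) ({x} : Set H)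
    rw [h, rank_top] at h1
    exact absurd hH (not_lt.2 h1)
  · have h1 : c - z ≠ 0 := by
      intro h
      rw [← sub_smul, h, zero_smul, isUnit_zero_iff] at hz
      exact hx (by simpa using (DFunLike.congr_fun hz x).symm)
    have h2 : (c • (1 : H →L[ℂ] H)) y - z • y = (c - z) • y := by
      rw [sub_smul]
      rfl
    rw [h2] at hy
    exact (Submodule.smul_mem_iff _ h1).1 hy

/-- The Fredholm alternative. -/
theorem red1_fred {C : H →L[ℂ] H} (hC : IsCompactOperator C) (h : ∀ x, x + C x = 0 → x = 0) :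
    IsUnit (1 + C) := by
  rcases hC.hasEigenvalue_or_mem_resolventSet (μ := -1) (by norm_num) with h1 | h1
  · obtain ⟨x, hx⟩ := h1.exists_hasEigenvector
    have h2 : C x = (-1 : ℂ) • x := hx.apply_eq_smul
    exact absurd (h x (by rw [h2]; simp)) hx.2
  · have h2 : algebraMap ℂ (H →L[ℂ] H) (-1) - C = -(1 + C) := by
      rw [map_neg, map_one]
      abel
    rw [spectrum.mem_resolventSet_iff, h2] at h1
    exact (IsUnit.neg_iff _).1 h1

/-- An operator without invariant subspaces has no eigenvalues. -/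
theorem red1_inj (hH : 1 < Module.rank ℂ H) {T : H →L[ℂ] H} (hn : ¬ HasSub T) (z : ℂ) (x : H)
    (hx : T x - z • x = 0) : x = 0 := by
  by_contra h0
  refine hn ?_
  by_cases h : (T - z • (1 : H →L[ℂ] H)).ker = ⊤
  · have : T = z • (1 : H →L[ℂ] H) := by
      refine sub_eq_zero.1 (ContinuousLinearMap.ext fun y => ?_)
      have hy : y ∈ (T - z • (1 : H →L[ℂ] H)).ker := h ▸ Submodule.mem_top
      exact hy
    rw [this]
    exact hasSub_of_scalar hH z
  · refine hasSub_of_hyper (T - z • (1 : H →L[ℂ] H)).isClosed_ker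
      ((Submodule.ne_bot_iff _).2 ⟨x, hx, h0⟩) h fun A hA y hy => ?_
    have h1 : T y - z • y = 0 := hy
    have h2 : T (A y) = A (T y) := (DFunLike.congr_fun hA y).symm
    change T (A y) - z • A y = 0
    rw [h2, ← map_smul, ← map_sub, h1, map_zero]

/-- An operator without invariant subspaces that has a left inverse is invertible. -/
theorem red1_unit (hH : 1 < Module.rank ℂ H) {T L : H →L[ℂ] H} (hn : ¬ HasSub T)
    (hL : L * T = 1) : IsUnit T := by
  have hnt : Nontrivial H := rank_pos_iff_nontrivial.1 (zero_lt_one.trans hH)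
  obtain ⟨x, hx⟩ := exists_ne (0 : H)
  have h1 : ∀ y, L (T y) = y := fun y => DFunLike.congr_fun hL y
  have h2 : ∀ y, T y ∈ (1 - T * L).ker := fun y => by
    change T y - T (L (T y)) = 0
    rw [h1, sub_self]
  by_cases h : (1 - T * L).ker = ⊤
  · have h3 : T * L = 1 := by
      refine (sub_eq_zero.1 (ContinuousLinearMap.ext fun y => ?_)).symm
      have hy : y ∈ (1 - T * L).ker := h ▸ Submodule.mem_top
      exact hy
    exact ⟨⟨T, L, h3, hL⟩, rfl⟩
  · refine absurd (hasSub_of_hyper (1 - T * L).isClosed_ker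
      ((Submodule.ne_bot_iff _).2 ⟨T x, h2 x, fun e => hx ?_⟩) h fun A hA y hy => ?_) hn
    · rw [← h1 x, e, map_zero]
    · have h3 : y - T (L y) = 0 := hy
      have h4 : A (T (L y)) = T (A (L y)) := DFunLike.congr_fun hA (L y)
      rw [sub_eq_zero.1 h3, h4]
      exact h2 _

theorem red1 (hH : 1 < Module.rank ℂ H) {T : H →L[ℂ] H}
    (hK : IsCompactOperator (1 - adjoint T * T : H →L[ℂ] H)) (hn : ¬ HasSub T) :
    (∀ z : ℂ, ‖z‖ < 1 → IsUnit (T - z • (1 : H →L[ℂ] H))) ∧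
      ∃ W ∈ unitary (H →L[ℂ] H), IsCompactOperator (T - W : H →L[ℂ] H) := by
  rw [← star_eq_adjoint] at hK
  have u1 : IsUnit (star T * T) := by
    have h1 := red1_fred (C := -(1 - star T * T)) hK.neg fun x hx => by
      have h2 : adjoint T (T x) = 0 := by
        rw [← hx, ← star_eq_adjoint]
        simp
      have h3 : inner ℂ (T x) (T x) = 0 := by
        rw [← adjoint_inner_left, h2, inner_zero_left]
      exact red1_inj hH hn 0 x (by rw [inner_self_eq_zero.1 h3, zero_smul, sub_zero])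
    rwa [neg_sub, add_sub_cancel] at h1
  have u2 : IsUnit T := by
    obtain ⟨u, hu⟩ := u1
    exact red1_unit hH hn (L := (u⁻¹ : (H →L[ℂ] H)ˣ) * star T)
      (by rw [mul_assoc, ← hu, Units.inv_mul])
  obtain ⟨A, a0, a1⟩ : ∃ A : H →L[ℂ] H, 0 ≤ A ∧ A * A = star T * T :=
    ⟨CFC.sqrt (star T * T), CFC.sqrt_nonneg _, CFC.sqrt_mul_sqrt_self _ (star_mul_self_nonneg T)⟩
  have a2 : star A = A := (IsSelfAdjoint.of_nonneg a0).star_eq
  obtain ⟨a, rfl⟩ : IsUnit A := isUnit_mul_self_iff.1 (a1 ▸ u1)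
  obtain ⟨b, hb⟩ : IsUnit (1 + (a : H →L[ℂ] H)) :=
    (isStrictlyPositive_one.add_nonneg a0).isUnit
  have a3 : star ((a⁻¹ : (H →L[ℂ] H)ˣ) : H →L[ℂ] H) * a = 1 := by
    rw [← a2, ← star_mul, Units.mul_inv, star_one]
  obtain ⟨W, hW⟩ : ∃ W : H →L[ℂ] H, W = T * (a⁻¹ : (H →L[ℂ] H)ˣ) := ⟨_, rfl⟩
  have w0 : IsUnit W := hW ▸ u2.mul (Units.isUnit _)
  have w1 : W ∈ unitary (H →L[ℂ] H) := by
    refine w0.mem_unitary_of_star_mul_self ?_
    rw [hW, star_mul, mul_assoc, ← mul_assoc (star T), ← a1, mul_assoc, Units.mul_inv, mul_one, a3]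
  have w2 : T - W = -(W * ((1 - star T * T) * (b⁻¹ : (H →L[ℂ] H)ˣ))) := by
    have e1 : 1 - star T * T = (1 - (a : H →L[ℂ] H)) * b := by
      rw [← a1, hb]
      noncomm_ring
    have e2 : W * a = T := by rw [hW, mul_assoc, Units.inv_mul, mul_one]
    rw [e1, mul_assoc, Units.mul_inv, mul_one, mul_sub, mul_one, e2, neg_sub]
  have w3 : IsCompactOperator (T - W : H →L[ℂ] H) := by
    rw [w2]
    exact ((hK.comp_clm ((b⁻¹ : (H →L[ℂ] H)ˣ) : H →L[ℂ] H)).clm_comp W).neg
  refine ⟨fun z hz => ?_, W, w1, w3⟩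
  obtain ⟨v, hv⟩ := unit_sub (U := W) (norm_map_of_mem_unitary w1)
    (fun y => ⟨star W y, DFunLike.congr_fun (Unitary.mul_star_self_of_mem w1) y⟩) hz
  have e : T - z • (1 : H →L[ℂ] H) = v * (1 + (v⁻¹ : (H →L[ℂ] H)ˣ) * (T - W)) := by
    rw [mul_add, mul_one, ← mul_assoc, Units.mul_inv, one_mul, hv]
    abel
  have h1 := red1_fred (C := ((v⁻¹ : (H →L[ℂ] H)ˣ) : H →L[ℂ] H) * (T - W))
    (w3.clm_comp ((v⁻¹ : (H →L[ℂ] H)ˣ) : H →L[ℂ] H)) fun x hx => by
      refine red1_inj hH hn z x ?_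
      have h2 : T x - z • x =
          (v : H →L[ℂ] H) (x + (((v⁻¹ : (H →L[ℂ] H)ˣ) : H →L[ℂ] H) * (T - W)) x) :=
        DFunLike.congr_fun e x
      rw [h2, hx, map_zero]
  rw [e]
  exact (Units.isUnit v).mul h1

end Pool.Agent.P.MP_f981b0_an.CD
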