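import Pool.Agent.P.MP_f981b0_an.CD.P1
import Pool.Agent.P.MP_f981b0_an.CD.Core
import Pool.Agent.P.MP_f981b0_an.CD.Red1
import Pool.Agent.P.MP_f981b0_an.PB.Main

/-! Package Red2: operators similar to a contraction. -/

set_option autoImplicit false

open MeasureTheory Filter Topology ContinuousLinearMap
open scoped ComplexConjugate

noncomputable section

namespace Pool.Agent.P.MP_f981b0_an.CD

universe u

variable {H : Type u} [NormedAddCommGroup H] [InnerProductSpace ℂ H] [CompleteSpace H]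

theorem refl_hilbert : Function.Surjective (NormedSpace.inclusionInDoubleDual ℂ H) := by
  intro Ψ
  let L : H →L[ℂ] ℂ := LinearMap.mkContinuous
    { toFun := fun x => (starRingEnd ℂ) (Ψ (InnerProductSpace.toDual ℂ H x))
      map_add' := fun x y => by simp
      map_smul' := fun c x => by simp [map_smulₛₗ] } ‖Ψ‖ fun x => by
        simpa using Ψ.le_opNorm (InnerProductSpace.toDual ℂ H x)
  obtain ⟨y, hy⟩ := (InnerProductSpace.toDual ℂ H).surjective L
  refine ⟨y, ?_⟩
  ext e
  obtain ⟨x, rfl⟩ := (InnerProductSpace.toDual ℂ H).surjective e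
  have h1 : inner ℂ y x = (starRingEnd ℂ) (Ψ (InnerProductSpace.toDual ℂ H x)) :=
    congrArg (fun L : StrongDual ℂ H => L x) hy
  rw [NormedSpace.dual_def, InnerProductSpace.toDual_apply_apply, ← inner_conj_symm, h1]
  simp

section aux

variable {E : Type u} [NormedAddCommGroup E] [InnerProductSpace ℂ E] [CompleteSpace E]

omit [CompleteSpace H] [CompleteSpace E] in
theorem red2_shift (e : H ≃L[ℂ] E) (T : H →L[ℂ] H) (z : ℂ) :
    e.conjContinuousAlgEquiv (T - z • (1 : H →L[ℂ] H)) =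
      e.conjContinuousAlgEquiv T - z • (1 : E →L[ℂ] E) := by
  rw [map_sub, map_smul, map_one]

omit [CompleteSpace H] [CompleteSpace E] in
theorem red2_pull (e : H ≃L[ℂ] E) {T : H →L[ℂ] H} (h : HasSub (e.conjContinuousAlgEquiv T)) :
    HasSub T := by
  obtain ⟨N, h1, h2, h3, h4, h5⟩ := h
  refine ⟨N.comap (e : H →ₗ[ℂ] E), h1.preimage e.continuous, fun h0 => h2 ?_, fun h0 => h3 ?_,
    fun x hx => ?_, fun z hz x hx => ?_⟩
  · refine (Submodule.eq_bot_iff _).2 fun y hy => ?_
    have : e.symm y = 0 := (Submodule.eq_bot_iff _).1 h0 _ (by simpa using hy)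
    simpa using congrArg e this
  · refine Submodule.eq_top_iff'.2 fun y => ?_
    have : e.symm y ∈ N.comap (e : H →ₗ[ℂ] E) := h0 ▸ Submodule.mem_top
    simpa using this
  · have := h4 (e x) hx
    simpa using this
  · refine h5 z ?_ (e x) ?_
    · rw [← red2_shift]
      exact hz.map e.conjContinuousAlgEquiv
    · simpa using hx

theorem red2_con (hE : 1 < Module.rank ℂ E) {T : E →L[ℂ] E} (hT : ∀ x, ‖T x‖ ≤ ‖x‖)
    (hu : ∀ z : ℂ, ‖z‖ < 1 → IsUnit (T - z • (1 : E →L[ℂ] E))) (hn : ¬ HasSub T) : Con T := by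
  have hM : ∀ n : ℕ, ‖T ^ n‖ ≤ 1 := by
    intro n
    refine opNorm_le_bound _ zero_le_one fun x => ?_
    rw [one_mul]
    induction n with
    | zero => simp
    | succ n ih =>
      rw [pow_succ']
      exact (hT _).trans ih
  have hs : ∀ c : ℂ, T ≠ c • 1 := fun c h => hn (h ▸ hasSub_of_scalar hE c)
  have hh : ¬ PB.HasHyp T := fun ⟨N, h1, h2, h3, h4⟩ => hn (hasSub_of_hyper h1 h2 h3 h4)
  refine ⟨hT, fun x => ?_, fun x => ?_, hu⟩
  · by_contra h
    exact hh (PB.hyp_of_orbit refl_hilbert hM h hs)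
  · have h1 : Tendsto (fun n : ℕ => (InnerProductSpace.toDual ℂ E x).comp (T ^ n)) atTop (𝓝 0) := by
      by_contra h
      exact hh (PB.hyp_of_dual_orbit refl_hilbert hM h hs)
    have h2 : ∀ n : ℕ, (InnerProductSpace.toDual ℂ E x).comp (T ^ n) =
        InnerProductSpace.toDual ℂ E ((adjoint T ^ n) x) := by
      intro n
      ext y
      have h3 : adjoint T ^ n = adjoint (T ^ n) := by
        rw [← star_eq_adjoint, ← star_eq_adjoint, star_pow]
      simp [h3, adjoint_inner_left]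
    rw [tendsto_zero_iff_norm_tendsto_zero] at h1 ⊢
    simpa [h2] using h1

omit [CompleteSpace H] [CompleteSpace E] in
theorem red2_op (e : H ≃L[ℂ] E) (T : (H →L[ℂ] H)ˣ) (c : ℤ →₀ ℂ) :
    op (Units.map (e.conjContinuousAlgEquiv : (H →L[ℂ] H) →* (E →L[ℂ] E)) T) c =
      e.conjContinuousAlgEquiv (op T c) := by
  unfold op Finsupp.sum
  rw [map_sum]
  refine Finset.sum_congr rfl fun n _ => ?_
  beta_reduce
  rw [map_smul, ← map_zpow]
  rfl

theorem red2_sim (hH : 1 < Module.rank ℂ H) {T : H →L[ℂ] H}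
    (hK : IsCompactOperator (1 - adjoint T * T : H →L[ℂ] H)) (e : H ≃L[ℂ] E)
    (hT : ∀ x, ‖e (T x)‖ ≤ ‖e x‖) : HasSub T := by
  by_contra hn
  obtain ⟨hu, W, hW, hc⟩ := red1 hH hK hn
  have h0 : IsUnit T := by simpa using hu 0 (by simp)
  obtain ⟨Tu, rfl⟩ := h0
  obtain ⟨x, y, t, hx, hy, hb⟩ := pair hH Tu W hW hc
  have hE : 1 < Module.rank ℂ E := e.toLinearEquiv.rank_eq ▸ hH
  have hn' : ¬ HasSub (e.conjContinuousAlgEquiv (Tu : H →L[ℂ] H)) := fun h => hn (red2_pull e h)
  have hcon : Con (e.conjContinuousAlgEquiv (Tu : H →L[ℂ] H)) := by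
    refine red2_con hE (fun v => ?_) (fun z hz => ?_) hn'
    · simpa using hT (e.symm v)
    · rw [← red2_shift]
      exact (hu z hz).map e.conjContinuousAlgEquiv
  refine hn' (core_sub
    (Units.map (e.conjContinuousAlgEquiv : (H →L[ℂ] H) →* (E →L[ℂ] E)) Tu) hcon (x := e x)
    (y := adjoint (e.symm : E →L[ℂ] H) y) (t := t) (by simpa using hx) (fun h => hy ?_)
    fun c => ?_)
  · have h1 : inner ℂ (adjoint (e.symm : E →L[ℂ] H) y) (e y) = inner ℂ y y := by
      rw [adjoint_inner_left]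
      simp
    rw [h, inner_zero_left] at h1
    exact inner_self_eq_zero.1 h1.symm
  · rw [red2_op, adjoint_inner_left]
    simpa using hb c

end aux

theorem red2 (hH : 1 < Module.rank ℂ H) {T : H →L[ℂ] H}
    (hK : IsCompactOperator (1 - adjoint T * T : H →L[ℂ] H))
    {H' : Type u} [NormedAddCommGroup H'] [InnerProductSpace ℂ H'] [CompleteSpace H']
    (G : H →L[ℂ] H') {c : ℝ} (hc : 0 < c) (hG : ∀ x, c * ‖x‖ ≤ ‖G x‖)
    (hT : ∀ x, ‖G (T x)‖ ≤ ‖G x‖) : HasSub T := by
  have ha : AntilipschitzWith ⟨c⁻¹, by positivity⟩ G :=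
    G.antilipschitz_of_bound fun x => by
      have := hG x
      show ‖x‖ ≤ c⁻¹ * ‖G x‖
      rw [le_inv_mul_iff₀ hc]
      exact this
  have hcl : IsClosed (Set.range G) := ha.isClosed_range G.uniformContinuous
  have : CompleteSpace G.range := hcl.completeSpace_coe
  exact red2_sim hH hK (G.equivRange ha.injective hcl) fun x => hT x

end Pool.Agent.P.MP_f981b0_an.CD
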