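import Pool.Agent.P.MP_f981b0_an.CD.Base

/-! Package Rinv: invariance under resolvents. -/

set_option autoImplicit false

open MeasureTheory Filter Topology ContinuousLinearMap
open scoped ComplexConjugate

noncomputable section

namespace Pool.Agent.P.MP_f981b0_an.CD

universe u

variable {B : Type*} [NormedAddCommGroup B] [NormedSpace ℂ B] [CompleteSpace B]

/-- Neumann series inside a closed invariant subspace. -/
theorem rinv_neu {A : B →L[ℂ] B} {V : Submodule ℂ B} (hV : IsClosed (V : Set B))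
    (hi : ∀ x ∈ V, A x ∈ V) (hA : ‖A‖ < 1) : ∀ x ∈ V, ∃ y ∈ V, y - A y = x := by
  intro x hx
  have h1 : ∀ n : ℕ, (A ^ n) x ∈ V := by
    intro n
    induction n with
    | zero => simpa using hx
    | succ n ih => rw [pow_succ']; exact hi _ ih
  have h2 : HasSum (fun n : ℕ => (A ^ n) x) ((∑' n : ℕ, A ^ n) x) :=
    (summable_geometric_of_norm_lt_one hA).hasSum.mapL (ContinuousLinearMap.apply ℂ B x)
  refine ⟨(∑' n : ℕ, A ^ n) x, hV.mem_of_tendsto h2
    (Eventually.of_forall fun s => V.sum_mem fun n _ => h1 n), ?_⟩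
  have h3 := congrArg (fun C : B →L[ℂ] B => C x) (mul_neg_geom_series A hA)
  simpa using h3

omit [CompleteSpace B] in
theorem rinv_inj {W : B →L[ℂ] B} {z : ℂ} (hz : IsUnit (W - z • (1 : B →L[ℂ] B))) {x y : B}
    (h : W y - z • y = W x - z • x) : y = x := by
  have h1 : ∀ v, Ring.inverse (W - z • (1 : B →L[ℂ] B)) (W v - z • v) = v := fun v => by
    have := congrArg (fun C : B →L[ℂ] B => C v) (Ring.inverse_mul_cancel _ hz)
    simpa using this
  rw [← h1 y, h, h1]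

/-- Moving the spectral parameter by a small step. -/
theorem rinv_move {W : B →L[ℂ] B} {V : Submodule ℂ B} (hV : IsClosed (V : Set B)) {a b : ℂ}
    (ha : IsUnit (W - a • (1 : B →L[ℂ] B))) (h0 : ∀ x ∈ V, ∃ y ∈ V, W y - a • y = x)
    (hb : ‖b - a‖ * ‖Ring.inverse (W - a • (1 : B →L[ℂ] B))‖ < 1) :
    ∀ x ∈ V, ∃ y ∈ V, W y - b • y = x := by
  set R := Ring.inverse (W - a • (1 : B →L[ℂ] B)) with hR
  have h1 : ∀ v, W (R v) - a • R v = v := fun v => by
    have := congrArg (fun C : B →L[ℂ] B => C v) (Ring.mul_inverse_cancel _ ha)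
    simpa using this
  have h2 : ∀ v ∈ V, R v ∈ V := fun v hv => by
    obtain ⟨y, hy, e⟩ := h0 v hv
    rw [← rinv_inj ha (e.trans (h1 v).symm)]
    exact hy
  intro x hx
  obtain ⟨y, hy, e⟩ := rinv_neu (A := (b - a) • R) hV (fun v hv => V.smul_mem _ (h2 v hv))
    (by rwa [norm_smul]) (R x) (h2 x hx)
  refine ⟨y, hy, ?_⟩
  have h3 := h1 x
  rw [← e, _root_.smul_apply, map_sub, map_smul, smul_sub, smul_comm a (b - a),
    sub_sub_sub_comm, ← smul_sub, h1, sub_smul] at h3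
  rw [← h3]
  abel

theorem rinv {W : B →L[ℂ] B} {V : Submodule ℂ B} (hV : IsClosed (V : Set B))
    (hi : ∀ x ∈ V, W x ∈ V) {Ω : Set ℂ} (hΩ : IsPreconnected Ω)
    (hu : ∀ z ∈ Ω, IsUnit (W - z • (1 : B →L[ℂ] B))) {z₀ : ℂ} (hz₀ : z₀ ∈ Ω)
    (h0 : ∀ x ∈ V, ∃ y ∈ V, W y - z₀ • y = x) :
    ∀ z ∈ Ω, ∀ x ∈ V, ∃ y ∈ V, W y - z • y = x := by
  intro z hz
  have _ := hi
  refine hΩ.induction₂' (fun a b => (∀ x ∈ V, ∃ y ∈ V, W y - a • y = x) →
    ∀ x ∈ V, ∃ y ∈ V, W y - b • y = x) (fun a ha => ?_) (fun _ _ _ _ _ _ e1 e2 => e2 ∘ e1)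
    hz₀ hz h0
  have c1 : ContinuousAt (fun b : ℂ => Ring.inverse (W - b • (1 : B →L[ℂ] B))) a := by
    obtain ⟨v, hv⟩ := hu a ha
    have := NormedRing.inverse_continuousAt v
    rw [hv] at this
    exact ContinuousAt.comp (f := fun b : ℂ => W - b • (1 : B →L[ℂ] B)) this (by fun_prop)
  have c2 : ContinuousAt (fun b : ℂ => ‖b - a‖ * ‖Ring.inverse (W - a • (1 : B →L[ℂ] B))‖) a := by
    fun_prop
  have c3 : ContinuousAt (fun b : ℂ => ‖a - b‖ * ‖Ring.inverse (W - b • (1 : B →L[ℂ] B))‖) a :=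
    ContinuousAt.mul (by fun_prop) c1.norm
  filter_upwards [self_mem_nhdsWithin,
    mem_nhdsWithin_of_mem_nhds (c2.eventually_lt continuousAt_const (by simp : _ < (1 : ℝ))),
    mem_nhdsWithin_of_mem_nhds (c3.eventually_lt continuousAt_const (by simp : _ < (1 : ℝ)))]
    with b hb d1 d2
  exact ⟨fun h => rinv_move hV (hu a ha) h d1, fun h => rinv_move hV (hu b hb) h d2⟩

theorem rbig {W : B →L[ℂ] B} {V : Submodule ℂ B} (hV : IsClosed (V : Set B))
    (hi : ∀ x ∈ V, W x ∈ V) {z : ℂ} (hz : ‖W‖ < ‖z‖) :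
    ∀ x ∈ V, ∃ y ∈ V, W y - z • y = x := by
  intro x hx
  have h0 : 0 < ‖z‖ := (norm_nonneg W).trans_lt hz
  have h1 : z ≠ 0 := norm_pos_iff.1 h0
  obtain ⟨y, hy, e⟩ := rinv_neu (A := z⁻¹ • W) hV (fun v hv => V.smul_mem _ (hi v hv))
    (by rwa [norm_smul, norm_inv, inv_mul_lt_iff₀ h0, mul_one]) (-(z⁻¹ • x))
    (V.neg_mem (V.smul_mem _ hx))
  refine ⟨y, hy, ?_⟩
  have h2 := congrArg (fun v => -(z • v)) e
  simpa [smul_sub, smul_smul, h1] using h2

/-- For a contraction without spectrum in the open disc, invariance under the inverse gives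
invariance under all resolvents. -/
theorem rall {W : B →L[ℂ] B} (hW : ∀ x, ‖W x‖ ≤ ‖x‖)
    (hu : ∀ z : ℂ, ‖z‖ < 1 → IsUnit (W - z • (1 : B →L[ℂ] B))) {V : Submodule ℂ B}
    (hV : IsClosed (V : Set B)) (hi : ∀ x ∈ V, W x ∈ V) (h0 : ∀ x ∈ V, ∃ y ∈ V, W y = x)
    {z : ℂ} (hz : IsUnit (W - z • (1 : B →L[ℂ] B))) {x : B} (hx : W x - z • x ∈ V) : x ∈ V := by
  have key : ∃ y ∈ V, W y - z • y = W x - z • x := by
    rcases le_or_gt ‖z‖ 1 with h | h
    · refine rinv hV hi (Ω := insert z (Metric.ball 0 1)) ?_ ?_ (z₀ := 0)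
        (Or.inr (Metric.mem_ball_self one_pos)) (by simpa using h0) z (Or.inl rfl) _ hx
      · refine (convex_ball (0 : ℂ) 1).isPreconnected.subset_closure (Set.subset_insert _ _) ?_
        rw [closure_ball _ one_ne_zero]
        exact Set.insert_subset (by simpa using h) Metric.ball_subset_closedBall
      · rintro w (rfl | hw)
        · exact hz
        · exact hu w (by simpa using hw)
    · exact rbig hV hi ((W.opNorm_le_bound zero_le_one (by simpa using hW)).trans_lt h) _ hx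
  obtain ⟨y, hy, e⟩ := key
  exact rinv_inj hz e ▸ hy

end Pool.Agent.P.MP_f981b0_an.CD
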