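import Pool.Agent.P.MP_f981b0_an.CD.Dom
import Pool.Agent.P.MP_f981b0_an.CD.Pois

/-! Package Wand: vectors whose spectral measure is harmonic measure. -/

set_option autoImplicit false

open MeasureTheory Filter Topology ContinuousLinearMap
open scoped ComplexConjugate

noncomputable section

namespace Pool.Agent.P.MP_f981b0_an.CD

universe u

variable {M : Type u} [NormedAddCommGroup M] [InnerProductSpace ℂ M] [CompleteSpace M]

variable {L : Measure X} [IsFiniteMeasure L]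

theorem wand_inner_pow {S : M →L[ℂ] M} (hS : ∀ m, ‖S m‖ = ‖m‖) (n : ℕ) (x y : M) :
    inner ℂ ((S ^ n) x) ((S ^ n) y) = inner ℂ x y := by
  induction n with
  | zero => rfl
  | succ n ih => rw [pow_succ', mul_apply_eq_comp, mul_apply_eq_comp,
      inner_iso hS, ih]

theorem wand_cross {S : M →L[ℂ] M} (hS : ∀ m, ‖S m‖ = ‖m‖) {e₀ e₁ : M}
    (h01 : ∀ n : ℕ, inner ℂ e₀ ((S ^ n) e₁) = 0) (h10 : ∀ n : ℕ, inner ℂ e₁ ((S ^ n) e₀) = 0)
    (a b : ℕ) : inner ℂ ((S ^ a) e₀) ((S ^ b) e₁) = 0 := by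
  rcases le_total a b with h | h
  · obtain ⟨k, rfl⟩ := Nat.exists_eq_add_of_le h
    rw [pow_add, mul_apply_eq_comp, wand_inner_pow hS, h01]
  · obtain ⟨k, rfl⟩ := Nat.exists_eq_add_of_le h
    rw [pow_add, mul_apply_eq_comp, wand_inner_pow hS, ← inner_conj_symm, h10, map_zero]

theorem wand_mom {S : M →L[ℂ] M} (hS : ∀ m, ‖S m‖ = ‖m‖) {z : ℂ} (hz : ‖z‖ < 1) {e : M}
    (h : ∀ n : ℕ, inner ℂ e ((S ^ n) e) = z ^ n * inner ℂ e e) (a b : ℕ) :
    inner ℂ ((S ^ a) e) ((S ^ b) e) =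
      (∫ t, (pk z t : ℂ) * fourier ((b : ℤ) - a) t ∂AddCircle.haarAddCircle) * inner ℂ e e := by
  rcases le_total a b with hab | hab
  · obtain ⟨k, rfl⟩ := Nat.exists_eq_add_of_le hab
    rw [pow_add, mul_apply_eq_comp, wand_inner_pow hS, h,
      show ((a + k : ℕ) : ℤ) - a = k by push_cast; ring, pois hz]
  · obtain ⟨k, rfl⟩ := Nat.exists_eq_add_of_le hab
    rw [pow_add, mul_apply_eq_comp, wand_inner_pow hS, ← inner_conj_symm, h,
      show (b : ℤ) - ((b + k : ℕ) : ℤ) = -(k : ℤ) by push_cast; ring, pois_neg hz, map_mul,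
      map_pow, inner_conj_symm]

/-- The shifted polynomial in an operator. -/
def wandP {A : Type*} [NormedAddCommGroup A] [NormedSpace ℂ A] (c : ℤ →₀ ℂ) (N : ℕ)
    (T : A →L[ℂ] A) (x : A) : A := ∑ n ∈ c.support, c n • (T ^ (n + N).toNat) x

theorem wand_norm {S : M →L[ℂ] M} (hS : ∀ m, ‖S m‖ = ‖m‖) {z : ℂ} (hz : ‖z‖ < 1) {e : M}
    (h : ∀ n : ℕ, inner ℂ e ((S ^ n) e) = z ^ n * inner ℂ e e) (c : ℤ →₀ ℂ) {N : ℕ}
    (hN : ∀ n ∈ c.support, 0 ≤ n + N) :
    ‖wandP c N S e‖ ^ 2 = (∫ t, pk z t * ‖ev c t‖ ^ 2 ∂AddCircle.haarAddCircle) * ‖e‖ ^ 2 := by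
  have hint : ∀ (a : ℂ) (k : ℤ), Integrable (fun t : X => a * ((pk z t : ℂ) * fourier k t))
      AddCircle.haarAddCircle := fun a k =>
    (continuous_const.mul ((Complex.continuous_ofReal.comp (pk_cont hz)).mul
      (fourier k).continuous)).integrable_of_hasCompactSupport (HasCompactSupport.of_compactSpace _)
  have h1 : inner ℂ (wandP c N S e) (wandP c N S e) =
      (∫ t, ((pk z t * ‖ev c t‖ ^ 2 : ℝ) : ℂ) ∂AddCircle.haarAddCircle) * inner ℂ e e := by
    have h2 : ∀ t : X, ((pk z t * ‖ev c t‖ ^ 2 : ℝ) : ℂ) = ∑ n ∈ c.support, ∑ m ∈ c.support,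
        (conj (c n) * c m) * ((pk z t : ℂ) * fourier (m - n) t) := by
      intro t
      push_cast
      rw [← Complex.conj_mul', ev_apply, map_sum, Finset.sum_mul_sum, Finset.mul_sum]
      refine Finset.sum_congr rfl fun n _ => ?_
      rw [Finset.mul_sum]
      refine Finset.sum_congr rfl fun m _ => ?_
      rw [sub_eq_add_neg, fourier_add, fourier_neg, map_mul]
      ring
    simp_rw [h2]
    rw [integral_finsetSum _ fun n _ => integrable_finsetSum _ fun m _ => hint _ _, wandP,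
      sum_inner, Finset.sum_mul]
    refine Finset.sum_congr rfl fun n hn => ?_
    rw [integral_finsetSum _ fun m _ => hint _ _, inner_sum, Finset.sum_mul]
    refine Finset.sum_congr rfl fun m hm => ?_
    rw [inner_smul_left, inner_smul_right, wand_mom hS hz h, integral_const_mul,
      Int.toNat_of_nonneg (hN m hm), Int.toNat_of_nonneg (hN n hn),
      show m + (N : ℤ) - (n + N) = m - n by ring]
    ring
  rw [integral_complex_ofReal, inner_self_eq_norm_sq_to_K, inner_self_eq_norm_sq_to_K] at h1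
  apply Complex.ofReal_injective
  rw [Complex.ofReal_mul, Complex.ofReal_pow, Complex.ofReal_pow]
  exact h1

omit [IsFiniteMeasure L] in
theorem wand_ae_sum {I : Type*} (s : Finset I) (f : I → K L) :
    ∀ᵐ t ∂L, (∑ i ∈ s, f i : K L) t = ∑ i ∈ s, f i t := by
  classical
  induction s using Finset.induction_on with
  | empty =>
    filter_upwards [Lp.coeFn_zero ℂ 2 L] with t h
    rw [Finset.sum_empty, Finset.sum_empty, h, Pi.zero_apply]
  | insert i s hi ih =>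
    rw [Finset.sum_insert hi]
    filter_upwards [ih, Lp.coeFn_add (f i) (∑ i ∈ s, f i)] with t h1 h2
    rw [h2, Pi.add_apply, h1, Finset.sum_insert hi]

omit [IsFiniteMeasure L] in
theorem wand_mul {U : K L →L[ℂ] K L} (hU : IsMul U (fourier 1)) (c : ℤ →₀ ℂ) {N : ℕ}
    (hN : ∀ n ∈ c.support, 0 ≤ n + N) (a : K L) :
    ∀ᵐ t ∂L, wandP c N U a t = fourier N t * (ev c t * a t) := by
  have h1 : ∀ n ∈ c.support, ∀ᵐ t ∂L,
      (c n • (U ^ (n + N).toNat) a : K L) t = fourier N t * (c n * fourier n t * a t) := by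
    intro n hn
    filter_upwards [Lp.coeFn_smul (c n) ((U ^ (n + N).toNat) a), hU.pow (n + N).toNat a]
      with t h2 h3
    have h4 : ∀ k : ℕ, (fourier 1 t : ℂ) ^ k = fourier (k : ℤ) t := by
      intro k
      induction k with
      | zero => simp
      | succ k ih => rw [pow_succ, ih, Nat.cast_succ, fourier_add]
    rw [h2, Pi.smul_apply, h3, h4, Int.toNat_of_nonneg (hN n hn), fourier_add, smul_eq_mul]
    ring
  filter_upwards [wand_ae_sum c.support fun n => c n • (U ^ (n + N).toNat) a,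
    (Filter.eventually_all_finset c.support).2 h1] with t h2 h3
  rw [wandP, h2, Finset.sum_congr rfl h3, ev_apply, Finset.sum_mul, Finset.mul_sum]

theorem wand {U : K L →L[ℂ] K L} (hU : IsMul U (fourier 1)) {S : M →L[ℂ] M}
    (hS : ∀ m, ‖S m‖ = ‖m‖) {c : M →L[ℂ] K L} (hc : ∀ m, ‖c m‖ ≤ ‖m‖)
    (hcs : ∀ m, c (S m) = U (c m)) {z : ℂ} (hz : ‖z‖ < 1) {e₀ e₁ : M} (n0 : ‖e₀‖ ≤ 1)
    (n1 : ‖e₁‖ ≤ 1) (h00 : ∀ n : ℕ, inner ℂ e₀ ((S ^ n) e₀) = z ^ n * inner ℂ e₀ e₀)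
    (h11 : ∀ n : ℕ, inner ℂ e₁ ((S ^ n) e₁) = z ^ n * inner ℂ e₁ e₁)
    (h01 : ∀ n : ℕ, inner ℂ e₀ ((S ^ n) e₁) = 0) (h10 : ∀ n : ℕ, inner ℂ e₁ ((S ^ n) e₀) = 0)
    {Z : Set X} (hZ : MeasurableSet Z) :
    ∫ t in Z, (‖c e₀ t‖ ^ 2 + ‖c e₁ t‖ ^ 2) ∂L ≤ ∫ t in Z, pk z t ∂AddCircle.haarAddCircle := by
  have hpi : Integrable (pk z) AddCircle.haarAddCircle :=
    (pk_cont hz).integrable_of_hasCompactSupport (HasCompactSupport.of_compactSpace _)
  set ω : Measure X := AddCircle.haarAddCircle.withDensity fun t => ENNReal.ofReal (pk z t)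
    with hω
  have : IsFiniteMeasure ω := isFiniteMeasure_withDensity_ofReal hpi.hasFiniteIntegral
  have hm : Measurable fun t => ENNReal.ofReal (pk z t) :=
    (pk_cont hz).measurable.ennreal_ofReal
  have hreal : ω.real Z = ∫ t in Z, pk z t ∂AddCircle.haarAddCircle := by
    rw [Measure.real, hω, withDensity_apply _ hZ, ← ofReal_integral_eq_lintegral_ofReal
      hpi.integrableOn (ae_of_all _ (pk_nonneg hz)),
      ENNReal.toReal_ofReal (integral_nonneg (pk_nonneg hz))]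
  rw [← hreal]
  refine dom ω (c e₀) (c e₁) (fun c₀ c₁ => ?_) hZ
  obtain ⟨N, hN⟩ : ∃ N : ℕ, ∀ n ∈ c₀.support ∪ c₁.support, 0 ≤ n + N := by
    refine ⟨(c₀.support ∪ c₁.support).sup Int.natAbs, fun n hn => ?_⟩
    have := Finset.le_sup (f := Int.natAbs) hn
    omega
  have hN0 : ∀ n ∈ c₀.support, 0 ≤ n + N := fun n hn => hN n (Finset.mem_union_left _ hn)
  have hN1 : ∀ n ∈ c₁.support, 0 ≤ n + N := fun n hn => hN n (Finset.mem_union_right _ hn)
  have hpow : ∀ (k : ℕ) (m : M), c ((S ^ k) m) = (U ^ k) (c m) := by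
    intro k m
    induction k with
    | zero => rfl
    | succ k ih => rw [pow_succ', pow_succ', mul_apply_eq_comp, mul_apply_eq_comp,
      hcs, ih]
  have hcP : ∀ (d : ℤ →₀ ℂ) (m : M), c (wandP d N S m) = wandP d N U (c m) := by
    intro d m
    simp only [wandP, map_sum, map_smul, hpow]
  have horth : inner ℂ (wandP c₀ N S e₀) (wandP c₁ N S e₁) = 0 := by
    simp only [wandP, sum_inner, inner_sum, inner_smul_left, inner_smul_right,
      wand_cross hS h01 h10, mul_zero, Finset.sum_const_zero]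
  have hg := norm_add_sq_eq_norm_sq_add_norm_sq_of_inner_eq_zero (𝕜 := ℂ) _ _ horth
  have h1 : ∫ t, ‖ev c₀ t * c e₀ t + ev c₁ t * c e₁ t‖ ^ 2 ∂L =
      ‖c (wandP c₀ N S e₀ + wandP c₁ N S e₁)‖ ^ 2 := by
    rw [norm_sq, map_add, hcP, hcP]
    refine integral_congr_ae ?_
    filter_upwards [Lp.coeFn_add (wandP c₀ N U (c e₀)) (wandP c₁ N U (c e₁)),
      wand_mul hU c₀ hN0 (c e₀), wand_mul hU c₁ hN1 (c e₁)] with t h2 h3 h4
    rw [h2, Pi.add_apply, h3, h4, ← mul_add, norm_mul, norm_fourier, one_mul]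
  have hi : ∀ d : ℤ →₀ ℂ, Integrable (fun t => pk z t * ‖ev d t‖ ^ 2) AddCircle.haarAddCircle :=
    fun d => ((pk_cont hz).mul ((ev d).continuous.norm.pow 2)).integrable_of_hasCompactSupport
      (HasCompactSupport.of_compactSpace _)
  have h2 : ∫ t, (‖ev c₀ t‖ ^ 2 + ‖ev c₁ t‖ ^ 2) ∂ω =
      ∫ t, pk z t * ‖ev c₀ t‖ ^ 2 ∂AddCircle.haarAddCircle +
        ∫ t, pk z t * ‖ev c₁ t‖ ^ 2 ∂AddCircle.haarAddCircle := by
    rw [hω, integral_withDensity_eq_integral_toReal_smul hm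
      (ae_of_all _ fun _ => ENNReal.ofReal_lt_top), ← integral_add (hi c₀) (hi c₁)]
    refine integral_congr_ae (ae_of_all _ fun t => ?_)
    simp only [ENNReal.toReal_ofReal (pk_nonneg hz t), smul_eq_mul]
    ring
  have hp : ∀ d : ℤ →₀ ℂ, 0 ≤ ∫ t, pk z t * ‖ev d t‖ ^ 2 ∂AddCircle.haarAddCircle :=
    fun d => integral_nonneg fun t => mul_nonneg (pk_nonneg hz t) (sq_nonneg _)
  have h3 := wand_norm hS hz h00 c₀ hN0
  have h4 := wand_norm hS hz h11 c₁ hN1
  have h5 : ‖e₀‖ ^ 2 ≤ 1 := pow_le_one₀ (norm_nonneg _) n0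
  have h6 : ‖e₁‖ ^ 2 ≤ 1 := pow_le_one₀ (norm_nonneg _) n1
  have h7 := pow_le_pow_left₀ (norm_nonneg _) (hc (wandP c₀ N S e₀ + wandP c₁ N S e₁)) 2
  rw [h1, h2]
  have h8 := mul_le_mul_of_nonneg_left h5 (hp c₀)
  have h9 := mul_le_mul_of_nonneg_left h6 (hp c₁)
  nlinarith

end Pool.Agent.P.MP_f981b0_an.CD
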